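import Pool.Agent.Lib_MP_cc9a35_rb.PrBasic
import Pool.Agent.Lib_MP_cc9a35_lc.Testers

/-!
Piece ACC: acceptance probabilities as real numbers.

Proofs. All the needed facts about `PMF.toOuterMeasure` are in `Pool.Agent.Lib_MP_cc9a35_lc.Testers`
(`outer_le_one`, `accept_add_reject`, `isTester_of_seeds`: look there for the way to pass from
`ℝ≥0∞` to real numbers and for `PMF.toOuterMeasure_uniformOfFintype_apply`).
* `isTester_of_acc`: acceptance and rejection probabilities add up to `1`.
* `acc_seeds`: `PMF.toOuterMeasure_map_apply` and `PMF.toOuterMeasure_uniformOfFintype_apply`.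
-/

namespace Pool.Agent.Lib_MP_cc9a35_rb

open Pool.Agent.Lib_MP_cc9a35_lc
open scoped ENNReal

variable {N : ℕ}

/-- The probability that the randomised algorithm `A` accepts the graph `G`. -/
noncomputable def acc (A : PMF (QueryTree N)) (G : SimpleGraph (Fin N)) : ℝ :=
  (A.toOuterMeasure {T | T.Accepts G}).toReal

theorem acc_nonneg (A : PMF (QueryTree N)) (G : SimpleGraph (Fin N)) : 0 ≤ acc A G :=
  ENNReal.toReal_nonneg

theorem isTester_of_acc {P : GraphProperty} {ε : ℝ} {A : PMF (QueryTree N)}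
    (h1 : ∀ G ∈ P.graphs N, 2 / 3 ≤ acc A G)
    (h2 : ∀ G : SimpleGraph (Fin N), IsFar P ε G → acc A G ≤ 1 / 3) : IsTester P ε A := by
  have htop : ∀ s : Set (QueryTree N), A.toOuterMeasure s ≠ ⊤ := fun s =>
    ne_top_of_le_ne_top ENNReal.one_ne_top (outer_le_one A s)
  have h23 : (2 / 3 : ℝ≥0∞) ≠ ⊤ := ENNReal.div_ne_top (by norm_num) (by norm_num)
  have key : ∀ s : Set (QueryTree N), 2 / 3 ≤ (A.toOuterMeasure s).toReal →
      2 / 3 ≤ A.toOuterMeasure s := by
    intro s hs
    rw [← ENNReal.toReal_le_toReal h23 (htop s)]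
    simpa using hs
  refine ⟨fun G hG => key _ (h1 G hG), fun G hG => key _ ?_⟩
  have h3 := accept_add_reject A G
  have h4 : (A.toOuterMeasure {T | T.Accepts G}).toReal +
      (A.toOuterMeasure {T | ¬ T.Accepts G}).toReal = 1 := by
    rw [← ENNReal.toReal_add (htop _) (htop _), h3]; simp
  have h5 : (A.toOuterMeasure {T | T.Accepts G}).toReal ≤ 1 / 3 := h2 G hG
  linarith

theorem acc_seeds {S : Type} [Fintype S] [Nonempty S] (T : S → QueryTree N)
    (G : SimpleGraph (Fin N)) :
    acc ((PMF.uniformOfFintype S).map T) G = Pr (fun s => (T s).Accepts G) := by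
  classical
  unfold acc Pr
  rw [PMF.toOuterMeasure_map_apply, PMF.toOuterMeasure_uniformOfFintype_apply]
  have hc : Fintype.card (T ⁻¹' {T | T.Accepts G}) = Nat.card {s // (T s).Accepts G} := by
    rw [Nat.card_eq_fintype_card]; rfl
  rw [hc, ENNReal.toReal_div, ENNReal.toReal_natCast, ENNReal.toReal_natCast]

theorem support_seeds {S : Type} [Fintype S] [Nonempty S] (T : S → QueryTree N)
    {T' : QueryTree N} (h : T' ∈ ((PMF.uniformOfFintype S).map T).support) : ∃ s, T' = T s := by
  rw [PMF.support_map] at h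
  obtain ⟨s, _, hs⟩ := h
  exact ⟨s, hs.symm⟩

end Pool.Agent.Lib_MP_cc9a35_rb
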