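import Pool.Agent.Lib_MP_cc9a35_rb.FindTuple

/-!
The acceptance predicate of the testers at one scale.

Seeds: `z` (sample in which the representatives of the threshold types are found), `x` (sample for
the sizes and for representatives of the labels), `c` (pairs which choose cells), `p` (test pairs).
-/

namespace Pool.Agent.Lib_MP_cc9a35_rb

open Pool.Agent.Lib_MP_cc9a35_lc

/-- The parameters of a tester at one scale. -/
structure TP (t : ℕ) (L Γ : Type) where
  /-- patterns of the labels -/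
  code : L → Fin t → Bool
  /-- cell of a pair of labels -/
  cell : Sym2 L → Γ
  /-- allowed bits -/
  Y : Set (Sym2 L → Bool)
  /-- number of vertices of each threshold type -/
  w : ℕ
  /-- bound for the number of vertices with labels -/
  m : ℕ
  /-- accuracy of the size tests -/
  η : ℝ
  /-- bound for the number of cells to be looked at -/
  cap : ℕ
  /-- whether the cells are looked at -/
  fine : Prop

/-- Seeds after the first sample: `x`, `c`, `p`. -/
abbrev Seeds' (N K J M : ℕ) : Type :=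
  (Fin K → Fin N) × ((Fin J → Fin N × Fin N) × (Fin M → Fin N × Fin N))

/-- Seeds: `z`, `x`, `c`, `p`. -/
abbrev Seeds (N T K J M : ℕ) : Type := (Fin T → Fin N) × Seeds' N K J M

variable {t : ℕ} {L Γ : Type} {N T K J M : ℕ}

/-- The size test for the type assignment `ψ`. -/
def SizeOK (ψ : Fin N → Typ t L) (w m : ℕ) (η : ℝ) (x : Fin K → Fin N) : Prop :=
  (∀ k : Fin (t + 1), k ≠ 0 →
    |(Nat.card {j // ψ (x j) = .inl k} : ℝ) / K - (w : ℝ) / N| ≤ η) ∧
  (Nat.card {j // (ψ (x j)).isRight = true} : ℝ) / K ≤ (m : ℝ) / N + η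

/-- The test of the pairs which are not open. -/
def OutOK (code : L → Fin t → Bool) (G : SimpleGraph (Fin N)) (ψ : Fin N → Typ t L)
    (p : Fin M → Fin N × Fin N) : Prop :=
  ∀ l, ¬ IsOpen (ψ (p l).1) (ψ (p l).2) →
    (G.Adj (p l).1 (p l).2 ↔ (tgraph code (fun _ => false) ψ).Adj (p l).1 (p l).2)

open Classical in
/-- A sample point with label `a`, given the types of the sample points. -/
noncomputable def rep (ψx : Fin K → Typ t L) (a : L) : Option (Fin K) :=
  if h : ∃ j, ψx j = .inr a then some h.choose else none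

/-- The pair of types is open and lies in the cell `g`. -/
def InCell (cell : Sym2 L → Γ) (g : Γ) (θ θ' : Typ t L) : Prop :=
  ∃ a b : L, θ = .inr a ∧ θ' = .inr b ∧ a ≠ b ∧ cell s(a, b) = g

/-- The adjacencies of the representatives in the cell `g` can be extended to an allowed vector. -/
def ExtOK (cell : Sym2 L → Γ) (Y : Set (Sym2 L → Bool)) (G : SimpleGraph (Fin N))
    (ψ : Fin N → Typ t L) (x : Fin K → Fin N) (g : Γ) : Prop :=
  ∃ y ∈ Y, ∀ (a b : L) (i j : Fin K), rep (fun i => ψ (x i)) a = some i →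
    rep (fun i => ψ (x i)) b = some j → a ≠ b → cell s(a, b) = g →
    (G.Adj (x i) (x j) ↔ y s(a, b) = true)

/-- The test pairs in the cell `g` are adjacent if and only if their representatives are. -/
def CellOK (cell : Sym2 L → Γ) (G : SimpleGraph (Fin N)) (ψ : Fin N → Typ t L)
    (x : Fin K → Fin N) (p : Fin M → Fin N × Fin N) (g : Γ) : Prop :=
  ∀ (l : Fin M) (a b : L) (i j : Fin K), ψ (p l).1 = .inr a → ψ (p l).2 = .inr b → a ≠ b →
    cell s(a, b) = g → rep (fun i => ψ (x i)) a = some i → rep (fun i => ψ (x i)) b = some j →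
    (G.Adj (p l).1 (p l).2 ↔ G.Adj (x i) (x j))

/-- The test of the open pairs. -/
def InOK (cell : Sym2 L → Γ) (Y : Set (Sym2 L → Bool)) (cap : ℕ) (G : SimpleGraph (Fin N))
    (ψ : Fin N → Typ t L) (x : Fin K → Fin N) (c : Fin J → Fin N × Fin N)
    (p : Fin M → Fin N × Fin N) : Prop :=
  Nat.card {l // IsOpen (ψ (c l).1) (ψ (c l).2)} ≤ cap ∧
  ∀ g : Γ, (∃ l, InCell cell g (ψ (c l).1) (ψ (c l).2)) →
    ExtOK cell Y G ψ x g ∧ CellOK cell G ψ x p g

/-- The acceptance predicate for a given type assignment `ψ`. -/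
def AcceptW (S : TP t L Γ) (G : SimpleGraph (Fin N)) (ψ : Fin N → Typ t L)
    (s : Seeds' N K J M) : Prop :=
  SizeOK ψ S.w S.m S.η s.1 ∧ OutOK S.code G ψ s.2.2 ∧
    (S.fine → InOK S.cell S.Y S.cap G ψ s.1 s.2.1 s.2.2)

/-- The acceptance predicate. -/
def Accept (S : TP t L Γ) (G : SimpleGraph (Fin N)) (s : Seeds N T K J M) : Prop :=
  ∃ j : Fin t → Fin T, findTuple t (fun a b => G.Adj (s.1 a) (s.1 b)) = some j ∧
    AcceptW S G (vtyp S.code G (fun k => s.1 (j k))) s.2

theorem rep_some {ψx : Fin K → Typ t L} {a : L} {i : Fin K} (h : rep ψx a = some i) :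
    ψx i = .inr a := by
  unfold rep at h
  split_ifs at h with h'
  rw [← Option.some_inj.1 h]
  exact h'.choose_spec

theorem rep_of_exists {ψx : Fin K → Typ t L} {a : L} (h : ∃ j, ψx j = .inr a) :
    ∃ i, rep ψx a = some i := by
  unfold rep
  rw [dif_pos h]
  exact ⟨_, rfl⟩

/-- `Y` is a product over the cells. -/
def CellProd (cell : Sym2 L → Γ) (Y : Set (Sym2 L → Bool)) : Prop :=
  ∀ f : Γ → (Sym2 L → Bool), (∀ g, f g ∈ Y) → (fun s => f (cell s) s) ∈ Y

end Pool.Agent.Lib_MP_cc9a35_rb
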