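import Pool.Agent.Lib_MP_cc9a35_rb.Struct

/-!
The types of the vertices of a member are recovered from correct representatives.
-/

namespace Pool.Agent.Lib_MP_cc9a35_rb

open Pool.Agent.Lib_MP_cc9a35_lc

variable {t : ℕ} {L : Type}

theorem hit_succ {k : Fin t} {p : Fin t → Bool} : hit k.succ p ↔ p k = true := by
  constructor
  · rintro ⟨k', h, hp⟩
    have : k' = k := by
      apply Fin.ext
      simp only [Fin.val_succ] at h
      omega
    rwa [this] at hp
  · intro h
    exact ⟨k, by simp, h⟩

theorem vtyp_eq {N : ℕ} {code : L → Fin t → Bool} (hc : CodeOK code) (y : Sym2 L → Bool)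
    (φ : Fin N → Typ t L) (w : Fin t → Fin N) (hw : ∀ k : Fin t, φ (w k) = .inl k.succ)
    (v : Fin N) : vtyp code (tgraph code y φ) w v = φ v := by
  have h : vpat (tgraph code y φ) w v = pat code (φ v) := by
    funext k
    unfold vpat
    rw [Bool.eq_iff_iff]
    simp only [decide_eq_true_eq, tgraph_adj]
    by_cases hv : v = w k
    · subst hv
      rw [hw k]
      simp only [ne_eq, not_true_eq_false, false_and, true_and, false_or]
      change _ ↔ thr t k.succ k = true
      unfold thr
      rw [decide_eq_true_iff, Fin.val_succ]
      constructor <;> intro h <;> omega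
    · simp only [hv, ne_eq, not_false_eq_true, true_and, false_and, or_false]
      rw [hw k]
      rcases φ v with j | a
      · change t < (j : ℕ) + ((k.succ : Fin (t + 1)) : ℕ) ↔ thr t j k = true
        unfold thr
        rw [decide_eq_true_iff, Fin.val_succ]
      · change hit k.succ (code a) ↔ code a k = true
        exact hit_succ
  unfold vtyp
  rw [h]
  exact decode_pat hc _

end Pool.Agent.Lib_MP_cc9a35_rb
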