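import Pool.Agent.Lib_MP_cc9a35_rb.Accept
import Pool.Agent.Lib_MP_cc9a35_rb.VTyp

/-!
Piece ACG: the acceptance predicate depends only on few adjacencies.

Proof of `acceptW_congr`. The hypotheses say that the two situations agree on everything that occurs
in `SizeOK` (the values `ψ (x j)`), `OutOK` (values of `ψ` at the pairs `p l`, adjacency of `p l`), and
`InOK` (values of `ψ` at `c l` and `p l`, the function `rep (fun i => ψ (x i))`, adjacency of `p l`, and the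
adjacency of pairs `(x i, x j)` of representatives for labels `a ≠ b` with `cell s(a, b) = g`, where `g` is
the cell of some `c l`). If `fine` holds and more than `cap` pairs `c l` are open both sides are false,
so the agreement of the representatives is only needed otherwise. Rewrite with the equality of the
functions `fun j => ψ (x j)`, etc.

Proof of `vpat_congr`: unfold.
-/

namespace Pool.Agent.Lib_MP_cc9a35_rb

open Pool.Agent.Lib_MP_cc9a35_lc

variable {t : ℕ} {L Γ : Type} {N T K J M : ℕ}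

theorem vpat_congr {G H : SimpleGraph (Fin N)} (w : Fin t → Fin N) (v : Fin N)
    (h : ∀ k, (G.Adj v (w k) ↔ H.Adj v (w k))) : vpat G w v = vpat H w v := by
  classical
  unfold vpat
  funext k
  rw [decide_eq_decide]
  exact or_congr (h k) Iff.rfl

theorem vtyp_congr (code : L → Fin t → Bool) {G H : SimpleGraph (Fin N)} (w : Fin t → Fin N)
    (v : Fin N) (h : ∀ k, (G.Adj v (w k) ↔ H.Adj v (w k))) :
    vtyp code G w v = vtyp code H w v := by
  unfold vtyp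
  rw [vpat_congr w v h]

theorem acceptW_congr_aux (S : TP t L Γ) {G H : SimpleGraph (Fin N)} {ψ ψ' : Fin N → Typ t L}
    (s : Seeds' N K J M)
    (hx : ∀ j, ψ (s.1 j) = ψ' (s.1 j))
    (hc : ∀ l, ψ (s.2.1 l).1 = ψ' (s.2.1 l).1 ∧ ψ (s.2.1 l).2 = ψ' (s.2.1 l).2)
    (hp : ∀ l, ψ (s.2.2 l).1 = ψ' (s.2.2 l).1 ∧ ψ (s.2.2 l).2 = ψ' (s.2.2 l).2)
    (hGp1 : ∀ l, (G.Adj (s.2.2 l).1 (s.2.2 l).2 → H.Adj (s.2.2 l).1 (s.2.2 l).2))
    (hGp2 : ∀ l, (H.Adj (s.2.2 l).1 (s.2.2 l).2 → G.Adj (s.2.2 l).1 (s.2.2 l).2))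
    (hGx : S.fine → Nat.card {l // IsOpen (ψ (s.2.1 l).1) (ψ (s.2.1 l).2)} ≤ S.cap →
      ∀ (g : Γ), (∃ l, InCell S.cell g (ψ (s.2.1 l).1) (ψ (s.2.1 l).2)) →
      ∀ (a b : L) (i j : Fin K), rep (fun i => ψ (s.1 i)) a = some i →
        rep (fun i => ψ (s.1 i)) b = some j → a ≠ b → S.cell s(a, b) = g →
        (G.Adj (s.1 i) (s.1 j) ↔ H.Adj (s.1 i) (s.1 j))) :
    AcceptW S G ψ s → AcceptW S H ψ' s := by
  have hxx : (fun i => ψ' (s.1 i)) = (fun i => ψ (s.1 i)) := funext (fun i => (hx i).symm)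
  have hGp : ∀ l, (G.Adj (s.2.2 l).1 (s.2.2 l).2 ↔ H.Adj (s.2.2 l).1 (s.2.2 l).2) :=
    fun l => ⟨hGp1 l, hGp2 l⟩
  rintro ⟨hs, ho, hi⟩
  refine ⟨?_, ?_, ?_⟩
  · unfold SizeOK at hs ⊢
    simp only [← hx]
    exact hs
  · intro l hl
    rw [← (hp l).1, ← (hp l).2] at hl
    have := ho l hl
    rw [← hGp l, this, tgraph_adj, tgraph_adj, (hp l).1, (hp l).2]
  · intro hf
    obtain ⟨hcard, hcell⟩ := hi hf
    refine ⟨?_, ?_⟩
    · simp only [← (hc _).1, ← (hc _).2]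
      exact hcard
    · intro g hg
      simp only [← (hc _).1, ← (hc _).2] at hg
      obtain ⟨⟨y, hy, hext⟩, hcok⟩ := hcell g hg
      refine ⟨⟨y, hy, ?_⟩, ?_⟩
      · intro a b i j ha hb hab hg'
        rw [hxx] at ha hb
        rw [← hGx hf hcard g hg a b i j ha hb hab hg']
        exact hext a b i j ha hb hab hg'
      · intro l a b i j ha hb hab hg' hra hrb
        rw [hxx] at hra hrb
        rw [← (hp l).1] at ha
        rw [← (hp l).2] at hb
        rw [← hGx hf hcard g hg a b i j hra hrb hab hg', ← hGp l]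
        exact hcok l a b i j ha hb hab hg' hra hrb

theorem acceptW_congr (S : TP t L Γ) {G H : SimpleGraph (Fin N)} {ψ ψ' : Fin N → Typ t L}
    (s : Seeds' N K J M)
    (hx : ∀ j, ψ (s.1 j) = ψ' (s.1 j))
    (hc : ∀ l, ψ (s.2.1 l).1 = ψ' (s.2.1 l).1 ∧ ψ (s.2.1 l).2 = ψ' (s.2.1 l).2)
    (hp : ∀ l, ψ (s.2.2 l).1 = ψ' (s.2.2 l).1 ∧ ψ (s.2.2 l).2 = ψ' (s.2.2 l).2)
    (hGp : ∀ l, (G.Adj (s.2.2 l).1 (s.2.2 l).2 ↔ H.Adj (s.2.2 l).1 (s.2.2 l).2))
    (hGx : S.fine → Nat.card {l // IsOpen (ψ (s.2.1 l).1) (ψ (s.2.1 l).2)} ≤ S.cap →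
      ∀ (g : Γ), (∃ l, InCell S.cell g (ψ (s.2.1 l).1) (ψ (s.2.1 l).2)) →
      ∀ (a b : L) (i j : Fin K), rep (fun i => ψ (s.1 i)) a = some i →
        rep (fun i => ψ (s.1 i)) b = some j → a ≠ b → S.cell s(a, b) = g →
        (G.Adj (s.1 i) (s.1 j) ↔ H.Adj (s.1 i) (s.1 j))) :
    AcceptW S G ψ s ↔ AcceptW S H ψ' s := by
  refine ⟨acceptW_congr_aux S s hx hc hp (fun l => (hGp l).1) (fun l => (hGp l).2) hGx, ?_⟩
  refine acceptW_congr_aux S s (fun j => (hx j).symm) (fun l => ⟨(hc l).1.symm, (hc l).2.symm⟩)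
    (fun l => ⟨(hp l).1.symm, (hp l).2.symm⟩) (fun l => (hGp l).2) (fun l => (hGp l).1) ?_
  have hxx : (fun i => ψ' (s.1 i)) = (fun i => ψ (s.1 i)) := funext (fun i => (hx i).symm)
  intro hf hcard g hg a b i j ha hb hab hcell
  rw [hxx] at ha hb
  simp only [← (hc _).1, ← (hc _).2] at hcard hg
  exact (hGx hf hcard g hg a b i j ha hb hab hcell).symm

end Pool.Agent.Lib_MP_cc9a35_rb
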