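import Pool.Agent.Lib_MP_cc9a35_rb.Scales

/-!
Piece ADM: admissible patterns and families exist.

Proof. Patterns: with `b = bb a i`, `t = b + 2`, there are `2 ^ (b + 2)` functions `Fin t → Bool`, at most
`b + 3` of them are threshold patterns, and `2 ^ (b + 2) - (b + 3) ≥ 2 ^ b = card (Labs a i)`, so there
is an embedding of `Labs a i` into `{p // ∀ j, p ≠ thr t j}` (`Function.Embedding.nonempty_of_card_le`).
Families: for `i ≥ 1` use `exists_famG` with `m = 2 * bb a i`, `d = dd a i`:
`card (Sym2 (Labs a i)) = n * (n + 1) / 2 ≤ n ^ 2 = 2 ^ (2 b)` (`Sym2.card`), and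
`d ≤ 2 ^ (48 i + 2 h) / 32 ≤ n ^ 2 / 32 ≤ card (Sym2 _)`. The exponent is
`2 * b * d * card (ZMod (2 ^ (48 i))) = EE a i`. For `i = 0`: `bb a 0 = 0`, so `dd a 0 = 0` (division
by zero) and `EE a 0 = 0`; take `Y = {fun _ => false}`, `Ω = Unit`: the coordinate sets with at most `0`
elements in each cell are empty. (The same works whenever `bb a i = 0`.)
-/

namespace Pool.Agent.Lib_MP_cc9a35_rb

open Pool.Agent.Lib_MP_cc9a35_lc

theorem admEx_pow (b : ℕ) : b + 3 ≤ 3 * 2 ^ b := by
  induction b with
  | zero => norm_num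
  | succ b ih => rw [pow_succ]; omega

theorem exists_code (b : ℕ) {L : Type} [Fintype L] (hL : Fintype.card L = 2 ^ b) :
    ∃ code : L → Fin (b + 2) → Bool, CodeOK code := by
  classical
  have h1 : (Finset.univ.image (thr (b + 2))).card ≤ b + 3 :=
    Finset.card_image_le.trans (by simp)
  have h2 : Fintype.card {p : Fin (b + 2) → Bool // ∀ j, p ≠ thr (b + 2) j} =
      ((Finset.univ.image (thr (b + 2)))ᶜ).card := by
    rw [Fintype.card_subtype]
    congr 1
    ext p
    simp only [Finset.mem_filter, Finset.mem_univ, true_and, Finset.mem_compl, Finset.mem_image,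
      not_exists]
    exact ⟨fun h j hj => h j hj.symm, fun h j hj => h j hj.symm⟩
  have h3 : Fintype.card L ≤ Fintype.card {p : Fin (b + 2) → Bool // ∀ j, p ≠ thr (b + 2) j} := by
    rw [h2, Finset.card_compl, hL]
    have h4 : Fintype.card (Fin (b + 2) → Bool) = 4 * 2 ^ b := by
      rw [Fintype.card_fun, Fintype.card_bool, Fintype.card_fin, pow_add]
      ring
    rw [h4]
    have := admEx_pow b
    omega
  obtain ⟨e⟩ := Function.Embedding.nonempty_of_card_le h3
  exact ⟨fun a => (e a).1, ⟨fun a c h => e.injective (Subtype.ext h), fun a j => (e a).2 j⟩⟩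

theorem admEx_choose (n : ℕ) : (n + 1).choose 2 = n * (n + 1) / 2 := by
  rw [Nat.choose_two_right, mul_comm]
  simp

theorem admEx_dd_zero {a : ℝ} {i : ℕ} (h : bb a i = 0) : dd a i = 0 := by
  unfold dd
  rw [h]
  simp

theorem admEx_fam (a : ℝ) (i : ℕ) : ∃ Y : Set (Sym2 (Labs a i) → Bool),
    FamG (cellL (Tp := Tps i) (Rs := Rss a i)) (dd a i) (EE a i) Y ∧
      CellProd (cellL (Tp := Tps i) (Rs := Rss a i)) Y := by
  classical
  rcases Nat.eq_zero_or_pos (bb a i) with hb | hb
  · refine ⟨{fun _ => false}, ⟨Unit, inferInstance, inferInstance, fun _ _ => false, ?_, ?_, ?_⟩, ?_⟩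
    · ext y
      simp
    · rw [Fintype.card_unit]
      exact Nat.one_le_two_pow
    · intro I hI t
      have hI0 : I = ∅ := by
        rw [Finset.eq_empty_iff_forall_notMem]
        intro s hs
        have h1 := hI (cellL s)
        rw [admEx_dd_zero hb] at h1
        have h2 := Finset.card_eq_zero.1 (Nat.le_zero.1 h1)
        have h3 : s ∈ I.filter fun i => cellL i = cellL s := Finset.mem_filter.2 ⟨hs, rfl⟩
        rw [h2] at h3
        exact absurd h3 (Finset.notMem_empty _)
      subst hI0
      simp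
    · intro f hf
      simp only [Set.mem_singleton_iff] at hf ⊢
      funext s
      rw [hf]
  · have hn : Fintype.card (Labs a i) = 2 ^ bb a i := card_labs a i
    have hsym : Fintype.card (Sym2 (Labs a i)) = 2 ^ bb a i * (2 ^ bb a i + 1) / 2 := by
      rw [Sym2.card, hn, admEx_choose]
    have hn1 : 1 ≤ 2 ^ bb a i := Nat.one_le_two_pow
    have hc1 : Fintype.card (Sym2 (Labs a i)) ≤ 2 ^ (2 * bb a i) := by
      rw [hsym, two_mul, pow_add]
      refine Nat.div_le_of_le_mul ?_
      nlinarith
    have hc2 : dd a i ≤ Fintype.card (Sym2 (Labs a i)) := by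
      rw [hsym]
      have e1 : 2 ^ (48 * i + 2 * hh a i) ≤ 2 ^ bb a i * 2 ^ bb a i := by
        rw [← pow_add]
        refine Nat.pow_le_pow_right (by norm_num) ?_
        unfold bb
        omega
      calc dd a i ≤ 2 ^ (48 * i + 2 * hh a i) / 2 := by
            unfold dd
            exact Nat.div_le_div_left (by omega) (by norm_num)
        _ ≤ 2 ^ bb a i * (2 ^ bb a i + 1) / 2 := by
            refine Nat.div_le_div_right (e1.trans ?_)
            nlinarith
    obtain ⟨Y, h1, h2⟩ := exists_famG (cellL (Tp := Tps i) (Rs := Rss a i)) (m := 2 * bb a i)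
      (d := dd a i) (by omega) hc1 hc2
    refine ⟨Y, ?_, h2⟩
    have h3 : 2 * bb a i * dd a i * Fintype.card (Tps i) = EE a i := by
      unfold EE
      rw [ZMod.card]
    rwa [h3] at h1

theorem exists_adm (a : ℝ) : ∃ (code : ∀ i, Labs a i → Fin (tt a i) → Bool)
    (Y : ∀ i, Set (Sym2 (Labs a i) → Bool)), Adm a code Y := by
  have h1 : ∀ i, ∃ code : Labs a i → Fin (tt a i) → Bool, CodeOK code := fun i =>
    exists_code (bb a i) (card_labs a i)
  choose code hcode using h1
  choose Y hY using admEx_fam a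
  exact ⟨code, Y, ⟨hcode, fun i => (hY i).1, fun i => (hY i).2⟩⟩

end Pool.Agent.Lib_MP_cc9a35_rb
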