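import Pool.Agent.Lib_MP_cc9a35_lc.Trees

/-!
Piece DEC: adaptive algorithms in rounds.

Proof of `dec_of_list`: by induction on `L`, for all sets `C` of graphs, one shows: if for every
`G₀ ∈ C` there is a tree `T` of depth at most `k` with `T.Accepts G ↔ A G` for all `G ∈ C` which agree with
`G₀` on `L`, then there is a tree of depth at most `L.length + k` with `T.Accepts G ↔ A G` for all
`G ∈ C`. For `L = []` take the tree of any `G₀ ∈ C` (if `C` is empty take `answer true`). For `e :: L` apply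
the induction hypothesis to `C ∩ {G | G.Adj e.1 e.2}` and `C ∩ {G | ¬ G.Adj e.1 e.2}` and combine the
trees by `query e.1 e.2`. This is the same argument as `exists_adaptive_aux` in
`Pool.Agent.Lib_MP_cc9a35_lc.Trees`.
-/

namespace Pool.Agent.Lib_MP_cc9a35_rb

open Pool.Agent.Lib_MP_cc9a35_lc

variable {N : ℕ}

private theorem decList_aux (k : ℕ) (A : SimpleGraph (Fin N) → Prop) (L : List (Fin N × Fin N)) :
    ∀ C : Set (SimpleGraph (Fin N)),
      (∀ G₀ ∈ C, ∃ T : QueryTree N, T.depth ≤ k ∧ ∀ G ∈ C, AgreeOn L G G₀ → (T.Accepts G ↔ A G)) →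
      ∃ T : QueryTree N, T.depth ≤ L.length + k ∧ ∀ G ∈ C, (T.Accepts G ↔ A G) := by
  induction L with
  | nil =>
    intro C h
    rcases C.eq_empty_or_nonempty with hC | ⟨G0, hG0⟩
    · refine ⟨.answer true, Nat.zero_le _, ?_⟩
      intro G hG
      rw [hC] at hG
      exact absurd hG (Set.notMem_empty G)
    · obtain ⟨T, hT, hTA⟩ := h G0 hG0
      refine ⟨T, ?_, fun G hG => hTA G hG agreeOn_nil⟩
      rw [List.length_nil, zero_add]
      exact hT
  | cons e L ih =>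
    intro C h
    obtain ⟨T1, hd1, hA1⟩ := ih (C ∩ {G | G.Adj e.1 e.2}) (by
      intro G₀ hG₀
      obtain ⟨T, hT, hTA⟩ := h G₀ hG₀.1
      refine ⟨T, hT, fun G hG hGL => hTA G hG.1 ?_⟩
      rw [agreeOn_cons]
      exact ⟨⟨fun _ => hG₀.2, fun _ => hG.2⟩, hGL⟩)
    obtain ⟨T2, hd2, hA2⟩ := ih (C ∩ {G | ¬ G.Adj e.1 e.2}) (by
      intro G₀ hG₀
      obtain ⟨T, hT, hTA⟩ := h G₀ hG₀.1
      refine ⟨T, hT, fun G hG hGL => hTA G hG.1 ?_⟩
      rw [agreeOn_cons]
      exact ⟨⟨fun h' => absurd h' hG.2, fun h' => absurd h' hG₀.2⟩, hGL⟩)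
    refine ⟨.query e.1 e.2 T1 T2, ?_, ?_⟩
    · simp only [QueryTree.depth, List.length_cons]
      omega
    intro G hG
    simp only [QueryTree.Accepts]
    by_cases hadj : G.Adj e.1 e.2
    · simp only [hadj, true_and, not_true_eq_false, false_and, or_false]
      exact hA1 G ⟨hG, hadj⟩
    · simp only [hadj, false_and, not_false_eq_true, true_and, false_or]
      exact hA2 G ⟨hG, hadj⟩

theorem dec_of_list (L : List (Fin N × Fin N)) (k : ℕ) (A : SimpleGraph (Fin N) → Prop)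
    (h : ∀ G₀ : SimpleGraph (Fin N), ∃ T : QueryTree N, T.depth ≤ k ∧
      ∀ G, AgreeOn L G G₀ → (T.Accepts G ↔ A G)) :
    ∃ T : QueryTree N, T.depth ≤ L.length + k ∧ ∀ G, (T.Accepts G ↔ A G) := by
  obtain ⟨T, hd, hTA⟩ := decList_aux k A L Set.univ (fun G₀ _ => by
    obtain ⟨T, hT, hTA⟩ := h G₀
    exact ⟨T, hT, fun G _ => hTA G⟩)
  exact ⟨T, hd, fun G => hTA G trivial⟩

end Pool.Agent.Lib_MP_cc9a35_rb
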