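import Pool.Agent.Lib_MP_cc9a35_rb.AcceptCongr
import Pool.Agent.Lib_MP_cc9a35_rb.DecList

/-!
Piece ALGA: the adaptive algorithm (three rounds).

Proof. Use `dec_of_list` with the list `L₁` of all pairs `(z a, z b)` (length `T * T`). Fix the graph
`G₀`. If `findTuple` of the relation of `G₀` is `none`, the tree `answer false` works for all `G` which agree
with `G₀` on `L₁`. Otherwise it is `some j` for all of these; let `w k = z (j k)`. It remains to find a
tree of depth at most `(K + 2 * J + 2 * M) * t + M + cap * B` for the predicate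
`A' G = AcceptW S G (vtyp S.code G w) s'`. Use `dec_of_list` again with the list `L₂` of all `(v, w k)` for
the vertices `v` among the `x j`, `(c l).1`, `(c l).2`, `(p l).1`, `(p l).2`, and of all pairs `p l`. Fix `G₁`.
For the `G` which agree with `G₁` on `L₂` the types of all these vertices are those of
`ψ = vtyp S.code G₁ w` (`vtyp_congr`), and `acceptW_congr` (applied to `ψ` and `vtyp S.code G w`, with the
same graph) gives `A' G ↔ AcceptW S G ψ s'`. Now the last round is non-adaptive
(`exists_nonadaptive`): if `fine` fails or more than `cap` pairs `c l` are open, take the empty list;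
otherwise the list `L₃` of all pairs `(x i, x j)` with `rep a = some i`, `rep b = some j`, `a ≠ b`, where
`cell s(a, b)` is the cell of one of the open pairs `c l`; it has at most `cap * B` elements, since at most
`cap` cells `g` occur and each has at most `B` pairs `(a, b)`. The predicate for the last round must
depend on the pairs of `L₃` only: take
`A'' G = AcceptW S (G₁ outside L₃, G on L₃) ψ s'`, or define it by replacing the adjacency of the pairs
`p l` by that of `G₁` (write it as: there is `H` which agrees with `G` on `L₃` and with `G₁` on `L₂` such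
that `AcceptW S H ψ s'`; by `acceptW_congr` for graphs agreeing on `L₂` and `L₃` this is
equivalent to `AcceptW S G ψ s'` if `G` agrees with `G₁` on `L₂`).
-/

namespace Pool.Agent.Lib_MP_cc9a35_rb

open Pool.Agent.Lib_MP_cc9a35_lc

variable {t : ℕ} {L Γ : Type} {N T K J M : ℕ}

open Classical in
/-- Ordered pairs of labels in the cells of the pairs `c l`, as a function of the types. -/
noncomputable def cellPairs [Fintype L] (cell : Sym2 L → Γ) (ψ1 ψ2 : Fin J → Typ t L) :
    Finset (L × L) :=
  Finset.univ.filter fun ab => ab.1 ≠ ab.2 ∧ ∃ l, InCell cell (cell s(ab.1, ab.2)) (ψ1 l) (ψ2 l)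

/-- the queries of the last round, as a function of the types -/
noncomputable def lastList [Fintype L] (cell : Sym2 L → Γ) (x : Fin K → Fin N)
    (ψx : Fin K → Typ t L) (ψ1 ψ2 : Fin J → Typ t L) : List (Fin N × Fin N) :=
  (cellPairs cell ψ1 ψ2).toList.filterMap fun ab =>
    match rep ψx ab.1, rep ψx ab.2 with
    | some i, some j => some (x i, x j)
    | _, _ => none

theorem card_cellPairs [Fintype L] (cell : Sym2 L → Γ) (B : ℕ)
    (hB : ∀ g : Γ, Nat.card {ab : L × L // cell s(ab.1, ab.2) = g} ≤ B)
    (ψ1 ψ2 : Fin J → Typ t L) :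
    (cellPairs cell ψ1 ψ2).card ≤ Nat.card {l // IsOpen (ψ1 l) (ψ2 l)} * B := by
  classical
  have h1 : ∀ l : Fin J, ∃ F : Finset (L × L), F.card ≤ B ∧
      ∀ ab : L × L, InCell cell (cell s(ab.1, ab.2)) (ψ1 l) (ψ2 l) → ab ∈ F := by
    intro l
    by_cases hl : IsOpen (ψ1 l) (ψ2 l)
    · obtain ⟨a, b, ha, hb, hab⟩ := hl
      refine ⟨Finset.univ.filter fun ab => cell s(ab.1, ab.2) = cell s(a, b), ?_, ?_⟩
      · have := hB (cell s(a, b))
        rwa [Nat.card_eq_fintype_card, Fintype.card_subtype] at this
      · rintro ab ⟨a', b', ha', hb', -, hc⟩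
        rw [ha] at ha'
        rw [hb] at hb'
        obtain rfl := Sum.inr_injective ha'
        obtain rfl := Sum.inr_injective hb'
        exact Finset.mem_filter.2 ⟨Finset.mem_univ _, hc.symm⟩
    · refine ⟨∅, by simp, ?_⟩
      rintro ab ⟨a', b', ha', hb', hne, -⟩
      exact absurd ⟨a', b', ha', hb', hne⟩ hl
  choose F hF1 hF2 using h1
  have h2 : cellPairs cell ψ1 ψ2 ⊆
      (Finset.univ.filter fun l => IsOpen (ψ1 l) (ψ2 l)).biUnion F := by
    intro ab hab
    obtain ⟨-, -, l, hl⟩ := Finset.mem_filter.1 hab
    refine Finset.mem_biUnion.2 ⟨l, Finset.mem_filter.2 ⟨Finset.mem_univ _, ?_⟩, hF2 l ab hl⟩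
    obtain ⟨a', b', ha', hb', hne, -⟩ := hl
    exact ⟨a', b', ha', hb', hne⟩
  rw [Nat.card_eq_fintype_card, Fintype.card_subtype]
  exact (Finset.card_le_card h2).trans (Finset.card_biUnion_le_card_mul _ _ _ fun l _ => hF1 l)

theorem length_lastList [Fintype L] (cell : Sym2 L → Γ) (B : ℕ)
    (hB : ∀ g : Γ, Nat.card {ab : L × L // cell s(ab.1, ab.2) = g} ≤ B)
    (x : Fin K → Fin N) (ψx : Fin K → Typ t L) (ψ1 ψ2 : Fin J → Typ t L) :
    (lastList cell x ψx ψ1 ψ2).length ≤ Nat.card {l // IsOpen (ψ1 l) (ψ2 l)} * B := by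
  refine le_trans (List.length_filterMap_le _ _) ?_
  rw [Finset.length_toList]
  exact card_cellPairs cell B hB ψ1 ψ2

theorem mem_lastList [Fintype L] (cell : Sym2 L → Γ)
    (x : Fin K → Fin N) (ψx : Fin K → Typ t L) (ψ1 ψ2 : Fin J → Typ t L) {a b : L} {i j : Fin K}
    (hi : rep ψx a = some i) (hj : rep ψx b = some j) (hab : a ≠ b)
    (hl : ∃ l, InCell cell (cell s(a, b)) (ψ1 l) (ψ2 l)) :
    (x i, x j) ∈ lastList cell x ψx ψ1 ψ2 := by
  classical
  unfold lastList
  rw [List.mem_filterMap]
  refine ⟨(a, b), ?_, ?_⟩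
  · rw [Finset.mem_toList]
    exact Finset.mem_filter.2 ⟨Finset.mem_univ _, hab, hl⟩
  · simp only [hi, hj]

theorem adaptive_alg [Fintype L] (S : TP t L Γ) (B : ℕ)
    (hB : ∀ g : Γ, Nat.card {ab : L × L // S.cell s(ab.1, ab.2) = g} ≤ B)
    (s : Seeds N T K J M) :
    ∃ Tr : QueryTree N,
      Tr.depth ≤ T * T + ((K + 2 * J + 2 * M) * t + M + S.cap * B) ∧
      ∀ G, (Tr.Accepts G ↔ Accept S G s) := by
  classical
  obtain ⟨z, x, c, p⟩ := s
  set L1 : List (Fin N × Fin N) := (List.ofFn z) ×ˢ (List.ofFn z) with hL1
  have hlen1 : L1.length = T * T := by rw [hL1, List.length_product]; simp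
  obtain ⟨Tr, hTr, hA⟩ := dec_of_list L1 ((K + 2 * J + 2 * M) * t + M + S.cap * B)
    (fun G => Accept S G (z, x, c, p)) (by
    intro G₀
    -- the relation of the sample
    have hrel : ∀ G, AgreeOn L1 G G₀ → (fun a b => G.Adj (z a) (z b)) =
        (fun a b => G₀.Adj (z a) (z b)) := by
      intro G hG
      funext a b
      refine propext (hG (z a, z b) ?_)
      rw [hL1]
      exact List.mem_product.2 ⟨(List.mem_ofFn' _ _).2 ⟨a, rfl⟩, (List.mem_ofFn' _ _).2 ⟨b, rfl⟩⟩
    rcases hj : findTuple t (fun a b => G₀.Adj (z a) (z b)) with _ | j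
    · refine ⟨.answer false, by simp [QueryTree.depth], ?_⟩
      intro G hG
      simp only [QueryTree.Accepts, Accept, hrel G hG, hj]
      simp
    · set w : Fin t → Fin N := fun k => z (j k) with hw
      have hacc : ∀ G, AgreeOn L1 G G₀ → (Accept S G (z, x, c, p) ↔
          AcceptW S G (vtyp S.code G w) (x, c, p)) := by
        intro G hG
        simp only [Accept, hrel G hG, hj]
        constructor
        · rintro ⟨j', hj', h⟩
          obtain rfl := Option.some_inj.1 hj'
          exact h
        · intro h
          exact ⟨j, rfl, h⟩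
      set vs : List (Fin N) := List.ofFn x ++ (List.ofFn (fun l => (c l).1) ++
        (List.ofFn (fun l => (c l).2) ++ (List.ofFn (fun l => (p l).1) ++
          List.ofFn (fun l => (p l).2)))) with hvs
      set L2 : List (Fin N × Fin N) := (vs ×ˢ List.ofFn w) ++ List.ofFn p with hL2
      have hlen2 : L2.length = (K + 2 * J + 2 * M) * t + M := by
        rw [hL2, List.length_append, List.length_product, hvs]
        simp only [List.length_append, List.length_ofFn]
        ring
      have htyp : ∀ G H, AgreeOn L2 G H → ∀ v ∈ vs, vtyp S.code G w v = vtyp S.code H w v := by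
        intro G H hGH v hv
        refine vtyp_congr S.code w v fun k => hGH (v, w k) ?_
        rw [hL2]
        exact List.mem_append_left _ (List.mem_product.2 ⟨hv, (List.mem_ofFn' _ _).2 ⟨k, rfl⟩⟩)
      have hx : ∀ i, x i ∈ vs := fun i => by
        rw [hvs]
        exact List.mem_append_left _ ((List.mem_ofFn' _ _).2 ⟨i, rfl⟩)
      have hc1 : ∀ l, (c l).1 ∈ vs := fun l => by
        rw [hvs]
        exact List.mem_append_right _ (List.mem_append_left _ ((List.mem_ofFn' _ _).2 ⟨l, rfl⟩))
      have hc2 : ∀ l, (c l).2 ∈ vs := fun l => by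
        rw [hvs]
        exact List.mem_append_right _ (List.mem_append_right _
          (List.mem_append_left _ ((List.mem_ofFn' _ _).2 ⟨l, rfl⟩)))
      have hp1 : ∀ l, (p l).1 ∈ vs := fun l => by
        rw [hvs]
        exact List.mem_append_right _ (List.mem_append_right _
          (List.mem_append_right _ (List.mem_append_left _ ((List.mem_ofFn' _ _).2 ⟨l, rfl⟩))))
      have hp2 : ∀ l, (p l).2 ∈ vs := fun l => by
        rw [hvs]
        exact List.mem_append_right _ (List.mem_append_right _
          (List.mem_append_right _ (List.mem_append_right _ ((List.mem_ofFn' _ _).2 ⟨l, rfl⟩))))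
      set L3 : SimpleGraph (Fin N) → List (Fin N × Fin N) := fun G =>
        if Nat.card {l // IsOpen (vtyp S.code G w (c l).1) (vtyp S.code G w (c l).2)} ≤ S.cap
        then lastList S.cell x (fun i => vtyp S.code G w (x i))
          (fun l => vtyp S.code G w (c l).1) (fun l => vtyp S.code G w (c l).2)
        else [] with hL3
      obtain ⟨Tr, hTr, hA⟩ := exists_adaptive_aux L2 {G | AgreeOn L1 G G₀}
        (fun G => Accept S G (z, x, c, p)) L3 (S.cap * B) (by
          intro G _
          simp only [hL3]
          split_ifs with h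
          · exact (length_lastList S.cell B hB x _ _ _).trans (Nat.mul_le_mul_right _ h)
          · simp)
        (by
          intro G _ H _ hGH
          have e1 : (fun i => vtyp S.code G w (x i)) = (fun i => vtyp S.code H w (x i)) :=
            funext fun i => htyp G H hGH _ (hx i)
          have e2 : (fun l => vtyp S.code G w (c l).1) = (fun l => vtyp S.code H w (c l).1) :=
            funext fun l => htyp G H hGH _ (hc1 l)
          have e3 : (fun l => vtyp S.code G w (c l).2) = (fun l => vtyp S.code H w (c l).2) :=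
            funext fun l => htyp G H hGH _ (hc2 l)
          have e4 : Nat.card {l // IsOpen (vtyp S.code G w (c l).1) (vtyp S.code G w (c l).2)} =
              Nat.card {l // IsOpen (vtyp S.code H w (c l).1) (vtyp S.code H w (c l).2)} :=
            Nat.card_congr (Equiv.subtypeEquivRight fun l => by
              rw [htyp G H hGH _ (hc1 l), htyp G H hGH _ (hc2 l)])
          simp only [hL3]
          rw [e1, e2, e3, e4])
        (by
          intro G hG H hH hGH hGH3
          rw [hacc G hG, hacc H hH]
          refine acceptW_congr S (x, c, p) (fun i => htyp G H hGH _ (hx i))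
            (fun l => ⟨htyp G H hGH _ (hc1 l), htyp G H hGH _ (hc2 l)⟩)
            (fun l => ⟨htyp G H hGH _ (hp1 l), htyp G H hGH _ (hp2 l)⟩)
            (fun l => hGH (p l) ?_) ?_
          · rw [hL2]
            exact List.mem_append_right _ ((List.mem_ofFn' _ _).2 ⟨l, rfl⟩)
          · intro _ hcap g hg a b i j' hi hj' hab hcell
            refine hGH3 (x i, x j') ?_
            simp only [hL3]
            rw [if_pos hcap]
            exact mem_lastList S.cell x _ _ _ hi hj' hab (by rw [hcell]; exact hg))
      refine ⟨Tr, ?_, ?_⟩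
      · rw [hlen2] at hTr
        exact hTr
      · intro G hG
        exact hA G hG)
  refine ⟨Tr, ?_, hA⟩
  rw [hlen1] at hTr
  exact hTr

end Pool.Agent.Lib_MP_cc9a35_rb
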