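import Pool.Agent.Lib_MP_cc9a35_rb.AcceptCongr

/-!
Piece ALGN: the non-adaptive algorithm.

Proof. Let `V` be the list of all the vertices occurring in the seeds: `List.ofFn s.1`,
`List.ofFn s.2.1`, the first and the second components of `s.2.2.1` and of `s.2.2.2`; its length is
`n = T + K + 2 * J + 2 * M`. Take the list of all pairs `(V ×ˢ V)` (`List.product`), of length `n ^ 2`, and
`exists_nonadaptive` from `Pool.Agent.Lib_MP_cc9a35_lc.Trees`. If two graphs agree on all pairs of
vertices of `V`, then the relations `fun a b => G.Adj (s.1 a) (s.1 b)` agree, hence the results of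
`findTuple` are equal, `vtyp` agrees at all the vertices of `V` (`vtyp_congr`, the representatives are in
`V`), and `acceptW_congr` applies.
-/

namespace Pool.Agent.Lib_MP_cc9a35_rb

open Pool.Agent.Lib_MP_cc9a35_lc

variable {t : ℕ} {L Γ : Type} {N T K J M : ℕ}

/-- All the vertices occurring in the seeds. -/
def algnVerts (s : Seeds N T K J M) : List (Fin N) :=
  List.ofFn s.1 ++ (List.ofFn s.2.1 ++
    ((List.ofFn (fun l => (s.2.2.1 l).1) ++ List.ofFn (fun l => (s.2.2.1 l).2)) ++
      (List.ofFn (fun l => (s.2.2.2 l).1) ++ List.ofFn (fun l => (s.2.2.2 l).2))))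

theorem algnVerts_length (s : Seeds N T K J M) :
    (algnVerts s).length = T + K + 2 * J + 2 * M := by
  simp only [algnVerts, List.length_append, List.length_ofFn]
  omega

theorem algn_mem_z (s : Seeds N T K J M) (j : Fin T) : s.1 j ∈ algnVerts s :=
  List.mem_append_left _ ((List.mem_ofFn' s.1 _).2 ⟨j, rfl⟩)

theorem algn_mem_x (s : Seeds N T K J M) (j : Fin K) : s.2.1 j ∈ algnVerts s :=
  List.mem_append_right _ (List.mem_append_left _ ((List.mem_ofFn' s.2.1 _).2 ⟨j, rfl⟩))

theorem algn_mem_c1 (s : Seeds N T K J M) (l : Fin J) : (s.2.2.1 l).1 ∈ algnVerts s :=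
  List.mem_append_right _ (List.mem_append_right _ (List.mem_append_left _
    (List.mem_append_left _ ((List.mem_ofFn' (fun l => (s.2.2.1 l).1) _).2 ⟨l, rfl⟩))))

theorem algn_mem_c2 (s : Seeds N T K J M) (l : Fin J) : (s.2.2.1 l).2 ∈ algnVerts s :=
  List.mem_append_right _ (List.mem_append_right _ (List.mem_append_left _
    (List.mem_append_right _ ((List.mem_ofFn' (fun l => (s.2.2.1 l).2) _).2 ⟨l, rfl⟩))))

theorem algn_mem_p1 (s : Seeds N T K J M) (l : Fin M) : (s.2.2.2 l).1 ∈ algnVerts s :=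
  List.mem_append_right _ (List.mem_append_right _ (List.mem_append_right _
    (List.mem_append_left _ ((List.mem_ofFn' (fun l => (s.2.2.2 l).1) _).2 ⟨l, rfl⟩))))

theorem algn_mem_p2 (s : Seeds N T K J M) (l : Fin M) : (s.2.2.2 l).2 ∈ algnVerts s :=
  List.mem_append_right _ (List.mem_append_right _ (List.mem_append_right _
    (List.mem_append_right _ ((List.mem_ofFn' (fun l => (s.2.2.2 l).2) _).2 ⟨l, rfl⟩))))

theorem algn_accept_congr (S : TP t L Γ) (s : Seeds N T K J M) {G H : SimpleGraph (Fin N)}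
    (hV : ∀ a ∈ algnVerts s, ∀ b ∈ algnVerts s, (G.Adj a b ↔ H.Adj a b)) :
    Accept S G s ↔ Accept S H s := by
  have hR : (fun a b => G.Adj (s.1 a) (s.1 b)) = (fun a b => H.Adj (s.1 a) (s.1 b)) := by
    funext a b
    exact propext (hV _ (algn_mem_z s a) _ (algn_mem_z s b))
  unfold Accept
  rw [hR]
  refine exists_congr fun j => and_congr_right fun _ => ?_
  have hψ : ∀ v ∈ algnVerts s, vtyp S.code G (fun k => s.1 (j k)) v =
      vtyp S.code H (fun k => s.1 (j k)) v := fun v hv =>
    vtyp_congr S.code _ v (fun k => hV _ hv _ (algn_mem_z s (j k)))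
  exact acceptW_congr S s.2 (fun i => hψ _ (algn_mem_x s i))
    (fun l => ⟨hψ _ (algn_mem_c1 s l), hψ _ (algn_mem_c2 s l)⟩)
    (fun l => ⟨hψ _ (algn_mem_p1 s l), hψ _ (algn_mem_p2 s l)⟩)
    (fun l => hV _ (algn_mem_p1 s l) _ (algn_mem_p2 s l))
    (fun _ _ _ _ _ _ i i' _ _ _ _ => hV _ (algn_mem_x s i) _ (algn_mem_x s i'))

theorem nonadaptive_alg (S : TP t L Γ) (s : Seeds N T K J M) :
    ∃ Tr : QueryTree N, Tr.IsNonadaptive ∧ Tr.depth ≤ (T + K + 2 * J + 2 * M) ^ 2 ∧
      ∀ G, (Tr.Accepts G ↔ Accept S G s) := by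
  obtain ⟨Tr, h1, h2, h3⟩ := exists_nonadaptive ((algnVerts s).product (algnVerts s))
    (fun G => Accept S G s) (fun G H hGH => algn_accept_congr S s (fun a ha b hb =>
      hGH (a, b) (List.mem_product.2 ⟨ha, hb⟩)))
  refine ⟨Tr, h1, ?_, h3⟩
  rw [h2, List.product, List.length_flatMap]
  simp only [List.length_map]
  rw [List.map_const', List.sum_replicate, algnVerts_length, smul_eq_mul, pow_two]

end Pool.Agent.Lib_MP_cc9a35_rb
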