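import Pool.Agent.Lib_MP_cc9a35_rb.PrDef

/-!
Piece PRB: basic rules for `Pr`.
-/

namespace Pool.Agent.Lib_MP_cc9a35_rb

variable {Ω Ω' : Type*} [Fintype Ω] [Fintype Ω']

theorem Pr_nonneg (Q : Ω → Prop) : 0 ≤ Pr Q := by
  unfold Pr; positivity

theorem Pr_le_one (Q : Ω → Prop) : Pr Q ≤ 1 := by
  classical
  unfold Pr
  refine div_le_one_of_le₀ ?_ (Nat.cast_nonneg _)
  rw [Nat.card_eq_fintype_card]
  exact_mod_cast Fintype.card_subtype_le _

theorem Pr_mono {Q Q' : Ω → Prop} (h : ∀ ω, Q ω → Q' ω) : Pr Q ≤ Pr Q' := by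
  classical
  unfold Pr
  gcongr
  exact Nat.card_mono (Set.toFinite _) (fun ω hω => h ω hω)

theorem Pr_congr {Q Q' : Ω → Prop} (h : ∀ ω, Q ω ↔ Q' ω) : Pr Q = Pr Q' :=
  le_antisymm (Pr_mono fun ω => (h ω).1) (Pr_mono fun ω => (h ω).2)

theorem Pr_or_le (Q Q' : Ω → Prop) : Pr (fun ω => Q ω ∨ Q' ω) ≤ Pr Q + Pr Q' := by
  classical
  unfold Pr
  rw [← add_div]
  gcongr
  simp only [Nat.card_eq_fintype_card, Fintype.card_subtype]
  have : (Finset.univ.filter fun ω => Q ω ∨ Q' ω) =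
      (Finset.univ.filter fun ω => Q ω) ∪ (Finset.univ.filter fun ω => Q' ω) := by
    ext ω; simp
  rw [this]
  exact_mod_cast Finset.card_union_le _ _

theorem Pr_exists_le {ι : Type*} (s : Finset ι) (Q : ι → Ω → Prop) :
    Pr (fun ω => ∃ i ∈ s, Q i ω) ≤ ∑ i ∈ s, Pr (Q i) := by
  classical
  induction s using Finset.induction_on with
  | empty =>
    simp [Pr]
  | insert a s ha ih =>
    rw [Finset.sum_insert ha]
    have h1 : Pr (fun ω => ∃ i ∈ insert a s, Q i ω) ≤ Pr (fun ω => Q a ω ∨ ∃ i ∈ s, Q i ω) := by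
      refine Pr_mono fun ω => ?_
      rintro ⟨i, hi, hQ⟩
      rcases Finset.mem_insert.1 hi with rfl | hi
      · exact Or.inl hQ
      · exact Or.inr ⟨i, hi, hQ⟩
    exact h1.trans ((Pr_or_le _ _).trans (by linarith))

theorem Pr_compl [Nonempty Ω] (Q : Ω → Prop) : Pr Q + Pr (fun ω => ¬ Q ω) = 1 := by
  classical
  unfold Pr
  rw [← add_div]
  have h0 : (0 : ℝ) < Fintype.card Ω := by exact_mod_cast Fintype.card_pos
  rw [div_eq_one_iff_eq h0.ne']
  have : Nat.card {ω // Q ω} + Nat.card {ω // ¬ Q ω} = Fintype.card Ω := by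
    rw [Nat.card_eq_fintype_card, Nat.card_eq_fintype_card, Fintype.card_subtype,
      Fintype.card_subtype, Finset.card_filter_add_card_filter_not]
    rfl
  exact_mod_cast this

theorem Pr_equiv (e : Ω ≃ Ω') (Q : Ω' → Prop) : Pr (fun ω => Q (e ω)) = Pr Q := by
  unfold Pr
  rw [Fintype.card_congr e, Nat.card_congr (Equiv.subtypeEquiv e (fun _ => Iff.rfl))]

theorem Pr_false : Pr (fun _ : Ω => False) = 0 := by
  simp [Pr]

theorem Pr_of_forall_not {Q : Ω → Prop} (h : ∀ ω, ¬ Q ω) : Pr Q = 0 := by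
  rw [← Pr_false (Ω := Ω)]
  exact Pr_congr fun ω => by simp [h ω]

/-- probabilities as quotients of cardinalities of finsets -/
theorem Pr_eq_filter (Q : Ω → Prop) [DecidablePred Q] :
    Pr Q = ((Finset.univ.filter Q).card : ℝ) / Fintype.card Ω := by
  unfold Pr
  rw [Nat.card_eq_fintype_card, Fintype.card_subtype]

/-- natural number version of an upper bound -/
theorem card_le_of_Pr_le [Nonempty Ω] {Q : Ω → Prop} {a b : ℕ} (hb : 0 < b)
    (h : Pr Q ≤ (a : ℝ) / b) : b * Nat.card {ω // Q ω} ≤ a * Fintype.card Ω := by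
  unfold Pr at h
  have h0 : (0 : ℝ) < Fintype.card Ω := by exact_mod_cast Fintype.card_pos
  have hb' : (0 : ℝ) < b := by exact_mod_cast hb
  rw [div_le_div_iff₀ h0 hb'] at h
  have : ((b * Nat.card {ω // Q ω} : ℕ) : ℝ) ≤ ((a * Fintype.card Ω : ℕ) : ℝ) := by
    push_cast
    linarith
  exact_mod_cast this

theorem Pr_le_of_card_le [Nonempty Ω] {Q : Ω → Prop} {a b : ℕ} (hb : 0 < b)
    (h : b * Nat.card {ω // Q ω} ≤ a * Fintype.card Ω) : Pr Q ≤ (a : ℝ) / b := by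
  unfold Pr
  have h0 : (0 : ℝ) < Fintype.card Ω := by exact_mod_cast Fintype.card_pos
  have hb' : (0 : ℝ) < b := by exact_mod_cast hb
  rw [div_le_div_iff₀ h0 hb']
  have : ((b * Nat.card {ω // Q ω} : ℕ) : ℝ) ≤ ((a * Fintype.card Ω : ℕ) : ℝ) := by
    exact_mod_cast h
  push_cast at this
  linarith

end Pool.Agent.Lib_MP_cc9a35_rb
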