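import Pool.Agent.Lib_MP_cc9a35_rb.Struct
import Pool.Agent.Lib_MP_cc9a35_rb.PrBasic
import Pool.Agent.Lib_MP_cc9a35_lc.Lower2

/-!
Piece BAS: the random type assignment used for the lower bounds.

Position `σ v < m`: label `lam v`; position in `[m, m + t * w)`: threshold type
`(σ v - m) / w + 1`; otherwise type `0`.

Proofs.
* `baseTyp_sizes`: via the bijection `σ` the number of vertices of type `k + 1` is the number of positions
  `q < N` with `m ≤ q < m + t * w` and `(q - m) / w = k`, i.e. `m + k * w ≤ q < m + (k + 1) * w`; the number of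
  labels is the number of positions `< m`.
* `coordB_spec`: if `coordB` is `some i` then both types are different labels with `i = s(a, b)`;
  if it is `none` then `u = v` or the types are not open (`rel_of_not_open`).
* `Pr_region`: Markov for the number of pairs of the list in the label part; the mean is bounded by
  `sum_hiddenCount` (`Pool.Agent.Lib_MP_cc9a35_lc.Lower2`): with `bad` the number of `σ` with
  `c < hiddenCount (coordσ m σ) L`, one has
  `N * (N - 1) * ((c + 1) * bad) ≤ L.length * (N.factorial * (m * (m - 1)))`.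
-/

namespace Pool.Agent.Lib_MP_cc9a35_rb

open Pool.Agent.Lib_MP_cc9a35_lc

variable {t : ℕ} {L : Type} {N : ℕ}

/-- The type assignment given by a permutation and a labelling. -/
def baseTyp (t w m : ℕ) (σ : Equiv.Perm (Fin N)) (lam : Fin N → L) (v : Fin N) : Typ t L :=
  if (σ v : ℕ) < m then .inr (lam v)
  else if (σ v : ℕ) < m + t * w then .inl (Fin.ofNat (t + 1) (((σ v : ℕ) - m) / w + 1))
  else .inl 0

theorem bas_card_interval (σ : Equiv.Perm (Fin N)) {a b : ℕ} (hb : b ≤ N) :
    Nat.card {v : Fin N // a ≤ (σ v : ℕ) ∧ (σ v : ℕ) < b} = b - a := by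
  classical
  have h1 : Nat.card {v : Fin N // a ≤ (σ v : ℕ) ∧ (σ v : ℕ) < b} =
      Nat.card {q : Fin N // a ≤ (q : ℕ) ∧ (q : ℕ) < b} :=
    Nat.card_congr (Equiv.subtypeEquiv σ (fun _ => Iff.rfl))
  rw [h1, Nat.card_eq_fintype_card, Fintype.card_subtype, ← Nat.card_Ico,
    ← Finset.card_map Fin.valEmbedding]
  congr 1
  ext q
  simp only [Finset.mem_map, Finset.mem_filter, Finset.mem_univ, true_and, Fin.valEmbedding_apply,
    Finset.mem_Ico]
  constructor
  · rintro ⟨x, hx, rfl⟩
    exact hx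
  · intro hq
    exact ⟨⟨q, by omega⟩, hq, rfl⟩

theorem bas_isRight {w m : ℕ} (σ : Equiv.Perm (Fin N)) (lam : Fin N → L) (v : Fin N) :
    (baseTyp t w m σ lam v).isRight = true ↔ (σ v : ℕ) < m := by
  unfold baseTyp
  split_ifs with h1 h2
  · simp [h1]
  · simp [h1]
  · simp [h1]

theorem bas_inr {w m : ℕ} (σ : Equiv.Perm (Fin N)) (lam : Fin N → L) (v : Fin N) {a : L}
    (h : baseTyp t w m σ lam v = .inr a) : (σ v : ℕ) < m ∧ lam v = a := by
  unfold baseTyp at h
  split_ifs at h with h1 h2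
  exact ⟨h1, Sum.inr.inj h⟩

theorem bas_inl {w m : ℕ} (σ : Equiv.Perm (Fin N)) (lam : Fin N → L) (v : Fin N)
    {k : Fin (t + 1)} (hk : k ≠ 0) :
    baseTyp t w m σ lam v = .inl k ↔
      m + ((k : ℕ) - 1) * w ≤ (σ v : ℕ) ∧ (σ v : ℕ) < m + (k : ℕ) * w := by
  have hk0 : 0 < (k : ℕ) := Nat.pos_of_ne_zero fun h => hk (Fin.ext h)
  have hkt : (k : ℕ) ≤ t := by have := k.2; omega
  obtain ⟨j, hj⟩ : ∃ j, (k : ℕ) = j + 1 := ⟨(k : ℕ) - 1, by omega⟩
  have hkw : (k : ℕ) * w ≤ t * w := Nat.mul_le_mul_right w hkt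
  rw [hj, Nat.add_sub_cancel]
  rw [hj] at hkw
  unfold baseTyp
  split_ifs with h1 h2
  · constructor
    · intro h
      exact absurd h (by simp)
    · rintro ⟨h, -⟩
      exfalso
      have : 0 ≤ j * w := Nat.zero_le _
      omega
  · have hw : 0 < w := by
      rcases Nat.eq_zero_or_pos w with rfl | hw
      · simp at h2
        omega
      · exact hw
    have hlt : ((σ v : ℕ) - m) / w < t := by
      rw [Nat.div_lt_iff_lt_mul hw]
      omega
    have hval : ((Fin.ofNat (t + 1) (((σ v : ℕ) - m) / w + 1) : Fin (t + 1)) : ℕ) =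
        ((σ v : ℕ) - m) / w + 1 := by
      rw [Fin.val_ofNat]
      exact Nat.mod_eq_of_lt (by omega)
    have h3 : (Sum.inl (Fin.ofNat (t + 1) (((σ v : ℕ) - m) / w + 1)) : Typ t L) = .inl k ↔
        ((σ v : ℕ) - m) / w = j := by
      rw [Sum.inl.injEq, Fin.ext_iff, hval, hj]
      omega
    rw [h3, Nat.div_eq_iff hw]
    rw [add_mul, one_mul]
    omega
  · constructor
    · intro h
      exact absurd (Sum.inl.inj h).symm hk
    · rintro ⟨-, h⟩
      omega

theorem baseTyp_sizes {w m : ℕ} (h : m + t * w ≤ N) (σ : Equiv.Perm (Fin N)) (lam : Fin N → L) :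
    Sizes (baseTyp t w m σ lam) w m := by
  constructor
  · intro k hk
    have hk0 : 0 < (k : ℕ) := Nat.pos_of_ne_zero fun h => hk (Fin.ext h)
    have hkt : (k : ℕ) ≤ t := by have := k.2; omega
    have hkw : (k : ℕ) * w ≤ t * w := Nat.mul_le_mul_right w hkt
    have h1 : Nat.card {v // baseTyp t w m σ lam v = Sum.inl k} =
        Nat.card {v : Fin N // m + ((k : ℕ) - 1) * w ≤ (σ v : ℕ) ∧
          (σ v : ℕ) < m + (k : ℕ) * w} :=
      Nat.card_congr (Equiv.subtypeEquiv (Equiv.refl _) fun v => bas_inl σ lam v hk)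
    rw [h1, bas_card_interval σ (by omega)]
    obtain ⟨j, hj⟩ : ∃ j, (k : ℕ) = j + 1 := ⟨(k : ℕ) - 1, by omega⟩
    rw [hj, Nat.add_sub_cancel, add_mul, one_mul]
    omega
  · have h1 : Nat.card {v // (baseTyp t w m σ lam v).isRight = true} =
        Nat.card {v : Fin N // 0 ≤ (σ v : ℕ) ∧ (σ v : ℕ) < m} :=
      Nat.card_congr (Equiv.subtypeEquiv (Equiv.refl _) fun v => by
        rw [bas_isRight]
        simp)
    rw [h1, bas_card_interval σ (by omega)]
    omega

open Classical in
/-- The hidden coordinate of a pair of vertices. -/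
noncomputable def coordB (m : ℕ) (σ : Equiv.Perm (Fin N)) (lam : Fin N → L) (u v : Fin N) :
    Option (Sym2 L) :=
  if (σ u : ℕ) < m ∧ (σ v : ℕ) < m ∧ lam u ≠ lam v then some s(lam u, lam v) else none

theorem coordB_spec (code : L → Fin t → Bool) (w m : ℕ) (σ : Equiv.Perm (Fin N))
    (lam : Fin N → L) (y : Sym2 L → Bool) (u v : Fin N) :
    (∀ i, coordB m σ lam u v = some i →
      ((tgraph code y (baseTyp t w m σ lam)).Adj u v ↔ y i = true)) ∧
    (coordB m σ lam u v = none →
      ((tgraph code y (baseTyp t w m σ lam)).Adj u v ↔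
        (tgraph code (fun _ => false) (baseTyp t w m σ lam)).Adj u v)) := by
  constructor
  · intro i hi
    unfold coordB at hi
    split_ifs at hi with h
    obtain ⟨hu, hv, hne⟩ := h
    have hi' : s(lam u, lam v) = i := Option.some_inj.1 hi
    have e1 : baseTyp t w m σ lam u = .inr (lam u) := by
      unfold baseTyp
      rw [if_pos hu]
    have e2 : baseTyp t w m σ lam v = .inr (lam v) := by
      unfold baseTyp
      rw [if_pos hv]
    rw [tgraph_adj, e1, e2]
    constructor
    · rintro ⟨-, -, h⟩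
      rw [← hi']
      exact h
    · intro h
      rw [← hi'] at h
      exact ⟨fun huv => hne (by rw [huv]), hne, h⟩
  · intro hn
    unfold coordB at hn
    split_ifs at hn with h
    have ho : ¬ IsOpen (baseTyp t w m σ lam u) (baseTyp t w m σ lam v) := by
      rintro ⟨a, b, ha, hb, hab⟩
      obtain ⟨hu, rfl⟩ := bas_inr σ lam u ha
      obtain ⟨hv, rfl⟩ := bas_inr σ lam v hb
      exact h ⟨hu, hv, hab⟩
    rw [tgraph_adj, tgraph_adj, rel_of_not_open y (fun _ => false) ho]

theorem Pr_region (hN : 2 ≤ N) {m : ℕ} (hm : m ≤ N) (Ls : List (Fin N × Fin N)) {c : ℕ}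
    (h : 20 * Ls.length * (m * (m - 1)) ≤ (c + 1) * (N * (N - 1))) :
    Pr (fun σ : Equiv.Perm (Fin N) => c < hiddenCount (coordσ m σ) Ls) ≤ 1 / 20 := by
  classical
  set bad := Nat.card {σ : Equiv.Perm (Fin N) // c < hiddenCount (coordσ m σ) Ls} with hbad
  have h3 := sum_hiddenCount m hm Ls
  have h6 : bad * (c + 1) ≤ ∑ σ : Equiv.Perm (Fin N), hiddenCount (coordσ m σ) Ls := by
    rw [hbad, Nat.card_eq_fintype_card, Fintype.card_subtype, ← smul_eq_mul, ← Finset.sum_const,
      Finset.sum_filter]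
    refine Finset.sum_le_sum fun σ _ => ?_
    by_cases h : c < hiddenCount (coordσ m σ) Ls
    · rw [if_pos h]
      omega
    · simp [h]
  have hpos : 0 < N * (N - 1) := Nat.mul_pos (by omega) (by omega)
  have h7 : (N * (N - 1) * (c + 1)) * (20 * bad) ≤ (N * (N - 1) * (c + 1)) * N.factorial := by
    calc (N * (N - 1) * (c + 1)) * (20 * bad) = 20 * (N * (N - 1) * (bad * (c + 1))) := by ring
      _ ≤ 20 * (N * (N - 1) * ∑ σ : Equiv.Perm (Fin N), hiddenCount (coordσ m σ) Ls) := by
          gcongr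
      _ ≤ 20 * (Ls.length * (N.factorial * (m * (m - 1)))) := by gcongr
      _ = (20 * Ls.length * (m * (m - 1))) * N.factorial := by ring
      _ ≤ ((c + 1) * (N * (N - 1))) * N.factorial := by gcongr
      _ = _ := by ring
  have h8 : 20 * bad ≤ N.factorial := Nat.le_of_mul_le_mul_left h7 (by positivity)
  have h9 : Pr (fun σ : Equiv.Perm (Fin N) => c < hiddenCount (coordσ m σ) Ls) ≤
      ((1 : ℕ) : ℝ) / ((20 : ℕ) : ℝ) := by
    refine Pr_le_of_card_le (by norm_num) ?_
    rw [Fintype.card_perm, Fintype.card_fin, one_mul]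
    exact h8
  simpa using h9

end Pool.Agent.Lib_MP_cc9a35_rb
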