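import Pool.Agent.Lib_MP_cc9a35_rb.Scales

/-!
Piece BIG: facts about large scales, and the choice of the scale for the lower bound.

Proofs. `bb_le`: `hh a i ≤ 8 (a - 3) i + 1` (ceiling), so `bb a i ≤ C i + 1` with
`C = 48 + 8 (a - 3)`.
`exists_i0`: `tt a i` grows linearly in `i` and `uu i = 16 ^ i` exponentially, so the first inequality holds
for large `i`. For the second: `hh a i ≥ 8 i`, so it suffices that
`40 * 2 ^ (48 i) * 32 * bb a i ≤ 2 ^ (48 i) * 2 ^ (2 hh a i)` (`Nat.le_div_iff_mul_le`), i.e.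
`1280 * bb a i ≤ 2 ^ (16 i)`, which holds for large `i`.
`dd_lower`: `dd a i ≥ 1` under the second inequality, so with `x = 2 ^ (48 i + 2 h) / (32 b)` (real) the
floor is at least `x / 2`; and `2 ^ (48 i + 2 h) ≥ 2 ^ (48 i + 16 (a - 3) i) = (2 ^ (16 i)) ^ a =
((uu i) ^ 4) ^ a` (real powers).
`choose_scale`: let `i` be the largest number with `i₀ ≤ i` and `ε * (2048 * bb a i * uu i ^ 4) < 1`; for
small `ε` the inequality holds at `i₀`, and it fails for large `i`. It implies `2 ^ (16 i) ≤ 1 / ε`, so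
`i ≤ log (1/ε)`, and `bb a i`, `bb a (i + 1) ≤ C' * log (1/ε)`. The failure at `i + 1` gives
`1 / ε ≤ 2048 * bb a (i + 1) * 65536 * uu i ^ 4`.
-/

namespace Pool.Agent.Lib_MP_cc9a35_rb

open Filter Topology

theorem big_pow (c : ℝ) (k : ℕ) {r : ℝ} (hr : 1 < r) :
    ∀ᶠ n : ℕ in atTop, c * (n : ℝ) ^ k ≤ r ^ n := by
  have h := isLittleO_pow_const_const_pow_of_one_lt (R := ℝ) k hr
  have h2 := h.def (c := 1 / (|c| + 1)) (by positivity)
  filter_upwards [h2] with n hn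
  rw [Real.norm_of_nonneg (by positivity), Real.norm_of_nonneg (by positivity)] at hn
  have hr0 : 0 < r ^ n := by positivity
  have h3 : (|c| + 1) * (n : ℝ) ^ k ≤ r ^ n := by
    have := mul_le_mul_of_nonneg_left hn (by positivity : 0 ≤ |c| + 1)
    calc (|c| + 1) * (n : ℝ) ^ k ≤ (|c| + 1) * (1 / (|c| + 1) * r ^ n) := this
      _ = r ^ n := by field_simp
  refine le_trans ?_ h3
  gcongr
  linarith [le_abs_self c]

theorem hh_le (a : ℝ) (i : ℕ) : hh a i ≤ ⌈8 * (a - 3)⌉₊ * i := by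
  unfold hh
  rw [Nat.ceil_le]
  push_cast
  gcongr
  exact Nat.le_ceil _

theorem le_hh {a : ℝ} (ha : 4 ≤ a) (i : ℕ) : 8 * i ≤ hh a i := by
  have h1 : (8 : ℝ) * i ≤ 8 * (a - 3) * i := by
    gcongr
    linarith
  have h2 := h1.trans (Nat.le_ceil (8 * (a - 3) * (i : ℝ)))
  exact_mod_cast h2

theorem le_hh' (a : ℝ) (i : ℕ) : 8 * (a - 3) * i ≤ hh a i := Nat.le_ceil _

theorem bb_le' (a : ℝ) (i : ℕ) : bb a i ≤ (48 + ⌈8 * (a - 3)⌉₊) * i := by
  unfold bb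
  rw [add_mul]
  have := hh_le a i
  omega

theorem bb_pos (a : ℝ) {i : ℕ} (hi : 1 ≤ i) : 48 ≤ bb a i := by
  unfold bb
  omega

theorem exists_i0 {a : ℝ} (ha : 4 ≤ a) : ∃ i₀ : ℕ, 1 ≤ i₀ ∧ ∀ i, i₀ ≤ i →
    80 * (tt a i * (tt a i + 8)) ≤ uu i ∧ 40 * 2 ^ (48 * i) ≤ dd a i := by
  set K : ℕ := 48 + ⌈8 * (a - 3)⌉₊ with hK
  have h1 := big_pow (80 * ((K : ℝ) + 10) ^ 2) 2 (r := 16) (by norm_num)
  have h2 := big_pow (1280 * (K : ℝ)) 1 (r := 65536) (by norm_num)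
  obtain ⟨n, hn⟩ := eventually_atTop.1 (h1.and h2)
  refine ⟨max n 1, le_max_right _ _, fun i hi => ?_⟩
  obtain ⟨e1, e2⟩ := hn i ((le_max_left _ _).trans hi)
  have hi1 : 1 ≤ i := (le_max_right _ _).trans hi
  have hb := bb_le' a i
  rw [← hK] at hb
  constructor
  · have hi1' : (1 : ℝ) ≤ i := by exact_mod_cast hi1
    have ht : tt a i ≤ K * i + 2 := by unfold tt; omega
    have ht' : (tt a i : ℝ) ≤ K * i + 2 := by exact_mod_cast ht
    have : (80 * ((tt a i : ℝ) * (tt a i + 8))) ≤ 16 ^ i := by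
      refine le_trans ?_ e1
      have hK0 : (0 : ℝ) ≤ K := by positivity
      have h3 : (tt a i : ℝ) ≤ (K + 10) * i := by nlinarith
      have h4 : (tt a i : ℝ) + 8 ≤ (K + 10) * i := by nlinarith
      have h5 : (0 : ℝ) ≤ tt a i := by positivity
      calc 80 * ((tt a i : ℝ) * (tt a i + 8)) ≤ 80 * (((K + 10) * i) * ((K + 10) * i)) := by
            gcongr
        _ = 80 * ((K : ℝ) + 10) ^ 2 * i ^ 2 := by ring
    unfold uu
    exact_mod_cast this
  · unfold dd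
    rw [Nat.le_div_iff_mul_le (by have := bb_pos a hi1; omega)]
    have h3 : 1280 * bb a i ≤ 2 ^ (2 * hh a i) := by
      have h4 : (1280 * K * i : ℕ) ≤ 65536 ^ i := by
        have : (1280 * (K : ℝ) * (i : ℝ)) ≤ 65536 ^ i := by simpa using e2
        exact_mod_cast this
      have h5 : (65536 : ℕ) ^ i ≤ 2 ^ (2 * hh a i) := by
        have : (65536 : ℕ) = 2 ^ 16 := by norm_num
        rw [this, ← pow_mul]
        exact Nat.pow_le_pow_right (by norm_num) (by have := le_hh ha i; omega)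
      calc 1280 * bb a i ≤ 1280 * (K * i) := by gcongr
        _ = 1280 * K * i := by ring
        _ ≤ _ := h4.trans h5
    calc 40 * 2 ^ (48 * i) * (32 * bb a i) = 2 ^ (48 * i) * (1280 * bb a i) := by ring
      _ ≤ 2 ^ (48 * i) * 2 ^ (2 * hh a i) := by gcongr
      _ = 2 ^ (48 * i + 2 * hh a i) := by rw [pow_add]

theorem uu_pow_four (i : ℕ) : (uu i : ℝ) ^ 4 = (2 : ℝ) ^ ((16 * i : ℕ) : ℝ) := by
  rw [Real.rpow_natCast]
  unfold uu
  push_cast
  rw [← pow_mul, show (16 : ℝ) = 2 ^ 4 by norm_num, ← pow_mul]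
  congr 1
  ring

theorem dd_lower {a : ℝ} (ha : 4 ≤ a) {i : ℕ} (hi : 1 ≤ i) (h : 40 * 2 ^ (48 * i) ≤ dd a i) :
    ((uu i : ℝ) ^ 4) ^ a ≤ 64 * bb a i * (dd a i : ℝ) := by
  have hb := bb_pos a hi
  have h1 : 1 ≤ dd a i := by
    have : 1 ≤ 40 * 2 ^ (48 * i) := Nat.one_le_iff_ne_zero.2 (by positivity)
    exact this.trans h
  have h2 : 2 ^ (48 * i + 2 * hh a i) ≤ 64 * bb a i * dd a i := by
    have e1 := Nat.div_add_mod (2 ^ (48 * i + 2 * hh a i)) (32 * bb a i)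
    have e2 := Nat.mod_lt (2 ^ (48 * i + 2 * hh a i)) (show 0 < 32 * bb a i by omega)
    change 32 * bb a i * dd a i + _ = _ at e1
    have e3 : 32 * bb a i ≤ 32 * bb a i * dd a i := Nat.le_mul_of_pos_right _ h1
    have e4 : 64 * bb a i * dd a i = 32 * bb a i * dd a i + 32 * bb a i * dd a i := by ring
    omega
  have h3 : ((uu i : ℝ) ^ 4) ^ a ≤ (2 : ℝ) ^ ((48 * i + 2 * hh a i : ℕ) : ℝ) := by
    rw [uu_pow_four, ← Real.rpow_mul (by norm_num)]
    refine Real.rpow_le_rpow_of_exponent_le (by norm_num) ?_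
    push_cast
    have := le_hh' a i
    nlinarith
  refine h3.trans ?_
  rw [Real.rpow_natCast]
  exact_mod_cast h2

theorem dd_lower' {a : ℝ} (ha : 4 ≤ a) {i : ℕ} (hi : 1 ≤ i) (h : 40 * 2 ^ (48 * i) ≤ dd a i) :
    ((uu i : ℝ) ^ 4) ^ (a + 4) ≤
      64 * bb a i * ((dd a i * 2 ^ (48 * i) * uu i ^ 4 : ℕ) : ℝ) := by
  have h1 := dd_lower ha hi h
  have hpos : (0 : ℝ) < (uu i : ℝ) ^ 4 := by unfold uu; positivity
  rw [Real.rpow_add hpos]
  have h2 : ((uu i : ℝ) ^ 4) ^ (4 : ℝ) = 2 ^ (48 * i) * (uu i : ℝ) ^ 4 := by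
    rw [show (4 : ℝ) = ((4 : ℕ) : ℝ) by norm_num, Real.rpow_natCast]
    unfold uu
    push_cast
    rw [← pow_mul, ← pow_mul, show (16 : ℝ) = 2 ^ 4 by norm_num, ← pow_mul, ← pow_mul, ← pow_mul,
      ← pow_add]
    congr 1
    ring
  rw [h2]
  push_cast
  calc ((uu i : ℝ) ^ 4) ^ a * (2 ^ (48 * i) * (uu i : ℝ) ^ 4)
      ≤ 64 * bb a i * (dd a i : ℝ) * (2 ^ (48 * i) * (uu i : ℝ) ^ 4) := by gcongr
    _ = _ := by ring

theorem choose_scale {a : ℝ} (ha : 4 ≤ a) (i₀ : ℕ) : ∃ C : ℝ, 1 ≤ C ∧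
    ∀ᶠ ε in 𝓝[>] (0 : ℝ), ∃ i, i₀ ≤ i ∧ ε * (2048 * bb a i * (uu i : ℝ) ^ 4) < 1 ∧
      1 / ε ≤ C * Real.log (1 / ε) * (uu i : ℝ) ^ 4 ∧ (bb a i : ℝ) ≤ C * Real.log (1 / ε) := by
  set K : ℕ := 48 + ⌈8 * (a - 3)⌉₊ with hK
  have hK1 : (48 : ℝ) ≤ K := by
    rw [hK]
    push_cast
    linarith [(Nat.cast_nonneg (α := ℝ) ⌈8 * (a - 3)⌉₊)]
  refine ⟨268435456 * K, by linarith, ?_⟩
  have hlim : Tendsto (fun ε : ℝ => ε * (2048 * bb a i₀ * (uu i₀ : ℝ) ^ 4)) (𝓝[>] 0) (𝓝 0) := by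
    have : Tendsto (fun ε : ℝ => ε * (2048 * bb a i₀ * (uu i₀ : ℝ) ^ 4)) (𝓝 0)
        (𝓝 (0 * (2048 * bb a i₀ * (uu i₀ : ℝ) ^ 4))) := (continuous_id.mul continuous_const).tendsto 0
    rw [zero_mul] at this
    exact this.mono_left nhdsWithin_le_nhds
  have hexp : ∀ᶠ ε in 𝓝[>] (0 : ℝ), ε < Real.exp (-1) :=
    nhdsWithin_le_nhds (Iio_mem_nhds (Real.exp_pos _))
  filter_upwards [hlim.eventually (gt_mem_nhds one_pos), self_mem_nhdsWithin, hexp]
    with ε h0 hε0 hε1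
  have hε : (0 : ℝ) < ε := hε0
  have hεone : ε < 1 := hε1.trans (by rw [Real.exp_lt_one_iff]; norm_num)
  have hlog : 1 ≤ Real.log (1 / ε) := by
    rw [one_div, Real.log_inv]
    have := Real.log_le_log hε hε1.le
    rw [Real.log_exp] at this
    linarith
  -- existence of the last scale
  obtain ⟨i, hi, hPi, hnP⟩ : ∃ i, i₀ ≤ i ∧ ε * (2048 * bb a i * (uu i : ℝ) ^ 4) < 1 ∧
      ¬ ε * (2048 * bb a (i + 1) * (uu (i + 1) : ℝ) ^ 4) < 1 := by
    by_contra hcon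
    push Not at hcon
    have hall : ∀ n, ε * (2048 * bb a (i₀ + n) * (uu (i₀ + n) : ℝ) ^ 4) < 1 := by
      intro n
      induction n with
      | zero => simpa using h0
      | succ n ih => exact hcon (i₀ + n) (by omega) ih
    obtain ⟨n, hn⟩ := exists_nat_gt (1 / ε)
    have h1 := hall (n + 1)
    have h2 : (n : ℝ) ≤ 2048 * bb a (i₀ + (n + 1)) * (uu (i₀ + (n + 1)) : ℝ) ^ 4 := by
      have e1 : (n : ℝ) ≤ bb a (i₀ + (n + 1)) := by
        have : n ≤ bb a (i₀ + (n + 1)) := by unfold bb; omega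
        exact_mod_cast this
      have e2 : (1 : ℝ) ≤ (uu (i₀ + (n + 1)) : ℝ) ^ 4 := by
        have : (1 : ℝ) ≤ (uu (i₀ + (n + 1)) : ℝ) := by
          unfold uu
          push_cast
          exact one_le_pow₀ (by norm_num)
        exact one_le_pow₀ this
      have e3 : (0 : ℝ) ≤ bb a (i₀ + (n + 1)) := by positivity
      nlinarith
    have h3 : 1 / ε < 2048 * bb a (i₀ + (n + 1)) * (uu (i₀ + (n + 1)) : ℝ) ^ 4 := hn.trans_le h2
    rw [div_lt_iff₀ hε] at h3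
    linarith
  have hupos : (0 : ℝ) < (uu i : ℝ) ^ 4 := by unfold uu; positivity
  have hilog : (i : ℝ) ≤ Real.log (1 / ε) := by
    rcases Nat.eq_zero_or_pos i with rfl | hipos
    · simp only [Nat.cast_zero]
      linarith
    · have hb : (48 : ℝ) ≤ bb a i := by exact_mod_cast bb_pos a hipos
      have h1 : (uu i : ℝ) ^ 4 ≤ 1 / ε := by
        rw [le_div_iff₀ hε]
        nlinarith
      have h2 := Real.log_le_log hupos h1
      rw [uu_pow_four, Real.log_rpow (by norm_num)] at h2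
      push_cast at h2
      have h3 : (1 / 2 : ℝ) < Real.log 2 := by
        have := Real.log_two_gt_d9
        linarith
      have hi0 : (0 : ℝ) ≤ i := by positivity
      nlinarith
  have hbi : (bb a i : ℝ) ≤ K * i := by exact_mod_cast bb_le' a i
  have hbi1 : (bb a (i + 1) : ℝ) ≤ K * (i + 1) := by exact_mod_cast bb_le' a (i + 1)
  refine ⟨i, hi, hPi, ?_, ?_⟩
  · rw [not_lt] at hnP
    have h1 : 1 / ε ≤ 2048 * bb a (i + 1) * (uu (i + 1) : ℝ) ^ 4 := by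
      rw [div_le_iff₀ hε]
      linarith
    have h2 : (uu (i + 1) : ℝ) ^ 4 = 65536 * (uu i : ℝ) ^ 4 := by
      unfold uu
      push_cast
      ring
    rw [h2] at h1
    refine h1.trans ?_
    have h3 : (bb a (i + 1) : ℝ) ≤ K * (2 * Real.log (1 / ε)) := by
      refine hbi1.trans ?_
      gcongr
      linarith
    calc 2048 * (bb a (i + 1) : ℝ) * (65536 * (uu i : ℝ) ^ 4)
        ≤ 2048 * (K * (2 * Real.log (1 / ε))) * (65536 * (uu i : ℝ) ^ 4) := by gcongr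
      _ = 268435456 * K * Real.log (1 / ε) * (uu i : ℝ) ^ 4 := by ring
  · calc (bb a i : ℝ) ≤ K * i := hbi
      _ ≤ K * Real.log (1 / ε) := by gcongr
      _ ≤ 268435456 * K * Real.log (1 / ε) := by
        have : (0 : ℝ) ≤ K * Real.log (1 / ε) := by positivity
        nlinarith

end Pool.Agent.Lib_MP_cc9a35_rb
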