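import Pool.Agent.Lib_MP_cc9a35_rb.PrBasic

/-!
Piece PRC: the inequalities of Markov and Chebyshev for counts.

Proofs. Write `X ω = Nat.card {j // Q j ω}`.
* `markov_count`: `∑ ω, X ω = ∑ j, Nat.card {ω // Q j ω}` (double counting), and
  `c * Nat.card {ω // c ≤ X ω} ≤ ∑ ω, X ω`; divide by `c * card Ω`.
* `chebyshev`: `∑ ω, (X ω) ^ 2 = ∑ j, ∑ j', Nat.card {ω // Q j ω ∧ Q j' ω}`, so with `n = card J` the mean
  of `(X - n p) ^ 2` is `n p + n (n - 1) p ^ 2 - 2 n p * n p + (n p) ^ 2 = n p - n p ^ 2 ≤ n p`; by Markov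
  `s ^ 2 * Pr (s ≤ |X - n p|) ≤ n p`.
-/

namespace Pool.Agent.Lib_MP_cc9a35_rb

variable {Ω J : Type*} [Fintype Ω] [Fintype J]

open Classical in
/-- a probability is the mean of the indicator -/
theorem Pr_eq_sum (Q : Ω → Prop) :
    Pr Q = (∑ ω, (if Q ω then (1 : ℝ) else 0)) / Fintype.card Ω := by
  rw [Pr_eq_filter, Finset.sum_boole]

open Classical in
/-- a count is a sum of indicators -/
theorem count_eq_sum (Q : J → Prop) :
    (Nat.card {j // Q j} : ℝ) = ∑ j, (if Q j then (1 : ℝ) else 0) := by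
  rw [Finset.sum_boole, Nat.card_eq_fintype_card, Fintype.card_subtype]

/-- Markov -/
theorem markov_gen (f : Ω → ℝ) (hf : ∀ ω, 0 ≤ f ω) {c : ℝ} (hc : 0 < c) :
    Pr (fun ω => c ≤ f ω) ≤ ((∑ ω, f ω) / Fintype.card Ω) / c := by
  classical
  rw [Pr_eq_sum, div_right_comm]
  refine div_le_div_of_nonneg_right ?_ (Nat.cast_nonneg _)
  rw [le_div_iff₀ hc, Finset.sum_mul]
  refine Finset.sum_le_sum fun ω _ => ?_
  split_ifs with h
  · simpa using h
  · simpa using hf ω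

theorem markov_count (Q : J → Ω → Prop) {c : ℝ} (hc : 0 < c) :
    Pr (fun ω => c ≤ (Nat.card {j // Q j ω} : ℝ)) ≤ (∑ j, Pr (Q j)) / c := by
  classical
  refine (markov_gen (fun ω => (Nat.card {j // Q j ω} : ℝ)) (fun ω => Nat.cast_nonneg _) hc).trans
    (le_of_eq ?_)
  congr 1
  rw [Finset.sum_congr rfl (fun j _ => Pr_eq_sum (Q j)), ← Finset.sum_div]
  congr 1
  rw [Finset.sum_comm]
  exact Finset.sum_congr rfl fun ω _ => count_eq_sum _

theorem chebyshev [Nonempty Ω] (Q : J → Ω → Prop) (p : ℝ) (h1 : ∀ j, Pr (Q j) = p)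
    (h2 : ∀ j j', j ≠ j' → Pr (fun ω => Q j ω ∧ Q j' ω) = p ^ 2) {s : ℝ} (hs : 0 < s) :
    Pr (fun ω => s ≤ |(Nat.card {j // Q j ω} : ℝ) - Fintype.card J * p|) ≤
      Fintype.card J * p / s ^ 2 := by
  classical
  set n : ℝ := (Fintype.card J : ℝ) with hn
  have h0 : (0 : ℝ) < Fintype.card Ω := by exact_mod_cast Fintype.card_pos
  have hM : Pr (fun ω => s ^ 2 ≤ ((Nat.card {j // Q j ω} : ℝ) - n * p) ^ 2) ≤
      ((∑ ω, ((Nat.card {j // Q j ω} : ℝ) - n * p) ^ 2) / Fintype.card Ω) / s ^ 2 :=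
    markov_gen (fun ω => ((Nat.card {j // Q j ω} : ℝ) - n * p) ^ 2) (fun ω => sq_nonneg _)
      (by positivity)
  have hcong : Pr (fun ω => s ≤ |(Nat.card {j // Q j ω} : ℝ) - n * p|) =
      Pr (fun ω => s ^ 2 ≤ ((Nat.card {j // Q j ω} : ℝ) - n * p) ^ 2) := by
    refine Pr_congr fun ω => ?_
    rw [← sq_abs ((Nat.card {j // Q j ω} : ℝ) - n * p)]
    exact (pow_le_pow_iff_left₀ hs.le (abs_nonneg _) two_ne_zero).symm
  rw [hcong]
  refine hM.trans (div_le_div_of_nonneg_right ?_ (by positivity))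
  -- the mean of the square
  have hs1 : ∀ j, ∑ ω, (if Q j ω then (1 : ℝ) else 0) = p * Fintype.card Ω := by
    intro j
    have := h1 j
    rw [Pr_eq_sum, div_eq_iff h0.ne'] at this
    exact this
  have hs2 : ∀ j j', j ≠ j' →
      ∑ ω, (if Q j ω then (1 : ℝ) else 0) * (if Q j' ω then (1 : ℝ) else 0) =
        p ^ 2 * Fintype.card Ω := by
    intro j j' hj
    have := h2 j j' hj
    rw [Pr_eq_sum, div_eq_iff h0.ne'] at this
    rw [← this]
    refine Finset.sum_congr rfl fun ω _ => ?_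
    by_cases ha : Q j ω <;> by_cases hb : Q j' ω <;> simp [ha, hb]
  have hX1 : ∑ ω, (Nat.card {j // Q j ω} : ℝ) = n * (p * Fintype.card Ω) := by
    rw [Finset.sum_congr rfl (fun ω _ => count_eq_sum (fun j => Q j ω)), Finset.sum_comm,
      Finset.sum_congr rfl (fun j _ => hs1 j)]
    simp [hn]
  have hX2 : ∑ ω, (Nat.card {j // Q j ω} : ℝ) ^ 2 ≤
      n * (p * Fintype.card Ω) + (n * n - n) * (p ^ 2 * Fintype.card Ω) := by
    have e1 : ∀ ω, (Nat.card {j // Q j ω} : ℝ) ^ 2 =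
        ∑ j, ∑ j', (if Q j ω then (1 : ℝ) else 0) * (if Q j' ω then (1 : ℝ) else 0) := by
      intro ω
      rw [count_eq_sum, sq, Finset.sum_mul_sum]
    rw [Finset.sum_congr rfl (fun ω _ => e1 ω), Finset.sum_comm]
    have e2 : ∀ j, ∑ ω, ∑ j', (if Q j ω then (1 : ℝ) else 0) * (if Q j' ω then (1 : ℝ) else 0) =
        p * Fintype.card Ω + (n - 1) * (p ^ 2 * Fintype.card Ω) := by
      intro j
      rw [Finset.sum_comm, ← Finset.add_sum_erase _ _ (Finset.mem_univ j)]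
      congr 1
      · rw [← hs1 j]
        refine Finset.sum_congr rfl fun ω _ => ?_
        by_cases ha : Q j ω <;> simp [ha]
      · rw [Finset.sum_congr rfl (fun j' hj' => hs2 j j' (Finset.ne_of_mem_erase hj').symm),
          Finset.sum_const, Finset.card_erase_of_mem (Finset.mem_univ j), nsmul_eq_mul]
        have hc : 1 ≤ Fintype.card J := Fintype.card_pos_iff.2 ⟨j⟩
        rw [Finset.card_univ, Nat.cast_sub hc, hn]
        simp
    rw [Finset.sum_congr rfl (fun j _ => e2 j), Finset.sum_const, nsmul_eq_mul, Finset.card_univ,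
      ← hn]
    apply le_of_eq
    ring
  have hexp : ∑ ω, ((Nat.card {j // Q j ω} : ℝ) - n * p) ^ 2 =
      ∑ ω, (Nat.card {j // Q j ω} : ℝ) ^ 2 - 2 * (n * p) * ∑ ω, (Nat.card {j // Q j ω} : ℝ) +
        Fintype.card Ω * (n * p) ^ 2 := by
    rw [Finset.mul_sum, ← Finset.sum_sub_distrib]
    have : (Fintype.card Ω : ℝ) * (n * p) ^ 2 = ∑ _ω : Ω, (n * p) ^ 2 := by
      rw [Finset.sum_const, nsmul_eq_mul, Finset.card_univ]
    rw [this, ← Finset.sum_add_distrib]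
    refine Finset.sum_congr rfl fun ω _ => ?_
    ring
  rw [hexp, hX1, div_le_iff₀ h0]
  have hnn : (0 : ℝ) ≤ n := by rw [hn]; exact Nat.cast_nonneg _
  nlinarith [hX2, mul_nonneg hnn (mul_nonneg (sq_nonneg p) h0.le)]

end Pool.Agent.Lib_MP_cc9a35_rb
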