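import Pool.Agent.Lib_MP_cc9a35_rb.PrFun
import Pool.Agent.Lib_MP_cc9a35_rb.PrCheb

/-!
Piece CEL: random labels, the cells of given pairs of vertices are pairwise independent.

A label is a pair in `Tp × Rs` with `Tp` a finite abelian group; the cell of `{a, b}` is `a.1 + b.1`.

Proof of `Pr_cell_one`: let `e = {u, v}`, `u ≠ v`. For `c : Tp` the map `S c` adding `c` to the first
component of the label of `v` (and fixing the other labels) is a bijection of `Fin N → Tp × Rs`, and it
maps the event `cell = g` onto the event `cell = g + c`. So the `card Tp` events `cell = g` have equal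
cardinalities, and they partition the space.
Proof of `Pr_cell_two`: for `e ≠ e'` there is a vertex `v` of `e'` which is not in `e`; `e' = {u, v}`. The same
bijections `S c` preserve the event `cell of e = g` and map `cell of e' = g'` onto
`cell of e' = g' + c`. So `Pr (cell of e = g and cell of e' = g') = Pr (cell of e = g) / card Tp`.
(It is convenient to prove first: if `S c` are bijections with `A (S c ω) ↔ A ω` and
`f (S c ω) = f ω + c`, then `Pr (A ω ∧ f ω = g) = Pr A / card Tp`.)
Proof of `Pr_cells`: for a fixed `g` use `chebyshev` with `J = E` (as a type), `p = 1 / card Tp`,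
`s = d / 2`: as `E.card / card Tp ≤ d / 2`, the event `d < count` implies `s ≤ |count - E.card * p|`, and has
probability at most `(d / 2) / (d / 2) ^ 2 = 2 / d`. Sum over `g`: `2 * card Tp / d ≤ 1 / 20`.
(If `E` is empty the probability is `0`.)
-/

namespace Pool.Agent.Lib_MP_cc9a35_rb

variable {Tp Rs : Type} [AddCommGroup Tp] [Fintype Tp] [DecidableEq Tp] [Fintype Rs]
  [DecidableEq Rs]

/-- The cell of a pair of labels. -/
def cellL : Sym2 (Tp × Rs) → Tp :=
  Sym2.lift ⟨fun a b => a.1 + b.1, fun a b => add_comm a.1 b.1⟩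

omit [Fintype Tp] [DecidableEq Tp] [Fintype Rs] [DecidableEq Rs] in
theorem cellL_mk (a b : Tp × Rs) : cellL s(a, b) = a.1 + b.1 := rfl

/-- Sum over the values of a function with finitely many values. -/
theorem cel_Pr_sum {Ω Γ : Type*} [Fintype Ω] [Fintype Γ] [DecidableEq Γ] (A : Ω → Prop)
    (f : Ω → Γ) : ∑ g : Γ, Pr (fun ω => A ω ∧ f ω = g) = Pr A := by
  classical
  have h1 : ∀ g : Γ, Pr (fun ω => A ω ∧ f ω = g) =
      (((Finset.univ.filter A).filter fun ω => f ω = g).card : ℝ) / Fintype.card Ω := by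
    intro g
    rw [Pr_eq_filter, Finset.filter_filter]
  rw [Finset.sum_congr rfl fun g _ => h1 g, ← Finset.sum_div, Pr_eq_filter]
  congr 1
  rw [Finset.card_eq_sum_card_fiberwise (f := f) (t := Finset.univ) (fun _ _ => by simp)]
  push_cast
  rfl

theorem cel_shift {Ω : Type*} [Fintype Ω] (S : Tp → Ω ≃ Ω) (A : Ω → Prop) (f : Ω → Tp)
    (hA : ∀ c ω, A (S c ω) ↔ A ω) (hf : ∀ c ω, f (S c ω) = f ω + c) (g : Tp) :
    Pr (fun ω => A ω ∧ f ω = g) = Pr A / Fintype.card Tp := by
  have h1 : ∀ g' : Tp, Pr (fun ω => A ω ∧ f ω = g') = Pr (fun ω => A ω ∧ f ω = g) := by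
    intro g'
    rw [← Pr_equiv (S (g - g')) (fun ω => A ω ∧ f ω = g)]
    refine Pr_congr fun ω => ?_
    rw [hA, hf]
    refine and_congr Iff.rfl ?_
    constructor
    · rintro rfl
      abel
    · intro h
      have : f ω = (f ω + (g - g')) - (g - g') := by abel
      rw [this, h]
      abel
  have h2 := cel_Pr_sum A f
  rw [Finset.sum_congr rfl fun g' _ => h1 g', Finset.sum_const, Finset.card_univ,
    nsmul_eq_mul] at h2
  have h3 : (0 : ℝ) < Fintype.card Tp := by exact_mod_cast Fintype.card_pos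
  rw [eq_div_iff h3.ne', mul_comm]
  exact h2

/-- Adding `c` to the first component of the label of `v`. -/
def celS {N : ℕ} (v : Fin N) (c : Tp) : (Fin N → Tp × Rs) ≃ (Fin N → Tp × Rs) where
  toFun lam i := if i = v then ((lam i).1 + c, (lam i).2) else lam i
  invFun lam i := if i = v then ((lam i).1 - c, (lam i).2) else lam i
  left_inv lam := by
    funext i
    by_cases h : i = v
    · simp only [h, if_true, add_sub_cancel_right]
    · simp only [h, if_false]
  right_inv lam := by
    funext i
    by_cases h : i = v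
    · simp only [h, if_true, sub_add_cancel]
    · simp only [h, if_false]

omit [Fintype Tp] [DecidableEq Tp] [Fintype Rs] [DecidableEq Rs] in
theorem celS_same {N : ℕ} (v : Fin N) (c : Tp) (lam : Fin N → Tp × Rs) :
    (celS v c lam v).1 = (lam v).1 + c := by
  simp [celS]

omit [Fintype Tp] [DecidableEq Tp] [Fintype Rs] [DecidableEq Rs] in
theorem celS_ne {N : ℕ} {v i : Fin N} (h : i ≠ v) (c : Tp) (lam : Fin N → Tp × Rs) :
    celS v c lam i = lam i := by
  simp [celS, h]

omit [Fintype Tp] [DecidableEq Tp] [Fintype Rs] [DecidableEq Rs] in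
theorem celS_mem {N : ℕ} {v : Fin N} {e : Sym2 (Fin N)} (he : ¬ e.IsDiag) (hv : v ∈ e) (c : Tp)
    (lam : Fin N → Tp × Rs) : cellL (e.map (celS v c lam)) = cellL (e.map lam) + c := by
  induction e using Sym2.ind with
  | _ a b =>
    rw [Sym2.mk_isDiag_iff] at he
    rw [Sym2.map_mk, Sym2.map_mk, cellL_mk, cellL_mk]
    rcases Sym2.mem_iff.1 hv with rfl | rfl
    · rw [celS_same, celS_ne (Ne.symm he)]
      abel
    · rw [celS_same, celS_ne he]
      abel

omit [Fintype Tp] [DecidableEq Tp] [Fintype Rs] [DecidableEq Rs] in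
theorem celS_not_mem {N : ℕ} {v : Fin N} {e : Sym2 (Fin N)} (hv : v ∉ e) (c : Tp)
    (lam : Fin N → Tp × Rs) : cellL (e.map (celS v c lam)) = cellL (e.map lam) := by
  induction e using Sym2.ind with
  | _ a b =>
    rw [Sym2.map_mk, Sym2.map_mk, cellL_mk, cellL_mk]
    have ha : a ≠ v := by
      rintro rfl
      exact hv (Sym2.mem_mk_left _ _)
    have hb : b ≠ v := by
      rintro rfl
      exact hv (Sym2.mem_mk_right _ _)
    rw [celS_ne ha, celS_ne hb]

theorem cel_Pr_true {Ω : Type*} [Fintype Ω] [Nonempty Ω] : Pr (fun _ : Ω => True) = 1 := by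
  have h := Pr_compl (fun _ : Ω => True)
  have h2 : Pr (fun _ : Ω => ¬ True) = 0 := Pr_of_forall_not fun ω => by simp
  linarith

theorem Pr_cell_one [Nonempty Rs] {N : ℕ} {e : Sym2 (Fin N)} (he : ¬ e.IsDiag) (g : Tp) :
    Pr (fun lam : Fin N → Tp × Rs => cellL (e.map lam) = g) = 1 / Fintype.card Tp := by
  obtain ⟨v, hv⟩ : ∃ v, v ∈ e := by
    induction e using Sym2.ind with
    | _ a b => exact ⟨a, Sym2.mem_mk_left _ _⟩
  have h := cel_shift (fun c => celS (Rs := Rs) v c) (fun _ => True)
    (fun lam : Fin N → Tp × Rs => cellL (e.map lam)) (fun _ _ => Iff.rfl)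
    (fun c lam => celS_mem he hv c lam) g
  rw [cel_Pr_true] at h
  rw [← h]
  exact Pr_congr fun ω => by simp

theorem Pr_cell_two [Nonempty Rs] {N : ℕ} {e e' : Sym2 (Fin N)} (he : ¬ e.IsDiag)
    (he' : ¬ e'.IsDiag) (hne : e ≠ e') (g g' : Tp) :
    Pr (fun lam : Fin N → Tp × Rs => cellL (e.map lam) = g ∧ cellL (e'.map lam) = g') =
      (1 / Fintype.card Tp) ^ 2 := by
  obtain ⟨v, hv', hv⟩ : ∃ v, v ∈ e' ∧ v ∉ e := by
    by_contra hcon
    push Not at hcon
    apply hne
    induction e' using Sym2.ind with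
    | _ a b =>
      rw [Sym2.mk_isDiag_iff] at he'
      exact (Sym2.mem_and_mem_iff he').1
        ⟨hcon a (Sym2.mem_mk_left _ _), hcon b (Sym2.mem_mk_right _ _)⟩
  have h := cel_shift (fun c => celS (Rs := Rs) v c)
    (fun lam : Fin N → Tp × Rs => cellL (e.map lam) = g)
    (fun lam : Fin N → Tp × Rs => cellL (e'.map lam))
    (fun c lam => by rw [celS_not_mem hv])
    (fun c lam => celS_mem he' hv' c lam) g'
  rw [h, Pr_cell_one he g]
  ring

theorem Pr_cells [Nonempty Rs] {N d : ℕ} (E : Finset (Sym2 (Fin N)))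
    (hE : ∀ e ∈ E, ¬ e.IsDiag) (h1 : 2 * E.card ≤ d * Fintype.card Tp)
    (h2 : 40 * Fintype.card Tp ≤ d) :
    Pr (fun lam : Fin N → Tp × Rs =>
      ∃ g : Tp, d < (E.filter fun e => cellL (e.map lam) = g).card) ≤ 1 / 20 := by
  classical
  have hT : (0 : ℝ) < Fintype.card Tp := by exact_mod_cast Fintype.card_pos
  have hT1 : 1 ≤ Fintype.card Tp := Fintype.card_pos
  have hd : (0 : ℝ) < d := by
    have : 0 < d := by omega
    exact_mod_cast this
  have h1' : 2 * (E.card : ℝ) ≤ d * Fintype.card Tp := by exact_mod_cast h1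
  have h2' : 40 * (Fintype.card Tp : ℝ) ≤ d := by exact_mod_cast h2
  have hp : (E.card : ℝ) * (1 / Fintype.card Tp) ≤ d / 2 := by
    rw [mul_one_div, div_le_iff₀ hT]
    linarith
  have key : ∀ g : Tp, Pr (fun lam : Fin N → Tp × Rs =>
      d < (E.filter fun e => cellL (e.map lam) = g).card) ≤ 2 / d := by
    intro g
    have hc := chebyshev (Ω := Fin N → Tp × Rs) (J := {e // e ∈ E})
      (fun e lam => cellL (e.1.map lam) = g) (1 / Fintype.card Tp)
      (fun e => Pr_cell_one (hE e.1 e.2) g)
      (fun e e' hee => Pr_cell_two (hE e.1 e.2) (hE e'.1 e'.2)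
        (fun h => hee (Subtype.ext h)) g g) (s := d / 2) (by positivity)
    have hcard : (Fintype.card {e // e ∈ E} : ℝ) = E.card := by
      rw [Fintype.card_coe]
    rw [hcard] at hc
    have hle : (E.card : ℝ) * (1 / Fintype.card Tp) / ((d : ℝ) / 2) ^ 2 ≤ 2 / (d : ℝ) := by
      have e1 : 2 / (d : ℝ) = ((d : ℝ) / 2) / ((d : ℝ) / 2) ^ 2 := by
        field_simp
      rw [e1]
      exact div_le_div_of_nonneg_right hp (by positivity)
    refine le_trans (Pr_mono fun lam hlam => ?_) (hc.trans hle)
    have hcount : Nat.card {e : {e // e ∈ E} // cellL (e.1.map lam) = g} =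
        (E.filter fun e => cellL (e.map lam) = g).card := by
      rw [Nat.card_eq_fintype_card, Fintype.card_subtype]
      rw [← Finset.card_map (Function.Embedding.subtype _)]
      congr 1
      ext e
      simp only [Finset.mem_map, Finset.mem_filter, Finset.mem_univ, true_and,
        Function.Embedding.subtype_apply, Subtype.exists, exists_and_right, exists_eq_right]
      constructor
      · rintro ⟨h, h'⟩
        exact ⟨h, h'⟩
      · rintro ⟨h, h'⟩
        exact ⟨h, h'⟩
    rw [hcount]
    have hlam' : (d : ℝ) < ((E.filter fun e => cellL (e.map lam) = g).card : ℝ) := by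
      exact_mod_cast hlam
    refine le_trans ?_ (le_abs_self _)
    linarith
  have h3 := Pr_exists_le (Ω := Fin N → Tp × Rs) (Finset.univ : Finset Tp)
    (fun g lam => d < (E.filter fun e => cellL (e.map lam) = g).card)
  calc Pr (fun lam : Fin N → Tp × Rs =>
      ∃ g : Tp, d < (E.filter fun e => cellL (e.map lam) = g).card)
      ≤ ∑ g : Tp, Pr (fun lam : Fin N → Tp × Rs =>
        d < (E.filter fun e => cellL (e.map lam) = g).card) := by
        refine le_trans (le_of_eq (Pr_congr fun lam => ?_)) h3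
        simp
    _ ≤ ∑ _g : Tp, 2 / (d : ℝ) := Finset.sum_le_sum fun g _ => key g
    _ = Fintype.card Tp * (2 / d) := by
        rw [Finset.sum_const, Finset.card_univ, nsmul_eq_mul]
    _ ≤ 1 / 20 := by
        rw [← mul_div_assoc, div_le_div_iff₀ hd (by norm_num)]
        linarith

end Pool.Agent.Lib_MP_cc9a35_rb
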