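import Pool.Agent.Lib_MP_cc9a35_rb.PrProd

/-!
Piece PRF: `Pr` for uniformly random functions (independent samples).

Proofs.
* `Pr_forall_fun`: `{f // ∀ i, Q (f i)}` is equivalent to `Fin M → {x // Q x}`
  (compare `card_pi_forall` in `Pool.Agent.Lib_MP_cc9a35_lc.Upper`).
* `Pr_two`: the map `f ↦ ((f i, f j), restriction of f to the other indices)` is an equivalence of
  `ι → X` with `(X × X) × ({k // k ≠ i ∧ k ≠ j} → X)`; use `Pr_equiv` and `Pr_fst`.
  (Or: all the fibres of `f ↦ (f i, f j)` have the same cardinality.)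
* `Pr_coord`: same with one index.
-/

namespace Pool.Agent.Lib_MP_cc9a35_rb

variable {ι X : Type*} [Fintype ι] [DecidableEq ι] [Fintype X]

theorem Pr_forall_fun (M : ℕ) (Q : X → Prop) :
    Pr (fun f : Fin M → X => ∀ i, Q (f i)) = Pr Q ^ M := by
  classical
  unfold Pr
  have h1 : Nat.card {f : Fin M → X // ∀ i, Q (f i)} = (Nat.card {x // Q x}) ^ M := by
    rw [Nat.card_congr (Equiv.subtypePiEquivPi (p := fun _ x => Q x))]
    simp [Nat.card_eq_fintype_card]
  rw [h1, div_pow, Fintype.card_fun, Fintype.card_fin]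
  push_cast
  rfl

theorem Pr_coord [Nonempty X] (i : ι) (Q : X → Prop) :
    Pr (fun f : ι → X => Q (f i)) = Pr Q := by
  have h1 := Pr_equiv (Equiv.funSplitAt i X) (fun s => Q s.1)
  rw [Pr_fst] at h1
  rw [← h1]
  exact Pr_congr fun f => by simp [Equiv.funSplitAt]

theorem Pr_two [Nonempty X] {i j : ι} (hij : i ≠ j) (Q : X → X → Prop) :
    Pr (fun f : ι → X => Q (f i) (f j)) = Pr (fun s : X × X => Q s.1 s.2) := by
  have h1 := Pr_equiv (Equiv.funSplitAt i X) (fun s => Q s.1 (s.2 ⟨j, hij.symm⟩))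
  have h2 : Pr (fun f : ι → X => Q (f i) (f j)) =
      Pr (fun f : ι → X => (fun s : X × ({k // k ≠ i} → X) => Q s.1 (s.2 ⟨j, hij.symm⟩))
        (Equiv.funSplitAt i X f)) :=
    Pr_congr fun f => by simp [Equiv.funSplitAt]
  rw [h2, h1, Pr_prod_eq (fun x (g : {k // k ≠ i} → X) => Q x (g ⟨j, hij.symm⟩)), Pr_prod_eq]
  congr 1
  exact Finset.sum_congr rfl fun x _ => Pr_coord _ (Q x)

end Pool.Agent.Lib_MP_cc9a35_rb
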