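import Pool.Agent.Lib_MP_cc9a35_rb.Accept
import Pool.Agent.Lib_MP_cc9a35_rb.PrFun

/-!
Piece CRS: detecting pairs outside the label part.

Proofs.
* `Pr_avoid`: `Pr_forall_fun` for `¬ Q`, `Pr_compl`, and monotonicity of powers
  (`0 ≤ 1 - Pr Q ≤ 1 - δ`).
* `out_sound`: `OutOK` says that all the pairs `p l` avoid
  `Q s = ¬ IsOpen (ψ s.1) (ψ s.2) ∧ ¬ (G.Adj s.1 s.2 ↔ (tgraph code (fun _ => false) ψ).Adj s.1 s.2)`,
  and `Pr Q = (number of such ordered pairs) / N ^ 2`.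
* `coarse_sound`: choose `y ∈ Y`; by `card_differ` there are more than `3 / 2 * ε * N ^ 2` ordered pairs
  on which `G` and `tgraph code y ψ` differ, at most `(number of labels) ^ 2 ≤ ε / 2 * N ^ 2` of them are
  open, and on the others `tgraph code y ψ` agrees with `tgraph code (fun _ => false) ψ`
  (`rel_of_not_open`). Then `out_sound` with `δ = ε`.
-/

namespace Pool.Agent.Lib_MP_cc9a35_rb

open Pool.Agent.Lib_MP_cc9a35_lc

variable {t : ℕ} {L : Type} {N M : ℕ}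

theorem Pr_avoid {X : Type*} [Fintype X] [Nonempty X] (M : ℕ) (Q : X → Prop) {δ : ℝ}
    (hδ : δ ≤ Pr Q) :
    Pr (fun f : Fin M → X => ∀ i, ¬ Q (f i)) ≤ (1 - δ) ^ M := by
  have h1 : Pr (fun f : Fin M → X => ∀ i, ¬ Q (f i)) = Pr (fun x => ¬ Q x) ^ M :=
    Pr_forall_fun M (fun x => ¬ Q x)
  rw [h1]
  have h2 := Pr_compl Q
  have h3 := Pr_nonneg (fun x => ¬ Q x)
  exact pow_le_pow_left₀ h3 (by linarith) M

/-- the number of ordered pairs which are not open and on which the graph differs from the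
prediction -/
noncomputable def outCount (code : L → Fin t → Bool) (G : SimpleGraph (Fin N))
    (ψ : Fin N → Typ t L) : ℕ :=
  Nat.card {s : Fin N × Fin N // ¬ IsOpen (ψ s.1) (ψ s.2) ∧
    ¬ (G.Adj s.1 s.2 ↔ (tgraph code (fun _ => false) ψ).Adj s.1 s.2)}

theorem out_sound (hN : 0 < N) (code : L → Fin t → Bool) (G : SimpleGraph (Fin N))
    (ψ : Fin N → Typ t L) {δ : ℝ} (h : δ * (N : ℝ) ^ 2 ≤ (outCount code G ψ : ℝ)) :
    Pr (fun p : Fin M → Fin N × Fin N => OutOK code G ψ p) ≤ (1 - δ) ^ M := by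
  have hne : Nonempty (Fin N) := ⟨⟨0, hN⟩⟩
  have h1 : Pr (fun p : Fin M → Fin N × Fin N => OutOK code G ψ p) =
      Pr (fun p : Fin M → Fin N × Fin N => ∀ l, ¬ (¬ IsOpen (ψ (p l).1) (ψ (p l).2) ∧
        ¬ (G.Adj (p l).1 (p l).2 ↔ (tgraph code (fun _ => false) ψ).Adj (p l).1 (p l).2))) := by
    refine Pr_congr fun p => ?_
    unfold OutOK
    refine forall_congr' fun l => ?_
    tauto
  rw [h1]
  refine Pr_avoid M (fun s : Fin N × Fin N => ¬ IsOpen (ψ s.1) (ψ s.2) ∧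
    ¬ (G.Adj s.1 s.2 ↔ (tgraph code (fun _ => false) ψ).Adj s.1 s.2)) ?_
  have hN' : (0 : ℝ) < N := by exact_mod_cast hN
  unfold Pr
  rw [Fintype.card_prod, Fintype.card_fin, le_div_iff₀ (by push_cast; positivity)]
  unfold outCount at h
  push_cast
  calc δ * ((N : ℝ) * N) = δ * (N : ℝ) ^ 2 := by ring
    _ ≤ _ := h

theorem coarse_sound (hN : 0 < N) {code : L → Fin t → Bool} {Y : Set (Sym2 L → Bool)}
    {G : SimpleGraph (Fin N)} {ε : ℝ} (ψ : Fin N → Typ t L) (hY : Y.Nonempty)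
    (hfar : ∀ y ∈ Y, 3 / 4 * ε * (N : ℝ) ^ 2 < (pairDist G (tgraph code y ψ) : ℝ))
    (hlab : ((Nat.card {v // (ψ v).isRight = true} : ℝ) / N) ^ 2 ≤ ε / 2) :
    Pr (fun p : Fin M → Fin N × Fin N => OutOK code G ψ p) ≤ (1 - ε) ^ M := by
  classical
  obtain ⟨y, hy⟩ := hY
  have hN' : (0 : ℝ) < N := by exact_mod_cast hN
  refine out_sound hN code G ψ ?_
  have h1 := card_differ G (tgraph code y ψ)
  have h2 : Nat.card {e : Fin N × Fin N // ¬ (G.Adj e.1 e.2 ↔ (tgraph code y ψ).Adj e.1 e.2)} ≤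
      outCount code G ψ + Nat.card {v // (ψ v).isRight = true} ^ 2 := by
    unfold outCount
    rw [sq, ← Nat.card_prod, Nat.card_eq_fintype_card, Nat.card_eq_fintype_card,
      Nat.card_eq_fintype_card, Fintype.card_prod, Fintype.card_subtype, Fintype.card_subtype,
      Fintype.card_subtype, ← Finset.card_product]
    refine (Finset.card_le_card ?_).trans (Finset.card_union_le _ _)
    intro e he
    rw [Finset.mem_filter] at he
    rw [Finset.mem_union, Finset.mem_filter, Finset.mem_product, Finset.mem_filter,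
      Finset.mem_filter]
    by_cases ho : IsOpen (ψ e.1) (ψ e.2)
    · right
      obtain ⟨a, b, ha, hb, -⟩ := ho
      exact ⟨⟨Finset.mem_univ _, by rw [ha]; rfl⟩, ⟨Finset.mem_univ _, by rw [hb]; rfl⟩⟩
    · left
      refine ⟨Finset.mem_univ _, ho, fun hiff => he.2 ?_⟩
      rw [hiff, tgraph_adj, tgraph_adj, rel_of_not_open _ y ho]
  have h3 : (2 : ℝ) * (pairDist G (tgraph code y ψ) : ℝ) ≤
      (outCount code G ψ : ℝ) + (Nat.card {v // (ψ v).isRight = true} : ℝ) ^ 2 := by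
    rw [h1] at h2
    exact_mod_cast h2
  have h4 := hfar y hy
  have h5 : (Nat.card {v // (ψ v).isRight = true} : ℝ) ^ 2 ≤ ε / 2 * (N : ℝ) ^ 2 := by
    rw [div_pow, div_le_iff₀ (by positivity)] at hlab
    exact hlab
  linarith

end Pool.Agent.Lib_MP_cc9a35_rb
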