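import Pool.Agent.Lib_MP_cc9a35_rb.Acc

/-!
Piece CMB: running several algorithms one after the other and accepting if one of them accepts.

Proof. For trees: `orT T₁ T₂` runs `T₁`, then `T₂`, and accepts if one of them does, by recursion on
`T₁`: for `answer b` replace all the verdicts `c` in `T₂` by `b || c` (another recursion, `T₂` is still
run completely, so that the combination of non-adaptive trees is non-adaptive); for
`query u v t f` put `query u v (orT t T₂) (orT f T₂)`. Then `depth = depth T₁ + depth T₂`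
(`≤` suffices), `(orT T₁ T₂).Accepts G ↔ T₁.Accepts G ∨ T₂.Accepts G` and
`QueriesExactly L₁ T₁ → QueriesExactly L₂ T₂ → QueriesExactly (L₁ ++ L₂) (orT T₁ T₂)`.
For two randomised algorithms take `A.bind fun T₁ => B.map (orT T₁)`: if `a`, `b` are the acceptance
probabilities of `A` and `B` on `G`, then it accepts with probability
`∑' T₁, A T₁ * (if T₁ accepts then 1 else b) = a + (1 - a) * b`, which is `≥ a`, `≥ b` and `≤ a + b`.
(`PMF.toOuterMeasure_bind_apply`, `PMF.toOuterMeasure_map_apply`; it suffices to prove the three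
inequalities in `ℝ≥0∞`.) The theorem follows by induction on the finset `s`, the empty case being
`PMF.pure (QueryTree.answer false)`.
-/

namespace Pool.Agent.Lib_MP_cc9a35_rb

open Pool.Agent.Lib_MP_cc9a35_lc
open scoped ENNReal

variable {N : ℕ}

/-- Replace every verdict `c` by `b || c`. -/
def cmbB (b : Bool) : QueryTree N → QueryTree N
  | .answer c => .answer (b || c)
  | .query u v t f => .query u v (cmbB b t) (cmbB b f)

/-- Run the first tree, then the second one, and accept if one of them accepts. -/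
def cmbOr : QueryTree N → QueryTree N → QueryTree N
  | .answer b, T => cmbB b T
  | .query u v t f, T => .query u v (cmbOr t T) (cmbOr f T)

theorem cmbB_accepts (b : Bool) (G : SimpleGraph (Fin N)) (T : QueryTree N) :
    (cmbB b T).Accepts G ↔ b = true ∨ T.Accepts G := by
  induction T with
  | answer c => simp [cmbB, QueryTree.Accepts]
  | query u v t f iht ihf =>
    simp only [cmbB, QueryTree.Accepts, iht, ihf]
    by_cases h : G.Adj u v <;> simp [h]

theorem cmbB_depth (b : Bool) (T : QueryTree N) : (cmbB b T).depth = T.depth := by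
  induction T with
  | answer c => simp [cmbB, QueryTree.depth]
  | query u v t f iht ihf => simp [cmbB, QueryTree.depth, iht, ihf]

theorem cmbB_queries (b : Bool) (L : List (Fin N × Fin N)) (T : QueryTree N)
    (h : QueryTree.QueriesExactly L T) : QueryTree.QueriesExactly L (cmbB b T) := by
  induction T generalizing L with
  | answer c =>
    cases L with
    | nil => simp [cmbB, QueryTree.QueriesExactly]
    | cons e L => exact absurd h (by simp [QueryTree.QueriesExactly])
  | query u v t f iht ihf =>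
    cases L with
    | nil => exact absurd h (by simp [QueryTree.QueriesExactly])
    | cons e L =>
      simp only [QueryTree.QueriesExactly] at h
      simp only [cmbB, QueryTree.QueriesExactly]
      exact ⟨h.1, iht L h.2.1, ihf L h.2.2⟩

theorem cmbOr_accepts (G : SimpleGraph (Fin N)) (T₁ T₂ : QueryTree N) :
    (cmbOr T₁ T₂).Accepts G ↔ T₁.Accepts G ∨ T₂.Accepts G := by
  induction T₁ with
  | answer c => simp [cmbOr, QueryTree.Accepts, cmbB_accepts]
  | query u v t f iht ihf =>
    simp only [cmbOr, QueryTree.Accepts, iht, ihf]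
    by_cases h : G.Adj u v <;> simp [h]

theorem cmbOr_depth (T₁ T₂ : QueryTree N) : (cmbOr T₁ T₂).depth = T₁.depth + T₂.depth := by
  induction T₁ with
  | answer c => simp [cmbOr, QueryTree.depth, cmbB_depth]
  | query u v t f iht ihf =>
    simp only [cmbOr, QueryTree.depth, iht, ihf]
    omega

theorem cmbOr_queries (L₁ L₂ : List (Fin N × Fin N)) (T₁ T₂ : QueryTree N)
    (h₁ : QueryTree.QueriesExactly L₁ T₁) (h₂ : QueryTree.QueriesExactly L₂ T₂) :
    QueryTree.QueriesExactly (L₁ ++ L₂) (cmbOr T₁ T₂) := by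
  induction T₁ generalizing L₁ with
  | answer c =>
    cases L₁ with
    | nil => simpa [cmbOr] using cmbB_queries c L₂ T₂ h₂
    | cons e L => exact absurd h₁ (by simp [QueryTree.QueriesExactly])
  | query u v t f iht ihf =>
    cases L₁ with
    | nil => exact absurd h₁ (by simp [QueryTree.QueriesExactly])
    | cons e L =>
      simp only [QueryTree.QueriesExactly] at h₁
      simp only [cmbOr, List.cons_append, QueryTree.QueriesExactly]
      exact ⟨h₁.1, iht L h₁.2.1, ihf L h₁.2.2⟩

theorem cmbOr_nonadaptive {T₁ T₂ : QueryTree N} (h₁ : T₁.IsNonadaptive) (h₂ : T₂.IsNonadaptive) :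
    (cmbOr T₁ T₂).IsNonadaptive := by
  obtain ⟨L₁, h₁⟩ := h₁
  obtain ⟨L₂, h₂⟩ := h₂
  exact ⟨L₁ ++ L₂, cmbOr_queries L₁ L₂ T₁ T₂ h₁ h₂⟩

/-- The combination of two randomised algorithms. -/
noncomputable def cmb2 (A B : PMF (QueryTree N)) : PMF (QueryTree N) :=
  A.bind fun T₁ => B.map (cmbOr T₁)

theorem cmb2_support {A B : PMF (QueryTree N)} {T : QueryTree N} (h : T ∈ (cmb2 A B).support) :
    ∃ T₁ ∈ A.support, ∃ T₂ ∈ B.support, cmbOr T₁ T₂ = T := by
  unfold cmb2 at h
  rw [PMF.mem_support_bind_iff] at h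
  obtain ⟨T₁, h₁, h⟩ := h
  rw [PMF.mem_support_map_iff] at h
  obtain ⟨T₂, h₂, h⟩ := h
  exact ⟨T₁, h₁, T₂, h₂, h⟩

theorem cmb2_outer (A B : PMF (QueryTree N)) (G : SimpleGraph (Fin N)) :
    (cmb2 A B).toOuterMeasure {T | T.Accepts G} =
      ∑' T₁, A T₁ * B.toOuterMeasure {T₂ | T₁.Accepts G ∨ T₂.Accepts G} := by
  unfold cmb2
  rw [PMF.toOuterMeasure_bind_apply]
  refine tsum_congr fun T₁ => ?_
  rw [PMF.toOuterMeasure_map_apply]
  congr 2
  ext T₂
  exact cmbOr_accepts G T₁ T₂

theorem cmb2_ge_left (A B : PMF (QueryTree N)) (G : SimpleGraph (Fin N)) :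
    A.toOuterMeasure {T | T.Accepts G} ≤ (cmb2 A B).toOuterMeasure {T | T.Accepts G} := by
  classical
  rw [cmb2_outer, PMF.toOuterMeasure_apply]
  refine ENNReal.tsum_le_tsum fun T₁ => ?_
  by_cases h : T₁.Accepts G
  · have h1 : {T₂ : QueryTree N | T₁.Accepts G ∨ T₂.Accepts G} = Set.univ := by
      ext T₂
      simp [h]
    have h2 : B.toOuterMeasure (Set.univ : Set (QueryTree N)) = 1 := by
      rw [PMF.toOuterMeasure_apply, ← B.tsum_coe]
      simp
    rw [h1, h2, mul_one]
    exact Set.indicator_le_self _ _ T₁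
  · rw [Set.indicator_of_notMem (by simpa using h)]
    exact zero_le

theorem cmb2_ge_right (A B : PMF (QueryTree N)) (G : SimpleGraph (Fin N)) :
    B.toOuterMeasure {T | T.Accepts G} ≤ (cmb2 A B).toOuterMeasure {T | T.Accepts G} := by
  classical
  rw [cmb2_outer]
  have h1 : B.toOuterMeasure {T | T.Accepts G} =
      ∑' T₁, A T₁ * B.toOuterMeasure {T | T.Accepts G} := by
    rw [ENNReal.tsum_mul_right, A.tsum_coe, one_mul]
  rw [h1]
  refine ENNReal.tsum_le_tsum fun T₁ => ?_
  refine mul_le_mul' le_rfl (B.toOuterMeasure.mono ?_)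
  intro T₂ hT₂
  exact Or.inr hT₂

theorem cmb2_le (A B : PMF (QueryTree N)) (G : SimpleGraph (Fin N)) :
    (cmb2 A B).toOuterMeasure {T | T.Accepts G} ≤
      A.toOuterMeasure {T | T.Accepts G} + B.toOuterMeasure {T | T.Accepts G} := by
  classical
  have h1 : B.toOuterMeasure {T | T.Accepts G} =
      ∑' T₁, A T₁ * B.toOuterMeasure {T | T.Accepts G} := by
    rw [ENNReal.tsum_mul_right, A.tsum_coe, one_mul]
  rw [cmb2_outer, h1, PMF.toOuterMeasure_apply A, ← ENNReal.tsum_add]
  refine ENNReal.tsum_le_tsum fun T₁ => ?_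
  by_cases h : T₁.Accepts G
  · rw [Set.indicator_of_mem (by simpa using h)]
    refine le_trans ?_ le_self_add
    calc A T₁ * B.toOuterMeasure {T₂ | T₁.Accepts G ∨ T₂.Accepts G}
        ≤ A T₁ * 1 := by
          gcongr
          exact outer_le_one B _
      _ = A T₁ := mul_one _
  · have h1 : {T₂ : QueryTree N | T₁.Accepts G ∨ T₂.Accepts G} = {T₂ | T₂.Accepts G} := by
      ext T₂
      simp [h]
    rw [h1]
    exact le_add_self

theorem cmb_toReal_le {x y : ℝ≥0∞} (hy : y ≤ 1) (h : x ≤ y) : x.toReal ≤ y.toReal :=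
  ENNReal.toReal_mono (ne_top_of_le_ne_top ENNReal.one_ne_top hy) h

theorem cmb2_acc_left (A B : PMF (QueryTree N)) (G : SimpleGraph (Fin N)) :
    acc A G ≤ acc (cmb2 A B) G :=
  cmb_toReal_le (outer_le_one _ _) (cmb2_ge_left A B G)

theorem cmb2_acc_right (A B : PMF (QueryTree N)) (G : SimpleGraph (Fin N)) :
    acc B G ≤ acc (cmb2 A B) G :=
  cmb_toReal_le (outer_le_one _ _) (cmb2_ge_right A B G)

theorem cmb2_acc_le (A B : PMF (QueryTree N)) (G : SimpleGraph (Fin N)) :
    acc (cmb2 A B) G ≤ acc A G + acc B G := by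
  unfold acc
  have hA : A.toOuterMeasure {T | T.Accepts G} ≠ ⊤ :=
    ne_top_of_le_ne_top ENNReal.one_ne_top (outer_le_one _ _)
  have hB : B.toOuterMeasure {T | T.Accepts G} ≠ ⊤ :=
    ne_top_of_le_ne_top ENNReal.one_ne_top (outer_le_one _ _)
  rw [← ENNReal.toReal_add hA hB]
  exact ENNReal.toReal_mono (ENNReal.add_ne_top.mpr ⟨hA, hB⟩) (cmb2_le A B G)

/-- Several algorithms (non-adaptive ones if `nonad` holds) can be combined. -/
theorem combine {ι : Type} (s : Finset ι) (A : ι → PMF (QueryTree N)) (q : ι → ℕ) (nonad : Prop)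
    (h : ∀ i ∈ s, ∀ T ∈ (A i).support, (nonad → T.IsNonadaptive) ∧ T.depth ≤ q i) :
    ∃ B : PMF (QueryTree N),
      (∀ T ∈ B.support, (nonad → T.IsNonadaptive) ∧ T.depth ≤ ∑ i ∈ s, q i) ∧
      (∀ G, ∀ i ∈ s, acc (A i) G ≤ acc B G) ∧ ∀ G, acc B G ≤ ∑ i ∈ s, acc (A i) G := by
  classical
  induction s using Finset.induction_on with
  | empty =>
    refine ⟨PMF.pure (QueryTree.answer false), ?_, ?_, ?_⟩
    · intro T hT
      rw [PMF.support_pure, Set.mem_singleton_iff] at hT
      subst hT
      exact ⟨fun _ => ⟨[], trivial⟩, by simp [QueryTree.depth]⟩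
    · intro G i hi
      exact absurd hi (Finset.notMem_empty i)
    · intro G
      simp [acc, QueryTree.Accepts]
  | insert i s his ih =>
    obtain ⟨B, hB1, hB2, hB3⟩ := ih fun j hj T hT => h j (Finset.mem_insert_of_mem hj) T hT
    refine ⟨cmb2 (A i) B, ?_, ?_, ?_⟩
    · intro T hT
      obtain ⟨T₁, h₁, T₂, h₂, rfl⟩ := cmb2_support hT
      have e₁ := h i (Finset.mem_insert_self i s) T₁ h₁
      have e₂ := hB1 T₂ h₂
      refine ⟨fun hn => cmbOr_nonadaptive (e₁.1 hn) (e₂.1 hn), ?_⟩
      rw [cmbOr_depth, Finset.sum_insert his]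
      exact Nat.add_le_add e₁.2 e₂.2
    · intro G j hj
      rcases Finset.mem_insert.mp hj with rfl | hj
      · exact cmb2_acc_left _ _ G
      · exact (hB2 G j hj).trans (cmb2_acc_right _ _ G)
    · intro G
      rw [Finset.sum_insert his]
      exact (cmb2_acc_le _ _ G).trans (add_le_add_right (hB3 G) _)

end Pool.Agent.Lib_MP_cc9a35_rb
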