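import Pool.Agent.Lib_MP_cc9a35_rb.Accept
import Pool.Agent.Lib_MP_cc9a35_rb.PrFun
import Pool.Agent.Lib_MP_cc9a35_rb.PrCheb

/-!
Piece SZ: the size test.

Proof of `Pr_sample`: apply `chebyshev` with `J = Fin K`, `Q j x = Q (x j)`, `p = Nat.card {v // Q v} / N`
(`Pr_coord`, `Pr_two` and `Pr_prod_and` give the hypotheses), `s = K * η`; the bound is
`K * p / (K * η) ^ 2 ≤ 1 / (K * η ^ 2)` as `p ≤ 1`.

`size_sound`: if the number `n` of vertices of type `k` satisfies `|n / N - w / N| > 2 * η`, then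
`SizeOK` implies `|count / K - n / N| ≥ η`; same for the labels. So the probability is at most
`1 / (K * η ^ 2) ≤ θ`.

`size_complete`: `¬ SizeOK` implies for one of the at most `t` types `k ≠ 0` that `|count / K - w / N| > η`,
or `count / K > m / N + η ≥ (number of labels) / N + η`; the union bound gives
`(t + 1) / (K * η ^ 2) ≤ 1 / 20`.
-/

namespace Pool.Agent.Lib_MP_cc9a35_rb

open Pool.Agent.Lib_MP_cc9a35_lc

variable {t : ℕ} {L : Type} {N K : ℕ}

theorem Pr_sample (hN : 0 < N) (hK : 0 < K) (Q : Fin N → Prop) {η : ℝ} (hη : 0 < η) :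
    Pr (fun x : Fin K → Fin N =>
      η ≤ |(Nat.card {j // Q (x j)} : ℝ) / K - (Nat.card {v // Q v} : ℝ) / N|) ≤
      1 / (K * η ^ 2) := by
  have : Nonempty (Fin N) := ⟨⟨0, hN⟩⟩
  have hK' : (0 : ℝ) < K := by exact_mod_cast hK
  have hp : Pr Q = (Nat.card {v // Q v} : ℝ) / N := by
    unfold Pr
    rw [Fintype.card_fin]
  have h1 : ∀ j : Fin K, Pr (fun x : Fin K → Fin N => Q (x j)) = Pr Q := fun j => Pr_coord j Q
  have h2 : ∀ j j' : Fin K, j ≠ j' →
      Pr (fun x : Fin K → Fin N => Q (x j) ∧ Q (x j')) = Pr Q ^ 2 := by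
    intro j j' hne
    rw [Pr_two (X := Fin N) hne (fun a b => Q a ∧ Q b), Pr_prod_and, sq]
  have hs : (0 : ℝ) < K * η := mul_pos hK' hη
  have h3 := chebyshev (fun (j : Fin K) (x : Fin K → Fin N) => Q (x j)) (Pr Q) h1 h2 hs
  refine (Pr_mono ?_).trans (h3.trans ?_)
  · intro x hx
    rw [← hp] at hx
    rw [Fintype.card_fin]
    have e : (Nat.card {j // Q (x j)} : ℝ) - K * Pr Q =
        K * ((Nat.card {j // Q (x j)} : ℝ) / K - Pr Q) := by
      field_simp
    rw [e, abs_mul, abs_of_pos hK']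
    exact mul_le_mul_of_nonneg_left hx hK'.le
  · rw [Fintype.card_fin]
    have hp1 := Pr_le_one Q
    have e : (K : ℝ) * Pr Q / (K * η) ^ 2 = Pr Q / (K * η ^ 2) := by
      field_simp
    rw [e]
    gcongr

theorem size_sound (hN : 0 < N) (ψ : Fin N → Typ t L) {w m : ℕ} {η θ : ℝ} (hη : 0 < η)
    (hθ : 0 < θ) (hK : 1 ≤ K * η ^ 2 * θ)
    (h : (∃ k : Fin (t + 1), k ≠ 0 ∧
        2 * η < |(Nat.card {v // ψ v = .inl k} : ℝ) / N - (w : ℝ) / N|) ∨
      (m : ℝ) / N + 2 * η < (Nat.card {v // (ψ v).isRight = true} : ℝ) / N) :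
    Pr (fun x : Fin K → Fin N => SizeOK ψ w m η x) ≤ θ := by
  have hK0 : 0 < K := by
    rcases Nat.eq_zero_or_pos K with h0 | h0
    · subst h0
      simp at hK
      linarith
    · exact h0
  have hK' : (0 : ℝ) < K := by exact_mod_cast hK0
  have hKe : 1 / ((K : ℝ) * η ^ 2) ≤ θ := by
    rw [div_le_iff₀ (by positivity)]
    linarith
  refine le_trans ?_ hKe
  rcases h with ⟨k, hk, hlt⟩ | hlt
  · refine (Pr_mono ?_).trans (Pr_sample hN hK0 (fun v => ψ v = .inl k) hη)
    intro x hx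
    have h1 := hx.1 k hk
    set A := (Nat.card {j // ψ (x j) = .inl k} : ℝ) / K
    set B := (Nat.card {v // ψ v = .inl k} : ℝ) / N
    set C := (w : ℝ) / N
    have h2 : |B - C| ≤ |A - C| + |A - B| := by
      have e : B - C = (A - C) - (A - B) := by ring
      rw [e]
      exact abs_sub _ _
    change η ≤ |A - B|
    linarith
  · refine (Pr_mono ?_).trans (Pr_sample hN hK0 (fun v => (ψ v).isRight = true) hη)
    intro x hx
    have h1 := hx.2
    set A := (Nat.card {j // (ψ (x j)).isRight = true} : ℝ) / K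
    set B := (Nat.card {v // (ψ v).isRight = true} : ℝ) / N
    change η ≤ |A - B|
    rw [abs_sub_comm]
    refine le_trans ?_ (le_abs_self _)
    linarith

theorem size_complete (hN : 0 < N) (φ : Fin N → Typ t L) {w m : ℕ} (hs : Sizes φ w m) {η : ℝ}
    (hη : 0 < η) (hK : 20 * (t + 1) ≤ K * η ^ 2) :
    Pr (fun x : Fin K → Fin N => ¬ SizeOK φ w m η x) ≤ 1 / 20 := by
  have ht : (0 : ℝ) ≤ t := Nat.cast_nonneg _
  have hN' : (0 : ℝ) < N := by exact_mod_cast hN
  have hK0 : 0 < K := by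
    rcases Nat.eq_zero_or_pos K with h0 | h0
    · subst h0
      simp at hK
      linarith
    · exact h0
  have hK' : (0 : ℝ) < K := by exact_mod_cast hK0
  have hb : (0 : ℝ) < K * η ^ 2 := by positivity
  have h1 : ∀ x : Fin K → Fin N, ¬ SizeOK φ w m η x →
      ((∃ k ∈ (Finset.univ.erase (0 : Fin (t + 1))),
        η ≤ |(Nat.card {j // φ (x j) = .inl k} : ℝ) / K -
          (Nat.card {v // φ v = .inl k} : ℝ) / N|) ∨
        η ≤ |(Nat.card {j // (φ (x j)).isRight = true} : ℝ) / K -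
          (Nat.card {v // (φ v).isRight = true} : ℝ) / N|) := by
    intro x hx
    by_contra hcon
    push Not at hcon
    obtain ⟨hc1, hc2⟩ := hcon
    apply hx
    refine ⟨?_, ?_⟩
    · intro k hk
      have := hc1 k (Finset.mem_erase.2 ⟨hk, Finset.mem_univ _⟩)
      rw [hs.typ k hk] at this
      exact this.le
    · have h3 := (abs_lt.1 hc2).2
      have h4 : (Nat.card {v // (φ v).isRight = true} : ℝ) / N ≤ (m : ℝ) / N := by
        have := hs.lab
        gcongr
      linarith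
  refine (Pr_mono h1).trans ((Pr_or_le _ _).trans ?_)
  have h5 : Pr (fun x : Fin K → Fin N => ∃ k ∈ (Finset.univ.erase (0 : Fin (t + 1))),
        η ≤ |(Nat.card {j // φ (x j) = .inl k} : ℝ) / K -
          (Nat.card {v // φ v = .inl k} : ℝ) / N|) ≤ t * (1 / (K * η ^ 2)) := by
    refine (Pr_exists_le _ _).trans ?_
    refine (Finset.sum_le_card_nsmul _ _ _ fun k _ =>
      Pr_sample hN hK0 (fun v => φ v = .inl k) hη).trans ?_
    rw [Finset.card_erase_of_mem (Finset.mem_univ _), Finset.card_univ, Fintype.card_fin,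
      Nat.add_sub_cancel, nsmul_eq_mul]
  have h6 := Pr_sample hN hK0 (fun v => (φ v).isRight = true) hη
  have h7 : ((t : ℝ) + 1) * (1 / (K * η ^ 2)) ≤ 1 / 20 := by
    rw [mul_one_div, div_le_div_iff₀ hb (by norm_num)]
    linarith
  linarith

end Pool.Agent.Lib_MP_cc9a35_rb
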