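import Pool.Agent.Lib_MP_cc9a35_rb.ZGood
import Pool.Agent.Lib_MP_cc9a35_rb.SizeTest
import Pool.Agent.Lib_MP_cc9a35_rb.VTyp
import Pool.Agent.Lib_MP_cc9a35_rb.Coarse

/-!
Piece CMP: completeness of the tester at one scale.

Proofs.
* `outOK_self`: for a pair which is not open `rel_of_not_open` changes `y` to `fun _ => false`.
* `inOK_self`: `ExtOK` holds with `y` itself: representatives `x i`, `x j` of `a ≠ b` are different
  vertices (their types are different), so `G.Adj (x i) (x j) ↔ y s(a, b) = true` (`rep_some`). Similarly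
  for `CellOK`, both sides are equivalent to `y s(a, b) = true`.
* `Pr_cap`: `markov_count` with `c = cap + 1`: each `c l` is open with probability at most
  `(number of labels / N) ^ 2 ≤ (m / N) ^ 2` (`Pr_coord`, `Pr_prod_and`).
* `complete`: if `z` is good, then by `zgood_tuple` and `vtyp_eq` the type assignment
  `vtyp S.code G (fun k => z (j k))` is `φ`, and then `AcceptW` holds unless `SizeOK` fails or more than
  `cap` pairs are open. So `Pr (¬ Accept) ≤ 3 / 20 + 1 / 20 + 1 / 20 ≤ 1 / 3` (`Pr_prod_le_add` or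
  `Pr_or_le` with `Pr_fst`, `Pr_snd`), and `Pr_compl`.
-/

namespace Pool.Agent.Lib_MP_cc9a35_rb

open Pool.Agent.Lib_MP_cc9a35_lc

variable {t : ℕ} {L Γ : Type} {N T K J M : ℕ}

theorem outOK_self (code : L → Fin t → Bool) (y : Sym2 L → Bool) (φ : Fin N → Typ t L)
    (p : Fin M → Fin N × Fin N) : OutOK code (tgraph code y φ) φ p := by
  intro l hl
  rw [tgraph_adj, tgraph_adj]
  exact and_congr Iff.rfl (rel_of_not_open y (fun _ => false) hl)

theorem CMP_adj_inr (code : L → Fin t → Bool) (y : Sym2 L → Bool) (φ : Fin N → Typ t L)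
    {u v : Fin N} {a b : L} (hu : φ u = .inr a) (hv : φ v = .inr b) (hab : a ≠ b) :
    (tgraph code y φ).Adj u v ↔ y s(a, b) = true := by
  rw [tgraph_adj, hu, hv]
  constructor
  · rintro ⟨_, h⟩
    exact h.2
  · intro h
    refine ⟨?_, hab, h⟩
    intro he
    rw [he] at hu
    exact hab (Sum.inr.inj (hu.symm.trans hv))

theorem inOK_self (code : L → Fin t → Bool) (cell : Sym2 L → Γ) {Y : Set (Sym2 L → Bool)}
    (cap : ℕ) {y : Sym2 L → Bool} (hy : y ∈ Y) (φ : Fin N → Typ t L) (x : Fin K → Fin N)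
    (c : Fin J → Fin N × Fin N) (p : Fin M → Fin N × Fin N)
    (hc : Nat.card {l // IsOpen (φ (c l).1) (φ (c l).2)} ≤ cap) :
    InOK cell Y cap (tgraph code y φ) φ x c p := by
  refine ⟨hc, fun g _ => ⟨⟨y, hy, ?_⟩, ?_⟩⟩
  · intro a b i j hi hj hab _
    have h1 : φ (x i) = .inr a := rep_some (ψx := fun i => φ (x i)) hi
    have h2 : φ (x j) = .inr b := rep_some (ψx := fun i => φ (x i)) hj
    exact CMP_adj_inr code y φ h1 h2 hab
  · intro l a b i j h3 h4 hab _ hi hj
    have h1 : φ (x i) = .inr a := rep_some (ψx := fun i => φ (x i)) hi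
    have h2 : φ (x j) = .inr b := rep_some (ψx := fun i => φ (x i)) hj
    exact (CMP_adj_inr code y φ h3 h4 hab).trans (CMP_adj_inr code y φ h1 h2 hab).symm

theorem Pr_cap (hN : 0 < N) (φ : Fin N → Typ t L) {m cap : ℕ}
    (hm : Nat.card {v // (φ v).isRight = true} ≤ m)
    (hcap : 20 * (J * ((m : ℝ) / N) ^ 2) ≤ cap + 1) :
    Pr (fun c : Fin J → Fin N × Fin N =>
      ¬ Nat.card {l // IsOpen (φ (c l).1) (φ (c l).2)} ≤ cap) ≤ 1 / 20 := by
  have hN' : (0 : ℝ) < N := by exact_mod_cast hN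
  have : Nonempty (Fin N) := ⟨⟨0, hN⟩⟩
  have hc0 : (0 : ℝ) < (cap : ℝ) + 1 := by positivity
  have hR : Pr (fun v : Fin N => (φ v).isRight = true) ≤ (m : ℝ) / N := by
    unfold Pr
    rw [Fintype.card_fin]
    refine div_le_div_of_nonneg_right ?_ hN'.le
    exact_mod_cast hm
  have h1 : ∀ l : Fin J, Pr (fun c : Fin J → Fin N × Fin N =>
      IsOpen (φ (c l).1) (φ (c l).2)) ≤ ((m : ℝ) / N) ^ 2 := by
    intro l
    have h2 : Pr (fun c : Fin J → Fin N × Fin N => IsOpen (φ (c l).1) (φ (c l).2)) =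
        Pr (fun s : Fin N × Fin N => IsOpen (φ s.1) (φ s.2)) :=
      Pr_coord l (fun s : Fin N × Fin N => IsOpen (φ s.1) (φ s.2))
    have h3 : Pr (fun s : Fin N × Fin N => IsOpen (φ s.1) (φ s.2)) ≤
        Pr (fun s : Fin N × Fin N => (φ s.1).isRight = true ∧ (φ s.2).isRight = true) := by
      refine Pr_mono ?_
      rintro s ⟨a, b, ha, hb, _⟩
      rw [ha, hb]
      exact ⟨rfl, rfl⟩
    have h4 : Pr (fun s : Fin N × Fin N => (φ s.1).isRight = true ∧ (φ s.2).isRight = true) =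
        Pr (fun v : Fin N => (φ v).isRight = true) * Pr (fun v : Fin N => (φ v).isRight = true) :=
      Pr_prod_and (fun v : Fin N => (φ v).isRight = true) (fun v : Fin N => (φ v).isRight = true)
    rw [h2]
    refine h3.trans ?_
    rw [h4, sq]
    exact mul_le_mul hR hR (Pr_nonneg _) (by positivity)
  have h5 := markov_count (fun (l : Fin J) (c : Fin J → Fin N × Fin N) =>
    IsOpen (φ (c l).1) (φ (c l).2)) hc0
  have h6 : Pr (fun c : Fin J → Fin N × Fin N =>
      ¬ Nat.card {l // IsOpen (φ (c l).1) (φ (c l).2)} ≤ cap) ≤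
      Pr (fun c : Fin J → Fin N × Fin N =>
        (cap : ℝ) + 1 ≤ (Nat.card {l // IsOpen (φ (c l).1) (φ (c l).2)} : ℝ)) := by
    refine Pr_mono fun c hc => ?_
    rw [not_le] at hc
    exact_mod_cast hc
  have h7 : ∑ l : Fin J, Pr (fun c : Fin J → Fin N × Fin N =>
      IsOpen (φ (c l).1) (φ (c l).2)) ≤ J * ((m : ℝ) / N) ^ 2 := by
    refine (Finset.sum_le_sum fun l _ => h1 l).trans (le_of_eq ?_)
    rw [Finset.sum_const, Finset.card_univ, Fintype.card_fin, nsmul_eq_mul]
  refine h6.trans (h5.trans ?_)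
  rw [div_le_div_iff₀ hc0 (by norm_num)]
  linarith

/-- The numerical hypotheses for completeness at one scale. -/
structure CNum (t N T K J w m cap : ℕ) (η : ℝ) (r : ℕ) (fine : Prop) : Prop where
  hN : 0 < N
  hr : 0 < r
  hη : 0 < η
  hT : T = 2 * (r * (t + 8))
  hw : N ≤ r * w
  h0 : N ≤ r * (N - (t * w + m))
  hlab : 20 * (T * m) ≤ N
  hNT : 20 * T ^ 2 ≤ N
  hK : 20 * ((t : ℝ) + 1) ≤ K * η ^ 2
  hcap : fine → 20 * (J * ((m : ℝ) / N) ^ 2) ≤ cap + 1

theorem CMP_card_zero {φ : Fin N → Typ t L} {w m : ℕ} (hs : Sizes φ w m) :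
    N ≤ Nat.card {v // φ v = .inl 0} + (t * w + m) := by
  classical
  have h1 : (Finset.univ : Finset (Fin N)) ⊆
      (Finset.univ.filter fun v => φ v = .inl 0) ∪
        ((Finset.univ.biUnion fun k : Fin t => Finset.univ.filter fun v => φ v = .inl k.succ) ∪
          (Finset.univ.filter fun v => (φ v).isRight = true)) := by
    intro v _
    rw [Finset.mem_union, Finset.mem_union, Finset.mem_biUnion, Finset.mem_filter,
      Finset.mem_filter]
    rcases h : φ v with j | a
    · rcases Fin.eq_zero_or_eq_succ j with rfl | ⟨k, rfl⟩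
      · exact Or.inl ⟨Finset.mem_univ _, rfl⟩
      · refine Or.inr (Or.inl ⟨k, Finset.mem_univ _, ?_⟩)
        rw [Finset.mem_filter]
        exact ⟨Finset.mem_univ _, h⟩
    · exact Or.inr (Or.inr ⟨Finset.mem_univ _, rfl⟩)
  have h2 := Finset.card_le_card h1
  rw [Finset.card_univ, Fintype.card_fin] at h2
  have h3 := Finset.card_union_le (Finset.univ.filter fun v => φ v = .inl 0)
    ((Finset.univ.biUnion fun k : Fin t => Finset.univ.filter fun v => φ v = .inl k.succ) ∪
          (Finset.univ.filter fun v => (φ v).isRight = true))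
  have h4 := Finset.card_union_le
    (Finset.univ.biUnion fun k : Fin t => Finset.univ.filter fun v => φ v = .inl k.succ)
    (Finset.univ.filter fun v => (φ v).isRight = true)
  have h5 : (Finset.univ.biUnion fun k : Fin t =>
      Finset.univ.filter fun v => φ v = .inl k.succ).card ≤ t * w := by
    refine Finset.card_biUnion_le.trans (le_of_eq ?_)
    have h6 : ∀ k : Fin t, (Finset.univ.filter fun v => φ v = .inl k.succ).card = w := by
      intro k
      rw [← hs.typ k.succ (Fin.succ_ne_zero k), Nat.card_eq_fintype_card, Fintype.card_subtype]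
    rw [Finset.sum_congr rfl fun k _ => h6 k, Finset.sum_const, Finset.card_univ,
      Fintype.card_fin, smul_eq_mul]
  have h7 : (Finset.univ.filter fun v => (φ v).isRight = true).card ≤ m := by
    refine le_trans (le_of_eq ?_) hs.lab
    rw [Nat.card_eq_fintype_card, Fintype.card_subtype]
  have h8 : Nat.card {v // φ v = .inl 0} = (Finset.univ.filter fun v => φ v = .inl 0).card := by
    rw [Nat.card_eq_fintype_card, Fintype.card_subtype]
  omega

theorem complete (S : TP t L Γ) {r : ℕ} (hS : CNum t N T K J S.w S.m S.cap S.η r S.fine)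
    (hcode : CodeOK S.code) {G : SimpleGraph (Fin N)} (hG : IsMem S.code S.Y S.w S.m G) :
    2 / 3 ≤ Pr (fun s : Seeds N T K J M => Accept S G s) := by
  obtain ⟨φ, y, hy, hs, rfl⟩ := hG
  have hN := hS.hN
  have : Nonempty (Fin N) := ⟨⟨0, hN⟩⟩
  have hz : Pr (fun z : Fin T → Fin N => ¬ ZGood φ z) ≤ 3 / 20 := by
    refine Pr_not_zgood hS.hr hS.hT φ hN ?_ ?_ hS.hNT
    · intro i
      rcases eq_or_ne i 0 with rfl | hi
      · refine hS.h0.trans (Nat.mul_le_mul_left _ ?_)
        have := CMP_card_zero hs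
        omega
      · rw [hs.typ i hi]
        exact hS.hw
    · refine le_trans ?_ hS.hlab
      exact Nat.mul_le_mul_left _ (Nat.mul_le_mul_left _ hs.lab)
  have hsz : Pr (fun x : Fin K → Fin N => ¬ SizeOK φ S.w S.m S.η x) ≤ 1 / 20 :=
    size_complete hN φ hs hS.hη hS.hK
  -- good seeds are accepted
  have hacc : ∀ s : Seeds N T K J M, ¬ Accept S (tgraph S.code y φ) s →
      ¬ ZGood φ s.1 ∨ (¬ SizeOK φ S.w S.m S.η s.2.1 ∨
        (S.fine ∧ ¬ Nat.card {l // IsOpen (φ (s.2.2.1 l).1) (φ (s.2.2.1 l).2)} ≤ S.cap)) := by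
    intro s hs'
    by_contra hcon
    rw [not_or, not_or, not_not, not_not, not_and, not_not] at hcon
    obtain ⟨hz', hx', hc'⟩ := hcon
    refine hs' ?_
    obtain ⟨j, hj, hjw⟩ := zgood_tuple (code := S.code) (y := y) hz'
    refine ⟨j, hj, ?_⟩
    have hv : vtyp S.code (tgraph S.code y φ) (fun k => s.1 (j k)) = φ := by
      funext v
      exact vtyp_eq hcode y φ (fun k => s.1 (j k)) hjw v
    rw [hv]
    exact ⟨hx', outOK_self _ _ _ _, fun hf => inOK_self _ _ _ hy _ _ _ _ (hc' hf)⟩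
  have h1 : Pr (fun s : Seeds N T K J M => ¬ ZGood φ s.1) ≤ 3 / 20 :=
    le_trans (le_of_eq (Pr_fst (fun z : Fin T → Fin N => ¬ ZGood φ z))) hz
  have h2 : Pr (fun s : Seeds N T K J M => ¬ SizeOK φ S.w S.m S.η s.2.1) ≤ 1 / 20 := by
    refine le_trans (le_of_eq ?_) hsz
    rw [← Pr_fst (Ω' := (Fin J → Fin N × Fin N) × (Fin M → Fin N × Fin N))
      (fun x : Fin K → Fin N => ¬ SizeOK φ S.w S.m S.η x)]
    exact Pr_snd (Ω := Fin T → Fin N)
      (fun s' : Seeds' N K J M => ¬ SizeOK φ S.w S.m S.η s'.1)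
  have h3 : Pr (fun s : Seeds N T K J M => S.fine ∧
      ¬ Nat.card {l // IsOpen (φ (s.2.2.1 l).1) (φ (s.2.2.1 l).2)} ≤ S.cap) ≤ 1 / 20 := by
    by_cases hf : S.fine
    · have h4 := Pr_cap hN φ hs.lab (hS.hcap hf)
      refine le_trans (Pr_mono (Q' := fun s : Seeds N T K J M =>
        ¬ Nat.card {l // IsOpen (φ (s.2.2.1 l).1) (φ (s.2.2.1 l).2)} ≤ S.cap)
        fun s hs' => hs'.2) ?_
      refine le_trans (le_of_eq ?_) h4
      rw [← Pr_fst (Ω' := Fin M → Fin N × Fin N) (fun c : Fin J → Fin N × Fin N =>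
        ¬ Nat.card {l // IsOpen (φ (c l).1) (φ (c l).2)} ≤ S.cap),
        ← Pr_snd (Ω := Fin K → Fin N) (fun s' : (Fin J → Fin N × Fin N) ×
          (Fin M → Fin N × Fin N) =>
          ¬ Nat.card {l // IsOpen (φ (s'.1 l).1) (φ (s'.1 l).2)} ≤ S.cap)]
      exact Pr_snd (Ω := Fin T → Fin N) (fun s' : Seeds' N K J M =>
        ¬ Nat.card {l // IsOpen (φ (s'.2.1 l).1) (φ (s'.2.1 l).2)} ≤ S.cap)
    · rw [Pr_of_forall_not fun s hs' => hf hs'.1]
      norm_num
  have h5 : Pr (fun s : Seeds N T K J M => ¬ Accept S (tgraph S.code y φ) s) ≤ 1 / 4 := by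
    refine (Pr_mono hacc).trans ((Pr_or_le _ _).trans ?_)
    have h6 := Pr_or_le (fun s : Seeds N T K J M => ¬ SizeOK φ S.w S.m S.η s.2.1)
      (fun s : Seeds N T K J M => S.fine ∧
        ¬ Nat.card {l // IsOpen (φ (s.2.2.1 l).1) (φ (s.2.2.1 l).2)} ≤ S.cap)
    linarith
  have h7 := Pr_compl (fun s : Seeds N T K J M => Accept S (tgraph S.code y φ) s)
  linarith

end Pool.Agent.Lib_MP_cc9a35_rb
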