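import Pool.Agent.Lib_MP_cc9a35_lc.Defs

/-!
Testers for graphs with a fixed number of vertices, and robustly achievable exponents: the lower
bounds hold for all large numbers of vertices.
-/

namespace Pool.Agent.Lib_MP_cc9a35_rb

open Filter Topology
open Pool.Agent.Lib_MP_cc9a35_lc

/-- `P` has an `ε`-tester for `N`-vertex graphs making at most `q` queries. -/
def TestableAt (P : GraphProperty) (ε : ℝ) (N q : ℕ) : Prop :=
  ∃ A : PMF (QueryTree N), (∀ T ∈ A.support, T.depth ≤ q) ∧ IsTester P ε A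

/-- `P` has a non-adaptive `ε`-tester for `N`-vertex graphs making at most `q` queries. -/
def NonadaptivelyTestableAt (P : GraphProperty) (ε : ℝ) (N q : ℕ) : Prop :=
  ∃ A : PMF (QueryTree N),
    (∀ T ∈ A.support, T.IsNonadaptive ∧ T.depth ≤ q) ∧ IsTester P ε A

/-- The exponent `c` is robustly achievable: some graph property `P` has query complexity `q(ε)`
(unbounded as `ε → 0`) and non-adaptive query complexity `s(ε) = Θ̃(q(ε) ^ c)`, and for every small
`ε` and all large `N` already the `ε`-testers for `N`-vertex graphs need at least `q(ε)`, in the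
non-adaptive case `s(ε)`, queries up to a constant and a power of `log (1/ε)`. -/
def RobustlyAchievable (c : ℝ) : Prop :=
  ∃ (P : GraphProperty) (q s : ℝ → ℕ),
    IsQueryComplexity P q ∧ IsNonadaptiveQueryComplexity P s ∧
    Tendsto (fun ε => (q ε : ℝ)) (𝓝[>] 0) atTop ∧
    SoftLE (fun ε => (s ε : ℝ)) (fun ε => (q ε : ℝ) ^ c) ∧
    SoftLE (fun ε => (q ε : ℝ) ^ c) (fun ε => (s ε : ℝ)) ∧
    ∃ (C : ℝ) (k : ℕ), ∀ᶠ ε in 𝓝[>] (0 : ℝ), ∀ᶠ N : ℕ in atTop,
      (∀ n, TestableAt P ε N n → (q ε : ℝ) ≤ C * Real.log (1 / ε) ^ k * n) ∧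
      (∀ n, NonadaptivelyTestableAt P ε N n → (s ε : ℝ) ≤ C * Real.log (1 / ε) ^ k * n)

end Pool.Agent.Lib_MP_cc9a35_rb
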