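import Pool.Agent.Lib_MP_cc9a35_rb.Repair

/-!
Piece DST: distances.

Proofs.
* `pairDist_triangle`: `symmDiff A C ⊆ symmDiff A B ∪ symmDiff B C`, `Set.ncard_union_le`.
* `pairDist_moved`: by `card_differ` twice the distance is the number of ordered pairs on which the
  graphs differ; such a pair `(u, v)` has `φ u ≠ ψ u` or `φ v ≠ ψ v`, so there are at most
  `2 * moved * N` of them.
* `far_tgraph`: multiply the hypotheses by `N`, apply `repair` with `δ = 2 * η * N`: at most
  `(t + 1) * 2 * η * N = ε / 4 * N` vertices are moved. The graph `tgraph code y φ` is a member, so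
  `ε * N ^ 2 < pairDist G (tgraph code y φ) ≤ pairDist G (tgraph code y ψ) + ε / 4 * N * N`.
-/

namespace Pool.Agent.Lib_MP_cc9a35_rb

open Pool.Agent.Lib_MP_cc9a35_lc

variable {t : ℕ} {L : Type} {N : ℕ}

theorem pairDist_triangle (G H K : SimpleGraph (Fin N)) :
    pairDist G K ≤ pairDist G H + pairDist H K := by
  unfold pairDist
  exact (Set.ncard_le_ncard (symmDiff_triangle G.edgeSet H.edgeSet K.edgeSet)
    (Set.toFinite _)).trans (Set.ncard_union_le _ _)

theorem pairDist_moved (code : L → Fin t → Bool) (y : Sym2 L → Bool) (φ ψ : Fin N → Typ t L) :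
    pairDist (tgraph code y φ) (tgraph code y ψ) ≤ Nat.card {v // φ v ≠ ψ v} * N := by
  classical
  have h1 := card_differ (tgraph code y φ) (tgraph code y ψ)
  have hS : Nat.card {v // φ v ≠ ψ v} = (Finset.univ.filter (fun v => φ v ≠ ψ v)).card := by
    rw [Nat.card_eq_fintype_card, Fintype.card_subtype]
  have h2 : Nat.card {e : Fin N × Fin N //
      ¬ ((tgraph code y φ).Adj e.1 e.2 ↔ (tgraph code y ψ).Adj e.1 e.2)} ≤
      Nat.card {v // φ v ≠ ψ v} * N + N * Nat.card {v // φ v ≠ ψ v} := by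
    rw [hS, Nat.card_eq_fintype_card, Fintype.card_subtype]
    have hsub : (Finset.univ.filter (fun e : Fin N × Fin N =>
        ¬ ((tgraph code y φ).Adj e.1 e.2 ↔ (tgraph code y ψ).Adj e.1 e.2))) ⊆
        ((Finset.univ.filter (fun v => φ v ≠ ψ v)) ×ˢ (Finset.univ : Finset (Fin N))) ∪
        ((Finset.univ : Finset (Fin N)) ×ˢ (Finset.univ.filter (fun v => φ v ≠ ψ v))) := by
      intro e he
      rw [Finset.mem_filter] at he
      rw [Finset.mem_union, Finset.mem_product, Finset.mem_product, Finset.mem_filter,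
        Finset.mem_filter]
      by_contra hcon
      push Not at hcon
      have e1 : φ e.1 = ψ e.1 := by
        by_contra hne
        exact hcon.1 ⟨Finset.mem_univ _, hne⟩ (Finset.mem_univ _)
      have e2 : φ e.2 = ψ e.2 := hcon.2 (Finset.mem_univ _) (Finset.mem_univ _)
      apply he.2
      rw [tgraph_adj, tgraph_adj, e1, e2]
    refine (Finset.card_le_card hsub).trans ((Finset.card_union_le _ _).trans (le_of_eq ?_))
    rw [Finset.card_product, Finset.card_product, Finset.card_univ, Fintype.card_fin]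
  rw [h1, mul_comm N] at h2
  omega

theorem far_tgraph [Nonempty L] {code : L → Fin t → Bool} {Y : Set (Sym2 L → Bool)} {w m : ℕ}
    {G : SimpleGraph (Fin N)} {ε η : ℝ} (hN : 0 < N) (hε : 0 < ε) (hη : η = ε / (8 * (t + 1)))
    (hfar : ∀ H, IsMem code Y w m H → ε * (N : ℝ) ^ 2 < (pairDist G H : ℝ))
    (hsum : t * w + m ≤ N) (ψ : Fin N → Typ t L)
    (h1 : ∀ k : Fin (t + 1), k ≠ 0 →
      |(Nat.card {v // ψ v = .inl k} : ℝ) / N - (w : ℝ) / N| ≤ 2 * η)
    (h2 : (Nat.card {v // (ψ v).isRight = true} : ℝ) / N ≤ (m : ℝ) / N + 2 * η)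
    {y : Sym2 L → Bool} (hy : y ∈ Y) :
    3 / 4 * ε * (N : ℝ) ^ 2 < (pairDist G (tgraph code y ψ) : ℝ) := by
  have hN' : (0 : ℝ) < N := by exact_mod_cast hN
  have ht : (0 : ℝ) < (t : ℝ) + 1 := by positivity
  have hη0 : 0 < η := by
    rw [hη]
    positivity
  have hδ : (0 : ℝ) ≤ 2 * η * N := by positivity
  obtain ⟨φ, hφ, hmov⟩ := repair ψ hsum hδ (fun k hk => by
      have h := h1 k hk
      rw [← sub_div, abs_div, abs_of_pos hN', div_le_iff₀ hN'] at h
      exact h) (by
      have h := mul_le_mul_of_nonneg_right h2 hN'.le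
      rw [div_mul_cancel₀ _ hN'.ne', add_mul, div_mul_cancel₀ _ hN'.ne'] at h
      exact h)
  have hf := hfar (tgraph code y φ) ⟨φ, y, hy, hφ, rfl⟩
  have ht1 : (pairDist G (tgraph code y φ) : ℝ) ≤ pairDist G (tgraph code y ψ) +
      pairDist (tgraph code y φ) (tgraph code y ψ) := by
    have h := pairDist_triangle G (tgraph code y ψ) (tgraph code y φ)
    rw [pairDist_comm (tgraph code y ψ) (tgraph code y φ)] at h
    exact_mod_cast h
  have ht2 : (pairDist (tgraph code y φ) (tgraph code y ψ) : ℝ) ≤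
      (Nat.card {v // φ v ≠ ψ v} : ℝ) * N := by
    exact_mod_cast pairDist_moved code y φ ψ
  have ht3 : (Nat.card {v // φ v ≠ ψ v} : ℝ) * N ≤ (ε / 4 * N) * N := by
    refine mul_le_mul_of_nonneg_right (hmov.trans (le_of_eq ?_)) hN'.le
    rw [hη]
    field_simp
    ring
  nlinarith [hf, ht1, ht2, ht3]

end Pool.Agent.Lib_MP_cc9a35_rb
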