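import Pool.Agent.Lib_MP_cc9a35_rb.Empty

/-!
Piece EDG: numbers of edges.

Proof of `edges_lower`: let `B` be the set of the vertices of the types `inl k` with `2 * k > t`. It has
`(t - t / 2) * w ≥ t * w / 2` elements, at least `2` of them as `t ≥ 1` and `w ≥ 2`, and any two different
ones are adjacent (`k + k' > t`). So there are at least `card B * (card B - 1)` ordered adjacent pairs,
and `2 * pairDist G ⊥` is the number of these pairs (`card_differ`). Since `card B ≥ 2`,
`card B * (card B - 1) ≥ card B ^ 2 / 2 ≥ (t * w) ^ 2 / 8`.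
Proof of `edges_upper`: adjacent vertices have types different from `inl 0` (`isolated_zero`,
`card_nonzero`).
-/

namespace Pool.Agent.Lib_MP_cc9a35_rb

open Pool.Agent.Lib_MP_cc9a35_lc

variable {t : ℕ} {L : Type} {N : ℕ}

theorem card_adj_pairs (G : SimpleGraph (Fin N)) :
    Nat.card {e : Fin N × Fin N // G.Adj e.1 e.2} = 2 * pairDist G ⊥ := by
  rw [← card_differ]
  refine Nat.card_congr (Equiv.subtypeEquivRight fun e => ?_)
  simp

theorem edges_lower (code : L → Fin t → Bool) (y : Sym2 L → Bool) {φ : Fin N → Typ t L}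
    {w m : ℕ} (hs : Sizes φ w m) (ht : 1 ≤ t) (hw : 2 ≤ w) :
    (t * w) ^ 2 ≤ 16 * pairDist (tgraph code y φ) ⊥ := by
  classical
  set K : Finset (Fin (t + 1)) := Finset.univ.filter fun k => t < 2 * (k : ℕ) with hK
  have hKcard : t - t / 2 ≤ K.card := by
    refine Finset.le_card_of_inj_on_range (fun i => Fin.ofNat (t + 1) (t - i)) ?_ ?_
    · intro i hi
      rw [hK, Finset.mem_filter]
      refine ⟨Finset.mem_univ _, ?_⟩
      have : ((Fin.ofNat (t + 1) (t - i) : Fin (t + 1)) : ℕ) = t - i := by
        simp only [Fin.val_ofNat]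
        exact Nat.mod_eq_of_lt (by omega)
      rw [this]
      omega
    · intro i hi j hj hij
      have h1 := congrArg Fin.val hij
      simp only [Fin.val_ofNat] at h1
      rw [Nat.mod_eq_of_lt (by omega), Nat.mod_eq_of_lt (by omega)] at h1
      omega
  set B : Finset (Fin N) := K.biUnion fun k => Finset.univ.filter fun v => φ v = .inl k with hB
  have hBcard : B.card = K.card * w := by
    rw [hB, Finset.card_biUnion]
    · rw [Finset.sum_const_nat]
      intro k hk
      have hk0 : k ≠ 0 := by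
        rintro rfl
        have := (Finset.mem_filter.1 hk).2
        simp at this
      have := hs.typ k hk0
      rwa [Nat.card_eq_fintype_card, Fintype.card_subtype] at this
    · intro k _ k' _ hkk'
      change Disjoint _ _
      rw [Finset.disjoint_left]
      intro v hv hv'
      have h1 := (Finset.mem_filter.1 hv).2
      have h2 := (Finset.mem_filter.1 hv').2
      rw [h1] at h2
      exact hkk' (Sum.inl_injective h2)
  have hsub : B.offDiag ⊆ Finset.univ.filter fun e : Fin N × Fin N =>
      (tgraph code y φ).Adj e.1 e.2 := by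
    rintro ⟨u, v⟩ huv
    obtain ⟨hu, hv, hne⟩ := Finset.mem_offDiag.1 huv
    obtain ⟨k, hk, hu'⟩ := Finset.mem_biUnion.1 hu
    obtain ⟨k', hk', hv'⟩ := Finset.mem_biUnion.1 hv
    have e1 := (Finset.mem_filter.1 hu').2
    have e2 := (Finset.mem_filter.1 hv').2
    have e3 := (Finset.mem_filter.1 hk).2
    have e4 := (Finset.mem_filter.1 hk').2
    refine Finset.mem_filter.2 ⟨Finset.mem_univ _, hne, ?_⟩
    change rel code y (φ u) (φ v)
    rw [e1, e2]
    change t < (k : ℕ) + (k' : ℕ)
    omega
  have h1 := Finset.card_le_card hsub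
  rw [Finset.offDiag_card] at h1
  have h2 := card_adj_pairs (tgraph code y φ)
  rw [Nat.card_eq_fintype_card, Fintype.card_subtype] at h2
  rw [h2] at h1
  have h3 : t * w ≤ 2 * B.card := by
    rw [hBcard]
    have : t ≤ 2 * K.card := by omega
    calc t * w ≤ (2 * K.card) * w := Nat.mul_le_mul_right _ this
      _ = 2 * (K.card * w) := by ring
  have h4 : 2 ≤ B.card := by
    rw [hBcard]
    have : 1 ≤ K.card := by omega
    nlinarith
  have h5 : B.card * B.card ≤ 2 * pairDist (tgraph code y φ) ⊥ + B.card := by omega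
  have h6 : 2 * B.card ≤ B.card * B.card := Nat.mul_le_mul_right _ h4
  calc (t * w) ^ 2 ≤ (2 * B.card) ^ 2 := Nat.pow_le_pow_left h3 2
    _ = 4 * (B.card * B.card) := by ring
    _ ≤ 16 * pairDist (tgraph code y φ) ⊥ := by omega

theorem edges_upper {code : L → Fin t → Bool} {Y : Set (Sym2 L → Bool)} {w m : ℕ}
    {H : SimpleGraph (Fin N)} (hH : IsMem code Y w m H) :
    2 * pairDist H ⊥ ≤ (t * w + m) ^ 2 := by
  classical
  obtain ⟨φ, y, -, hs, rfl⟩ := hH
  have h1 := card_nonzero hs
  rw [← card_adj_pairs]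
  have h2 : Nat.card {e : Fin N × Fin N // (tgraph code y φ).Adj e.1 e.2} ≤
      Nat.card ({v // φ v ≠ .inl 0} × {v // φ v ≠ .inl 0}) := by
    refine Nat.card_le_card_of_injective
      (fun e => (⟨e.1.1, (isolated_zero e.2).1⟩, ⟨e.1.2, (isolated_zero e.2).2⟩)) ?_
    rintro ⟨⟨u, v⟩, h⟩ ⟨⟨u', v'⟩, h'⟩ heq
    simp only [Prod.mk.injEq, Subtype.mk.injEq] at heq
    exact Subtype.ext (Prod.ext heq.1 heq.2)
  rw [Nat.card_prod] at h2
  exact h2.trans (by rw [sq]; exact Nat.mul_le_mul h1 h1)

end Pool.Agent.Lib_MP_cc9a35_rb
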