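import Pool.Agent.Lib_MP_cc9a35_rb.Coarse
import Pool.Agent.Lib_MP_cc9a35_rb.Acc

/-!
Piece EMP: the tester for the edgeless graph, which also accepts the members of large scales.

Proof. For `p : Fin M → Fin N × Fin N` take the non-adaptive tree asking the queries `p l`
(`exists_nonadaptive` in `Pool.Agent.Lib_MP_cc9a35_lc.Trees`) which accepts if all answers are negative,
and the uniform distribution on `p` (`acc_seeds`). It accepts with probability
`(1 - 2 * pairDist G ⊥ / N ^ 2) ^ M`: the number of ordered adjacent pairs is `2 * pairDist G ⊥` by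
`card_differ`. If `ε * N ^ 2 < pairDist G ⊥` this is at most `(1 - ε) ^ M`. If all edges of `G` lie inside a
set of `a` vertices, then the probability to reject is at most `M * a ^ 2 / N ^ 2 ≤ 1 / 3`.
For a member the set is the set of the vertices whose type is not `inl 0`; it has at most `t * w + m`
elements.
-/

namespace Pool.Agent.Lib_MP_cc9a35_rb

open Pool.Agent.Lib_MP_cc9a35_lc

variable {t : ℕ} {L : Type} {N : ℕ}

theorem emp_rel_zero {code : L → Fin t → Bool} {y : Sym2 L → Bool} (θ : Typ t L) :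
    ¬ rel code y (.inl 0) θ := by
  rcases θ with j | a
  · intro h
    change t < ((0 : Fin (t + 1)) : ℕ) + (j : ℕ) at h
    have := j.2
    simp only [Fin.val_zero, zero_add] at h
    omega
  · rintro ⟨k, hk, -⟩
    simp only [Fin.val_zero] at hk
    omega

theorem isolated_zero {code : L → Fin t → Bool} {y : Sym2 L → Bool} {φ : Fin N → Typ t L}
    {u v : Fin N} (h : (tgraph code y φ).Adj u v) : φ u ≠ .inl 0 ∧ φ v ≠ .inl 0 := by
  rw [tgraph_adj] at h
  refine ⟨fun hu => ?_, fun hv => ?_⟩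
  · rw [hu] at h
    exact emp_rel_zero _ h.2
  · rw [hv] at h
    exact emp_rel_zero _ (rel_symm h.2)

theorem card_nonzero {φ : Fin N → Typ t L} {w m : ℕ} (hs : Sizes φ w m) :
    Nat.card {v // φ v ≠ .inl 0} ≤ t * w + m := by
  classical
  have h1 : ∀ k : Fin t, (Finset.univ.filter (fun v => φ v = .inl k.succ)).card = w := by
    intro k
    rw [← hs.typ k.succ (Fin.succ_ne_zero k), Nat.card_eq_fintype_card, Fintype.card_subtype]
  have h2 : (Finset.univ.filter (fun v => (φ v).isRight = true)).card ≤ m := by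
    refine le_trans (le_of_eq ?_) hs.lab
    rw [Nat.card_eq_fintype_card, Fintype.card_subtype]
  have hsub : (Finset.univ.filter (fun v => φ v ≠ .inl 0)) ⊆
      ((Finset.univ : Finset (Fin t)).biUnion
        (fun k => Finset.univ.filter (fun v => φ v = .inl k.succ))) ∪
        Finset.univ.filter (fun v => (φ v).isRight = true) := by
    intro v hv
    rw [Finset.mem_filter] at hv
    rw [Finset.mem_union, Finset.mem_biUnion]
    rcases hc : φ v with j | a
    · left
      have hj : j ≠ 0 := by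
        intro h0
        apply hv.2
        rw [hc, h0]
      refine ⟨j.pred hj, Finset.mem_univ _, ?_⟩
      rw [Finset.mem_filter, Fin.succ_pred]
      exact ⟨Finset.mem_univ _, hc⟩
    · right
      rw [Finset.mem_filter, hc]
      exact ⟨Finset.mem_univ _, rfl⟩
  rw [Nat.card_eq_fintype_card, Fintype.card_subtype]
  refine (Finset.card_le_card hsub).trans ((Finset.card_union_le _ _).trans (add_le_add ?_ h2))
  refine Finset.card_biUnion_le.trans (le_of_eq ?_)
  rw [Finset.sum_congr rfl (fun k _ => h1 k), Finset.sum_const, Finset.card_univ,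
    Fintype.card_fin, smul_eq_mul]

theorem emp_pr_adj (G : SimpleGraph (Fin N)) :
    Pr (fun e : Fin N × Fin N => G.Adj e.1 e.2) = 2 * (pairDist G ⊥ : ℝ) / (N : ℝ) ^ 2 := by
  have h1 := card_differ G ⊥
  have h2 : Nat.card {e : Fin N × Fin N // G.Adj e.1 e.2} = 2 * pairDist G ⊥ := by
    rw [← h1]
    refine Nat.card_congr (Equiv.subtypeEquivRight (fun e => ?_))
    rw [SimpleGraph.bot_adj]
    tauto
  unfold Pr
  rw [h2, Fintype.card_prod, Fintype.card_fin, pow_two]
  push_cast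
  ring

theorem emp_pr_in (G : SimpleGraph (Fin N)) (Q : Fin N → Prop)
    (hQ : ∀ u v, G.Adj u v → Q u ∧ Q v) :
    Pr (fun e : Fin N × Fin N => G.Adj e.1 e.2) ≤
      (Nat.card {v // Q v} : ℝ) ^ 2 / (N : ℝ) ^ 2 := by
  have h1 : Pr (fun e : Fin N × Fin N => G.Adj e.1 e.2) ≤
      Pr (fun e : Fin N × Fin N => Q e.1 ∧ Q e.2) := Pr_mono (fun e he => hQ _ _ he)
  refine h1.trans (le_of_eq ?_)
  rw [Pr_prod_and Q Q]
  unfold Pr
  rw [Fintype.card_fin]
  ring

theorem empty_tester (hN : 0 < N) (M : ℕ) :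
    ∃ A : PMF (QueryTree N),
      (∀ T ∈ A.support, T.IsNonadaptive ∧ T.depth ≤ M) ∧
      acc A ⊥ = 1 ∧
      (∀ (G : SimpleGraph (Fin N)) (ε : ℝ), ε * (N : ℝ) ^ 2 < (pairDist G ⊥ : ℝ) → ε ≤ 1 →
        acc A G ≤ (1 - ε) ^ M) ∧
      (∀ (G : SimpleGraph (Fin N)) (Q : Fin N → Prop), (∀ u v, G.Adj u v → Q u ∧ Q v) →
        3 * M * Nat.card {v // Q v} ^ 2 ≤ N ^ 2 → 2 / 3 ≤ acc A G) := by
  classical
  haveI : Nonempty (Fin N) := ⟨⟨0, hN⟩⟩
  have hN' : (0 : ℝ) < N := by exact_mod_cast hN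
  have hex : ∀ p : Fin M → Fin N × Fin N, ∃ T : QueryTree N, T.IsNonadaptive ∧
      T.depth = (List.ofFn p).length ∧ ∀ G, (T.Accepts G ↔ ∀ l, ¬ G.Adj (p l).1 (p l).2) := by
    intro p
    refine exists_nonadaptive (List.ofFn p) (fun G => ∀ l, ¬ G.Adj (p l).1 (p l).2) ?_
    intro G H hGH
    refine forall_congr' fun l => not_congr ?_
    exact hGH (p l) ((List.mem_ofFn' p _).2 ⟨l, rfl⟩)
  choose T h1 h2 h3 using hex
  have hacc : ∀ G, acc ((PMF.uniformOfFintype (Fin M → Fin N × Fin N)).map T) G =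
      Pr (fun p : Fin M → Fin N × Fin N => ∀ l, ¬ G.Adj (p l).1 (p l).2) := by
    intro G
    rw [acc_seeds]
    exact Pr_congr (fun p => h3 p G)
  refine ⟨(PMF.uniformOfFintype (Fin M → Fin N × Fin N)).map T, ?_, ?_, ?_, ?_⟩
  · intro T' hT'
    obtain ⟨p, rfl⟩ := support_seeds T hT'
    refine ⟨h1 p, ?_⟩
    rw [h2 p, List.length_ofFn]
  · rw [hacc]
    have h4 := Pr_compl (fun p : Fin M → Fin N × Fin N =>
      ∀ l, ¬ (⊥ : SimpleGraph (Fin N)).Adj (p l).1 (p l).2)
    rw [Pr_of_forall_not (Q := fun p : Fin M → Fin N × Fin N =>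
      ¬ ∀ l, ¬ (⊥ : SimpleGraph (Fin N)).Adj (p l).1 (p l).2)] at h4
    · linarith
    · intro p hp
      exact hp (fun l => by rw [SimpleGraph.bot_adj]; exact not_false)
  · intro G ε hε _
    rw [hacc]
    refine Pr_avoid M (fun e : Fin N × Fin N => G.Adj e.1 e.2) ?_
    rw [emp_pr_adj G, le_div_iff₀ (by positivity)]
    have h5 : (0 : ℝ) ≤ pairDist G ⊥ := Nat.cast_nonneg _
    linarith
  · intro G Q hQ hM
    rw [hacc]
    have h4 := Pr_compl (fun p : Fin M → Fin N × Fin N => ∀ l, ¬ G.Adj (p l).1 (p l).2)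
    have h5 : Pr (fun p : Fin M → Fin N × Fin N => ¬ ∀ l, ¬ G.Adj (p l).1 (p l).2) ≤
        ∑ l ∈ (Finset.univ : Finset (Fin M)),
          Pr (fun p : Fin M → Fin N × Fin N => G.Adj (p l).1 (p l).2) := by
      refine le_trans (Pr_mono ?_) (Pr_exists_le Finset.univ
        (fun (l : Fin M) (p : Fin M → Fin N × Fin N) => G.Adj (p l).1 (p l).2))
      intro p hp
      push Not at hp
      obtain ⟨l, hl⟩ := hp
      exact ⟨l, Finset.mem_univ _, hl⟩
    have h6 : ∀ l : Fin M, Pr (fun p : Fin M → Fin N × Fin N => G.Adj (p l).1 (p l).2) ≤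
        (Nat.card {v // Q v} : ℝ) ^ 2 / (N : ℝ) ^ 2 := by
      intro l
      rw [Pr_coord l (fun e : Fin N × Fin N => G.Adj e.1 e.2)]
      exact emp_pr_in G Q hQ
    have h7 := h5.trans (Finset.sum_le_sum (fun l _ => h6 l))
    rw [Finset.sum_const, Finset.card_univ, Fintype.card_fin, nsmul_eq_mul] at h7
    have h8 : (M : ℝ) * ((Nat.card {v // Q v} : ℝ) ^ 2 / (N : ℝ) ^ 2) ≤ 1 / 3 := by
      rw [← mul_div_assoc, div_le_iff₀ (by positivity)]
      have h9 : (3 : ℝ) * M * (Nat.card {v // Q v} : ℝ) ^ 2 ≤ (N : ℝ) ^ 2 := by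
        exact_mod_cast hM
      linarith
    linarith

end Pool.Agent.Lib_MP_cc9a35_rb
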