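import Pool.Agent.Lib_MP_cc9a35_rb.Accept
import Pool.Agent.Lib_MP_cc9a35_lc.Params

/-!
Piece FAM: a small family of bit vectors which is uniform on all coordinate sets with at most `d`
elements in each cell.

Proof. `exists_balanced` and the Galois field with `2 ^ m` elements are used as in `exists_fam`
(`Pool.Agent.Lib_MP_cc9a35_lc.Params`): `F = GaloisField 2 m`, a balanced map `b : F → Bool` and an
embedding `a : ι ↪ F`. Take `Ω = Γ → Poly F d` and `β ω i = bits a b (ω (cell i)) i`, where `bits` and its
cylinder count `bits_cylinder` are in `Pool.Agent.Lib_MP_cc9a35_lc.Lower`.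
Cardinality: `(2 ^ m) ^ d` to the power `card Γ`.
Uniformity: for `I` put `I g = I.filter (cell · = g)`. The condition on `ω` is that for every `g` the
polynomial `ω g` satisfies the conditions of `I g`, so (`Equiv.subtypePiEquivPi`, `Nat.card_pi`)
the number of `ω` is `∏ g, Nat.card {p // ∀ i ∈ I g, bits a b p i = t i}`, and
`2 ^ (I g).card * (g-th factor) = card F ^ d` (`bits_cylinder`). With `∏ g, 2 ^ (I g).card = 2 ^ I.card` this
gives `2 ^ I.card * (number of ω) = card Ω`. For all vectors `cylinder_card` with `V = Bool` gives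
`2 ^ I.card * (number of y) = card (ι → Bool)` (compare `dwise`). Multiply.
`CellProd`-property: if `f g = β (ω g)` for all `g`, then `fun i => f (cell i) i` is `β (fun g => ω g g)`.
-/

namespace Pool.Agent.Lib_MP_cc9a35_rb

open Pool.Agent.Lib_MP_cc9a35_lc

/-- `Y` is the range of a family of at most `2 ^ E` vectors which is uniform on all sets of coordinates
with at most `d` elements in each cell. -/
def FamG {ι Γ : Type} [Fintype ι] [DecidableEq ι] [DecidableEq Γ] (cell : ι → Γ) (d E : ℕ)
    (Y : Set (ι → Bool)) : Prop :=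
  ∃ (Ω : Type) (_ : Fintype Ω) (_ : Nonempty Ω) (β : Ω → ι → Bool),
    Y = Set.range β ∧ Fintype.card Ω ≤ 2 ^ E ∧
    ∀ I : Finset ι, (∀ g, (I.filter fun i => cell i = g).card ≤ d) → ∀ t : ι → Bool,
      Fintype.card (ι → Bool) * Nat.card {ω : Ω // ∀ i ∈ I, β ω i = t i} =
      Fintype.card Ω * Nat.card {y : ι → Bool // ∀ i ∈ I, y i = t i}

theorem exists_famG {ι Γ : Type} [Fintype ι] [DecidableEq ι] [Fintype Γ] [DecidableEq Γ]
    (cell : ι → Γ) {m d : ℕ} (hm : 0 < m) (h1 : Fintype.card ι ≤ 2 ^ m)
    (h2 : d ≤ Fintype.card ι) :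
    ∃ Y : Set (ι → Bool), FamG cell d (m * d * Fintype.card Γ) Y ∧
      ∀ f : Γ → (ι → Bool), (∀ g, f g ∈ Y) → (fun i => f (cell i) i) ∈ Y := by
  classical
  have : Fact (Nat.Prime 2) := ⟨Nat.prime_two⟩
  let F := GaloisField 2 m
  have : Fintype F := Fintype.ofFinite F
  have hF : Fintype.card F = 2 ^ m := by
    rw [← Nat.card_eq_fintype_card]
    exact GaloisField.card 2 m hm.ne'
  obtain ⟨b, hb⟩ := exists_balanced F hm hF
  obtain ⟨a⟩ : Nonempty (ι ↪ F) :=
    Function.Embedding.nonempty_of_card_le (by rw [hF]; exact h1)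
  let β : (Γ → Poly F d) → ι → Bool := fun ω i => bits a b (ω (cell i)) i
  refine ⟨Set.range β, ⟨Γ → Poly F d, inferInstance, ⟨fun _ => 0⟩, β, rfl, ?_, ?_⟩, ?_⟩
  · rw [Fintype.card_fun, card_poly, hF, ← pow_mul, ← pow_mul, mul_assoc]
  · intro I hI t
    have e1 : Nat.card {ω : Γ → Poly F d // ∀ i ∈ I, β ω i = t i} =
        ∏ g, Nat.card {p : Poly F d // ∀ i ∈ I.filter (fun i => cell i = g),
          bits a b p i = t i} := by
      rw [← Nat.card_pi]
      refine Nat.card_congr (Equiv.trans (Equiv.subtypeEquivRight ?_)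
        (Equiv.subtypePiEquivPi (p := fun (g : Γ) (p : Poly F d) =>
          ∀ i ∈ I.filter (fun i => cell i = g), bits a b p i = t i)))
      intro ω
      constructor
      · intro h g i hi
        rw [Finset.mem_filter] at hi
        obtain ⟨hi, rfl⟩ := hi
        exact h i hi
      · intro h i hi
        exact h (cell i) i (Finset.mem_filter.2 ⟨hi, rfl⟩)
    have e2 : 2 ^ I.card * Nat.card {ω : Γ → Poly F d // ∀ i ∈ I, β ω i = t i} =
        Fintype.card (Γ → Poly F d) := by
      have e3 : I.card = ∑ g, (I.filter (fun i => cell i = g)).card :=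
        Finset.card_eq_sum_card_fiberwise (fun i _ => Finset.mem_univ (cell i))
      rw [e1, e3, ← Finset.prod_pow_eq_pow_sum, ← Finset.prod_mul_distrib,
        Finset.prod_congr rfl (fun g _ => bits_cylinder a b hb h2
          (I.filter (fun i => cell i = g)) (hI g) t), Finset.prod_const, Finset.card_univ,
        Fintype.card_fun, card_poly]
    have e4 := cylinder_card (X := ι) (V := Bool) id (by
      intro c
      simp) I t
    have e5 : Fintype.card (ι → Bool) =
        2 ^ I.card * Nat.card {y : ι → Bool // ∀ i ∈ I, y i = t i} := by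
      rw [Fintype.card_fun]
      exact e4.symm
    have h3 : 0 < 2 ^ I.card := by positivity
    rw [e5, ← e2]
    ring
  · intro f hf
    choose ω hω using hf
    refine ⟨fun g => ω g g, ?_⟩
    funext i
    exact congrFun (hω (cell i)) i

end Pool.Agent.Lib_MP_cc9a35_rb
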