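import Pool.Agent.Lib_MP_cc9a35_rb.Transversal
import Pool.Agent.Lib_MP_cc9a35_rb.Family

/-!
Piece NEA: few bit vectors give graphs which are close to members of a scale.

Proof of `card_ball`: the vector `y` is determined by the set of the non-diagonal `e` with
`y e ≠ z e` (at most `D` elements: at most `(card (Sym2 L) + 1) ^ D` sets by `card_subsets_le`,
`Pool.Agent.Lib_MP_cc9a35_lc.Lower`) and by its values on the `card L` diagonal elements.

Proof of `card_near`: let `y` be counted, with `φ'`, `y' = β ω`, and take the transversal `s` of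
`transversal` with `H = tgraph code' y' φ'`; put `ψ a = φ' (s a)`. For `a ≠ b` one has `s a ≠ s b`, so
`s(a, b).map s ∈ H.edgeSet ↔ rel code' y' (ψ a) (ψ b)`. So `y` differs from the vector
`z e = decide (rel code' y' (ψ a) (ψ b))` (`Sym2.lift`, `rel_symm`) in fewer than `D + 1` non-diagonal
elements. There are at most `(t' + 1 + card L') ^ card L` maps `ψ` and at most `2 ^ E` elements `ω`. Apply
`card_ball` to each pair `(ψ, ω)`.
-/

namespace Pool.Agent.Lib_MP_cc9a35_rb

open Pool.Agent.Lib_MP_cc9a35_lc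

theorem card_ball {L : Type} [Fintype L] [DecidableEq L] (z : Sym2 L → Bool) (D : ℕ) :
    Nat.card {y : Sym2 L → Bool // Nat.card {e : Sym2 L // ¬ e.IsDiag ∧ y e ≠ z e} ≤ D} ≤
      (Fintype.card (Sym2 L) + 1) ^ D * 2 ^ Fintype.card L := by
  classical
  have h1 : Nat.card {y : Sym2 L → Bool //
      Nat.card {e : Sym2 L // ¬ e.IsDiag ∧ y e ≠ z e} ≤ D} ≤
      Nat.card ({S : Finset (Sym2 L) // S.card ≤ D} × (L → Bool)) := by
    refine Nat.card_le_card_of_injective
      (fun y => (⟨Finset.univ.filter fun e => ¬ e.IsDiag ∧ y.1 e ≠ z e, by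
        have := y.2
        rwa [Nat.card_eq_fintype_card, Fintype.card_subtype] at this⟩,
        fun a => y.1 s(a, a))) ?_
    rintro ⟨y, hy⟩ ⟨y', hy'⟩ heq
    simp only [Prod.mk.injEq, Subtype.mk.injEq] at heq
    obtain ⟨hS, hd⟩ := heq
    refine Subtype.ext (funext fun e => ?_)
    by_cases he : e.IsDiag
    · induction e using Sym2.ind with
      | _ a b =>
        have hab : a = b := by simpa using he
        subst hab
        exact congrFun hd a
    · have h2 : e ∈ (Finset.univ.filter fun e => ¬ e.IsDiag ∧ y e ≠ z e) ↔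
          e ∈ (Finset.univ.filter fun e => ¬ e.IsDiag ∧ y' e ≠ z e) := by rw [hS]
      simp only [Finset.mem_filter, Finset.mem_univ, true_and, he, not_false_eq_true] at h2
      change y e = y' e
      revert h2
      cases y e <;> cases y' e <;> cases z e <;> simp
  rw [Nat.card_prod] at h1
  refine h1.trans (Nat.mul_le_mul (card_subsets_le D) ?_)
  rw [Nat.card_eq_fintype_card, Fintype.card_fun, Fintype.card_bool]

/-- the vector read off from a map of the labels -/
noncomputable def zvec {t' : ℕ} {L L' : Type} (code' : L' → Fin t' → Bool) (y' : Sym2 L' → Bool)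
    (ψ : L → Typ t' L') : Sym2 L → Bool := by
  classical
  exact Sym2.lift ⟨fun a b => decide (rel code' y' (ψ a) (ψ b)), fun a b => by
    rw [decide_eq_decide]
    exact ⟨rel_symm, rel_symm⟩⟩

theorem zvec_mk {t' : ℕ} {L L' : Type} (code' : L' → Fin t' → Bool) (y' : Sym2 L' → Bool)
    (ψ : L → Typ t' L') (a b : L) :
    zvec code' y' ψ s(a, b) = true ↔ rel code' y' (ψ a) (ψ b) := by
  classical
  unfold zvec
  rw [Sym2.lift_mk]
  simp

theorem card_near {t t' N v₀ D d E : ℕ} {L L' Γ : Type} [Fintype L] [DecidableEq L] [Fintype L']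
    [DecidableEq L'] [DecidableEq Γ] (hv₀ : 0 < v₀) (code : L → Fin t → Bool)
    (φ : Fin N → Typ t L) (hφ : ∀ a : L, v₀ ≤ Nat.card {v // φ v = .inr a})
    (code' : L' → Fin t' → Bool) (cell' : Sym2 L' → Γ) {Y' : Set (Sym2 L' → Bool)}
    (hY' : FamG cell' d E Y') {w' m' : ℕ} {δ : ℝ} (hδ : δ < (v₀ : ℝ) ^ 2 * (D + 1)) :
    Nat.card {y : Sym2 L → Bool // ∃ H : SimpleGraph (Fin N), IsMem code' Y' w' m' H ∧
      (pairDist (tgraph code y φ) H : ℝ) ≤ δ} ≤
      (t' + 1 + Fintype.card L') ^ Fintype.card L * 2 ^ E *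
        ((Fintype.card (Sym2 L) + 1) ^ D * 2 ^ Fintype.card L) := by
  classical
  obtain ⟨Ω, _, _, β, hβ, hΩ, -⟩ := hY'
  have hsub : (Finset.univ.filter fun y : Sym2 L → Bool => ∃ H : SimpleGraph (Fin N),
      IsMem code' Y' w' m' H ∧ (pairDist (tgraph code y φ) H : ℝ) ≤ δ) ⊆
      (Finset.univ : Finset ((L → Typ t' L') × Ω)).biUnion fun q =>
        Finset.univ.filter fun y : Sym2 L → Bool =>
          Nat.card {e : Sym2 L // ¬ e.IsDiag ∧ y e ≠ zvec code' (β q.2) q.1 e} ≤ D := by
    intro y hy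
    obtain ⟨-, H, ⟨φ', y', hy', -, rfl⟩, hd⟩ := Finset.mem_filter.1 hy
    rw [hβ] at hy'
    obtain ⟨ω, rfl⟩ := hy'
    obtain ⟨s, hs, hs2⟩ := transversal hv₀ code y φ hφ (tgraph code' (β ω) φ')
    refine Finset.mem_biUnion.2 ⟨(fun a => φ' (s a), ω), Finset.mem_univ _,
      Finset.mem_filter.2 ⟨Finset.mem_univ _, ?_⟩⟩
    have h1 : Nat.card {e : Sym2 L // ¬ e.IsDiag ∧ y e ≠ zvec code' (β ω) (fun a => φ' (s a)) e} =
        Nat.card {e : Sym2 L // ¬ e.IsDiag ∧
          ¬ (y e = true ↔ e.map s ∈ (tgraph code' (β ω) φ').edgeSet)} := by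
      refine Nat.card_congr (Equiv.subtypeEquivRight fun e => and_congr_right fun he => ?_)
      have h2 : e.map s ∈ (tgraph code' (β ω) φ').edgeSet ↔
          zvec code' (β ω) (fun a => φ' (s a)) e = true := by
        induction e using Sym2.ind with
        | _ a b =>
          have hab : a ≠ b := by simpa using he
          have hne : s a ≠ s b := by
            intro heq
            have h3 := hs a
            rw [heq, hs b] at h3
            exact hab (Sum.inr_injective h3).symm
          rw [zvec_mk, Sym2.map_mk, SimpleGraph.mem_edgeSet, tgraph_adj]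
          exact ⟨fun h => h.2, fun h => ⟨hne, h⟩⟩
      rw [h2]
      cases y e <;> cases zvec code' (β ω) (fun a => φ' (s a)) e <;> simp
    rw [h1]
    by_contra hlt
    have h3 : D + 1 ≤ Nat.card {e : Sym2 L // ¬ e.IsDiag ∧
          ¬ (y e = true ↔ e.map s ∈ (tgraph code' (β ω) φ').edgeSet)} := by omega
    have h4 : v₀ ^ 2 * (D + 1) ≤ pairDist (tgraph code y φ) (tgraph code' (β ω) φ') :=
      (Nat.mul_le_mul_left _ h3).trans hs2
    have h5 : (v₀ : ℝ) ^ 2 * (D + 1) ≤
        (pairDist (tgraph code y φ) (tgraph code' (β ω) φ') : ℝ) := by exact_mod_cast h4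
    linarith
  rw [Nat.card_eq_fintype_card, Fintype.card_subtype]
  refine (Finset.card_le_card hsub).trans ((Finset.card_biUnion_le_card_mul _ _
    ((Fintype.card (Sym2 L) + 1) ^ D * 2 ^ Fintype.card L) ?_).trans ?_)
  · intro q _
    have := card_ball (zvec code' (β q.2) q.1) D
    rwa [Nat.card_eq_fintype_card, Fintype.card_subtype] at this
  · refine Nat.mul_le_mul_right _ ?_
    rw [Finset.card_univ, Fintype.card_prod, Fintype.card_fun, Fintype.card_sum, Fintype.card_fin]
    exact Nat.mul_le_mul_left _ hΩ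

end Pool.Agent.Lib_MP_cc9a35_rb
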