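import Pool.Agent.Lib_MP_cc9a35_rb.Regular
import Pool.Agent.Lib_MP_cc9a35_rb.Near
import Pool.Agent.Lib_MP_cc9a35_rb.EdgeCount
import Pool.Agent.Lib_MP_cc9a35_rb.Base
import Pool.Agent.Lib_MP_cc9a35_rb.Cells
import Pool.Agent.Lib_MP_cc9a35_rb.Dist

/-!
Piece FAR: almost all random graphs of the scale `i` are far from the whole property.

Proof. Let `φ = baseTyp (t i) (w i N) (m i N) σ lam` (`baseTyp_sizes`) and `G = tgraph (code i) y φ`.
Suppose `G` is not far: some `H` in the property has `pairDist G H ≤ ε * N ^ 2`.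
* `H = ⊥` is impossible: `16 * pairDist G ⊥ ≥ (t w) ^ 2 > 32 * ε * N ^ 2` (`edges_lower`, `hε`).
* `H` a member of an active scale `i' > i` is impossible: `2 * pairDist H ⊥ ≤ (t' w' + m') ^ 2 ≤ (t w) ^ 2 / 16`
  (`edges_upper`, `hup`), so by the triangle inequality
  `pairDist G H ≥ (t w) ^ 2 / 16 - (t w) ^ 2 / 32 = (t w) ^ 2 / 32 > ε * N ^ 2`.
* So `H` is a member of an active scale `i' ≤ i`. If all label classes of `φ` have at least `v₀` elements
  (`(baseTyp ..) v = inr a ↔ σ v < m ∧ lam v = a`), then by `card_near` and `hcount` the number of such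
  `y` is, for each `i'`, at most `2 ^ card (Sym2 L) / (400 * (i + 1))`, in total at most
  `2 ^ card (Sym2 L) / 400`.
For every `σ` the probability that some class is smaller is at most `1 / 400` (`Pr_irregular`). So
`Pr (not far) ≤ 1 / 400 + 1 / 400 ≤ 1 / 100` (`Pr_prod_le_add`; `Pr_prod_le` over `σ`), and
`card_le_of_Pr_le`.
-/

namespace Pool.Agent.Lib_MP_cc9a35_rb

open Pool.Agent.Lib_MP_cc9a35_lc

/-- Everything that describes the scales: see `rprop`. -/
structure HardAt (t : ℕ → ℕ) (Tp Rs : ℕ → Type) [∀ i, Fintype (Tp i)] [∀ i, Fintype (Rs i)]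
    (w m : ℕ → ℕ → ℕ) (act : ℕ → ℕ → Prop) (E : ℕ → ℕ) (i N v₀ D : ℕ) (ε : ℝ) : Prop where
  hN : 2 ≤ N
  hact : act i N
  hm : m i N + t i * w i N ≤ N
  hv₀ : 0 < v₀
  hv : 2 * v₀ * Fintype.card (Tp i × Rs i) ≤ m i N
  hreg : 1600 * Fintype.card (Tp i × Rs i) ^ 2 ≤ m i N
  hδ : ε * (N : ℝ) ^ 2 < (v₀ : ℝ) ^ 2 * (D + 1)
  ht : 1 ≤ t i
  hw : 2 ≤ w i N
  hε0 : 0 ≤ ε
  hup : ∀ i', i < i' → act i' N → 16 * (t i' * w i' N + m i' N) ^ 2 ≤ (t i * w i N) ^ 2
  hε : 32 * ε * (N : ℝ) ^ 2 < ((t i * w i N : ℕ) : ℝ) ^ 2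
  hcount : ∀ i' ≤ i, act i' N → 400 * (i + 1) *
    ((t i' + 1 + Fintype.card (Tp i' × Rs i')) ^ Fintype.card (Tp i × Rs i) * 2 ^ E i' *
      ((Fintype.card (Sym2 (Tp i × Rs i)) + 1) ^ D * 2 ^ Fintype.card (Tp i × Rs i))) ≤
    2 ^ Fintype.card (Sym2 (Tp i × Rs i))

variable (t : ℕ → ℕ) (Tp Rs : ℕ → Type) [∀ i, AddCommGroup (Tp i)] [∀ i, Fintype (Tp i)]
  [∀ i, DecidableEq (Tp i)] [∀ i, Fintype (Rs i)] [∀ i, DecidableEq (Rs i)]
  [∀ i, Nonempty (Rs i)] (code : ∀ i, Tp i × Rs i → Fin (t i) → Bool)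
  (Y : ∀ i, Set (Sym2 (Tp i × Rs i) → Bool)) (w m : ℕ → ℕ → ℕ) (act : ℕ → ℕ → Prop)
  (d E : ℕ → ℕ)

/-- A graph which is not far is close to a member of an active scale `i' ≤ i`. -/
theorem close_of_not_far {i N v₀ D : ℕ} {ε : ℝ} (h : HardAt t Tp Rs w m act E i N v₀ D ε)
    (y : Sym2 (Tp i × Rs i) → Bool) {φ : Fin N → Typ (t i) (Tp i × Rs i)}
    (hφ : Sizes φ (w i N) (m i N))
    (hfar : ¬ IsFar (rprop t (fun i => Tp i × Rs i) code Y w m act) ε (tgraph (code i) y φ)) :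
    ∃ i' ∈ Finset.range (i + 1), act i' N ∧ ∃ H : SimpleGraph (Fin N),
      IsMem (code i') (Y i') (w i' N) (m i' N) H ∧
        (pairDist (tgraph (code i) y φ) H : ℝ) ≤ ε * (N : ℝ) ^ 2 := by
  unfold IsFar at hfar
  simp only [not_forall, not_lt] at hfar
  obtain ⟨H, hH, hd⟩ := hfar
  have hlow := edges_lower (code i) y hφ h.ht h.hw
  have hlow' : (((t i * w i N : ℕ) : ℝ)) ^ 2 ≤ 16 * (pairDist (tgraph (code i) y φ) ⊥ : ℝ) := by
    exact_mod_cast hlow
  have hε := h.hε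
  have hnn : 0 ≤ ε * (N : ℝ) ^ 2 := mul_nonneg h.hε0 (by positivity)
  rcases hH with rfl | ⟨i', hact, hmem⟩
  · exfalso
    nlinarith
  · by_cases hi : i' ≤ i
    · exact ⟨i', Finset.mem_range.2 (by omega), hact, H, hmem, hd⟩
    · exfalso
      have h1 := h.hup i' (by omega) hact
      have h2 := edges_upper hmem
      have h3 := pairDist_triangle (tgraph (code i) y φ) H ⊥
      have h1' : 16 * (((t i' * w i' N + m i' N : ℕ) : ℝ)) ^ 2 ≤ ((t i * w i N : ℕ) : ℝ) ^ 2 := by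
        exact_mod_cast h1
      have h2' : 2 * (pairDist H ⊥ : ℝ) ≤ (((t i' * w i' N + m i' N : ℕ) : ℝ)) ^ 2 := by
        exact_mod_cast h2
      have h3' : (pairDist (tgraph (code i) y φ) ⊥ : ℝ) ≤
          (pairDist (tgraph (code i) y φ) H : ℝ) + (pairDist H ⊥ : ℝ) := by
        exact_mod_cast h3
      linarith

theorem baseTyp_inr {tt ww mm N : ℕ} {L : Type} (σ : Equiv.Perm (Fin N)) (lam : Fin N → L)
    (v : Fin N) (a : L) :
    baseTyp tt ww mm σ lam v = .inr a ↔ (σ v : ℕ) < mm ∧ lam v = a := by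
  unfold baseTyp
  split_ifs with h1 h2
  · simp [h1]
  · simp [h1]
  · simp [h1]

theorem far_count (hY : ∀ i, FamG (cellL (Tp := Tp i) (Rs := Rs i)) (d i) (E i) (Y i))
    {i N v₀ D : ℕ} {ε : ℝ} (h : HardAt t Tp Rs w m act E i N v₀ D ε) :
    100 * Nat.card {ω : (Equiv.Perm (Fin N) × (Fin N → Tp i × Rs i)) ×
          (Sym2 (Tp i × Rs i) → Bool) //
        ¬ IsFar (rprop t (fun i => Tp i × Rs i) code Y w m act) ε
          (tgraph (code i) ω.2 (baseTyp (t i) (w i N) (m i N) ω.1.1 ω.1.2))} ≤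
      Fintype.card ((Equiv.Perm (Fin N) × (Fin N → Tp i × Rs i)) ×
        (Sym2 (Tp i × Rs i) → Bool)) := by
  classical
  have hmN : m i N ≤ N := le_trans (Nat.le_add_right _ _) h.hm
  -- irregular labellings
  set B : Equiv.Perm (Fin N) × (Fin N → Tp i × Rs i) → Prop := fun ω =>
    ∃ a, Nat.card {v : Fin N // (ω.1 v : ℕ) < m i N ∧ ω.2 v = a} < v₀ with hB
  have hPB : Pr B ≤ 1 / 400 :=
    Pr_prod_le (p := 1 / 400) (by norm_num)
      (fun (σ : Equiv.Perm (Fin N)) (lam : Fin N → Tp i × Rs i) =>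
        ∃ a, Nat.card {v : Fin N // (σ v : ℕ) < m i N ∧ lam v = a} < v₀)
      (fun σ => Pr_irregular hmN σ h.hv h.hreg)
  have hin : ∀ ω : Equiv.Perm (Fin N) × (Fin N → Tp i × Rs i), ¬ B ω →
      Pr (fun y : Sym2 (Tp i × Rs i) → Bool =>
        ¬ IsFar (rprop t (fun i => Tp i × Rs i) code Y w m act) ε
          (tgraph (code i) y (baseTyp (t i) (w i N) (m i N) ω.1 ω.2))) ≤ 1 / 400 := by
    intro ω hω
    set φ := baseTyp (t i) (w i N) (m i N) ω.1 ω.2 with hφ
    have hsz : Sizes φ (w i N) (m i N) := baseTyp_sizes h.hm ω.1 ω.2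
    have hcl : ∀ a : Tp i × Rs i, v₀ ≤ Nat.card {v // φ v = .inr a} := by
      intro a
      have h1 : Nat.card {v // φ v = .inr a} =
          Nat.card {v : Fin N // (ω.1 v : ℕ) < m i N ∧ ω.2 v = a} :=
        Nat.card_congr (Equiv.subtypeEquivRight fun v => baseTyp_inr _ _ v a)
      rw [h1]
      by_contra hlt
      exact hω ⟨a, not_le.1 hlt⟩
    set Q : ℕ → (Sym2 (Tp i × Rs i) → Bool) → Prop := fun i' y => act i' N ∧
      ∃ H : SimpleGraph (Fin N), IsMem (code i') (Y i') (w i' N) (m i' N) H ∧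
        (pairDist (tgraph (code i) y φ) H : ℝ) ≤ ε * (N : ℝ) ^ 2 with hQ
    have h1 : Pr (fun y : Sym2 (Tp i × Rs i) → Bool =>
        ¬ IsFar (rprop t (fun i => Tp i × Rs i) code Y w m act) ε (tgraph (code i) y φ)) ≤
        Pr (fun y => ∃ i' ∈ Finset.range (i + 1), Q i' y) :=
      Pr_mono fun y hy => close_of_not_far t Tp Rs code Y w m act E h y hsz hy
    refine h1.trans ((Pr_exists_le _ _).trans ?_)
    have h2 : ∀ i' ∈ Finset.range (i + 1), Pr (Q i') ≤ 1 / (400 * (i + 1)) := by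
      intro i' hi'
      have hi2 : i' ≤ i := by
        have := Finset.mem_range.1 hi'
        omega
      by_cases hact : act i' N
      · have h3 := card_near (t' := t i') (L' := Tp i' × Rs i') (w' := w i' N) (m' := m i' N)
          h.hv₀ (code i) φ hcl (code i') (cellL (Tp := Tp i') (Rs := Rs i')) (hY i') h.hδ
        have h4 : Nat.card {y : Sym2 (Tp i × Rs i) → Bool // Q i' y} ≤
            Nat.card {y : Sym2 (Tp i × Rs i) → Bool // ∃ H : SimpleGraph (Fin N),
              IsMem (code i') (Y i') (w i' N) (m i' N) H ∧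
                (pairDist (tgraph (code i) y φ) H : ℝ) ≤ ε * (N : ℝ) ^ 2} :=
          Nat.card_mono (Set.toFinite _) (fun y hy => hy.2)
        have h5 := h.hcount i' hi2 hact
        have h6 : (400 * (i + 1)) * Nat.card {y : Sym2 (Tp i × Rs i) → Bool // Q i' y} ≤
            1 * Fintype.card (Sym2 (Tp i × Rs i) → Bool) := by
          rw [one_mul, Fintype.card_fun, Fintype.card_bool]
          exact (Nat.mul_le_mul_left _ (h4.trans h3)).trans h5
        have h7 := Pr_le_of_card_le (by positivity) h6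
        simpa using h7
      · have h3 : Pr (Q i') = 0 := Pr_of_forall_not fun y hy => hact hy.1
        rw [h3]
        positivity
    calc ∑ i' ∈ Finset.range (i + 1), Pr (Q i')
        ≤ ∑ _i' ∈ Finset.range (i + 1), (1 / (400 * ((i : ℝ) + 1))) := Finset.sum_le_sum h2
      _ = 1 / 400 := by
        rw [Finset.sum_const, Finset.card_range, nsmul_eq_mul]
        push_cast
        have : (i : ℝ) + 1 ≠ 0 := by positivity
        field_simp
  have htot := Pr_prod_le_add (p := 1 / 400) (by norm_num) B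
    (fun (ω : Equiv.Perm (Fin N) × (Fin N → Tp i × Rs i)) (y : Sym2 (Tp i × Rs i) → Bool) =>
      ¬ IsFar (rprop t (fun i => Tp i × Rs i) code Y w m act) ε
          (tgraph (code i) y (baseTyp (t i) (w i N) (m i N) ω.1 ω.2))) hin
  have hfin := card_le_of_Pr_le (a := 1) (b := 100) (by norm_num)
    (htot.trans (by push_cast; linarith))
  simpa using hfin

end Pool.Agent.Lib_MP_cc9a35_rb
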