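import Pool.Agent.Lib_MP_cc9a35_rb.Struct

/-!
Piece FT: representatives of the threshold types are found in a sample.

`IsThr R τ`: the relation `R` on the sample is the threshold relation of the type assignment `τ`.

Proof of `isThr_unique`. Let `τ x = k` and `τ y = k + 1`. The type `t - k` occurs at least twice, so there
is `z` with `τ z = t - k`, `z ≠ x`, `z ≠ y` (if `t - k = k` only `x` has to be avoided, if `t - k = k + 1`
only `y`; the two cases exclude each other, and otherwise every `z` of type `t - k` works). Then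
`R y z` holds as `(k + 1) + (t - k) > t`, and `R x z` fails. Hence `τ' y + τ' z > t ≥ τ' x + τ' z`, so
`τ' x < τ' y`. As all types occur, induction on `k` gives `k ≤ τ' x` for all `x` with `τ x = k`, and
downward induction (start: `τ' x ≤ t`) gives `τ' x ≤ k`. So `τ' = τ`.

Proof of `findTuple_spec`: choose for each `k` an element `j k` with `τ (j k) = k.succ`; hence the
condition in the definition holds, and for the chosen `j` with its `τ'` the uniqueness gives `τ' = τ`.
-/

namespace Pool.Agent.Lib_MP_cc9a35_rb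

variable {t T : ℕ}

/-- `R` is the threshold relation of `τ`. -/
def IsThr (R : Fin T → Fin T → Prop) (τ : Fin T → Fin (t + 1)) : Prop :=
  ∀ x y, R x y ↔ (x ≠ y ∧ t < (τ x : ℕ) + (τ y : ℕ))

open Classical in
/-- Representatives of the types `1, ..., t` in a sample with adjacency relation `R`. -/
noncomputable def findTuple (t : ℕ) {T : ℕ} (R : Fin T → Fin T → Prop) : Option (Fin t → Fin T) :=
  if h : ∃ j : Fin t → Fin T, ∃ τ : Fin T → Fin (t + 1), IsThr R τ ∧ ∀ k : Fin t, τ (j k) = k.succ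
  then some h.choose else none

theorem findTuple_step {R : Fin T → Fin T → Prop} {τ τ' : Fin T → Fin (t + 1)} (h : IsThr R τ)
    (h' : IsThr R τ') (h2 : ∀ i : Fin (t + 1), ∃ x y, x ≠ y ∧ τ x = i ∧ τ y = i) {x y : Fin T}
    (hxy : (τ y : ℕ) = (τ x : ℕ) + 1) : (τ' x : ℕ) < (τ' y : ℕ) := by
  have hyt := (τ y).2
  obtain ⟨z1, z2, hne, hz1, hz2⟩ := h2 ⟨t - (τ x : ℕ), by omega⟩
  have hxne : τ x ≠ τ y := by
    intro he
    rw [he] at hxy
    omega
  have hz : ∃ z, z ≠ x ∧ z ≠ y ∧ (τ z : ℕ) = t - (τ x : ℕ) := by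
    by_contra hcon
    have a1 : z1 = x ∨ z1 = y := by
      by_contra hh
      rw [not_or] at hh
      exact hcon ⟨z1, hh.1, hh.2, by rw [hz1]⟩
    have a2 : z2 = x ∨ z2 = y := by
      by_contra hh
      rw [not_or] at hh
      exact hcon ⟨z2, hh.1, hh.2, by rw [hz2]⟩
    have he : τ z1 = τ z2 := by rw [hz1, hz2]
    rcases a1 with a1 | a1 <;> rcases a2 with a2 | a2
    · exact hne (a1.trans a2.symm)
    · rw [a1, a2] at he
      exact hxne he
    · rw [a1, a2] at he
      exact hxne he.symm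
    · exact hne (a1.trans a2.symm)
  obtain ⟨z, hzx, hzy, hzt⟩ := hz
  have hRy : R y z := (h y z).2 ⟨hzy.symm, by omega⟩
  have hRx : ¬ R x z := by
    intro hR
    have := ((h x z).1 hR).2
    omega
  have hy' := ((h' y z).1 hRy).2
  have hx' : ¬ t < (τ' x : ℕ) + (τ' z : ℕ) := fun hlt => hRx ((h' x z).2 ⟨hzx.symm, hlt⟩)
  omega

theorem isThr_unique {R : Fin T → Fin T → Prop} {τ τ' : Fin T → Fin (t + 1)} (h : IsThr R τ)
    (h' : IsThr R τ') (h2 : ∀ i : Fin (t + 1), ∃ x y, x ≠ y ∧ τ x = i ∧ τ y = i) : τ' = τ := by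
  have hup : ∀ k : ℕ, ∀ x, (τ x : ℕ) = k → k ≤ (τ' x : ℕ) := by
    intro k
    induction k with
    | zero => intro x _; exact Nat.zero_le _
    | succ k ih =>
      intro y hy
      have hyt := (τ y).2
      obtain ⟨x, -, -, hx, -⟩ := h2 ⟨k, by omega⟩
      have hxk : (τ x : ℕ) = k := by rw [hx]
      have h1 := ih x hxk
      have h3 := findTuple_step h h' h2 (x := x) (y := y) (by omega)
      omega
  have hdown : ∀ d : ℕ, ∀ x, (τ x : ℕ) + d = t → (τ' x : ℕ) ≤ (τ x : ℕ) := by
    intro d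
    induction d with
    | zero =>
      intro x hx
      have := (τ' x).2
      omega
    | succ d ih =>
      intro x hx
      obtain ⟨y, -, -, hy, -⟩ := h2 ⟨(τ x : ℕ) + 1, by omega⟩
      have hyk : (τ y : ℕ) = (τ x : ℕ) + 1 := by rw [hy]
      have h1 := ih y (by omega)
      have h3 := findTuple_step h h' h2 (x := x) (y := y) hyk
      omega
  funext x
  apply Fin.ext
  have h1 := hup _ x rfl
  have h3 := hdown (t - (τ x : ℕ)) x (by have := (τ x).2; omega)
  omega

theorem findTuple_spec {R : Fin T → Fin T → Prop} {τ : Fin T → Fin (t + 1)} (h : IsThr R τ)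
    (h2 : ∀ i : Fin (t + 1), ∃ x y, x ≠ y ∧ τ x = i ∧ τ y = i) :
    ∃ j : Fin t → Fin T, findTuple t R = some j ∧ ∀ k : Fin t, τ (j k) = k.succ := by
  have hex : ∃ j : Fin t → Fin T, ∃ τ : Fin T → Fin (t + 1), IsThr R τ ∧
      ∀ k : Fin t, τ (j k) = k.succ := by
    choose j _ _ hj _ using fun k : Fin t => h2 k.succ
    exact ⟨j, τ, h, hj⟩
  refine ⟨hex.choose, ?_, ?_⟩
  · unfold findTuple
    rw [dif_pos hex]
  · obtain ⟨τ', hτ', hk⟩ := hex.choose_spec
    have := isThr_unique h hτ' h2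
    rw [this] at hk
    exact hk

end Pool.Agent.Lib_MP_cc9a35_rb
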