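import Pool.Agent.Lib_MP_cc9a35_rb.Missing
import Pool.Agent.Lib_MP_cc9a35_rb.Coarse

/-!
Piece FIN: detecting violations inside the label part, for a fixed sample `x`.

Proof. For every cell `g` choose `f g ∈ Y`: the vector given by `ExtOK cell Y G ψ x g` if this holds, any
element of `Y` otherwise, and put `y s = f (cell s) s`; by `CellProd` it belongs to `Y`. By `card_differ`
and `hfar` there are more than `3 / 2 * ε * N ^ 2` ordered pairs on which `G` and `tgraph code y ψ` differ.
Each of them is of one of the following kinds: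
(0) not open: there are `outCount code G ψ` (`rel_of_not_open`);
(1) open and one of the two vertices is missing: at most
`2 * (number missing) * (number of labels) ≤ 2 * τ * ν * N ^ 2 ≤ ε / 4 * N ^ 2` (using `8 * τ * ν ≤ ε`);
(g) open, in the cell `g`, both labels represented; let `D g` be the number of these.
Hence `outCount + ∑ g, D g ≥ 5 / 4 * ε * N ^ 2`.
Case `outCount ≥ ε / 4 * N ^ 2`: `out_sound` with `δ = ε / 4` for every `c` (`Pr_prod_le`), and
`1 - ε / 4 ≤ 1 - ε / (4 * card Γ)`.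
Otherwise `∑ g, D g ≥ ε * N ^ 2`. Call `g` good if `D g ≥ ε / (2 * card Γ) * N ^ 2`. The cells which are
not good contribute at most `ε / 2 * N ^ 2`, so the good ones contribute at least `ε / 2 * N ^ 2`, hence a
random pair lies in a good cell with probability at least `ε / 2`, and no `c l` lies in a good cell
with probability at most `(1 - ε / 2) ^ J` (`Pr_avoid`). If some `c l` lies in the good cell `g`, then `InOK`
implies `ExtOK` and `CellOK` for `g`. If `ExtOK` fails the probability is `0`. If it holds, then for the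
pairs counted in `D g` the adjacency in `G` is not that of the representatives (which is
`y s(a, b)`), so all the `p l` avoid them, which has probability at most
`(1 - ε / (2 * card Γ)) ^ M` (`Pr_avoid`). Now use `Pr_prod_le_add` (first component `c`).
-/

namespace Pool.Agent.Lib_MP_cc9a35_rb

open Pool.Agent.Lib_MP_cc9a35_lc

variable {t : ℕ} {L Γ : Type} {N K J M : ℕ}

private theorem fine_sum_Pr_le {Ω : Type*} [Fintype Ω] {ι : Type*} (S : Finset ι)
    (Q : ι → Ω → Prop) (h : ∀ g g' ω, Q g ω → Q g' ω → g = g') :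
    ∑ g ∈ S, Pr (Q g) ≤ Pr (fun ω => ∃ g ∈ S, Q g ω) := by
  classical
  have h1 : ∀ g, Pr (Q g) = ((Finset.univ.filter (Q g)).card : ℝ) / Fintype.card Ω := fun g =>
    Pr_eq_filter (Q g)
  rw [Finset.sum_congr rfl fun g _ => h1 g, ← Finset.sum_div, Pr_eq_filter, ← Nat.cast_sum,
    ← Finset.card_biUnion]
  · have h2 : (S.biUnion fun g => Finset.univ.filter (Q g)) ⊆
        Finset.univ.filter (fun ω => ∃ g ∈ S, Q g ω) := by
      intro ω hω
      rw [Finset.mem_biUnion] at hω
      obtain ⟨g, hg, hQ⟩ := hω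
      exact Finset.mem_filter.2 ⟨Finset.mem_univ _, g, hg, (Finset.mem_filter.1 hQ).2⟩
    have h3 : ((S.biUnion fun g => Finset.univ.filter (Q g)).card : ℝ) ≤
        ((Finset.univ.filter (fun ω => ∃ g ∈ S, Q g ω)).card : ℝ) := by
      exact_mod_cast Finset.card_le_card h2
    exact div_le_div_of_nonneg_right h3 (Nat.cast_nonneg _)
  · intro g _ g' _ hgg
    show Disjoint _ _
    rw [Finset.disjoint_left]
    intro ω h1 h2
    exact hgg (h g g' ω (Finset.mem_filter.1 h1).2 (Finset.mem_filter.1 h2).2)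

/-- the ordered pairs of the cell `g`, both labels represented, on which the graphs differ -/
private def fineD (G H : SimpleGraph (Fin N)) (cell : Sym2 L → Γ) (ψ : Fin N → Typ t L)
    (x : Fin K → Fin N) (g : Γ) (s : Fin N × Fin N) : Prop :=
  InCell cell g (ψ s.1) (ψ s.2) ∧ ¬ IsMissing ψ x s.1 ∧ ¬ IsMissing ψ x s.2 ∧
    ¬ (G.Adj s.1 s.2 ↔ H.Adj s.1 s.2)

private theorem fineD_disj (G H : SimpleGraph (Fin N)) (cell : Sym2 L → Γ) (ψ : Fin N → Typ t L)
    (x : Fin K → Fin N) (g g' : Γ) (s : Fin N × Fin N) (h : fineD G H cell ψ x g s)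
    (h' : fineD G H cell ψ x g' s) : g = g' := by
  obtain ⟨⟨a, b, ha, hb, _, hg⟩, _⟩ := h
  obtain ⟨⟨a', b', ha', hb', _, hg'⟩, _⟩ := h'
  rw [ha] at ha'
  rw [hb] at hb'
  rw [← hg, ← hg', Sum.inr.inj ha', Sum.inr.inj hb']

/-- the counting step -/
private theorem fine_count [Fintype Γ] (hN : 0 < N) {code : L → Fin t → Bool}
    {cell : Sym2 L → Γ} {G : SimpleGraph (Fin N)} {ε τ ν : ℝ}
    (ψ : Fin N → Typ t L) (y : Sym2 L → Bool)
    (hfar : 3 / 4 * ε * (N : ℝ) ^ 2 < (pairDist G (tgraph code y ψ) : ℝ))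
    (hlab : (Nat.card {v // (ψ v).isRight = true} : ℝ) ≤ ν * N) (hτ : 0 < τ) (hν : 0 < ν)
    (hτν : 8 * τ * ν ≤ ε) (x : Fin K → Fin N)
    (hx : (Nat.card {v // IsMissing ψ x v} : ℝ) ≤ τ * N) :
    5 / 4 * ε ≤ (outCount code G ψ : ℝ) / (N : ℝ) ^ 2 +
      ∑ g, Pr (fineD G (tgraph code y ψ) cell ψ x g) := by
  classical
  have hN' : (0 : ℝ) < N := by exact_mod_cast hN
  have hcard : (Fintype.card (Fin N × Fin N) : ℝ) = (N : ℝ) ^ 2 := by
    rw [Fintype.card_prod, Fintype.card_fin]
    push_cast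
    ring
  have hD : 3 / 2 * ε ≤ Pr (fun s : Fin N × Fin N =>
      ¬ (G.Adj s.1 s.2 ↔ (tgraph code y ψ).Adj s.1 s.2)) := by
    unfold Pr
    rw [card_differ, hcard, le_div_iff₀ (by positivity)]
    push_cast
    linarith
  have hO : Pr (fun s : Fin N × Fin N => ¬ IsOpen (ψ s.1) (ψ s.2) ∧
      ¬ (G.Adj s.1 s.2 ↔ (tgraph code (fun _ => false) ψ).Adj s.1 s.2)) =
      (outCount code G ψ : ℝ) / (N : ℝ) ^ 2 := by
    unfold Pr
    rw [hcard]
    rfl
  have hmis : Pr (IsMissing ψ x) ≤ τ := by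
    unfold Pr
    rw [Fintype.card_fin, div_le_iff₀ hN']
    exact hx
  have hlab' : Pr (fun v => (ψ v).isRight = true) ≤ ν := by
    unfold Pr
    rw [Fintype.card_fin, div_le_iff₀ hN']
    exact hlab
  have hM : Pr (fun s : Fin N × Fin N => (IsMissing ψ x s.1 ∧ (ψ s.2).isRight = true) ∨
      ((ψ s.1).isRight = true ∧ IsMissing ψ x s.2)) ≤ ε / 4 := by
    refine (Pr_or_le _ _).trans ?_
    rw [Pr_prod_and (IsMissing ψ x) (fun v => (ψ v).isRight = true),
      Pr_prod_and (fun v => (ψ v).isRight = true) (IsMissing ψ x)]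
    have h1 : Pr (IsMissing ψ x) * Pr (fun v => (ψ v).isRight = true) ≤ τ * ν :=
      mul_le_mul hmis hlab' (Pr_nonneg _) hτ.le
    linarith [mul_comm (Pr (IsMissing ψ x)) (Pr (fun v => (ψ v).isRight = true))]
  have hsplit : Pr (fun s : Fin N × Fin N =>
      ¬ (G.Adj s.1 s.2 ↔ (tgraph code y ψ).Adj s.1 s.2)) ≤
      Pr (fun s : Fin N × Fin N => (¬ IsOpen (ψ s.1) (ψ s.2) ∧
        ¬ (G.Adj s.1 s.2 ↔ (tgraph code (fun _ => false) ψ).Adj s.1 s.2)) ∨
        (((IsMissing ψ x s.1 ∧ (ψ s.2).isRight = true) ∨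
          ((ψ s.1).isRight = true ∧ IsMissing ψ x s.2)) ∨
          ∃ g ∈ (Finset.univ : Finset Γ), fineD G (tgraph code y ψ) cell ψ x g s)) := by
    refine Pr_mono fun s hs => ?_
    by_cases hopen : IsOpen (ψ s.1) (ψ s.2)
    · right
      obtain ⟨a, b, ha, hb, hab⟩ := hopen
      have hra : (ψ s.1).isRight = true := by rw [ha]; rfl
      have hrb : (ψ s.2).isRight = true := by rw [hb]; rfl
      by_cases hm1 : IsMissing ψ x s.1
      · exact Or.inl (Or.inl ⟨hm1, hrb⟩)
      · by_cases hm2 : IsMissing ψ x s.2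
        · exact Or.inl (Or.inr ⟨hra, hm2⟩)
        · exact Or.inr ⟨cell s(a, b), Finset.mem_univ _, ⟨a, b, ha, hb, hab, rfl⟩, hm1, hm2, hs⟩
    · left
      refine ⟨hopen, fun h => hs ?_⟩
      rw [h, tgraph_adj, tgraph_adj, rel_of_not_open (fun _ => false) y hopen]
  have h1 := Pr_or_le (fun s : Fin N × Fin N => ¬ IsOpen (ψ s.1) (ψ s.2) ∧
        ¬ (G.Adj s.1 s.2 ↔ (tgraph code (fun _ => false) ψ).Adj s.1 s.2))
    (fun s => ((IsMissing ψ x s.1 ∧ (ψ s.2).isRight = true) ∨
          ((ψ s.1).isRight = true ∧ IsMissing ψ x s.2)) ∨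
          ∃ g ∈ (Finset.univ : Finset Γ), fineD G (tgraph code y ψ) cell ψ x g s)
  have h2 := Pr_or_le (fun s : Fin N × Fin N => (IsMissing ψ x s.1 ∧ (ψ s.2).isRight = true) ∨
          ((ψ s.1).isRight = true ∧ IsMissing ψ x s.2))
    (fun s => ∃ g ∈ (Finset.univ : Finset Γ), fineD G (tgraph code y ψ) cell ψ x g s)
  have h3 := Pr_exists_le (Finset.univ : Finset Γ) (fineD G (tgraph code y ψ) cell ψ x)
  rw [hO] at h1
  linarith

theorem fine_sound [Fintype L] [Fintype Γ] [Nonempty Γ] (hN : 0 < N) {code : L → Fin t → Bool}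
    {cell : Sym2 L → Γ} {Y : Set (Sym2 L → Bool)} (hY : Y.Nonempty) (hprod : CellProd cell Y)
    (cap : ℕ) {G : SimpleGraph (Fin N)} {ε τ ν : ℝ} (hε : 0 < ε) (hε1 : ε ≤ 1)
    (ψ : Fin N → Typ t L)
    (hfar : ∀ y ∈ Y, 3 / 4 * ε * (N : ℝ) ^ 2 < (pairDist G (tgraph code y ψ) : ℝ))
    (hlab : (Nat.card {v // (ψ v).isRight = true} : ℝ) ≤ ν * N) (hτ : 0 < τ) (hν : 0 < ν)
    (hτν : 8 * τ * ν ≤ ε) (x : Fin K → Fin N)
    (hx : (Nat.card {v // IsMissing ψ x v} : ℝ) ≤ τ * N) :
    Pr (fun s : (Fin J → Fin N × Fin N) × (Fin M → Fin N × Fin N) =>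
      OutOK code G ψ s.2 ∧ InOK cell Y cap G ψ x s.1 s.2) ≤
      (1 - ε / 2) ^ J + (1 - ε / (4 * Fintype.card Γ)) ^ M := by
  classical
  have hne : Nonempty (Fin N × Fin N) := ⟨(⟨0, hN⟩, ⟨0, hN⟩)⟩
  have hN' : (0 : ℝ) < N := by exact_mod_cast hN
  have hΓ : (1 : ℝ) ≤ Fintype.card Γ := by exact_mod_cast Fintype.card_pos (α := Γ)
  -- the vector given by the representatives
  obtain ⟨f, hfY, hf⟩ : ∃ f : Γ → (Sym2 L → Bool), (∀ g, f g ∈ Y) ∧ ∀ g, ExtOK cell Y G ψ x g →
      ∀ (a b : L) (i j : Fin K), rep (fun i => ψ (x i)) a = some i →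
        rep (fun i => ψ (x i)) b = some j → a ≠ b → cell s(a, b) = g →
        (G.Adj (x i) (x j) ↔ f g s(a, b) = true) := by
    have h1 : ∀ g, ∃ y : Sym2 L → Bool, y ∈ Y ∧ (ExtOK cell Y G ψ x g →
        ∀ (a b : L) (i j : Fin K), rep (fun i => ψ (x i)) a = some i →
          rep (fun i => ψ (x i)) b = some j → a ≠ b → cell s(a, b) = g →
          (G.Adj (x i) (x j) ↔ y s(a, b) = true)) := by
      intro g
      by_cases h : ExtOK cell Y G ψ x g
      · obtain ⟨y, hy, hy'⟩ := h
        exact ⟨y, hy, fun _ => hy'⟩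
      · obtain ⟨y, hy⟩ := hY
        exact ⟨y, hy, fun h' => absurd h' h⟩
    choose f hf using h1
    exact ⟨f, fun g => (hf g).1, fun g => (hf g).2⟩
  obtain ⟨y, hy⟩ : ∃ y : Sym2 L → Bool, ∀ s, y s = f (cell s) s := ⟨_, fun _ => rfl⟩
  have hyY : y ∈ Y := by
    have h1 := hprod f hfY
    have h2 : y = fun s => f (cell s) s := funext hy
    rw [h2]
    exact h1
  have hcount := fine_count (cell := cell) hN ψ y (hfar y hyY) hlab hτ hν hτν x hx
  have hp0 : (0 : ℝ) ≤ 1 - ε / 2 := by linarith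
  have hq0 : (0 : ℝ) ≤ 1 - ε / (4 * Fintype.card Γ) := by
    have h1 : ε / (4 * Fintype.card Γ) ≤ 1 := by
      rw [div_le_one (by positivity)]
      linarith
    linarith
  by_cases hcase : ε / 4 * (N : ℝ) ^ 2 ≤ (outCount code G ψ : ℝ)
  · -- many violating pairs which are not open
    have h1 := out_sound (M := M) hN code G ψ hcase
    have h2 : (1 - ε / 4) ^ M ≤ (1 - ε / (4 * Fintype.card Γ)) ^ M := by
      refine pow_le_pow_left₀ (by linarith) ?_ _
      have h3 : ε / (4 * Fintype.card Γ) ≤ ε / 4 := by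
        refine div_le_div_of_nonneg_left hε.le (by norm_num) ?_
        linarith
      linarith
    have h3 : Pr (fun s : (Fin J → Fin N × Fin N) × (Fin M → Fin N × Fin N) =>
        OutOK code G ψ s.2 ∧ InOK cell Y cap G ψ x s.1 s.2) ≤
        (1 - ε / (4 * Fintype.card Γ)) ^ M := by
      refine Pr_prod_le (pow_nonneg hq0 M) (fun (c : Fin J → Fin N × Fin N)
        (p : Fin M → Fin N × Fin N) => OutOK code G ψ p ∧ InOK cell Y cap G ψ x c p)
        fun c => ?_
      exact (Pr_mono fun p hp => hp.1).trans (h1.trans h2)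
    have h4 := pow_nonneg hp0 J
    linarith
  · -- many violating pairs in the cells
    push Not at hcase
    have hsum : ε ≤ ∑ g, Pr (fineD G (tgraph code y ψ) cell ψ x g) := by
      have h1 : (outCount code G ψ : ℝ) / (N : ℝ) ^ 2 < ε / 4 := by
        rw [div_lt_iff₀ (by positivity)]
        exact hcase
      linarith
    obtain ⟨S, hS⟩ : ∃ S : Finset Γ, S = Finset.univ.filter
        (fun g => ε / (2 * Fintype.card Γ) ≤ Pr (fineD G (tgraph code y ψ) cell ψ x g)) := ⟨_, rfl⟩
    have hgood : ε / 2 ≤ ∑ g ∈ S, Pr (fineD G (tgraph code y ψ) cell ψ x g) := by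
      have h1 := Finset.sum_filter_add_sum_filter_not Finset.univ
        (fun g => ε / (2 * Fintype.card Γ) ≤ Pr (fineD G (tgraph code y ψ) cell ψ x g))
        (fun g => Pr (fineD G (tgraph code y ψ) cell ψ x g))
      have h2 : ∑ g ∈ Finset.univ.filter
          (fun g => ¬ ε / (2 * Fintype.card Γ) ≤ Pr (fineD G (tgraph code y ψ) cell ψ x g)),
          Pr (fineD G (tgraph code y ψ) cell ψ x g) ≤ ε / 2 := by
        calc _ ≤ ∑ _g ∈ Finset.univ.filter
              (fun g => ¬ ε / (2 * Fintype.card Γ) ≤ Pr (fineD G (tgraph code y ψ) cell ψ x g)),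
              ε / (2 * Fintype.card Γ) := by
                refine Finset.sum_le_sum fun g hg => ?_
                exact (not_le.1 (Finset.mem_filter.1 hg).2).le
          _ ≤ ∑ _g : Γ, ε / (2 * Fintype.card Γ) :=
                Finset.sum_le_sum_of_subset_of_nonneg (Finset.filter_subset _ _)
                  fun _ _ _ => by positivity
          _ = ε / 2 := by
                rw [Finset.sum_const, Finset.card_univ, nsmul_eq_mul]
                field_simp
      rw [← hS] at h1
      linarith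
    obtain ⟨H, hH⟩ : ∃ H : Fin N × Fin N → Prop, ∀ s, H s ↔
        ∃ g ∈ S, InCell cell g (ψ s.1) (ψ s.2) := ⟨_, fun _ => Iff.rfl⟩
    have hPrH : ε / 2 ≤ Pr H := by
      refine hgood.trans ((fine_sum_Pr_le S (fineD G (tgraph code y ψ) cell ψ x)
        (fineD_disj G (tgraph code y ψ) cell ψ x)).trans (Pr_mono fun s hs => ?_))
      obtain ⟨g, hg, hs⟩ := hs
      exact (hH s).2 ⟨g, hg, hs.1⟩
    have hB := Pr_avoid J H hPrH
    have hmain := Pr_prod_le_add (pow_nonneg hq0 M)
      (fun c : Fin J → Fin N × Fin N => ∀ l, ¬ H (c l))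
      (fun (c : Fin J → Fin N × Fin N) (p : Fin M → Fin N × Fin N) =>
        OutOK code G ψ p ∧ InOK cell Y cap G ψ x c p) ?_
    · exact hmain.trans (by linarith)
    · intro c hc
      push Not at hc
      obtain ⟨l, hl⟩ := hc
      obtain ⟨g, hg, hcell⟩ := (hH _).1 hl
      by_cases hext : ExtOK cell Y G ψ x g
      · have h1 : Pr (fun p : Fin M → Fin N × Fin N =>
            OutOK code G ψ p ∧ InOK cell Y cap G ψ x c p) ≤
            Pr (fun p : Fin M → Fin N × Fin N =>
              ∀ i, ¬ fineD G (tgraph code y ψ) cell ψ x g (p i)) := by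
          refine Pr_mono fun p hp i hD => ?_
          have hcok := (hp.2.2 g ⟨l, hcell⟩).2
          obtain ⟨⟨a, b, ha, hb, hab, hgc⟩, hm1, hm2, hdiff⟩ := hD
          have hra : ∃ j, ψ (x j) = .inr a := by
            by_contra hno
            push Not at hno
            exact hm1 ⟨a, ha, hno⟩
          have hrb : ∃ j, ψ (x j) = .inr b := by
            by_contra hno
            push Not at hno
            exact hm2 ⟨b, hb, hno⟩
          obtain ⟨i₁, hi₁⟩ := rep_of_exists (ψx := fun i => ψ (x i)) hra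
          obtain ⟨i₂, hi₂⟩ := rep_of_exists (ψx := fun i => ψ (x i)) hrb
          have h2 := hcok i a b i₁ i₂ ha hb hab hgc hi₁ hi₂
          have h3 := hf g hext a b i₁ i₂ hi₁ hi₂ hab hgc
          refine hdiff ?_
          rw [h2, h3, tgraph_adj, ha, hb]
          constructor
          · intro h4
            refine ⟨?_, hab, ?_⟩
            · intro h5
              rw [h5, hb] at ha
              exact hab (Sum.inr.inj ha).symm
            · rw [hy, hgc]
              exact h4
          · rintro ⟨_, _, h4⟩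
            rw [hy, hgc] at h4
            exact h4
        have hgS : ε / (2 * Fintype.card Γ) ≤ Pr (fineD G (tgraph code y ψ) cell ψ x g) := by
          rw [hS] at hg
          exact (Finset.mem_filter.1 hg).2
        have h2 := Pr_avoid M (fineD G (tgraph code y ψ) cell ψ x g) hgS
        have h3 : (1 - ε / (2 * Fintype.card Γ)) ^ M ≤ (1 - ε / (4 * Fintype.card Γ)) ^ M := by
          refine pow_le_pow_left₀ ?_ ?_ _
          · have h4 : ε / (2 * Fintype.card Γ) ≤ 1 := by
              rw [div_le_one (by positivity)]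
              linarith
            linarith
          · have h4 : ε / (4 * Fintype.card Γ) ≤ ε / (2 * Fintype.card Γ) := by
              refine div_le_div_of_nonneg_left hε.le (by positivity) ?_
              linarith
            linarith
        exact h1.trans (h2.trans h3)
      · have h1 : Pr (fun p : Fin M → Fin N × Fin N =>
            OutOK code G ψ p ∧ InOK cell Y cap G ψ x c p) = 0 :=
          Pr_of_forall_not fun p hp => hext (hp.2.2 g ⟨l, hcell⟩).1
        rw [h1]
        exact pow_nonneg hq0 M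

end Pool.Agent.Lib_MP_cc9a35_rb
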