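import Pool.Agent.Lib_MP_cc9a35_rb.Family
import Pool.Agent.Lib_MP_cc9a35_rb.Cells

/-!
The parameters of the scales and the property, for a real number `a ≥ 4` (the exponent will be
`c = 1 + 4 / a`). Below `U i = (uu i) ^ 4 = 2 ^ (16 i)`.
-/

namespace Pool.Agent.Lib_MP_cc9a35_rb

open Pool.Agent.Lib_MP_cc9a35_lc

/-- the scale parameter -/
def uu (i : ℕ) : ℕ := 16 ^ i

/-- number of bits of the second component of a label -/
noncomputable def hh (a : ℝ) (i : ℕ) : ℕ := ⌈8 * (a - 3) * i⌉₊

/-- number of bits of a label -/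
noncomputable def bb (a : ℝ) (i : ℕ) : ℕ := 48 * i + hh a i

/-- number of threshold types -/
noncomputable def tt (a : ℝ) (i : ℕ) : ℕ := bb a i + 2

/-- first components of the labels -/
abbrev Tps (i : ℕ) : Type := ZMod (2 ^ (48 * i))

/-- second components of the labels -/
abbrev Rss (a : ℝ) (i : ℕ) : Type := Fin (2 ^ hh a i)

/-- labels -/
abbrev Labs (a : ℝ) (i : ℕ) : Type := Tps i × Rss a i

noncomputable instance (a : ℝ) (i : ℕ) : Nonempty (Rss a i) := ⟨⟨0, by positivity⟩⟩

/-- number of vertices of each threshold type -/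
noncomputable def ww (a : ℝ) (i N : ℕ) : ℕ := N / (uu i * tt a i)

/-- bound for the number of vertices with labels -/
def mm (i N : ℕ) : ℕ := N / uu i ^ 2

/-- the degree of independence -/
noncomputable def dd (a : ℝ) (i : ℕ) : ℕ := 2 ^ (48 * i + 2 * hh a i) / (32 * bb a i)

/-- logarithm of the size of the family -/
noncomputable def EE (a : ℝ) (i : ℕ) : ℕ := 2 * bb a i * dd a i * 2 ^ (48 * i)

/-- the size of the first sample of the testers -/
noncomputable def TT (a : ℝ) (i : ℕ) : ℕ := 2 * (2 * uu i * tt a i * (tt a i + 8))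

/-- the scale `i` is active at `N` -/
def actt (a : ℝ) (i₀ i N : ℕ) : Prop := i₀ ≤ i ∧ 20 * TT a i ^ 2 ≤ N

theorem card_labs (a : ℝ) (i : ℕ) : Fintype.card (Labs a i) = 2 ^ bb a i := by
  unfold bb
  rw [Fintype.card_prod, ZMod.card, Fintype.card_fin, pow_add]

/-- admissible patterns and families for all scales -/
structure Adm (a : ℝ) (code : ∀ i, Labs a i → Fin (tt a i) → Bool)
    (Y : ∀ i, Set (Sym2 (Labs a i) → Bool)) : Prop where
  code : ∀ i, CodeOK (code i)
  fam : ∀ i, FamG (cellL (Tp := Tps i) (Rs := Rss a i)) (dd a i) (EE a i) (Y i)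
  prod : ∀ i, CellProd (cellL (Tp := Tps i) (Rs := Rss a i)) (Y i)

/-- the property -/
noncomputable def PR (a : ℝ) (i₀ : ℕ) (code : ∀ i, Labs a i → Fin (tt a i) → Bool)
    (Y : ∀ i, Set (Sym2 (Labs a i) → Bool)) : GraphProperty :=
  rprop (tt a) (Labs a) code Y (ww a) (fun i => mm i) (actt a i₀)

end Pool.Agent.Lib_MP_cc9a35_rb
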