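import Pool.Agent.Lib_MP_cc9a35_rb.LowerAt
import Pool.Agent.Lib_MP_cc9a35_rb.Scales

/-!
Piece HEV: the hypotheses of the lower bounds hold for all large `N`.

Notation: `u = uu i`, `b = bb a i`, `t = b + 2`, `n = 2 ^ b` (number of labels), `m = mm i N = N / u ^ 2`,
`w = ww a i N = N / (u t)`, `v₀ = m / (2 n)`, `D = n ^ 2 / (32 b)`, `card (Sym2 L) = n (n + 1) / 2`.

Proof of `count_ok`: `i' ≤ i` implies `b' ≤ b` (`hh` is monotone in `i` as `a ≥ 3`). `b' ≥ 48`.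
`t' + 1 + n' = b' + 3 + 2 ^ b' ≤ 2 ^ (b + 1)`, so the first factor is at most `2 ^ ((b + 1) n)`.
`EE a i' = 2 b' (2 ^ (48 i' + 2 h') / (32 b')) 2 ^ (48 i') ≤ 2 ^ (2 b') / 16 ≤ n ^ 2 / 16`.
`card (Sym2 L) + 1 ≤ n ^ 2 = 2 ^ (2 b)` and `2 b D ≤ n ^ 2 / 16`. `400 (i + 1) ≤ 2 ^ n`. So the exponent of the
left side is at most `n + (b + 1) n + n ^ 2 / 16 + n ^ 2 / 16 + n ≤ n ^ 2 / 2 ≤ n (n + 1) / 2`, as
`8 (b + 3) ≤ 3 n`.

Proof of `hard_eventually`: for large `N` (depending on `i`) all of `hN`, `hact`, `hv₀`, `hreg`, `hw` hold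
since `m`, `w → ∞`. `hm`: `m + t w ≤ N / u ^ 2 + N / u ≤ N`. `hv`: `2 v₀ n ≤ m`. `hδ`: for large `N`,
`m ≥ N / (2 u ^ 2)` and `v₀ ≥ m / (4 n) ≥ N / (8 u ^ 2 n)` (real numbers), and `D + 1 ≥ n ^ 2 / (32 b)`, so
`v₀ ^ 2 (D + 1) ≥ N ^ 2 / (2048 b u ^ 4) > ε N ^ 2`. `hε`: for large `N`, `t w ≥ N / (2 u)`, so
`(t w) ^ 2 ≥ N ^ 2 / (4 u ^ 2)`, and `32 ε < 32 / (2048 b u ^ 4) ≤ 1 / (4 u ^ 2)`. `hup`: for `i' > i`,
`u' ≥ 16 u`, `t' w' + m' ≤ N / u' + N / u' ^ 2 ≤ 2 N / u' ≤ N / (8 u)`, so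
`16 (t' w' + m') ^ 2 ≤ N ^ 2 / (4 u ^ 2) ≤ (t w) ^ 2`. `hcount` is `count_ok` (`i₀ ≥ 1`, so `i' ≥ 1` for active
`i'`).
-/

namespace Pool.Agent.Lib_MP_cc9a35_rb

open Filter Pool.Agent.Lib_MP_cc9a35_lc

theorem hev_hh_mono {a : ℝ} (ha : 4 ≤ a) {i' i : ℕ} (h : i' ≤ i) : hh a i' ≤ hh a i := by
  unfold hh
  apply Nat.ceil_le_ceil
  gcongr
  linarith

theorem hev_bb_mono {a : ℝ} (ha : 4 ≤ a) {i' i : ℕ} (h : i' ≤ i) : bb a i' ≤ bb a i := by
  unfold bb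
  have := hev_hh_mono ha h
  omega

theorem hev_bb_pos (a : ℝ) {i : ℕ} (hi : 1 ≤ i) : 48 ≤ bb a i := by
  unfold bb
  omega

theorem hev_two_pow (b : ℕ) (hb : 48 ≤ b) : 400 * (b + 3) ≤ 2 ^ b := by
  induction b, hb using Nat.le_induction with
  | base => norm_num
  | succ b hb ih =>
    rw [pow_succ]
    omega

theorem hev_card (a : ℝ) (i : ℕ) : Fintype.card (Tps i × Rss a i) = 2 ^ bb a i := card_labs a i

theorem count_ok {a : ℝ} (ha : 4 ≤ a) {i' i : ℕ} (h1 : 1 ≤ i') (h : i' ≤ i) :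
    400 * (i + 1) *
    ((tt a i' + 1 + Fintype.card (Tps i' × Rss a i')) ^ Fintype.card (Tps i × Rss a i) *
      2 ^ EE a i' *
      ((Fintype.card (Sym2 (Tps i × Rss a i)) + 1) ^ (2 ^ (2 * bb a i) / (32 * bb a i)) *
        2 ^ Fintype.card (Tps i × Rss a i))) ≤
    2 ^ Fintype.card (Sym2 (Tps i × Rss a i)) := by
  rw [Sym2.card, hev_card, hev_card, Nat.choose_two_right]
  have hb' := hev_bb_pos a h1
  have hbb := hev_bb_mono ha h
  have hib : i ≤ bb a i := by unfold bb; omega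
  have hE : 16 * EE a i' ≤ 2 ^ (2 * bb a i') := by
    unfold EE
    have e1 : dd a i' * (32 * bb a i') ≤ 2 ^ (48 * i' + 2 * hh a i') := Nat.div_mul_le_self _ _
    calc 16 * (2 * bb a i' * dd a i' * 2 ^ (48 * i')) =
        dd a i' * (32 * bb a i') * 2 ^ (48 * i') := by ring
      _ ≤ 2 ^ (48 * i' + 2 * hh a i') * 2 ^ (48 * i') := by gcongr
      _ = 2 ^ (2 * bb a i') := by
        rw [← pow_add]
        congr 1
        unfold bb
        ring
  have hD : (2 ^ (2 * bb a i) / (32 * bb a i)) * (32 * bb a i) ≤ 2 ^ (2 * bb a i) :=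
    Nat.div_mul_le_self _ _
  have ht' : tt a i' + 1 + 2 ^ bb a i' ≤ 2 ^ (bb a i + 1) := by
    have e1 := hev_two_pow _ hb'
    have e2 : 2 ^ bb a i' ≤ 2 ^ bb a i := Nat.pow_le_pow_right (by norm_num) hbb
    rw [pow_succ]
    unfold tt
    omega
  have hmono : 2 ^ (2 * bb a i') ≤ 2 ^ (2 * bb a i) :=
    Nat.pow_le_pow_right (by norm_num) (by omega)
  generalize hbdef : bb a i = b at *
  have hb : 48 ≤ b := hb'.trans hbb
  generalize hEdef : EE a i' = E at *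
  generalize hDdef : 2 ^ (2 * b) / (32 * b) = D at *
  have hsq : 2 ^ (2 * b) = 2 ^ b * 2 ^ b := by rw [two_mul, pow_add]
  have hn := hev_two_pow b hb
  have hbn : b < 2 ^ b := Nat.lt_two_pow_self
  have h400 : 400 * (i + 1) ≤ 2 ^ (2 ^ b) := by
    calc 400 * (i + 1) ≤ 400 * (b + 3) := by omega
      _ ≤ 2 ^ b := hn
      _ ≤ 2 ^ (2 ^ b) := Nat.pow_le_pow_right (by norm_num) hbn.le
  rw [hsq] at hD hmono
  have hS : 2 * ((2 ^ b + 1) * (2 ^ b + 1 - 1) / 2) = (2 ^ b + 1) * 2 ^ b := by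
    rw [Nat.add_sub_cancel]
    apply Nat.mul_div_cancel'
    exact (Nat.even_mul_pred_self (2 ^ b + 1)).two_dvd
  have hS1 : (2 ^ b + 1) * (2 ^ b + 1 - 1) / 2 + 1 ≤ 2 ^ (2 * b) := by
    rw [hsq]
    nlinarith
  generalize hSdef : (2 ^ b + 1) * (2 ^ b + 1 - 1) / 2 = S at *
  have hfin : 2 ^ b + ((b + 1) * 2 ^ b + E + (2 * b * D + 2 ^ b)) ≤ S := by
    have e1 : 8 * (b + 3) ≤ 3 * 2 ^ b := by omega
    have e2 : 8 * (b + 3) * 2 ^ b ≤ 3 * 2 ^ b * 2 ^ b := Nat.mul_le_mul_right _ e1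
    have e3 : D * (32 * b) = 16 * (2 * b * D) := by ring
    generalize hndef : 2 ^ b = n at *
    have e4 : 16 * S = 8 * (n * n) + 8 * n := by
      have : (n + 1) * n = n * n + n := by ring
      omega
    have e5 : 16 * E ≤ n * n := hE.trans hmono
    have e6 : 16 * (2 * b * D) ≤ n * n := by rw [← e3]; exact hD
    have e7 : 16 * ((b + 1) * n) + 32 * n = 2 * (8 * (b + 3) * n) := by ring
    have e8 : 3 * n * n = 3 * (n * n) := by ring
    generalize n * n = X at *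
    generalize (b + 1) * n = Z at *
    generalize 8 * (b + 3) * n = U at *
    generalize 2 * b * D = V at *
    omega
  calc 400 * (i + 1) * ((tt a i' + 1 + 2 ^ bb a i') ^ 2 ^ b * 2 ^ E * ((S + 1) ^ D * 2 ^ 2 ^ b))
      ≤ 2 ^ (2 ^ b) * ((2 ^ (b + 1)) ^ 2 ^ b * 2 ^ E * ((2 ^ (2 * b)) ^ D * 2 ^ 2 ^ b)) := by
        gcongr
    _ = 2 ^ (2 ^ b + ((b + 1) * 2 ^ b + E + (2 * b * D + 2 ^ b))) := by
        rw [← pow_mul, ← pow_mul, ← pow_add, ← pow_add, ← pow_add, ← pow_add]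
    _ ≤ 2 ^ S := Nat.pow_le_pow_right (by norm_num) hfin

theorem hev_tw_le (a : ℝ) (i N : ℕ) : tt a i * ww a i N ≤ N / uu i := by
  unfold ww
  rw [← Nat.div_div_eq_div_mul, mul_comm]
  exact Nat.div_mul_le_self _ _

theorem hev_uu_pos (i : ℕ) : 0 < uu i := by unfold uu; positivity

theorem hev_mm_le (i N : ℕ) : mm i N ≤ N / uu i := by
  unfold mm
  apply Nat.div_le_div_left _ (hev_uu_pos i)
  rw [sq]
  exact Nat.le_mul_of_pos_left _ (hev_uu_pos i)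

theorem hard_eventually {a : ℝ} (ha : 4 ≤ a) {i₀ i : ℕ} (hi₀ : 1 ≤ i₀) (hi : i₀ ≤ i) {ε : ℝ}
    (hε0 : 0 ≤ ε) (hε : ε * (2048 * bb a i * (uu i : ℝ) ^ 4) < 1) :
    ∀ᶠ N : ℕ in atTop, HardAt (tt a) Tps (Rss a) (ww a) (fun i => mm i) (actt a i₀) (EE a) i N
      (mm i N / (2 * 2 ^ bb a i)) (2 ^ (2 * bb a i) / (32 * bb a i)) ε := by
  have hi1 : 1 ≤ i := hi₀.trans hi
  have hb := hev_bb_pos a hi1
  have hu0 := hev_uu_pos i
  have hu : 16 ≤ uu i := by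
    unfold uu
    calc 16 = 16 ^ 1 := by norm_num
      _ ≤ 16 ^ i := Nat.pow_le_pow_right (by norm_num) hi1
  have ht0 : 0 < tt a i := by unfold tt; omega
  have hn0 : 0 < 2 ^ bb a i := by positivity
  filter_upwards [eventually_ge_atTop (2 + 20 * TT a i ^ 2 +
    (1600 * (2 ^ bb a i) ^ 2 + 2 * 2 ^ bb a i) * uu i ^ 2 + 2 * (uu i * tt a i))] with N hNge
  have hNt : 2 * (uu i * tt a i) ≤ N := by omega
  have hNm : (1600 * (2 ^ bb a i) ^ 2 + 2 * 2 ^ bb a i) * uu i ^ 2 ≤ N := by omega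
  have hN2 : 2 ≤ N := by omega
  have hNT : 20 * TT a i ^ 2 ≤ N := by omega
  have hm_ge : 1600 * (2 ^ bb a i) ^ 2 + 2 * 2 ^ bb a i ≤ mm i N := by
    unfold mm
    rwa [Nat.le_div_iff_mul_le (by positivity)]
  have hw_ge : 2 ≤ ww a i N := by
    unfold ww
    rwa [Nat.le_div_iff_mul_le (by positivity)]
  have hv₀ : 1 ≤ mm i N / (2 * 2 ^ bb a i) := by
    rw [Nat.le_div_iff_mul_le (by positivity)]
    omega
  have hNlt : N < (mm i N + 1) * uu i ^ 2 := by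
    unfold mm
    have e1 := Nat.div_add_mod N (uu i ^ 2)
    have e2 := Nat.mod_lt N (show 0 < uu i ^ 2 by positivity)
    have e3 : (N / uu i ^ 2 + 1) * uu i ^ 2 = uu i ^ 2 * (N / uu i ^ 2) + uu i ^ 2 := by ring
    omega
  have hmlt : mm i N < (mm i N / (2 * 2 ^ bb a i) + 1) * (2 * 2 ^ bb a i) := by
    have e1 := Nat.div_add_mod (mm i N) (2 * 2 ^ bb a i)
    have e2 := Nat.mod_lt (mm i N) (show 0 < 2 * 2 ^ bb a i by positivity)
    have e3 : (mm i N / (2 * 2 ^ bb a i) + 1) * (2 * 2 ^ bb a i) =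
      2 * 2 ^ bb a i * (mm i N / (2 * 2 ^ bb a i)) + 2 * 2 ^ bb a i := by ring
    omega
  have hDlt : 2 ^ (2 * bb a i) <
      (2 ^ (2 * bb a i) / (32 * bb a i) + 1) * (32 * bb a i) := by
    have e1 := Nat.div_add_mod (2 ^ (2 * bb a i)) (32 * bb a i)
    have e2 := Nat.mod_lt (2 ^ (2 * bb a i)) (show 0 < 32 * bb a i by omega)
    have e3 : (2 ^ (2 * bb a i) / (32 * bb a i) + 1) * (32 * bb a i) =
      32 * bb a i * (2 ^ (2 * bb a i) / (32 * bb a i)) + 32 * bb a i := by ring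
    omega
  have hwlt : N < (ww a i N + 1) * (uu i * tt a i) := by
    unfold ww
    have e1 := Nat.div_add_mod N (uu i * tt a i)
    have e2 := Nat.mod_lt N (show 0 < uu i * tt a i by positivity)
    have e3 : (N / (uu i * tt a i) + 1) * (uu i * tt a i) =
      uu i * tt a i * (N / (uu i * tt a i)) + uu i * tt a i := by ring
    omega
  have htw : N ≤ 2 * uu i * (tt a i * ww a i N) := by
    have : (ww a i N + 1) * (uu i * tt a i) ≤ (2 * ww a i N) * (uu i * tt a i) := by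
      gcongr
      omega
    calc N ≤ (2 * ww a i N) * (uu i * tt a i) := hwlt.le.trans this
      _ = _ := by ring
  have hcardL : Fintype.card (Tps i × Rss a i) = 2 ^ bb a i := hev_card a i
  constructor
  · exact hN2
  · exact ⟨hi, hNT⟩
  · have e1 := hev_tw_le a i N
    have e2 := hev_mm_le i N
    have e3 : N / uu i ≤ N / 2 := Nat.div_le_div_left (by omega) (by norm_num)
    omega
  · exact hv₀
  · rw [hcardL]
    calc 2 * (mm i N / (2 * 2 ^ bb a i)) * 2 ^ bb a i =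
        mm i N / (2 * 2 ^ bb a i) * (2 * 2 ^ bb a i) := by ring
      _ ≤ mm i N := Nat.div_mul_le_self _ _
  · rw [hcardL]
    show 1600 * (2 ^ bb a i) ^ 2 ≤ mm i N
    omega
  · -- `hδ`
    set v := mm i N / (2 * 2 ^ bb a i) with hvdef
    set D := 2 ^ (2 * bb a i) / (32 * bb a i) with hDdef
    have h1 : N ≤ 8 * uu i ^ 2 * 2 ^ bb a i * v := by
      have e1 : (mm i N + 1) ≤ 2 * mm i N := by omega
      have e2 : v + 1 ≤ 2 * v := by omega
      have e3 : mm i N ≤ (2 * v) * (2 * 2 ^ bb a i) := hmlt.le.trans (by gcongr)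
      calc N ≤ (mm i N + 1) * uu i ^ 2 := hNlt.le
        _ ≤ (2 * mm i N) * uu i ^ 2 := by gcongr
        _ ≤ (2 * ((2 * v) * (2 * 2 ^ bb a i))) * uu i ^ 2 := by gcongr
        _ = _ := by ring
    have h2 : N ^ 2 ≤ 2048 * bb a i * uu i ^ 4 * (v ^ 2 * (D + 1)) := by
      calc N ^ 2 ≤ (8 * uu i ^ 2 * 2 ^ bb a i * v) ^ 2 := by gcongr
        _ = 64 * uu i ^ 4 * v ^ 2 * 2 ^ (2 * bb a i) := by
          rw [two_mul (bb a i), pow_add]
          ring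
        _ ≤ 64 * uu i ^ 4 * v ^ 2 * ((D + 1) * (32 * bb a i)) := by gcongr
        _ = _ := by ring
    have h2' : (N : ℝ) ^ 2 ≤ 2048 * bb a i * (uu i : ℝ) ^ 4 * ((v : ℝ) ^ 2 * (D + 1)) := by
      exact_mod_cast h2
    have hvpos : (0 : ℝ) < (v : ℝ) ^ 2 * (D + 1) := by
      have : (0 : ℝ) < v := by exact_mod_cast hv₀
      positivity
    calc ε * (N : ℝ) ^ 2 ≤ ε * (2048 * bb a i * (uu i : ℝ) ^ 4 * ((v : ℝ) ^ 2 * (D + 1))) := by
          gcongr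
      _ = ε * (2048 * bb a i * (uu i : ℝ) ^ 4) * ((v : ℝ) ^ 2 * (D + 1)) := by ring
      _ < 1 * ((v : ℝ) ^ 2 * (D + 1)) := by gcongr
      _ = _ := one_mul _
  · exact ht0
  · exact hw_ge
  · exact hε0
  · intro i' hii' _
    have hu' : 16 * uu i ≤ uu i' := by
      unfold uu
      calc 16 * 16 ^ i = 16 ^ (i + 1) := by ring
        _ ≤ 16 ^ i' := Nat.pow_le_pow_right (by norm_num) hii'
    have e1 := hev_tw_le a i' N
    have e2 := hev_mm_le i' N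
    have e3 : N / uu i' ≤ N / (16 * uu i) := Nat.div_le_div_left hu' (by positivity)
    have e4 : N / (16 * uu i) * (16 * uu i) ≤ N := Nat.div_mul_le_self _ _
    have e5 : 8 * (N / (16 * uu i)) ≤ tt a i * ww a i N := by
      have : 2 * uu i * (8 * (N / (16 * uu i))) ≤ 2 * uu i * (tt a i * ww a i N) := by
        calc 2 * uu i * (8 * (N / (16 * uu i))) = N / (16 * uu i) * (16 * uu i) := by ring
          _ ≤ N := e4
          _ ≤ _ := htw
      exact Nat.le_of_mul_le_mul_left this (by positivity)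
    have e6 : 4 * (tt a i' * ww a i' N + mm i' N) ≤ tt a i * ww a i N := by omega
    calc 16 * (tt a i' * ww a i' N + mm i' N) ^ 2 = (4 * (tt a i' * ww a i' N + mm i' N)) ^ 2 := by
          ring
      _ ≤ _ := by gcongr
  · have h1 : (N : ℝ) ≤ 2 * uu i * ((tt a i * ww a i N : ℕ) : ℝ) := by exact_mod_cast htw
    set T : ℝ := ((tt a i * ww a i N : ℕ) : ℝ) with hT
    have hTpos : 0 < T := by
      rw [hT]
      have : 0 < tt a i * ww a i N := by positivity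
      exact_mod_cast this
    have hb1 : (1 : ℝ) ≤ bb a i := by exact_mod_cast (show 1 ≤ bb a i by omega)
    have hu1 : (1 : ℝ) ≤ uu i := by exact_mod_cast (show 1 ≤ uu i by omega)
    have h2 : 128 * (uu i : ℝ) ^ 2 ≤ 2048 * bb a i * (uu i : ℝ) ^ 4 := by
      have : (1 : ℝ) ≤ (uu i : ℝ) ^ 2 := one_le_pow₀ hu1
      calc 128 * (uu i : ℝ) ^ 2 = 128 * 1 * (uu i : ℝ) ^ 2 * 1 := by ring
        _ ≤ 2048 * bb a i * (uu i : ℝ) ^ 2 * (uu i : ℝ) ^ 2 := by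
          gcongr
          norm_num
        _ = _ := by ring
    calc 32 * ε * (N : ℝ) ^ 2 ≤ 32 * ε * (2 * uu i * T) ^ 2 := by gcongr
      _ = ε * (128 * (uu i : ℝ) ^ 2) * T ^ 2 := by ring
      _ ≤ ε * (2048 * bb a i * (uu i : ℝ) ^ 4) * T ^ 2 := by gcongr
      _ < 1 * T ^ 2 := by gcongr
      _ = _ := one_mul _
  · intro i' hi'i hact
    exact count_ok ha (hi₀.trans hact.1) hi'i

end Pool.Agent.Lib_MP_cc9a35_rb
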