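import Pool.Agent.Lib_MP_cc9a35_lc.Trees

/-!
Piece IND: indistinguishability, where the sets of hidden coordinates seen along the paths of the
tree belong to a family `good`.

Proof of `indist2`: the proof of `indist_aux` in `Pool.Agent.Lib_MP_cc9a35_lc.Trees` carries over: show by
induction on `T`, for all `I` and `t` with `PathsGood coord good T I`, that
`card Ω₂ * Nat.card {ω : Ω₁ // (∀ i ∈ I, b₁ ω i = t i) ∧ T.Accepts (G₁ ω)} = card Ω₁ * (same for Ω₂)`. At
`answer true` use `hd` for `I` (`PathsGood` says `good I`); `answer false` is trivial. For a query without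
coordinate both sides reduce to the same subtree. For a query with coordinate `i ∈ I` both sides reduce
to the subtree given by `t i` (`insert i I = I`), and if `i ∉ I` use `split_card`.

Proof of `pathsGood_of_depth`: induction on `T`; `Finset.card_insert_le`.
Proof of `pathsGood_of_list`: induction on `T` for all `L` and `I`.
-/

namespace Pool.Agent.Lib_MP_cc9a35_rb

open Pool.Agent.Lib_MP_cc9a35_lc
open Pool.Agent.Lib_MP_cc9a35_lc.QueryTree

variable {N : ℕ} {ι : Type} [DecidableEq ι]

/-- All the coordinate sets reached at the leaves of the tree, starting from `I`, are good. -/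
def PathsGood (coord : Fin N → Fin N → Option ι) (good : Finset ι → Prop) :
    QueryTree N → Finset ι → Prop
  | .answer _, I => good I
  | .query u v t f, I =>
    match coord u v with
    | none => PathsGood coord good t I ∧ PathsGood coord good f I
    | some i => PathsGood coord good t (insert i I) ∧ PathsGood coord good f (insert i I)

theorem indist2_aux {Ω₁ Ω₂ : Type*} [Fintype Ω₁] [Fintype Ω₂] (coord : Fin N → Fin N → Option ι)
    (fixed : Fin N → Fin N → Prop) (b₁ : Ω₁ → ι → Bool) (b₂ : Ω₂ → ι → Bool)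
    (G₁ : Ω₁ → SimpleGraph (Fin N)) (G₂ : Ω₂ → SimpleGraph (Fin N))
    (h₁ : ∀ ω u v, (∀ i, coord u v = some i → ((G₁ ω).Adj u v ↔ b₁ ω i = true)) ∧
      (coord u v = none → ((G₁ ω).Adj u v ↔ fixed u v)))
    (h₂ : ∀ ω u v, (∀ i, coord u v = some i → ((G₂ ω).Adj u v ↔ b₂ ω i = true)) ∧
      (coord u v = none → ((G₂ ω).Adj u v ↔ fixed u v)))
    (good : Finset ι → Prop)
    (hd : ∀ I : Finset ι, good I → ∀ t : ι → Bool,
      Fintype.card Ω₂ * Nat.card {ω : Ω₁ // ∀ i ∈ I, b₁ ω i = t i} =
      Fintype.card Ω₁ * Nat.card {ω : Ω₂ // ∀ i ∈ I, b₂ ω i = t i})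
    (T : QueryTree N) :
    ∀ (I : Finset ι) (t : ι → Bool), PathsGood coord good T I →
      Fintype.card Ω₂ * Nat.card {ω : Ω₁ // (∀ i ∈ I, b₁ ω i = t i) ∧ T.Accepts (G₁ ω)} =
      Fintype.card Ω₁ * Nat.card {ω : Ω₂ // (∀ i ∈ I, b₂ ω i = t i) ∧ T.Accepts (G₂ ω)} := by
  classical
  induction T with
  | answer b =>
    intro I t hI
    cases b with
    | true =>
      simp only [Accepts, and_true]
      exact hd I hI t
    | false =>
      simp [Accepts]
  | query u v t₁ t₂ ih₁ ih₂ =>
    intro I t hI
    cases hc : coord u v with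
    | none =>
      simp only [PathsGood, hc] at hI
      by_cases hf : fixed u v
      · have e1 : ∀ ω, ((G₁ ω).Adj u v) := fun ω => ((h₁ ω u v).2 hc).2 hf
        have e2 : ∀ ω, ((G₂ ω).Adj u v) := fun ω => ((h₂ ω u v).2 hc).2 hf
        simp only [Accepts, e1, e2, true_and, not_true_eq_false, false_and, or_false]
        exact ih₁ I t hI.1
      · have e1 : ∀ ω, ¬ ((G₁ ω).Adj u v) := fun ω h => hf (((h₁ ω u v).2 hc).1 h)
        have e2 : ∀ ω, ¬ ((G₂ ω).Adj u v) := fun ω h => hf (((h₂ ω u v).2 hc).1 h)
        simp only [Accepts, e1, e2, true_and, not_false_eq_true, false_and, false_or]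
        exact ih₂ I t hI.2
    | some i =>
      simp only [PathsGood, hc] at hI
      have e1 : ∀ ω, ((G₁ ω).Adj u v ↔ b₁ ω i = true) := fun ω => (h₁ ω u v).1 i hc
      have e2 : ∀ ω, ((G₂ ω).Adj u v ↔ b₂ ω i = true) := fun ω => (h₂ ω u v).1 i hc
      by_cases hi : i ∈ I
      · rw [Finset.insert_eq_of_mem hi] at hI
        cases hti : t i with
        | true =>
          have k1 : ∀ ω, ((∀ j ∈ I, b₁ ω j = t j) ∧ Accepts (G₁ ω) (.query u v t₁ t₂)) ↔
              ((∀ j ∈ I, b₁ ω j = t j) ∧ Accepts (G₁ ω) t₁) := by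
            intro ω
            refine and_congr_right fun h => ?_
            have : b₁ ω i = true := by rw [h i hi, hti]
            simp [Accepts, e1, this]
          have k2 : ∀ ω, ((∀ j ∈ I, b₂ ω j = t j) ∧ Accepts (G₂ ω) (.query u v t₁ t₂)) ↔
              ((∀ j ∈ I, b₂ ω j = t j) ∧ Accepts (G₂ ω) t₁) := by
            intro ω
            refine and_congr_right fun h => ?_
            have : b₂ ω i = true := by rw [h i hi, hti]
            simp [Accepts, e2, this]
          simp only [k1, k2]
          exact ih₁ I t hI.1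
        | false =>
          have k1 : ∀ ω, ((∀ j ∈ I, b₁ ω j = t j) ∧ Accepts (G₁ ω) (.query u v t₁ t₂)) ↔
              ((∀ j ∈ I, b₁ ω j = t j) ∧ Accepts (G₁ ω) t₂) := by
            intro ω
            refine and_congr_right fun h => ?_
            have : b₁ ω i = false := by rw [h i hi, hti]
            simp [Accepts, e1, this]
          have k2 : ∀ ω, ((∀ j ∈ I, b₂ ω j = t j) ∧ Accepts (G₂ ω) (.query u v t₁ t₂)) ↔
              ((∀ j ∈ I, b₂ ω j = t j) ∧ Accepts (G₂ ω) t₂) := by
            intro ω
            refine and_congr_right fun h => ?_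
            have : b₂ ω i = false := by rw [h i hi, hti]
            simp [Accepts, e2, this]
          simp only [k1, k2]
          exact ih₂ I t hI.2
      · -- split according to the value of the bit `i`
        rw [split_card hi b₁ G₁ e1, split_card hi b₂ G₂ e2, mul_add, mul_add,
          ih₁ (insert i I) _ hI.1, ih₂ (insert i I) _ hI.2]

theorem indist2 {Ω₁ Ω₂ : Type*} [Fintype Ω₁] [Fintype Ω₂] (coord : Fin N → Fin N → Option ι)
    (fixed : Fin N → Fin N → Prop) (b₁ : Ω₁ → ι → Bool) (b₂ : Ω₂ → ι → Bool)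
    (G₁ : Ω₁ → SimpleGraph (Fin N)) (G₂ : Ω₂ → SimpleGraph (Fin N))
    (h₁ : ∀ ω u v, (∀ i, coord u v = some i → ((G₁ ω).Adj u v ↔ b₁ ω i = true)) ∧
      (coord u v = none → ((G₁ ω).Adj u v ↔ fixed u v)))
    (h₂ : ∀ ω u v, (∀ i, coord u v = some i → ((G₂ ω).Adj u v ↔ b₂ ω i = true)) ∧
      (coord u v = none → ((G₂ ω).Adj u v ↔ fixed u v)))
    (good : Finset ι → Prop)
    (hd : ∀ I : Finset ι, good I → ∀ t : ι → Bool,
      Fintype.card Ω₂ * Nat.card {ω : Ω₁ // ∀ i ∈ I, b₁ ω i = t i} =
      Fintype.card Ω₁ * Nat.card {ω : Ω₂ // ∀ i ∈ I, b₂ ω i = t i})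
    (T : QueryTree N) (hT : PathsGood coord good T ∅) :
      Fintype.card Ω₂ * Nat.card {ω : Ω₁ // T.Accepts (G₁ ω)} =
      Fintype.card Ω₁ * Nat.card {ω : Ω₂ // T.Accepts (G₂ ω)} := by
  have := indist2_aux coord fixed b₁ b₂ G₁ G₂ h₁ h₂ good hd T ∅ (fun _ => true) hT
  simpa using this

theorem pathsGood_of_depth (coord : Fin N → Fin N → Option ι) (good : Finset ι → Prop) (d : ℕ)
    (h : ∀ I : Finset ι, I.card ≤ d → good I) (T : QueryTree N) (I : Finset ι)
    (hT : I.card + T.depth ≤ d) : PathsGood coord good T I := by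
  induction T generalizing I with
  | answer b =>
    exact h I (by simpa [depth] using hT)
  | query u v t₁ t₂ ih₁ ih₂ =>
    simp only [depth] at hT
    cases hc : coord u v with
    | none =>
      simp only [PathsGood, hc]
      exact ⟨ih₁ I (by omega), ih₂ I (by omega)⟩
    | some i =>
      simp only [PathsGood, hc]
      have := Finset.card_insert_le i I
      exact ⟨ih₁ (insert i I) (by omega), ih₂ (insert i I) (by omega)⟩

theorem pathsGood_of_list (coord : Fin N → Fin N → Option ι) (good : Finset ι → Prop)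
    (T : QueryTree N) (L : List (Fin N × Fin N)) (hL : QueriesExactly L T) (I : Finset ι)
    (h : good (I ∪ (L.filterMap fun e => coord e.1 e.2).toFinset)) :
    PathsGood coord good T I := by
  induction T generalizing L I with
  | answer b =>
    cases L with
    | nil => simpa [PathsGood] using h
    | cons e L => simp [QueriesExactly] at hL
  | query u v t₁ t₂ ih₁ ih₂ =>
    cases L with
    | nil => simp [QueriesExactly] at hL
    | cons e L =>
      simp only [QueriesExactly] at hL
      obtain ⟨rfl, h1, h2⟩ := hL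
      cases hc : coord u v with
      | none =>
        simp only [List.filterMap_cons, hc] at h
        simp only [PathsGood, hc]
        exact ⟨ih₁ L h1 I h, ih₂ L h2 I h⟩
      | some i =>
        simp only [List.filterMap_cons, hc] at h
        simp only [PathsGood, hc]
        have he : insert i I ∪ (L.filterMap fun e => coord e.1 e.2).toFinset =
            I ∪ (i :: L.filterMap fun e => coord e.1 e.2).toFinset := by
          rw [List.toFinset_cons, Finset.union_insert, Finset.insert_union]
        rw [← he] at h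
        exact ⟨ih₁ L h1 _ h, ih₂ L h2 _ h⟩

end Pool.Agent.Lib_MP_cc9a35_rb
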