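import Pool.Agent.Lib_MP_cc9a35_rb.LowerNat
import Pool.Agent.Lib_MP_cc9a35_rb.BigI

/-!
Piece LAS: the lower bounds as functions of `ε`.

Proof. Take `C₀` and, for small `ε`, the scale `i` from `choose_scale`; write `ℓ = log (1/ε)` (eventually
`≥ 1`), `U = (uu i) ^ 4`. Then `1 / ε ≤ C₀ ℓ U`, so
`(1/ε) ^ a ≤ (C₀ ℓ) ^ a * U ^ a ≤ (C₀ ℓ) ^ a * 64 * bb a i * dd a i ≤ (C₀ ℓ) ^ a * 64 * C₀ * ℓ * q`
(`dd_lower`, `lower_nat`), and `(C₀ ℓ) ^ a ≤ C₀ ^ a * ℓ ^ ⌈a⌉₊`. Similarly for `a + 4` with `dd_lower'` and the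
factor `40`.
-/

namespace Pool.Agent.Lib_MP_cc9a35_rb

open Filter Topology Pool.Agent.Lib_MP_cc9a35_lc

/-- the common real computation -/
theorem LAS_core {c C₀ l e U b d q D : ℝ} {k : ℕ} (hc : 0 ≤ c) (hC₀ : 1 ≤ C₀) (hl : 1 ≤ l)
    (hU : 0 ≤ U) (hD : 0 ≤ D) (hk : c ≤ k) (he0 : 0 ≤ e)
    (h1 : e ≤ C₀ * l * U) (hb : b ≤ C₀ * l) (hd : U ^ c ≤ 64 * b * d) (hd0 : 0 ≤ d)
    (hq : d ≤ D * q) (hq0 : 0 ≤ q) :
    e ^ c ≤ 64 * C₀ * C₀ ^ c * D * l ^ (k + 1) * q := by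
  have h2 : e ^ c ≤ (C₀ * l * U) ^ c := Real.rpow_le_rpow he0 h1 hc
  have h3 : (C₀ * l * U) ^ c = C₀ ^ c * l ^ c * U ^ c := by
    rw [Real.mul_rpow (by positivity) hU, Real.mul_rpow (by positivity) (by positivity)]
  have h4 : l ^ c ≤ l ^ (k : ℝ) := Real.rpow_le_rpow_of_exponent_le hl hk
  rw [Real.rpow_natCast] at h4
  have h5 : U ^ c ≤ 64 * (C₀ * l) * (D * q) := by
    refine hd.trans ?_
    have h6 : 64 * b * d ≤ 64 * (C₀ * l) * d := by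
      apply mul_le_mul_of_nonneg_right _ hd0
      linarith
    refine h6.trans ?_
    exact mul_le_mul_of_nonneg_left hq (by positivity)
  calc e ^ c ≤ C₀ ^ c * l ^ c * U ^ c := by rw [← h3]; exact h2
    _ ≤ C₀ ^ c * l ^ k * (64 * (C₀ * l) * (D * q)) := by
        apply mul_le_mul _ h5 (by positivity) (by positivity)
        exact mul_le_mul_of_nonneg_left h4 (by positivity)
    _ = 64 * C₀ * C₀ ^ c * D * l ^ (k + 1) * q := by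
        rw [pow_succ]
        ring

theorem lower_asym {a : ℝ} (ha : 4 ≤ a) {code : ∀ i, Labs a i → Fin (tt a i) → Bool}
    {Y : ∀ i, Set (Sym2 (Labs a i) → Bool)} (hadm : Adm a code Y) {i₀ : ℕ} (hi₀ : 1 ≤ i₀)
    (hd : ∀ i, i₀ ≤ i → 40 * 2 ^ (48 * i) ≤ dd a i) :
    (∃ C > 0, ∃ k : ℕ, ∀ᶠ ε in 𝓝[>] (0 : ℝ), ∀ᶠ N : ℕ in atTop, ∀ q : ℕ,
      TestableAt (PR a i₀ code Y) ε N q → (1 / ε) ^ a ≤ C * Real.log (1 / ε) ^ k * q) ∧
    (∃ C > 0, ∃ k : ℕ, ∀ᶠ ε in 𝓝[>] (0 : ℝ), ∀ᶠ N : ℕ in atTop, ∀ q : ℕ,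
      NonadaptivelyTestableAt (PR a i₀ code Y) ε N q →
        (1 / ε) ^ (a + 4) ≤ C * Real.log (1 / ε) ^ k * q) := by
  obtain ⟨C₀, hC₀, hev⟩ := choose_scale ha i₀
  have hlog : ∀ᶠ ε in 𝓝[>] (0 : ℝ), 1 ≤ Real.log (1 / ε) := by
    have h1 : Tendsto (fun ε : ℝ => Real.log (1 / ε)) (𝓝[>] 0) atTop := by
      have h2 : Tendsto (fun ε : ℝ => 1 / ε) (𝓝[>] 0) atTop := by
        simpa only [one_div] using tendsto_inv_nhdsGT_zero (𝕜 := ℝ)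
      exact Real.tendsto_log_atTop.comp h2
    exact h1.eventually_ge_atTop 1
  have hpos : ∀ᶠ ε in 𝓝[>] (0 : ℝ), 0 < ε := self_mem_nhdsWithin
  have hCp : 0 < C₀ := lt_of_lt_of_le one_pos hC₀
  constructor
  · refine ⟨64 * C₀ * C₀ ^ a * 1, by positivity, ⌈a⌉₊ + 1, ?_⟩
    filter_upwards [hev, hlog, hpos] with ε hε hl hε0
    obtain ⟨i, hi, hsm, h1, hb⟩ := hε
    filter_upwards [lower_nat ha hadm hi₀ hi (hd i hi) hε0.le hsm] with N hN q hq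
    have h2 : dd a i < q := hN.1 q hq
    have h3 : ((dd a i : ℕ) : ℝ) ≤ q := by exact_mod_cast h2.le
    exact LAS_core (by linarith) hC₀ hl (by positivity) zero_le_one (Nat.le_ceil a)
      (by positivity) h1 hb (dd_lower ha (hi₀.trans hi) (hd i hi)) (Nat.cast_nonneg _)
      (by rw [one_mul]; exact h3) (Nat.cast_nonneg _)
  · refine ⟨64 * C₀ * C₀ ^ (a + 4) * 40, by positivity, ⌈a + 4⌉₊ + 1, ?_⟩
    filter_upwards [hev, hlog, hpos] with ε hε hl hε0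
    obtain ⟨i, hi, hsm, h1, hb⟩ := hε
    filter_upwards [lower_nat ha hadm hi₀ hi (hd i hi) hε0.le hsm] with N hN q hq
    have h2 := hN.2 q hq
    have h3 : ((dd a i * 2 ^ (48 * i) * uu i ^ 4 : ℕ) : ℝ) ≤ 40 * q := by exact_mod_cast h2
    exact LAS_core (by linarith) hC₀ hl (by positivity) (by norm_num) (Nat.le_ceil (a + 4))
      (by positivity) h1 hb (dd_lower' ha (hi₀.trans hi) (hd i hi)) (Nat.cast_nonneg _)
      h3 (Nat.cast_nonneg _)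

end Pool.Agent.Lib_MP_cc9a35_rb
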