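import Pool.Agent.Lib_MP_cc9a35_rb.Indist2
import Pool.Agent.Lib_MP_cc9a35_rb.Family
import Pool.Agent.Lib_MP_cc9a35_rb.Base
import Pool.Agent.Lib_MP_cc9a35_rb.Cells

/-!
Piece TRB: trees cannot distinguish the two distributions; non-adaptive trees with few queries see few
coordinates per cell.

Proof of `tree_bound2`: for the fixed pair `s = (σ, lam)` which satisfies `PathsGood`, `indist2` (with
`coordB_spec`, `fixed u v = (tgraph code (fun _ => false) (baseTyp t w m σ lam)).Adj u v`, `b₁ = β`,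
`b₂ = id`) gives `n₂ * #{ω // accept} = n₁ * #{y // accept}` with `n₁ = card Ω`, `n₂ = card (Sym2 L → Bool)`.
For the others `n₂ * #{ω // accept} ≤ n₁ * n₂`. Sum over `s`, as in `tree_bound`
(`Pool.Agent.Lib_MP_cc9a35_lc.Lower2`, with `card_prod_subtype`), using that at most a tenth of the `s` are
of the second kind.

Proof of `nonadaptive_good`: let `coords = (Ls.filterMap fun e => coordB m σ lam e.1 e.2).toFinset` and
`E` the finset of all `s(e.1, e.2)` for `e` in `Ls` with `(coordσ m σ e.1 e.2).isSome` (so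
`E.card ≤ hiddenCount (coordσ m σ) Ls`, no element is diagonal, see `coord_isSome`). Every coordinate is
`e'.map lam` for some `e' ∈ E`, so the number of coordinates in the cell `g` is at most
`(E.filter fun e => cellL (e.map lam) = g).card`. By `Pr_region` all but `1 / 20` of the `σ` satisfy
`hiddenCount ≤ c`, and for these `Pr_cells` applies. `Pr_prod_le_add` gives `1 / 10`.
-/

namespace Pool.Agent.Lib_MP_cc9a35_rb

open Pool.Agent.Lib_MP_cc9a35_lc

variable {t : ℕ} {N : ℕ}

theorem tree_bound2 {L : Type} [Fintype L] [DecidableEq L] (code : L → Fin t → Bool) (w m : ℕ)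
    {Ω : Type} [Fintype Ω] (β : Ω → Sym2 L → Bool) (good : Finset (Sym2 L) → Prop)
    (hβ : ∀ I : Finset (Sym2 L), good I → ∀ b : Sym2 L → Bool,
      Fintype.card (Sym2 L → Bool) * Nat.card {ω : Ω // ∀ i ∈ I, β ω i = b i} =
      Fintype.card Ω * Nat.card {y : Sym2 L → Bool // ∀ i ∈ I, y i = b i})
    (T : QueryTree N)
    (hT : 10 * Nat.card {s : Equiv.Perm (Fin N) × (Fin N → L) //
        ¬ PathsGood (coordB m s.1 s.2) good T ∅} ≤
      Fintype.card (Equiv.Perm (Fin N) × (Fin N → L))) :
    10 * Fintype.card ((Equiv.Perm (Fin N) × (Fin N → L)) × (Sym2 L → Bool)) *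
      Nat.card {ω : (Equiv.Perm (Fin N) × (Fin N → L)) × Ω //
        T.Accepts (tgraph code (β ω.2) (baseTyp t w m ω.1.1 ω.1.2))} ≤
    10 * Fintype.card ((Equiv.Perm (Fin N) × (Fin N → L)) × Ω) *
      Nat.card {ω : (Equiv.Perm (Fin N) × (Fin N → L)) × (Sym2 L → Bool) //
        T.Accepts (tgraph code ω.2 (baseTyp t w m ω.1.1 ω.1.2))} +
      Fintype.card ((Equiv.Perm (Fin N) × (Fin N → L)) × Ω) *
        Fintype.card ((Equiv.Perm (Fin N) × (Fin N → L)) × (Sym2 L → Bool)) := by
  classical
  rw [card_prod_subtype (fun (s : Equiv.Perm (Fin N) × (Fin N → L)) (ω : Ω) =>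
      T.Accepts (tgraph code (β ω) (baseTyp t w m s.1 s.2))),
    card_prod_subtype (fun (s : Equiv.Perm (Fin N) × (Fin N → L)) (y : Sym2 L → Bool) =>
      T.Accepts (tgraph code y (baseTyp t w m s.1 s.2)))]
  rw [Fintype.card_prod (Equiv.Perm (Fin N) × (Fin N → L)) (Sym2 L → Bool),
    Fintype.card_prod (Equiv.Perm (Fin N) × (Fin N → L)) Ω]
  set n₂ := Fintype.card (Sym2 L → Bool) with hn₂
  set n₁ := Fintype.card Ω with hn₁
  set n₀ := Fintype.card (Equiv.Perm (Fin N) × (Fin N → L)) with hn₀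
  set bad := Nat.card {s : Equiv.Perm (Fin N) × (Fin N → L) //
        ¬ PathsGood (coordB m s.1 s.2) good T ∅} with hbad
  have key : ∀ s : Equiv.Perm (Fin N) × (Fin N → L),
      n₂ * Nat.card {ω : Ω // T.Accepts (tgraph code (β ω) (baseTyp t w m s.1 s.2))} ≤
      n₁ * Nat.card {y : Sym2 L → Bool // T.Accepts (tgraph code y (baseTyp t w m s.1 s.2))} +
        if ¬ PathsGood (coordB m s.1 s.2) good T ∅ then n₁ * n₂ else 0 := by
    intro s
    by_cases hs : PathsGood (coordB m s.1 s.2) good T ∅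
    · simp only [hs, not_true_eq_false, if_false, add_zero]
      refine le_of_eq (indist2 (Ω₁ := Ω) (Ω₂ := Sym2 L → Bool) (coordB m s.1 s.2)
        (fun u v => (tgraph code (fun _ => false) (baseTyp t w m s.1 s.2)).Adj u v) β id
        (fun ω => tgraph code (β ω) (baseTyp t w m s.1 s.2))
        (fun y => tgraph code y (baseTyp t w m s.1 s.2)) ?_ ?_ good hβ T hs)
      · intro ω u v
        exact coordB_spec code w m s.1 s.2 (β ω) u v
      · intro y u v
        exact coordB_spec code w m s.1 s.2 y u v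
    · simp only [hs, not_false_eq_true, if_true]
      have h1 : Nat.card {ω : Ω // T.Accepts (tgraph code (β ω) (baseTyp t w m s.1 s.2))} ≤ n₁ := by
        rw [Nat.card_eq_fintype_card]
        exact Fintype.card_subtype_le _
      calc n₂ * Nat.card {ω : Ω // T.Accepts (tgraph code (β ω) (baseTyp t w m s.1 s.2))}
          ≤ n₂ * n₁ := by gcongr
        _ = n₁ * n₂ := mul_comm _ _
        _ ≤ _ := Nat.le_add_left _ _
  have hsum := Finset.sum_le_sum
    fun (s : Equiv.Perm (Fin N) × (Fin N → L)) (_ : s ∈ Finset.univ) => key s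
  rw [← Finset.mul_sum, Finset.sum_add_distrib, ← Finset.mul_sum, ← Finset.sum_filter,
    Finset.sum_const, smul_eq_mul, ← Fintype.card_subtype, ← Nat.card_eq_fintype_card,
    ← hbad] at hsum
  set a := ∑ s : Equiv.Perm (Fin N) × (Fin N → L),
    Nat.card {ω : Ω // T.Accepts (tgraph code (β ω) (baseTyp t w m s.1 s.2))}
  set c := ∑ s : Equiv.Perm (Fin N) × (Fin N → L),
    Nat.card {y : Sym2 L → Bool // T.Accepts (tgraph code y (baseTyp t w m s.1 s.2))}
  calc 10 * (n₀ * n₂) * a = 10 * n₀ * (n₂ * a) := by ring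
    _ ≤ 10 * n₀ * (n₁ * c + bad * (n₁ * n₂)) := by gcongr
    _ = 10 * (n₀ * n₁) * c + n₀ * (n₁ * n₂) * (10 * bad) := by ring
    _ ≤ 10 * (n₀ * n₁) * c + n₀ * (n₁ * n₂) * n₀ := by gcongr
    _ = _ := by ring

theorem nonadaptive_good {Tp Rs : Type} [AddCommGroup Tp] [Fintype Tp] [DecidableEq Tp]
    [Fintype Rs] [DecidableEq Rs] [Nonempty Rs] (hN : 2 ≤ N) {m d c : ℕ} (hm : m ≤ N)
    (Ls : List (Fin N × Fin N))
    (h : 20 * Ls.length * (m * (m - 1)) ≤ (c + 1) * (N * (N - 1)))
    (h1 : 2 * c ≤ d * Fintype.card Tp) (h2 : 40 * Fintype.card Tp ≤ d) :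
    Pr (fun s : Equiv.Perm (Fin N) × (Fin N → Tp × Rs) =>
      ¬ ∀ g : Tp, (((Ls.filterMap fun e => coordB m s.1 s.2 e.1 e.2).toFinset).filter
        fun i => cellL i = g).card ≤ d) ≤ 1 / 10 := by
  classical
  have hreg := Pr_region hN hm Ls h
  have hmain : ∀ σ : Equiv.Perm (Fin N), ¬ (c < hiddenCount (coordσ m σ) Ls) →
      Pr (fun lam : Fin N → Tp × Rs =>
        ¬ ∀ g : Tp, (((Ls.filterMap fun e => coordB m σ lam e.1 e.2).toFinset).filter
          fun i => cellL i = g).card ≤ d) ≤ 1 / 20 := by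
    intro σ hσ
    set E : Finset (Sym2 (Fin N)) :=
      ((Ls.filter fun e => (coordσ m σ e.1 e.2).isSome).map fun e => s(e.1, e.2)).toFinset with hE
    have hEcard : E.card ≤ c := by
      have h3 : E.card ≤ (Ls.filter fun e => (coordσ m σ e.1 e.2).isSome).length := by
        rw [hE]
        refine (List.toFinset_card_le _).trans ?_
        rw [List.length_map]
      have h4 : (Ls.filter fun e => (coordσ m σ e.1 e.2).isSome).length =
          hiddenCount (coordσ m σ) Ls := by
        unfold hiddenCount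
        rw [List.countP_eq_length_filter]
      omega
    have hEdiag : ∀ e ∈ E, ¬ e.IsDiag := by
      intro e he
      rw [hE, List.mem_toFinset, List.mem_map] at he
      obtain ⟨p, hp, rfl⟩ := he
      rw [List.mem_filter] at hp
      have h5 := hp.2
      simp only [coordσ, coord_isSome] at h5
      intro hd
      rw [Sym2.mk_isDiag_iff] at hd
      exact h5.2.2 (by rw [hd])
    refine le_trans (Pr_mono ?_) (Pr_cells (Tp := Tp) (Rs := Rs) (d := d) E hEdiag ?_ h2)
    · intro lam hlam
      push Not at hlam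
      obtain ⟨g, hg⟩ := hlam
      refine ⟨g, lt_of_lt_of_le hg ?_⟩
      refine le_trans (Finset.card_le_card ?_)
        (Finset.card_image_le (f := fun e : Sym2 (Fin N) => e.map lam)
          (s := E.filter fun e => cellL (e.map lam) = g))
      intro i hi
      rw [Finset.mem_filter, List.mem_toFinset, List.mem_filterMap] at hi
      obtain ⟨⟨p, hp, hpi⟩, hig⟩ := hi
      unfold coordB at hpi
      split_ifs at hpi with hc
      simp only [Option.some.injEq] at hpi
      rw [Finset.mem_image]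
      have hmap : (s(p.1, p.2) : Sym2 (Fin N)).map lam = i := by
        rw [← hpi]
        rfl
      refine ⟨s(p.1, p.2), ?_, hmap⟩
      rw [Finset.mem_filter]
      refine ⟨?_, by rw [hmap]; exact hig⟩
      rw [hE, List.mem_toFinset, List.mem_map]
      refine ⟨p, ?_, rfl⟩
      rw [List.mem_filter]
      refine ⟨hp, ?_⟩
      simp only [coordσ, coord_isSome]
      refine ⟨hc.1, hc.2.1, ?_⟩
      intro hne
      exact hc.2.2 (by rw [σ.injective hne])
    · calc 2 * E.card ≤ 2 * c := by omega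
        _ ≤ _ := h1
  have := Pr_prod_le_add (Ω := Equiv.Perm (Fin N)) (Ω' := Fin N → Tp × Rs) (p := 1 / 20)
    (by norm_num) (fun σ => c < hiddenCount (coordσ m σ) Ls)
    (fun σ lam => ¬ ∀ g : Tp, (((Ls.filterMap fun e => coordB m σ lam e.1 e.2).toFinset).filter
          fun i => cellL i = g).card ≤ d) hmain
  refine this.trans ?_
  linarith

end Pool.Agent.Lib_MP_cc9a35_rb
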