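import Pool.Agent.Lib_MP_cc9a35_rb.FarCount
import Pool.Agent.Lib_MP_cc9a35_rb.TreeBound

/-!
Piece LOW: the lower bounds at one scale and one number of vertices (assembly).

Proof. Let `A` be a tester with at most `q` queries and suppose the claimed inequality fails. Apply
`lower_bound_core` (`Pool.Agent.Lib_MP_cc9a35_lc.Testers`) with
`Ω₁ = (Perm × (Fin N → L)) × Ω`, `G₁ ω = tgraph (code i) (β ω.2) (baseTyp .. ω.1.1 ω.1.2)` (a member by
`baseTyp_sizes`, `hact`) and `Ω₂ = (Perm × (Fin N → L)) × (Sym2 L → Bool)`, `G₂` likewise. `h₂` is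
`far_count`; `h` is `tree_bound2` with `good I = ∀ g, (I.filter (cellL · = g)).card ≤ d i`, whose hypothesis
`hT` holds: in the adaptive case `T.depth ≤ d i`, so no pair is bad (`pathsGood_of_depth`, the filters
are subsets of `I`); in the non-adaptive case `pathsGood_of_list` and `nonadaptive_good` with
`c = d i * card (Tp i) / 2` show that at most a tenth of the pairs are bad (`card_le_of_Pr_le`).
-/

namespace Pool.Agent.Lib_MP_cc9a35_rb

open Pool.Agent.Lib_MP_cc9a35_lc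

variable (t : ℕ → ℕ) (Tp Rs : ℕ → Type) [∀ i, AddCommGroup (Tp i)] [∀ i, Fintype (Tp i)]
  [∀ i, DecidableEq (Tp i)] [∀ i, Fintype (Rs i)] [∀ i, DecidableEq (Rs i)]
  [∀ i, Nonempty (Rs i)] (code : ∀ i, Tp i × Rs i → Fin (t i) → Bool)
  (Y : ∀ i, Set (Sym2 (Tp i × Rs i) → Bool)) (w m : ℕ → ℕ → ℕ) (act : ℕ → ℕ → Prop)
  (d E : ℕ → ℕ)

/-- Common part of the lower bounds: no tester has only trees whose bad pairs are rare. -/
private theorem lowerAt_core
    (hY : ∀ i, FamG (cellL (Tp := Tp i) (Rs := Rs i)) (d i) (E i) (Y i))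
    {i N v₀ D : ℕ} {ε : ℝ} (h : HardAt t Tp Rs w m act E i N v₀ D ε) (A : PMF (QueryTree N))
    (hA : IsTester (rprop t (fun i => Tp i × Rs i) code Y w m act) ε A)
    (hT : ∀ T ∈ A.support, 10 * Nat.card {s : Equiv.Perm (Fin N) × (Fin N → Tp i × Rs i) //
        ¬ PathsGood (coordB (m i N) s.1 s.2)
          (fun I => ∀ g : Tp i, (I.filter fun j => cellL j = g).card ≤ d i) T ∅} ≤
      Fintype.card (Equiv.Perm (Fin N) × (Fin N → Tp i × Rs i))) : False := by
  obtain ⟨Ω, hΩ, hΩ', β, hβ, -, hu⟩ := hY i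
  have : Nonempty (Tp i) := ⟨0⟩
  refine lower_bound_core (rprop t (fun i => Tp i × Rs i) code Y w m act) ε A hA
    (Ω₁ := (Equiv.Perm (Fin N) × (Fin N → Tp i × Rs i)) × Ω)
    (Ω₂ := (Equiv.Perm (Fin N) × (Fin N → Tp i × Rs i)) × (Sym2 (Tp i × Rs i) → Bool))
    (fun ω => tgraph (code i) (β ω.2) (baseTyp (t i) (w i N) (m i N) ω.1.1 ω.1.2))
    (fun ω => tgraph (code i) ω.2 (baseTyp (t i) (w i N) (m i N) ω.1.1 ω.1.2)) ?_ ?_ ?_
  · intro ω
    refine Or.inr ⟨i, h.hact, baseTyp (t i) (w i N) (m i N) ω.1.1 ω.1.2, β ω.2, ?_,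
      baseTyp_sizes h.hm _ _, rfl⟩
    rw [hβ]
    exact Set.mem_range_self _
  · exact far_count t Tp Rs code Y w m act d E hY h
  · intro T hTA
    exact tree_bound2 (code i) (w i N) (m i N) β
      (fun I => ∀ g : Tp i, (I.filter fun j => cellL j = g).card ≤ d i) hu T (hT T hTA)

theorem lower_adaptive_at
    (hY : ∀ i, FamG (cellL (Tp := Tp i) (Rs := Rs i)) (d i) (E i) (Y i))
    {i N v₀ D : ℕ} {ε : ℝ} (h : HardAt t Tp Rs w m act E i N v₀ D ε) {q : ℕ}
    (hq : TestableAt (rprop t (fun i => Tp i × Rs i) code Y w m act) ε N q) : d i < q := by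
  by_contra hlt
  obtain ⟨A, hd, hA⟩ := hq
  refine lowerAt_core t Tp Rs code Y w m act d E hY h A hA ?_
  intro T hT
  have hz : Nat.card {s : Equiv.Perm (Fin N) × (Fin N → Tp i × Rs i) //
        ¬ PathsGood (coordB (m i N) s.1 s.2)
          (fun I => ∀ g : Tp i, (I.filter fun j => cellL j = g).card ≤ d i) T ∅} = 0 := by
    rw [Nat.card_eq_zero]
    left
    refine ⟨fun s => s.2 ?_⟩
    refine pathsGood_of_depth _ _ (d i) ?_ T ∅ ?_
    · intro I hI g
      exact (Finset.card_filter_le _ _).trans hI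
    · have := hd T hT
      rw [Finset.card_empty]
      omega
  rw [hz]
  exact Nat.zero_le _

theorem lower_nonadaptive_at
    (hY : ∀ i, FamG (cellL (Tp := Tp i) (Rs := Rs i)) (d i) (E i) (Y i))
    {i N v₀ D : ℕ} {ε : ℝ} (h : HardAt t Tp Rs w m act E i N v₀ D ε)
    (hd : 40 * Fintype.card (Tp i) ≤ d i) {q : ℕ}
    (hq : NonadaptivelyTestableAt (rprop t (fun i => Tp i × Rs i) code Y w m act) ε N q) :
    (d i * Fintype.card (Tp i) / 2 + 1) * (N * (N - 1)) < 20 * q * (m i N * (m i N - 1)) := by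
  by_contra hlt
  rw [not_lt] at hlt
  obtain ⟨A, hdep, hA⟩ := hq
  have : Nonempty (Tp i) := ⟨0⟩
  refine lowerAt_core t Tp Rs code Y w m act d E hY h A hA ?_
  intro T hT
  obtain ⟨⟨Ls, hLs⟩, hTd⟩ := hdep T hT
  have hlen : Ls.length ≤ q := by
    have := (hiddenDepth_of_queriesExactly (fun _ _ => (none : Option (Fin 1))) T Ls hLs).2
    omega
  have hPr := nonadaptive_good (Tp := Tp i) (Rs := Rs i) h.hN
    (m := m i N) (d := d i) (c := d i * Fintype.card (Tp i) / 2) (by have := h.hm; omega) Ls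
    (le_trans (Nat.mul_le_mul_right _ (Nat.mul_le_mul_left _ hlen)) hlt)
    (Nat.mul_div_le _ _) hd
  have hPr2 : Pr (fun s : Equiv.Perm (Fin N) × (Fin N → Tp i × Rs i) =>
      ¬ PathsGood (coordB (m i N) s.1 s.2)
          (fun I => ∀ g : Tp i, (I.filter fun j => cellL j = g).card ≤ d i) T ∅) ≤
      ((1 : ℕ) : ℝ) / ((10 : ℕ) : ℝ) := by
    refine (Pr_mono ?_).trans (hPr.trans (by norm_num))
    intro s hs hg
    refine hs ?_
    refine pathsGood_of_list _ _ T Ls hLs ∅ ?_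
    intro g
    rw [Finset.empty_union]
    exact hg g
  have := card_le_of_Pr_le (by norm_num) hPr2
  rw [one_mul] at this
  exact this

end Pool.Agent.Lib_MP_cc9a35_rb
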