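import Pool.Agent.Lib_MP_cc9a35_rb.HardEv

/-!
Piece LON: the lower bounds for the property at one scale, for all large `N`.

Proof. `hard_eventually`, `lower_adaptive_at` and `lower_nonadaptive_at` (`Adm.fam`; `PR` unfolds to
`rprop`). In the non-adaptive case, with `d = dd a i`, `G = 2 ^ (48 i) = card (Tps i)`, `u = uu i`,
`m = N / u ^ 2`, one has `u ^ 4 * (m * (m - 1)) ≤ N * (N - 1)` (`u ^ 2 * m ≤ N`,
`u ^ 2 * (m - 1) ≤ N - 1`), so `(d * G / 2 + 1) * u ^ 4 * (m * (m - 1)) < 20 * q * (m * (m - 1))`, hence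
`(d * G / 2 + 1) * u ^ 4 < 20 * q`, and `d * G ≤ 2 * (d * G / 2 + 1)`.
-/

namespace Pool.Agent.Lib_MP_cc9a35_rb

open Filter Pool.Agent.Lib_MP_cc9a35_lc

theorem lower_nat {a : ℝ} (ha : 4 ≤ a) {code : ∀ i, Labs a i → Fin (tt a i) → Bool}
    {Y : ∀ i, Set (Sym2 (Labs a i) → Bool)} (hadm : Adm a code Y) {i₀ i : ℕ} (hi₀ : 1 ≤ i₀)
    (hi : i₀ ≤ i) (hd : 40 * 2 ^ (48 * i) ≤ dd a i) {ε : ℝ} (hε0 : 0 ≤ ε)
    (hε : ε * (2048 * bb a i * (uu i : ℝ) ^ 4) < 1) :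
    ∀ᶠ N : ℕ in atTop,
      (∀ q, TestableAt (PR a i₀ code Y) ε N q → dd a i < q) ∧
      (∀ q, NonadaptivelyTestableAt (PR a i₀ code Y) ε N q →
        dd a i * 2 ^ (48 * i) * uu i ^ 4 ≤ 40 * q) := by
  have hcard : Fintype.card (Tps i) = 2 ^ (48 * i) := ZMod.card _
  filter_upwards [hard_eventually ha hi₀ hi hε0 hε] with N h
  refine ⟨fun q hq => lower_adaptive_at (tt a) Tps (Rss a) code Y (ww a) (fun i => mm i)
    (actt a i₀) (dd a) (EE a) hadm.fam h hq, fun q hq => ?_⟩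
  have key := lower_nonadaptive_at (tt a) Tps (Rss a) code Y (ww a) (fun i => mm i)
    (actt a i₀) (dd a) (EE a) hadm.fam h (by rw [hcard]; exact hd) hq
  rw [hcard] at key
  set G : ℕ := 2 ^ (48 * i)
  set m : ℕ := mm i N with hm
  set u : ℕ := uu i with hu
  have hu0 : 1 ≤ u := Nat.one_le_iff_ne_zero.mpr (by rw [hu]; unfold uu; positivity)
  have hu2 : 1 ≤ u ^ 2 := Nat.one_le_pow _ _ hu0
  have h1 : u ^ 2 * m ≤ N := by
    rw [hm]
    exact Nat.mul_div_le N (u ^ 2)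
  have h2 : u ^ 2 * (m - 1) ≤ N - 1 := by
    rw [Nat.mul_sub, mul_one]
    omega
  have h3 : u ^ 4 * (m * (m - 1)) ≤ N * (N - 1) := by
    calc u ^ 4 * (m * (m - 1)) = (u ^ 2 * m) * (u ^ 2 * (m - 1)) := by ring
      _ ≤ N * (N - 1) := Nat.mul_le_mul h1 h2
  have h4 : ((dd a i * G / 2 + 1) * u ^ 4) * (m * (m - 1)) < (20 * q) * (m * (m - 1)) := by
    calc ((dd a i * G / 2 + 1) * u ^ 4) * (m * (m - 1))
        = (dd a i * G / 2 + 1) * (u ^ 4 * (m * (m - 1))) := by ring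
      _ ≤ (dd a i * G / 2 + 1) * (N * (N - 1)) := Nat.mul_le_mul le_rfl h3
      _ < _ := key
  have h5 : (dd a i * G / 2 + 1) * u ^ 4 < 20 * q := lt_of_mul_lt_mul_right h4 (Nat.zero_le _)
  have h6 : dd a i * G ≤ 2 * (dd a i * G / 2 + 1) := by omega
  calc dd a i * G * u ^ 4 ≤ 2 * (dd a i * G / 2 + 1) * u ^ 4 := Nat.mul_le_mul h6 le_rfl
    _ = 2 * ((dd a i * G / 2 + 1) * u ^ 4) := by ring
    _ ≤ 40 * q := by omega

end Pool.Agent.Lib_MP_cc9a35_rb
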