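import Pool.Agent.Lib_MP_cc9a35_rb.Sizes

/-!
Piece NUC: the numerical hypotheses for completeness hold for the chosen sample sizes.

Proof. With `u = uu i`, `t = tt a i`, `r = 2 * u * t`: `T = 2 * (r * (t + 8))` is the definition of `TT`.
`hact` gives `20 * T ^ 2 ≤ N`, in particular `2 * u * t ≤ N`, so `w = N / (u * t) ≥ N / (2 * u * t)`
as real numbers (if `N = k * q + s`, `s < k ≤ N` then `N < 2 * k * q`): `N ≤ r * w`.
`t * w + m ≤ N / u + N / u ^ 2 ≤ N / 2` (`u ≥ 16`), so `N ≤ 2 * (N - (t * w + m)) ≤ r * (...)`.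
`20 * (T * m) ≤ 20 * T * N / u ^ 2 ≤ N`, as `20 * T = 80 * u * t * (t + 8) ≤ u ^ 2` (`hbig`).
`K * η ^ 2 ≥ 64 (t + 1) ^ 2 Q ^ 2 * 20 (t + 1) * ε ^ 2 / (64 (t + 1) ^ 2) ≥ 20 (t + 1)`.
`hcap`: `20 * J * (m / N) ^ 2 ≤ 40 * Q * r' / u ^ 4 ≤ (40 * Q * r' / u ^ 4 : ℕ) + 1`, `r' = rq Q`.
-/

namespace Pool.Agent.Lib_MP_cc9a35_rb

open Pool.Agent.Lib_MP_cc9a35_lc

theorem cnum {a : ℝ} {i₀ i N Q : ℕ} (hi : 1 ≤ i) (hQ : 1 ≤ Q) {ε : ℝ}
    (h1 : 1 / (Q : ℝ) ≤ ε) (hact : actt a i₀ i N)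
    (hbig : 80 * (tt a i * (tt a i + 8)) ≤ uu i) :
    CNum (tt a i) N (TT a i) (KK a i Q) (JJ Q) (ww a i N) (mm i N) (capQ i Q)
      (ε / (8 * (tt a i + 1))) (2 * uu i * tt a i) (fineQ i Q) := by
  have hu : 16 ≤ uu i := by
    unfold uu
    calc 16 = 16 ^ 1 := by norm_num
      _ ≤ 16 ^ i := Nat.pow_le_pow_right (by norm_num) hi
  have ht : 2 ≤ tt a i := by
    unfold tt
    omega
  have hTT : TT a i = 2 * (2 * uu i * tt a i * (tt a i + 8)) := rfl
  have hw' : ww a i N = N / (uu i * tt a i) := rfl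
  have hm' : mm i N = N / uu i ^ 2 := rfl
  have hact2 : 20 * TT a i ^ 2 ≤ N := hact.2
  have hJ : JJ Q = 2 * Q * rq Q := rfl
  have hK : 64 * (tt a i + 1) ^ 2 * Q ^ 2 * (20 * (tt a i + 1)) ≤ KK a i Q := by
    unfold KK
    refine le_trans ?_ (Nat.le_add_right _ _)
    exact Nat.mul_le_mul_left _ (Nat.le_add_left _ _)
  have hcapdef : fineQ i Q → capQ i Q = 40 * Q * rq Q / uu i ^ 4 := by
    intro h
    unfold capQ
    rw [if_pos h]
  generalize uu i = u at *
  generalize tt a i = t at *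
  generalize ww a i N = w at *
  generalize mm i N = m at *
  generalize TT a i = T at *
  generalize KK a i Q = K at *
  generalize JJ Q = J at *
  generalize capQ i Q = cap at *
  generalize rq Q = r' at *
  have hQ0 : (0 : ℝ) < Q := by exact_mod_cast hQ
  have hε : 0 < ε := lt_of_lt_of_le (by positivity) h1
  have hkpos : 0 < u * t := Nat.mul_pos (by omega) (by omega)
  have hTk : u * t ≤ T := by
    rw [hTT]
    nlinarith
  have hTpos : 0 < T := lt_of_lt_of_le hkpos hTk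
  have hTN : T ≤ N := by nlinarith
  have hN : 0 < N := lt_of_lt_of_le hTpos hTN
  have hkN : u * t ≤ N := hTk.trans hTN
  have hwk : u * t * w ≤ N := by
    rw [hw']
    exact Nat.mul_div_le _ _
  have hwk2 : N < u * t * (w + 1) := by
    rw [hw']
    exact Nat.lt_mul_div_succ _ hkpos
  have hw1 : 1 ≤ w := by
    rw [hw']
    exact (Nat.one_le_div_iff hkpos).2 hkN
  have hmu : u ^ 2 * m ≤ N := by
    rw [hm']
    exact Nat.mul_div_le _ _
  constructor
  · exact hN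
  · rw [mul_assoc]
    omega
  · have : (0 : ℝ) < 8 * ((t : ℝ) + 1) := by positivity
    positivity
  · exact hTT
  · have e : 2 * u * t * w = u * t * w + u * t * w := by ring
    have e2 : u * t * (w + 1) = u * t * w + u * t := by ring
    have e3 : u * t * 1 ≤ u * t * w := Nat.mul_le_mul_left _ hw1
    omega
  · have h2 : 16 * (t * w) ≤ N := by
      have e : u * (t * w) = u * t * w := by ring
      have h3 : 16 * (t * w) ≤ u * (t * w) := Nat.mul_le_mul_right _ hu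
      omega
    have h3 : 16 * m ≤ N := by
      have h4 : 16 * m ≤ u ^ 2 * m := by
        apply Nat.mul_le_mul_right
        nlinarith
      omega
    have h4 : N ≤ 2 * (N - (t * w + m)) := by omega
    have h5 : 2 * (N - (t * w + m)) ≤ 2 * u * t * (N - (t * w + m)) := by
      apply Nat.mul_le_mul_right
      rw [mul_assoc]
      omega
    omega
  · have h2 : 20 * T ≤ u ^ 2 := by
      rw [hTT]
      calc 20 * (2 * (2 * u * t * (t + 8))) = u * (80 * (t * (t + 8))) := by ring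
        _ ≤ u * u := Nat.mul_le_mul_left _ hbig
        _ = u ^ 2 := by ring
    calc 20 * (T * m) = 20 * T * m := by ring
      _ ≤ u ^ 2 * m := Nat.mul_le_mul_right _ h2
      _ ≤ N := hmu
  · exact hact2
  · have h2 : (64 * ((t : ℝ) + 1) ^ 2 * Q ^ 2 * (20 * (t + 1))) ≤ K := by exact_mod_cast hK
    have h3 : 1 ≤ (Q : ℝ) * ε := by
      rw [div_le_iff₀ hQ0] at h1
      linarith
    have h4 : 1 ≤ ((Q : ℝ) * ε) ^ 2 := one_le_pow₀ h3
    have h5 : (0 : ℝ) < (t : ℝ) + 1 := by positivity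
    calc 20 * ((t : ℝ) + 1) = 20 * ((t : ℝ) + 1) * 1 := by ring
      _ ≤ 20 * ((t : ℝ) + 1) * ((Q : ℝ) * ε) ^ 2 := mul_le_mul_of_nonneg_left h4 (by positivity)
      _ = (64 * ((t : ℝ) + 1) ^ 2 * Q ^ 2 * (20 * (t + 1))) * (ε / (8 * (t + 1))) ^ 2 := by
          field_simp
          ring
      _ ≤ K * (ε / (8 * (t + 1))) ^ 2 := mul_le_mul_of_nonneg_right h2 (by positivity)
  · intro hf
    have hu0 : (0 : ℝ) < u := by exact_mod_cast (show 0 < u by omega)
    have hN0 : (0 : ℝ) < N := by exact_mod_cast hN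
    have h2 : ((m : ℝ) / N) ≤ 1 / u ^ 2 := by
      rw [div_le_div_iff₀ hN0 (by positivity), one_mul]
      have : ((u ^ 2 * m : ℕ) : ℝ) ≤ N := by exact_mod_cast hmu
      push_cast at this
      linarith
    have h3 : ((m : ℝ) / N) ^ 2 ≤ (1 / u ^ 2) ^ 2 := pow_le_pow_left₀ (by positivity) h2 2
    have h4 : (((40 * Q * r' : ℕ) : ℝ)) / ((u ^ 4 : ℕ) : ℝ) ≤ (((40 * Q * r' / u ^ 4 : ℕ)) : ℝ) + 1 := by
      have h5 : 0 < u ^ 4 := by positivity
      have h6 : 40 * Q * r' < u ^ 4 * (40 * Q * r' / u ^ 4 + 1) := Nat.lt_mul_div_succ _ h5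
      rw [div_le_iff₀ (by exact_mod_cast h5)]
      have h7 : ((40 * Q * r' : ℕ) : ℝ) ≤ ((u ^ 4 * (40 * Q * r' / u ^ 4 + 1) : ℕ) : ℝ) := by
        exact_mod_cast h6.le
      refine h7.trans (le_of_eq ?_)
      push_cast
      ring
    rw [hcapdef hf, hJ]
    refine le_trans ?_ h4
    push_cast
    calc (20 : ℝ) * (2 * (Q : ℝ) * r' * ((m : ℝ) / N) ^ 2)
        ≤ (20 : ℝ) * (2 * (Q : ℝ) * r' * (1 / (u : ℝ) ^ 2) ^ 2) := by
          apply mul_le_mul_of_nonneg_left _ (by norm_num)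
          exact mul_le_mul_of_nonneg_left h3 (by positivity)
      _ = 40 * (Q : ℝ) * r' / (u : ℝ) ^ 4 := by
          field_simp
          ring

end Pool.Agent.Lib_MP_cc9a35_rb
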