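import Pool.Agent.Lib_MP_cc9a35_rb.NumS
import Pool.Agent.Lib_MP_cc9a35_rb.NumC

/-!
Piece UPN: testers for the whole property (assembly).

Proofs.
* `card_cellL`: the pairs of labels `(a, b)` with `a.1 + b.1 = g` correspond to `(a, b.2)`
  (`b.1 = g - a.1`): there are `card Tp * card Rs * card Rs`.
* `scale_testers`: `scale_nonadaptive` and `scale_adaptive` for `S = TPs a code Y ε i Q N`, with `snum`
  and `cnum`, `B = 2 ^ (48 * i + 2 * hh a i)` (`ZMod.card`, `Fintype.card_fin`). `Y i` is nonempty by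
  `FamG`. `N > 0` since `20 * TT a i ^ 2 ≤ N` and `TT a i > 0`.
* `upper_nat`: for `N = 0` use `exact_tester` (`Pool.Agent.Lib_MP_cc9a35_lc.Upper`), for `N > 0` use
  `union_tester` with `I = Finset.Ico i₀ (RR Q)`, `θ = thQ Q`, `M₀ = Q * rq Q`. `hout`: if `i ∉ I` is
  active then `i ≥ RR Q = clog 16 Q + 1`, so `u = 16 ^ i ≥ 16 * Q`, and
  `t * w + m ≤ N / u + N / u ^ 2 ≤ 2 * N / u`, so `3 * M₀ * (t * w + m) ^ 2 ≤ 12 * M₀ * N ^ 2 / u ^ 2`, with
  `12 * M₀ = 12 * Q * (clog 16 Q + 7) ≤ 256 * Q ^ 2 ≤ u ^ 2` (`clog 16 Q ≤ Q`, for `Q = 1` it is `0`).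
  `hM₀`: `pow_half`, `half_pow_le`. `hcard`: `I.card ≤ RR Q`.
-/

namespace Pool.Agent.Lib_MP_cc9a35_rb

open Pool.Agent.Lib_MP_cc9a35_lc

theorem card_cellL {Tp Rs : Type} [AddCommGroup Tp] [Fintype Tp] [DecidableEq Tp] [Fintype Rs]
    [DecidableEq Rs] (g : Tp) :
    Nat.card {ab : (Tp × Rs) × (Tp × Rs) // cellL s(ab.1, ab.2) = g} =
      Fintype.card Tp * Fintype.card Rs * Fintype.card Rs := by
  rw [← Fintype.card_prod, ← Fintype.card_prod, ← Nat.card_eq_fintype_card]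
  refine Nat.card_congr
    { toFun := fun s => (s.1.1, s.1.2.2)
      invFun := fun s => ⟨(s.1, (g - s.1.1, s.2)), ?_⟩
      left_inv := ?_
      right_inv := ?_ }
  · change s.1.1 + (g - s.1.1) = g
    abel
  · rintro ⟨⟨⟨a, b⟩, ⟨c, e⟩⟩, h⟩
    have h' : a + c = g := h
    have h2 : g - a = c := by
      rw [← h']
      abel
    simp [h2]
  · intro s
    rfl

variable {a : ℝ} {i₀ : ℕ} {code : ∀ i, Labs a i → Fin (tt a i) → Bool}
  {Y : ∀ i, Set (Sym2 (Labs a i) → Bool)}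

theorem scale_testers (ha : 4 ≤ a) (hadm : Adm a code Y) (hi₀ : 1 ≤ i₀)
    (hbig : ∀ i, i₀ ≤ i → 80 * (tt a i * (tt a i + 8)) ≤ uu i) {Q : ℕ} (hQ : 1 ≤ Q) {ε : ℝ}
    (h1 : 1 / (Q : ℝ) ≤ ε) (h2 : ε ≤ 1) (h3 : ε * Q ≤ 2) {i N : ℕ} (hact : actt a i₀ i N) :
    HasScaleTester (code i) (Y i) (ww a i N) (mm i N) N ε (thQ Q) True (qN a i Q) ∧
    HasScaleTester (code i) (Y i) (ww a i N) (mm i N) N ε (thQ Q) False (qA a i Q) := by
  have hi : 1 ≤ i := hi₀.trans hact.1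
  have hTT : 0 < TT a i := by
    unfold TT tt uu
    positivity
  have hN : 0 < N := by
    have := hact.2
    have h4 : 0 < 20 * TT a i ^ 2 := by positivity
    omega
  have hS := snum ha hi hN hQ h1 h2 h3
  have hC := cnum (i₀ := i₀) hi hQ h1 hact (hbig i hact.1)
  have hY : (Y i).Nonempty := by
    obtain ⟨Ω, _, hΩ, β, hβ, -⟩ := hadm.fam i
    rw [hβ]
    exact Set.range_nonempty β
  constructor
  · exact scale_nonadaptive (TPs a code Y ε i Q N) hS hC (hadm.code i) hY (hadm.prod i)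
  · have := scale_adaptive (TPs a code Y ε i Q N) hS hC (hadm.code i) hY (hadm.prod i)
      (2 ^ (48 * i + 2 * hh a i)) (by
        intro g
        refine le_of_eq ?_
        refine (card_cellL (Tp := Tps i) (Rs := Rss a i) g).trans ?_
        rw [ZMod.card, Fintype.card_fin, mul_assoc, ← pow_add, ← pow_add]
        congr 1
        ring)
    exact this

private theorem upn_hout {Q i t N : ℕ} (hQ : 1 ≤ Q) (hi : RR Q ≤ i) :
    3 * (Q * rq Q) * (t * (N / (uu i * t)) + N / uu i ^ 2) ^ 2 ≤ N ^ 2 := by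
  have hu : 16 * Q ≤ uu i := by
    unfold uu
    calc 16 * Q ≤ 16 * 16 ^ Nat.clog 16 Q :=
          Nat.mul_le_mul_left _ (Nat.le_pow_clog (by norm_num) Q)
      _ = 16 ^ RR Q := by unfold RR; rw [pow_succ]; ring
      _ ≤ 16 ^ i := Nat.pow_le_pow_right (by norm_num) hi
  have hu1 : 1 ≤ uu i := by omega
  have h1 : t * (N / (uu i * t)) ≤ N / uu i := by
    rw [← Nat.div_div_eq_div_mul]
    exact Nat.mul_div_le _ _
  have h2 : N / uu i ^ 2 ≤ N / uu i := by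
    refine Nat.div_le_div_left ?_ (by omega)
    exact Nat.le_self_pow (by norm_num) _
  have h3 : N / uu i * uu i ≤ N := Nat.div_mul_le_self _ _
  have hclog : Nat.clog 16 Q ≤ Q := by
    refine Nat.clog_le_of_le_pow ?_
    exact (Nat.lt_pow_self (by norm_num)).le
  have h4 : 12 * (Q * rq Q) ≤ uu i ^ 2 := by
    calc 12 * (Q * rq Q) = Q * (12 * (Nat.clog 16 Q + 7)) := by unfold rq RR; ring
      _ ≤ Q * (256 * Q) := Nat.mul_le_mul_left _ (by omega)
      _ = (16 * Q) ^ 2 := by ring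
      _ ≤ uu i ^ 2 := Nat.pow_le_pow_left hu 2
  calc 3 * (Q * rq Q) * (t * (N / (uu i * t)) + N / uu i ^ 2) ^ 2
      ≤ 3 * (Q * rq Q) * (2 * (N / uu i)) ^ 2 :=
        Nat.mul_le_mul_left _ (Nat.pow_le_pow_left (by omega) 2)
    _ = 12 * (Q * rq Q) * (N / uu i) ^ 2 := by ring
    _ ≤ uu i ^ 2 * (N / uu i) ^ 2 := Nat.mul_le_mul_right _ h4
    _ = (N / uu i * uu i) ^ 2 := by ring
    _ ≤ N ^ 2 := Nat.pow_le_pow_left h3 2

private theorem upn_tester {Q : ℕ} (hQ : 1 ≤ Q) {ε : ℝ}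
    (h1 : 1 / (Q : ℝ) ≤ ε) (h2 : ε ≤ 1) (nonad : Prop) (q : ℕ → ℕ)
    (hq : ∀ i N, actt a i₀ i N →
      HasScaleTester (code i) (Y i) (ww a i N) (mm i N) N ε (thQ Q) nonad (q i)) (N : ℕ) :
    ∃ A : PMF (QueryTree N),
      (∀ T ∈ A.support, (nonad → T.IsNonadaptive) ∧
        T.depth ≤ ∑ i ∈ Finset.Ico i₀ (RR Q), q i + Q * rq Q) ∧
      IsTester (PR a i₀ code Y) ε A := by
  have hQ' : (0 : ℝ) < Q := by exact_mod_cast hQ
  have hε : 0 < ε := lt_of_lt_of_le (by positivity) h1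
  rcases Nat.eq_zero_or_pos N with rfl | hN
  · obtain ⟨A, hA, hA'⟩ := exact_tester (PR a i₀ code Y) hε 0
    refine ⟨A, fun T hT => ⟨fun _ => (hA T hT).1, ?_⟩, hA'⟩
    have := (hA T hT).2
    omega
  · refine union_tester (tt a) (Labs a) code Y (ww a) (fun i => mm i) (actt a i₀) hN h2
      (θ := thQ Q) ?_ (Finset.Ico i₀ (RR Q)) q (Q * rq Q) nonad ?_ ?_ ?_ ?_
    · unfold thQ
      positivity
    · intro i _ hact
      exact hq i N hact
    · intro i hi hact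
      have hi' : RR Q ≤ i := by
        by_contra hlt
        exact hi (Finset.mem_Ico.2 ⟨hact.1, not_le.1 hlt⟩)
      exact upn_hout hQ hi'
    · refine (pow_half hQ h1 h2 (rq Q)).trans ?_
      unfold rq
      refine (half_pow_le (RR Q)).trans ?_
      unfold thQ
      apply one_div_le_one_div_of_le
      · positivity
      · have : (0 : ℝ) ≤ RR Q := Nat.cast_nonneg _
        linarith
    · have hc : ((Finset.Ico i₀ (RR Q)).card : ℝ) ≤ RR Q := by
        rw [Nat.card_Ico]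
        exact_mod_cast Nat.sub_le _ _
      unfold thQ
      have h0 : (0 : ℝ) ≤ RR Q := Nat.cast_nonneg _
      calc (((Finset.Ico i₀ (RR Q)).card : ℝ) + 1) * (1 / (3 * ((RR Q : ℝ) + 1)))
          ≤ ((RR Q : ℝ) + 1) * (1 / (3 * ((RR Q : ℝ) + 1))) := by
            gcongr
        _ = 1 / 3 := by
            field_simp

theorem upper_nat (ha : 4 ≤ a) (hadm : Adm a code Y) (hi₀ : 1 ≤ i₀)
    (hbig : ∀ i, i₀ ≤ i → 80 * (tt a i * (tt a i + 8)) ≤ uu i) {Q : ℕ} (hQ : 1 ≤ Q) {ε : ℝ}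
    (h1 : 1 / (Q : ℝ) ≤ ε) (h2 : ε ≤ 1) (h3 : ε * Q ≤ 2) :
    NonadaptivelyTestable (PR a i₀ code Y) ε
      (∑ i ∈ Finset.Ico i₀ (RR Q), qN a i Q + Q * rq Q) ∧
    Testable (PR a i₀ code Y) ε (∑ i ∈ Finset.Ico i₀ (RR Q), qA a i Q + Q * rq Q) := by
  constructor
  · intro N
    obtain ⟨A, hA, hA'⟩ := upn_tester hQ h1 h2 True
      (fun i => qN a i Q)
      (fun i N hact => (scale_testers ha hadm hi₀ hbig hQ h1 h2 h3 hact).1) N
    exact ⟨A, fun T hT => ⟨(hA T hT).1 trivial, (hA T hT).2⟩, hA'⟩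
  · intro N
    obtain ⟨A, hA, hA'⟩ := upn_tester hQ h1 h2 False
      (fun i => qA a i Q)
      (fun i N hact => (scale_testers ha hadm hi₀ hbig hQ h1 h2 h3 hact).2) N
    exact ⟨A, fun T hT => (hA T hT).2, hA'⟩

end Pool.Agent.Lib_MP_cc9a35_rb
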