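import Pool.Agent.Lib_MP_cc9a35_rb.UpScale
import Pool.Agent.Lib_MP_cc9a35_rb.UpperNat

/-!
Piece UAS: the upper bounds as functions of `ε`.

Proof. Take `Q = ⌈1 / ε⌉₊`; for `0 < ε ≤ 1`: `1 ≤ Q`, `1 / Q ≤ ε`, `ε * Q ≤ ε * (1 / ε + 1) ≤ 2`. By
`upper_nat` the number `q = ∑ i ∈ Ico i₀ (RR Q), qN a i Q + Q * rq Q` works. There are at most
`RR Q ≤ 2 * lq Q` summands, each at most `C * lq Q ^ k * Q ^ (a + 4)`; `Q * rq Q ≤ 8 * lq Q * Q ^ (a + 4)`.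
Finally `Q ≤ 2 / ε`, so `Q ^ (a + 4) ≤ 2 ^ (a + 4) * (1 / ε) ^ (a + 4)` and
`lq Q ≤ 1 + log 2 + log (1/ε) ≤ 3 * log (1/ε)` when `log (1/ε) ≥ 1`. Same with `qA`, `a`.
-/

namespace Pool.Agent.Lib_MP_cc9a35_rb

open Filter Topology Pool.Agent.Lib_MP_cc9a35_lc

theorem upper_asym_aux {b : ℝ} (hb : 1 ≤ b) (f : ℕ → ℕ → ℕ) (i₀ : ℕ)
    (hf : ∃ C : ℝ, 1 ≤ C ∧ ∃ k : ℕ, ∀ Q i : ℕ, 1 ≤ Q → i < RR Q →
      (f i Q : ℝ) ≤ C * lq Q ^ k * (Q : ℝ) ^ b) :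
    ∃ C > 0, ∃ k : ℕ, ∀ ε : ℝ, 0 < ε → ε ≤ Real.exp (-1) →
      ((∑ i ∈ Finset.Ico i₀ (RR ⌈1 / ε⌉₊), f i ⌈1 / ε⌉₊ + ⌈1 / ε⌉₊ * rq ⌈1 / ε⌉₊ : ℕ) : ℝ) ≤
        C * Real.log (1 / ε) ^ k * (1 / ε) ^ b := by
  obtain ⟨C, hC, k, hk⟩ := hf
  refine ⟨(2 * C + 8) * 3 ^ (k + 1) * 2 ^ b, by positivity, k + 1, ?_⟩
  intro ε hε hε1
  set Q := ⌈1 / ε⌉₊ with hQdef
  have hexp : Real.exp (-1) ≤ 1 := Real.exp_le_one_iff.2 (by norm_num)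
  have hε2 : ε ≤ 1 := hε1.trans hexp
  have h1ε : 1 ≤ 1 / ε := by rw [le_div_iff₀ hε]; linarith
  have hQ1 : 1 ≤ Q := by
    rw [hQdef]
    exact Nat.one_le_iff_ne_zero.2 (Nat.ceil_pos.2 (by positivity)).ne'
  have hQle : (Q : ℝ) ≤ 2 * (1 / ε) := by
    have := Nat.ceil_lt_add_one (show (0 : ℝ) ≤ 1 / ε by positivity)
    rw [← hQdef] at this
    linarith
  have hQpos : (0 : ℝ) < Q := by exact_mod_cast hQ1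
  have hQ1' : (1 : ℝ) ≤ Q := by exact_mod_cast hQ1
  have hlog1 : 1 ≤ Real.log (1 / ε) := by
    have h := Real.log_le_log hε hε1
    rw [Real.log_exp] at h
    rw [one_div, Real.log_inv]
    linarith
  have hlq1 : 1 ≤ lq Q := one_le_lq hQ1
  have hlq : lq Q ≤ 3 * Real.log (1 / ε) := by
    unfold lq
    have h1 : Real.log Q ≤ Real.log (2 * (1 / ε)) := Real.log_le_log hQpos hQle
    rw [Real.log_mul (by norm_num) (by positivity)] at h1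
    have h2 : Real.log 2 ≤ 1 := by
      have := Real.log_two_lt_d9
      linarith
    linarith
  have hlqpow : lq Q ^ (k + 1) ≤ 3 ^ (k + 1) * Real.log (1 / ε) ^ (k + 1) := by
    rw [← mul_pow]
    exact pow_le_pow_left₀ (by linarith) hlq _
  have hQb : (Q : ℝ) ^ b ≤ 2 ^ b * (1 / ε) ^ b := by
    rw [← Real.mul_rpow (by norm_num) (by positivity)]
    exact Real.rpow_le_rpow hQpos.le hQle (by linarith)
  have hQb1 : (Q : ℝ) ≤ (Q : ℝ) ^ b := by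
    calc (Q : ℝ) = (Q : ℝ) ^ (1 : ℝ) := (Real.rpow_one _).symm
      _ ≤ (Q : ℝ) ^ b := Real.rpow_le_rpow_of_exponent_le hQ1' hb
  have hQb0 : (0 : ℝ) ≤ (Q : ℝ) ^ b := by positivity
  -- the sum
  have hsum : (∑ i ∈ Finset.Ico i₀ (RR Q), (f i Q : ℝ)) ≤
      2 * C * lq Q ^ (k + 1) * (Q : ℝ) ^ b := by
    have hcard : (((Finset.Ico i₀ (RR Q)).card : ℕ) : ℝ) ≤ 2 * lq Q := by
      refine le_trans ?_ (RR_le hQ1)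
      rw [Nat.card_Ico]
      exact_mod_cast Nat.sub_le _ _
    have h0 : 0 ≤ C * lq Q ^ k * (Q : ℝ) ^ b := by positivity
    calc (∑ i ∈ Finset.Ico i₀ (RR Q), (f i Q : ℝ))
        ≤ ∑ i ∈ Finset.Ico i₀ (RR Q), C * lq Q ^ k * (Q : ℝ) ^ b := by
          refine Finset.sum_le_sum fun i hi => hk Q i hQ1 (Finset.mem_Ico.1 hi).2
      _ = ((Finset.Ico i₀ (RR Q)).card : ℝ) * (C * lq Q ^ k * (Q : ℝ) ^ b) := by
          rw [Finset.sum_const, nsmul_eq_mul]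
      _ ≤ 2 * lq Q * (C * lq Q ^ k * (Q : ℝ) ^ b) := mul_le_mul_of_nonneg_right hcard h0
      _ = 2 * C * lq Q ^ (k + 1) * (Q : ℝ) ^ b := by ring
  have hrq : (Q : ℝ) * (rq Q : ℝ) ≤ 8 * lq Q ^ (k + 1) * (Q : ℝ) ^ b := by
    have h1 := rq_le hQ1
    have h2 : lq Q ≤ lq Q ^ (k + 1) := by
      calc lq Q = lq Q ^ 1 := (pow_one _).symm
        _ ≤ lq Q ^ (k + 1) := pow_le_pow_right₀ hlq1 (by omega)
    calc (Q : ℝ) * (rq Q : ℝ) ≤ (Q : ℝ) * (8 * lq Q) := mul_le_mul_of_nonneg_left h1 hQpos.le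
      _ ≤ (Q : ℝ) ^ b * (8 * lq Q ^ (k + 1)) := by
          refine mul_le_mul hQb1 (by linarith) (by positivity) hQb0
      _ = 8 * lq Q ^ (k + 1) * (Q : ℝ) ^ b := by ring
  push_cast
  calc (∑ i ∈ Finset.Ico i₀ (RR Q), (f i Q : ℝ)) + (Q : ℝ) * (rq Q : ℝ)
      ≤ (2 * C + 8) * lq Q ^ (k + 1) * (Q : ℝ) ^ b := by
        have : (2 * C + 8) * lq Q ^ (k + 1) * (Q : ℝ) ^ b =
          2 * C * lq Q ^ (k + 1) * (Q : ℝ) ^ b + 8 * lq Q ^ (k + 1) * (Q : ℝ) ^ b := by ring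
        rw [this]
        exact add_le_add hsum hrq
    _ ≤ (2 * C + 8) * (3 ^ (k + 1) * Real.log (1 / ε) ^ (k + 1)) * (2 ^ b * (1 / ε) ^ b) := by
        refine mul_le_mul (mul_le_mul_of_nonneg_left hlqpow (by linarith)) hQb hQb0 (by positivity)
    _ = (2 * C + 8) * 3 ^ (k + 1) * 2 ^ b * Real.log (1 / ε) ^ (k + 1) * (1 / ε) ^ b := by ring

theorem upper_asym {a : ℝ} (ha : 4 ≤ a) {code : ∀ i, Labs a i → Fin (tt a i) → Bool}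
    {Y : ∀ i, Set (Sym2 (Labs a i) → Bool)} (hadm : Adm a code Y) {i₀ : ℕ} (hi₀ : 1 ≤ i₀)
    (hbig : ∀ i, i₀ ≤ i → 80 * (tt a i * (tt a i + 8)) ≤ uu i) :
    (∃ C > 0, ∃ k : ℕ, ∀ᶠ ε in 𝓝[>] (0 : ℝ), ∃ q : ℕ,
      NonadaptivelyTestable (PR a i₀ code Y) ε q ∧
      (q : ℝ) ≤ C * Real.log (1 / ε) ^ k * (1 / ε) ^ (a + 4)) ∧
    (∃ C > 0, ∃ k : ℕ, ∀ᶠ ε in 𝓝[>] (0 : ℝ), ∃ q : ℕ, Testable (PR a i₀ code Y) ε q ∧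
      (q : ℝ) ≤ C * Real.log (1 / ε) ^ k * (1 / ε) ^ a) := by
  have hev : ∀ᶠ ε in 𝓝[>] (0 : ℝ), 0 < ε ∧ ε ≤ Real.exp (-1) := by
    filter_upwards [Ioc_mem_nhdsGT (Real.exp_pos (-1))] with ε hε
    exact ⟨hε.1, hε.2⟩
  have hmain : ∀ ε : ℝ, 0 < ε → ε ≤ Real.exp (-1) →
      1 ≤ ⌈1 / ε⌉₊ ∧ 1 / ((⌈1 / ε⌉₊ : ℕ) : ℝ) ≤ ε ∧ ε ≤ 1 ∧ ε * ((⌈1 / ε⌉₊ : ℕ) : ℝ) ≤ 2 := by
    intro ε hε hε1
    have hexp : Real.exp (-1) ≤ 1 := Real.exp_le_one_iff.2 (by norm_num)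
    have hε2 : ε ≤ 1 := hε1.trans hexp
    have hQ1 : 1 ≤ ⌈1 / ε⌉₊ :=
      Nat.one_le_iff_ne_zero.2 (Nat.ceil_pos.2 (by positivity)).ne'
    have hQpos : (0 : ℝ) < ((⌈1 / ε⌉₊ : ℕ) : ℝ) := by exact_mod_cast hQ1
    have hle : 1 / ε ≤ ((⌈1 / ε⌉₊ : ℕ) : ℝ) := Nat.le_ceil _
    have hlt := Nat.ceil_lt_add_one (show (0 : ℝ) ≤ 1 / ε by positivity)
    refine ⟨hQ1, ?_, hε2, ?_⟩
    · rw [div_le_iff₀ hQpos]
      rw [div_le_iff₀ hε] at hle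
      linarith
    · calc ε * ((⌈1 / ε⌉₊ : ℕ) : ℝ) ≤ ε * (1 / ε + 1) := mul_le_mul_of_nonneg_left hlt.le hε.le
        _ = 1 + ε := by field_simp
        _ ≤ 2 := by linarith
  constructor
  · obtain ⟨C, hC, k, hk⟩ := upper_asym_aux (b := a + 4) (by linarith)
      (fun i Q => qN a i Q) i₀ (qN_le ha)
    refine ⟨C, hC, k, ?_⟩
    filter_upwards [hev] with ε hε
    obtain ⟨hQ, h1, h2, h3⟩ := hmain ε hε.1 hε.2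
    exact ⟨_, (upper_nat ha hadm hi₀ hbig hQ h1 h2 h3).1, hk ε hε.1 hε.2⟩
  · obtain ⟨C, hC, k, hk⟩ := upper_asym_aux (b := a) (by linarith)
      (fun i Q => qA a i Q) i₀ (qA_le ha)
    refine ⟨C, hC, k, ?_⟩
    filter_upwards [hev] with ε hε
    obtain ⟨hQ, h1, h2, h3⟩ := hmain ε hε.1 hε.2
    exact ⟨_, (upper_nat ha hadm hi₀ hbig hQ h1 h2 h3).2, hk ε hε.1 hε.2⟩

end Pool.Agent.Lib_MP_cc9a35_rb
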