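import Pool.Agent.Lib_MP_cc9a35_rb.One
import Pool.Agent.Lib_MP_cc9a35_rb.UpAsym
import Pool.Agent.Lib_MP_cc9a35_rb.LowerAsym
import Pool.Agent.Lib_MP_cc9a35_rb.AdmEx
import Pool.Agent.Lib_MP_cc9a35_lc.One

/-!
All exponents in `[1, 2]` are robustly achievable.
-/

namespace Pool.Agent.Lib_MP_cc9a35_rb

open Filter Topology Pool.Agent.Lib_MP_cc9a35_lc

theorem lim_aux {a C : ℝ} (ha : 4 ≤ a) (hC : 0 < C) (k : ℕ) :
    Tendsto (fun ε : ℝ => (1 / ε) ^ a / (C * Real.log (1 / ε) ^ k)) (𝓝[>] 0) atTop := by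
  have h1 : Tendsto (fun x : ℝ => x ^ a / (C * Real.log x ^ k)) atTop atTop := by
    have h2 : ∀ᶠ x : ℝ in atTop, Real.log x ^ k ≤ x := by
      have := (Real.isLittleO_pow_log_id_atTop (n := k)).bound (c := 1) one_pos
      filter_upwards [this, eventually_ge_atTop (1 : ℝ)] with x h3 h4
      have h5 : 0 ≤ Real.log x := Real.log_nonneg h4
      simp only [Real.norm_eq_abs, id, one_mul] at h3
      rw [abs_of_nonneg (by positivity), abs_of_nonneg (by linarith)] at h3
      exact h3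
    have h3 : Tendsto (fun x : ℝ => x / C) atTop atTop := tendsto_id.atTop_div_const hC
    refine tendsto_atTop_mono' _ ?_ h3
    filter_upwards [h2, eventually_gt_atTop (Real.exp 1)] with x h4 h5
    have hx1 : 1 ≤ x := by
      have := Real.add_one_le_exp (1 : ℝ)
      linarith
    have hx0 : 0 < x := by linarith
    have hl : 0 < Real.log x := Real.log_pos (by
      have := Real.add_one_le_exp (1 : ℝ)
      linarith)
    rw [le_div_iff₀ (by positivity)]
    calc x / C * (C * Real.log x ^ k) = x * Real.log x ^ k := by field_simp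
      _ ≤ x * x := by gcongr
      _ = x ^ (2 : ℝ) := by rw [Real.rpow_two]; ring
      _ ≤ x ^ a := Real.rpow_le_rpow_of_exponent_le hx1 (by linarith)
  exact h1.comp Pool.Agent.Lib_MP_cc9a35_lc.tendsto_one_div

theorem robust_of_one_lt {c : ℝ} (hc : 1 < c) (hc2 : c ≤ 2) : RobustlyAchievable c := by
  set a : ℝ := 4 / (c - 1) with ha
  have hc1 : 0 < c - 1 := by linarith
  have ha4 : 4 ≤ a := by
    rw [ha, le_div_iff₀ hc1]
    linarith
  have hac : a * c = a + 4 := by
    rw [ha]
    field_simp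
    ring
  obtain ⟨i₀, hi₀, hbig⟩ := exists_i0 ha4
  obtain ⟨code, Y, hadm⟩ := exists_adm a
  obtain ⟨U1, U2⟩ := upper_asym ha4 hadm hi₀ (fun i hi => (hbig i hi).1)
  obtain ⟨L2, L1⟩ := lower_asym ha4 hadm hi₀ (fun i hi => (hbig i hi).2)
  obtain ⟨C, hC, k, hL⟩ := id L2
  refine robust_of_bounds (PR a i₀ code Y) (by linarith) (fun ε => (1 / ε) ^ a)
    (fun ε => (1 / ε) ^ (a + 4)) (fun ε => (1 / ε) ^ a / (C * Real.log (1 / ε) ^ k))
    ?_ ?_ U1 U2 L1 L2 ?_ ?_
  · filter_upwards [self_mem_nhdsWithin] with ε hε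
    have : (0 : ℝ) < ε := hε
    positivity
  · filter_upwards [self_mem_nhdsWithin] with ε hε
    have : (0 : ℝ) < ε := hε
    rw [← Real.rpow_mul (by positivity), hac]
  · exact lim_aux ha4 hC k
  · filter_upwards [hL, eventually_log_ge_one] with ε h1 h2
    filter_upwards [h1] with N h3 q hq
    have h4 := h3 q hq
    rw [div_le_iff₀ (by positivity)]
    linarith

/-- All exponents in `[1, 2]` are robustly achievable. -/
theorem robust_all {c : ℝ} (hc : c ∈ Set.Icc (1 : ℝ) 2) : RobustlyAchievable c := by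
  rcases eq_or_lt_of_le hc.1 with h | h
  · rw [← h]
    exact robust_one
  · exact robust_of_one_lt h hc.2

end Pool.Agent.Lib_MP_cc9a35_rb
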