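import Pool.Agent.Lib_MP_cc9a35_rb.Accept
import Pool.Agent.Lib_MP_cc9a35_rb.PrFun
import Pool.Agent.Lib_MP_cc9a35_rb.PrCheb

/-!
Piece MIS: few vertices have a label without representative.

Proof. `mul_pow_le`: `(K + 1) * p * (1 - p) ^ K ≤ p * ∑_{j ≤ K} (1 - p) ^ j = 1 - (1 - p) ^ (K + 1) ≤ 1`.
`Pr_missing`: `markov_count` with `J = Fin N` and the events
`Q v x = (∃ a, ψ v = inr a ∧ ∀ j, ψ (x j) ≠ inr a)`. If `ψ v` is no label the probability is `0`, and if
`ψ v = inr a` it is `(1 - n a / N) ^ K` by `Pr_forall_fun`, with `n a` the number of vertices of label `a`.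
The sum over `v` is `∑ a, n a * (1 - n a / N) ^ K ≤ N * card L / (K + 1)`; divide by `τ * N`.
-/

namespace Pool.Agent.Lib_MP_cc9a35_rb

open Pool.Agent.Lib_MP_cc9a35_lc

variable {t : ℕ} {L : Type} {N K : ℕ}

/-- The vertex `v` has a label without representative in the sample `x`. -/
def IsMissing (ψ : Fin N → Typ t L) (x : Fin K → Fin N) (v : Fin N) : Prop :=
  ∃ a : L, ψ v = .inr a ∧ ∀ j, ψ (x j) ≠ .inr a

theorem mul_pow_le {p : ℝ} (h0 : 0 ≤ p) (h1 : p ≤ 1) (K : ℕ) :
    p * (1 - p) ^ K ≤ 1 / (K + 1) := by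
  have hq0 : 0 ≤ 1 - p := by linarith
  have hq1 : 1 - p ≤ 1 := by linarith
  have key : ∀ n : ℕ, ((n : ℝ) + 1) * (p * (1 - p) ^ n) ≤ 1 - (1 - p) ^ (n + 1) := by
    intro n
    induction n with
    | zero => simp
    | succ n ih =>
      have h2 : (1 - p) ^ (n + 1) ≤ 1 := pow_le_one₀ hq0 hq1
      have h3 := mul_le_mul_of_nonneg_left ih hq0
      have h4 := mul_le_mul_of_nonneg_left h2 h0
      push_cast
      have h5 : ((n : ℝ) + 1 + 1) * (p * (1 - p) ^ (n + 1)) =
          (1 - p) * (((n : ℝ) + 1) * (p * (1 - p) ^ n)) + p * (1 - p) ^ (n + 1) := by ring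
      have h6 : (1 - p) ^ (n + 1 + 1) = (1 - p) * (1 - p) ^ (n + 1) := by ring
      rw [h5, h6]
      linarith
  have h2 : (0 : ℝ) < (K : ℝ) + 1 := by positivity
  rw [le_div_iff₀ h2]
  have h3 := key K
  have h4 : 0 ≤ (1 - p) ^ (K + 1) := pow_nonneg hq0 _
  linarith

theorem Pr_missing [Fintype L] (hN : 0 < N) (hK : 0 < K) (ψ : Fin N → Typ t L) {τ : ℝ}
    (hτ : 0 < τ) :
    Pr (fun x : Fin K → Fin N => τ * N ≤ (Nat.card {v // IsMissing ψ x v} : ℝ)) ≤
      Fintype.card L / (K * τ) := by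
  classical
  have : Nonempty (Fin N) := ⟨⟨0, hN⟩⟩
  have hNR : (0 : ℝ) < N := by exact_mod_cast hN
  have hKR : (0 : ℝ) < K := by exact_mod_cast hK
  have hc : 0 < τ * N := mul_pos hτ hNR
  refine (markov_count (fun (v : Fin N) (x : Fin K → Fin N) => IsMissing ψ x v) hc).trans ?_
  obtain ⟨p, hp⟩ : ∃ p : L → ℝ, ∀ a, p a = Pr (fun u : Fin N => ψ u = .inr a) := ⟨_, fun _ => rfl⟩
  have hp0 : ∀ a, 0 ≤ p a := fun a => by rw [hp]; exact Pr_nonneg _
  have hp1 : ∀ a, p a ≤ 1 := fun a => by rw [hp]; exact Pr_le_one _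
  have hv : ∀ v : Fin N, Pr (fun x : Fin K → Fin N => IsMissing ψ x v) ≤
      ∑ a, if ψ v = .inr a then (1 - p a) ^ K else 0 := by
    intro v
    have hnn : ∀ a ∈ (Finset.univ : Finset L),
        0 ≤ if ψ v = .inr a then (1 - p a) ^ K else 0 := by
      intro a _
      split_ifs
      · exact pow_nonneg (by linarith [hp1 a]) _
      · exact le_rfl
    rcases hψ : ψ v with k | a
    · rw [Pr_of_forall_not]
      · rw [← hψ]
        exact Finset.sum_nonneg hnn
      · rintro x ⟨a, ha, -⟩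
        rw [hψ] at ha
        exact Sum.inl_ne_inr ha
    · have h1 : Pr (fun x : Fin K → Fin N => IsMissing ψ x v) = (1 - p a) ^ K := by
        have h2 : Pr (fun x : Fin K → Fin N => IsMissing ψ x v) =
            Pr (fun x : Fin K → Fin N => ∀ j, ¬ (ψ (x j) = .inr a)) := by
          refine Pr_congr fun x => ?_
          constructor
          · rintro ⟨b, hb, h⟩
            rw [hψ] at hb
            rw [Sum.inr_injective hb]
            exact h
          · intro h
            exact ⟨a, hψ, h⟩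
        rw [h2, Pr_forall_fun K (fun u : Fin N => ¬ (ψ u = .inr a))]
        have h3 := Pr_compl (fun u : Fin N => ψ u = .inr a)
        rw [← hp] at h3
        congr 1
        linarith
      rw [h1, ← hψ]
      have h4 := Finset.single_le_sum hnn (Finset.mem_univ a)
      rw [if_pos hψ] at h4
      exact h4
  have hsum : ∑ v : Fin N, Pr (fun x : Fin K → Fin N => IsMissing ψ x v) ≤
      N * (Fintype.card L * (1 / (K + 1))) := by
    refine (Finset.sum_le_sum fun v _ => hv v).trans ?_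
    rw [Finset.sum_comm]
    have ha : ∀ a ∈ (Finset.univ : Finset L),
        (∑ v : Fin N, if ψ v = .inr a then (1 - p a) ^ K else 0) ≤ N * (1 / ((K : ℝ) + 1)) := by
      intro a _
      rw [← Finset.sum_filter, Finset.sum_const, nsmul_eq_mul]
      have h1 : ((Finset.univ.filter fun v : Fin N => ψ v = .inr a).card : ℝ) = N * p a := by
        rw [hp, Pr_eq_filter, Fintype.card_fin]
        field_simp
      rw [h1, mul_assoc]
      exact mul_le_mul_of_nonneg_left (mul_pow_le (hp0 a) (hp1 a) K) hNR.le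
    refine (Finset.sum_le_sum ha).trans ?_
    rw [Finset.sum_const, nsmul_eq_mul, Finset.card_univ]
    exact le_of_eq (by ring)
  rw [div_le_div_iff₀ hc (mul_pos hKR hτ)]
  have h1 : (1 : ℝ) / (K + 1) * K ≤ 1 := by
    rw [div_mul_eq_mul_div, one_mul]
    exact div_le_one_of_le₀ (by linarith) (by positivity)
  calc (∑ v : Fin N, Pr (fun x : Fin K → Fin N => IsMissing ψ x v)) * (K * τ)
      ≤ (N * (Fintype.card L * (1 / (K + 1)))) * (K * τ) :=
        mul_le_mul_of_nonneg_right hsum (mul_pos hKR hτ).le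
    _ = (Fintype.card L * (τ * N)) * (1 / (K + 1) * K) := by ring
    _ ≤ (Fintype.card L * (τ * N)) * 1 :=
        mul_le_mul_of_nonneg_left h1 (by positivity)
    _ = Fintype.card L * (τ * N) := by ring

end Pool.Agent.Lib_MP_cc9a35_rb
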