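import Pool.Agent.Lib_MP_cc9a35_rb.Sizes

/-!
Piece NUS: the numerical hypotheses for soundness hold for the chosen sample sizes.

Proofs.
* `pow_half`: `(1 - 1 / n) ^ n ≤ 1 / 2` for natural `n ≥ 1` (`1 - x ≤ exp (-x)`, `exp (-1) ≤ 1 / 2`), so for
  `1 / n ≤ x ≤ 1` one gets `(1 - x) ^ (n * r) ≤ (1 / 2) ^ r`.
* `half_pow_le`: `(1 / 2) ^ (R + 6) ≤ 1 / (12 * (R + 1))`, since `12 * (R + 1) ≤ 64 * 2 ^ R`.
* `snum`: with `u = uu i ≥ 16`, `t = tt a i ≥ 2`, `t * w ≤ N / u` and `m ≤ N / u ^ 2` (natural division), so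
  `t * w + m ≤ N`. `K * η ^ 2 * θ ≥ 64 (t + 1) ^ 2 Q ^ 2 * 3 (R + 1) * ε ^ 2 / (64 (t + 1) ^ 2) * θ ≥ 1`,
  as `Q * ε ≥ 1`. Coarse regime (`8 * Q ≤ u ^ 4`): `m / N ≤ 1 / u ^ 2` and `1 / u ^ 4 ≤ 1 / (8 Q) ≤ ε / 8`,
  `2 η ≤ ε / 12`, so `(m / N + 2 η) ^ 2 ≤ 2 / u ^ 4 + 2 (ε / 12) ^ 2 ≤ ε / 2`. Fine regime
  (`u ^ 4 < 8 Q`, but this gives no lower bound for `1 / u`, so use `Q ≤ 2 / ε`): `ε ≤ 2 / Q < 16 / u ^ 4`,
  `2 η = ε / (4 (t + 1)) ≤ ε / 16 ≤ 1 / u ^ 4 ≤ 1 / u ^ 2`, as `t ≥ 50` (`i ≥ 1`, `t ≥ 48 i + 2`); so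
  `m / N + 2 η ≤ 2 / u ^ 2 = ν`.
  `16 * card labels * ν = 32 * 2 ^ (48 i + h) / 2 ^ (8 i) = 32 * 2 ^ (40 i + h)` and
  `K * ε * θ ≥ 96 * 2 ^ (40 i + h) * Q * (R + 1) * ε * θ ≥ 32 * 2 ^ (40 i + h)`.
-/

namespace Pool.Agent.Lib_MP_cc9a35_rb

open Pool.Agent.Lib_MP_cc9a35_lc

theorem pow_half {x : ℝ} {n : ℕ} (hn : 0 < n) (h : 1 / (n : ℝ) ≤ x) (h1 : x ≤ 1) (r : ℕ) :
    (1 - x) ^ (n * r) ≤ (1 / 2 : ℝ) ^ r := by
  have hn' : (0 : ℝ) < n := by exact_mod_cast hn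
  have hx0 : 0 < x := lt_of_lt_of_le (by positivity) h
  have h2 : (1 - x) ^ n ≤ 1 / 2 := by
    have h3 : (1 : ℝ) + n * x ≤ (1 + x) ^ n := one_add_mul_le_pow (by linarith) n
    have h4 : 1 ≤ (n : ℝ) * x := by
      rw [div_le_iff₀ hn'] at h
      linarith
    have h5 : (1 - x) ^ n * (1 + x) ^ n ≤ 1 := by
      rw [← mul_pow]
      refine pow_le_one₀ ?_ ?_
      · exact mul_nonneg (by linarith) (by linarith)
      · nlinarith
    have h6 : 0 ≤ (1 - x) ^ n := pow_nonneg (by linarith) n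
    have h7 : (1 - x) ^ n * 2 ≤ (1 - x) ^ n * (1 + x) ^ n :=
      mul_le_mul_of_nonneg_left (by linarith) h6
    linarith
  rw [pow_mul]
  exact pow_le_pow_left₀ (pow_nonneg (by linarith) n) h2 r

theorem half_pow_le (R : ℕ) : (1 / 2 : ℝ) ^ (R + 6) ≤ 1 / (12 * ((R : ℝ) + 1)) := by
  have h1 : (R : ℝ) + 1 ≤ 2 ^ R := by
    have h2 : R + 1 ≤ 2 ^ R := Nat.lt_two_pow_self
    exact_mod_cast h2
  have h3 : (0 : ℝ) < (R : ℝ) + 1 := by positivity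
  rw [one_div_pow]
  refine one_div_le_one_div_of_le (by positivity) ?_
  rw [pow_add]
  have h4 : (0 : ℝ) < 2 ^ R := by positivity
  nlinarith

theorem snum {a : ℝ} (ha : 4 ≤ a) {i N Q : ℕ} (hi : 1 ≤ i) (hN : 0 < N) (hQ : 1 ≤ Q) {ε : ℝ}
    (h1 : 1 / (Q : ℝ) ≤ ε) (h2 : ε ≤ 1) (h3 : ε * Q ≤ 2) :
    SNum (tt a i) N (KK a i Q) (JJ Q) (MM i Q) (ww a i N) (mm i N) (Fintype.card (Labs a i))
      (Fintype.card (Tps i)) ε (thQ Q) (ε / (8 * (tt a i + 1))) (2 / (uu i : ℝ) ^ 2)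
      (fineQ i Q) := by
  have hQ' : (0 : ℝ) < Q := by exact_mod_cast hQ
  have hN' : (0 : ℝ) < N := by exact_mod_cast hN
  have hε : 0 < ε := lt_of_lt_of_le (by positivity) h1
  have hQε : 1 ≤ (Q : ℝ) * ε := by
    rw [div_le_iff₀ hQ'] at h1
    linarith
  obtain ⟨t, ht⟩ : ∃ t, t = tt a i := ⟨_, rfl⟩
  obtain ⟨R, hR⟩ : ∃ R, R = RR Q := ⟨_, rfl⟩
  obtain ⟨u, hu⟩ : ∃ u, u = uu i := ⟨_, rfl⟩
  have ht2 : 2 ≤ t := by
    rw [ht]
    unfold tt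
    omega
  have ht2' : (2 : ℝ) ≤ t := by exact_mod_cast ht2
  have hu16 : 16 ≤ u := by
    rw [hu]
    unfold uu
    calc 16 = 16 ^ 1 := by norm_num
      _ ≤ 16 ^ i := Nat.pow_le_pow_right (by norm_num) hi
  have hu16' : (16 : ℝ) ≤ u := by exact_mod_cast hu16
  have hu0 : (0 : ℝ) < u := by linarith
  have hu2 : (0 : ℝ) < (u : ℝ) ^ 2 := by positivity
  have hR0 : (0 : ℝ) < (R : ℝ) + 1 := by positivity
  have hθdef : thQ Q = 1 / (3 * ((R : ℝ) + 1)) := by rw [hR]; rfl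
  have hθ : 0 < thQ Q := by rw [hθdef]; positivity
  have hm : ((mm i N : ℕ) : ℝ) / N ≤ 1 / (u : ℝ) ^ 2 := by
    have h4 : ((mm i N : ℕ) : ℝ) ≤ (N : ℝ) / (u : ℝ) ^ 2 := by
      unfold mm
      rw [← hu]
      refine (Nat.cast_div_le).trans (le_of_eq ?_)
      push_cast
      rfl
    rw [div_le_iff₀ hN']
    refine h4.trans (le_of_eq ?_)
    ring
  have hm0 : 0 ≤ ((mm i N : ℕ) : ℝ) / N := by positivity
  -- the bound for (1 / 2) ^ (R + 6)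
  have hhalf : (1 / 2 : ℝ) ^ rq Q ≤ thQ Q / 4 := by
    have h4 := half_pow_le R
    have h5 : rq Q = R + 6 := by rw [hR]; rfl
    rw [h5, hθdef]
    refine h4.trans (le_of_eq ?_)
    rw [div_div]
    ring
  have hη0 : 0 < ε / (8 * ((t : ℝ) + 1)) := by positivity
  have hη : 2 * (ε / (8 * ((t : ℝ) + 1))) ≤ ε / 12 := by
    rw [mul_div_assoc', div_le_div_iff₀ (by positivity) (by norm_num)]
    nlinarith
  -- lower bounds for `K`
  have hK1 : (64 * ((t : ℝ) + 1) ^ 2 * (Q : ℝ) ^ 2 * (3 * ((R : ℝ) + 1))) ≤ (KK a i Q : ℝ) := by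
    have h4 : 64 * (t + 1) ^ 2 * Q ^ 2 * (3 * (R + 1)) ≤ KK a i Q := by
      unfold KK
      rw [← ht, ← hR]
      refine le_trans ?_ (Nat.le_add_right _ _)
      exact Nat.mul_le_mul_left _ (Nat.le_add_right _ _)
    exact_mod_cast h4
  have hK0 : 0 < KK a i Q := by
    have h4 : (0 : ℝ) < (KK a i Q : ℝ) := lt_of_lt_of_le (by positivity) hK1
    exact_mod_cast h4
  rw [← ht]
  refine ⟨hN, hK0, hε, h2, hθ, rfl, ?_, ?_, ?_, ?_, ?_, ?_, ?_, ?_, ?_⟩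
  · -- hsum
    have h4 : t * ww a i N ≤ N / u := by
      unfold ww
      rw [← ht, ← hu, ← Nat.div_div_eq_div_mul]
      exact Nat.mul_div_le _ _
    have h5 : N / u ≤ N / 2 := Nat.div_le_div_left (by omega) (by norm_num)
    have h6 : mm i N ≤ N / 2 := by
      unfold mm
      rw [← hu]
      refine Nat.div_le_div_left ?_ (by norm_num)
      nlinarith
    omega
  · -- hK1
    have h4 : (0 : ℝ) ≤ (ε / (8 * ((t : ℝ) + 1))) ^ 2 * thQ Q := by positivity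
    have h5 := mul_le_mul_of_nonneg_right hK1 h4
    have h6 : 64 * ((t : ℝ) + 1) ^ 2 * (Q : ℝ) ^ 2 * (3 * ((R : ℝ) + 1)) *
        ((ε / (8 * ((t : ℝ) + 1))) ^ 2 * thQ Q) = (Q * ε) ^ 2 := by
      rw [hθdef]
      field_simp
      ring
    rw [h6] at h5
    have h7 : (1 : ℝ) ≤ (Q * ε) ^ 2 := one_le_pow₀ hQε
    linarith
  · -- coarse
    intro hf
    have h4 : (8 * Q : ℝ) ≤ (u : ℝ) ^ 4 := by
      have h5 : 8 * Q ≤ uu i ^ 4 := by
        by_contra h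
        exact hf (not_le.1 h)
      rw [← hu] at h5
      exact_mod_cast h5
    have h5 : (((mm i N : ℕ) : ℝ) / N) ^ 2 ≤ ε / 8 := by
      calc (((mm i N : ℕ) : ℝ) / N) ^ 2 ≤ (1 / (u : ℝ) ^ 2) ^ 2 := pow_le_pow_left₀ hm0 hm 2
        _ = 1 / (u : ℝ) ^ 4 := by
            rw [div_pow, one_pow]
            ring_nf
        _ ≤ 1 / (8 * Q) := one_div_le_one_div_of_le (by positivity) h4
        _ ≤ ε / 8 := by
            rw [div_le_div_iff₀ (by positivity) (by norm_num)]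
            nlinarith
    have h6 : (2 * (ε / (8 * ((t : ℝ) + 1)))) ^ 2 ≤ (ε / 12) ^ 2 :=
      pow_le_pow_left₀ (by positivity) hη 2
    nlinarith [sq_nonneg (((mm i N : ℕ) : ℝ) / N - 2 * (ε / (8 * ((t : ℝ) + 1))))]
  · -- hMc
    intro hf
    have h4 : MM i Q = Q * rq Q := by
      unfold MM
      rw [if_neg hf]
    rw [h4]
    refine (pow_half hQ h1 h2 _).trans (hhalf.trans ?_)
    linarith
  · rw [← hu]
    positivity
  · -- hν
    intro hf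
    rw [← hu]
    have h4 : ((u : ℝ) ^ 4) < 8 * Q := by
      have h5 : uu i ^ 4 < 8 * Q := hf
      rw [← hu] at h5
      exact_mod_cast h5
    have h5 : ε * (u : ℝ) ^ 4 ≤ 16 := by nlinarith
    have h6 : 2 * (ε / (8 * ((t : ℝ) + 1))) ≤ 1 / (u : ℝ) ^ 2 := by
      rw [mul_div_assoc', div_le_div_iff₀ (by positivity) hu2]
      have h7 : (ε * (u : ℝ) ^ 2) * (u : ℝ) ^ 2 ≤ 16 := by
        calc (ε * (u : ℝ) ^ 2) * (u : ℝ) ^ 2 = ε * (u : ℝ) ^ 4 := by ring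
          _ ≤ 16 := h5
      have h8 : (256 : ℝ) ≤ (u : ℝ) ^ 2 := by nlinarith
      have h9 : ε * (u : ℝ) ^ 2 ≤ 1 := by
        by_contra h
        rw [not_le] at h
        nlinarith
      nlinarith
    have h7 : (2 : ℝ) / (u : ℝ) ^ 2 = 1 / (u : ℝ) ^ 2 + 1 / (u : ℝ) ^ 2 := by ring
    rw [h7]
    exact add_le_add hm h6
  · -- hK2
    intro hf
    rw [card_labs]
    have h4 : (96 * (2 : ℝ) ^ (40 * i + hh a i) * Q * ((R : ℝ) + 1)) ≤ (KK a i Q : ℝ) := by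
      have h5 : 96 * 2 ^ (40 * i + hh a i) * Q * (R + 1) ≤ KK a i Q := by
        unfold KK
        rw [if_pos hf, ← hR]
        exact Nat.le_add_left _ _
      exact_mod_cast h5
    have h5 : (0 : ℝ) ≤ ε * thQ Q := by positivity
    have h6 := mul_le_mul_of_nonneg_right h4 h5
    have h7 : 96 * (2 : ℝ) ^ (40 * i + hh a i) * Q * ((R : ℝ) + 1) * (ε * thQ Q) =
        32 * (2 : ℝ) ^ (40 * i + hh a i) * (Q * ε) := by
      rw [hθdef]
      field_simp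
      ring
    have h8 : (0 : ℝ) < 32 * (2 : ℝ) ^ (40 * i + hh a i) := by positivity
    have h9 : 16 * ((2 ^ bb a i : ℕ) : ℝ) * (2 / (uu i : ℝ) ^ 2) =
        32 * (2 : ℝ) ^ (40 * i + hh a i) := by
      have h10 : ((uu i : ℕ) : ℝ) ^ 2 = (2 : ℝ) ^ (8 * i) := by
        unfold uu
        push_cast
        rw [← pow_mul, show (16 : ℝ) = 2 ^ 4 by norm_num, ← pow_mul]
        congr 1
        ring
      have h11 : ((2 ^ bb a i : ℕ) : ℝ) = (2 : ℝ) ^ (40 * i + hh a i) * (2 : ℝ) ^ (8 * i) := by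
        unfold bb
        push_cast
        rw [← pow_add]
        congr 1
        ring
      rw [h10, h11]
      field_simp
      ring
    rw [h9]
    nlinarith
  · -- hMf
    intro hf
    rw [ZMod.card]
    have h4 : MM i Q = (4 * 2 ^ (48 * i) * Q) * rq Q := by
      unfold MM
      rw [if_pos hf]
    have hG : (1 : ℝ) ≤ (2 : ℝ) ^ (48 * i) := one_le_pow₀ (by norm_num)
    rw [h4]
    refine (pow_half (by positivity) ?_ ?_ _).trans hhalf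
    · push_cast
      rw [div_le_div_iff₀ (by positivity) (by positivity)]
      nlinarith
    · push_cast
      rw [div_le_one (by positivity)]
      nlinarith
  · -- hJ
    intro _
    have h4 : JJ Q = (2 * Q) * rq Q := rfl
    rw [h4]
    refine (pow_half (by positivity) ?_ ?_ _).trans hhalf
    · push_cast
      rw [div_le_div_iff₀ (by positivity) (by norm_num)]
      nlinarith
    · linarith

end Pool.Agent.Lib_MP_cc9a35_rb
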