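import Pool.Agent.Lib_MP_cc9a35_rb.Robust
import Pool.Agent.Lib_MP_cc9a35_rb.Empty
import Pool.Agent.Lib_MP_cc9a35_lc.One

/-!
Piece ONE: the exponent `1` is robustly achievable, by the property of having no edges.

Proof. Property `P0`: `graphs N = {⊥}`.
Upper bound: `empty_tester` with `M = 2 * ⌈1 / ε⌉₊` (`(1 - ε) ^ M ≤ exp (-2) ≤ 1 / 3`; a graph which is
`ε`-far has `pairDist G ⊥ > ε N ^ 2`), and `exact_tester` for `N = 0`; it is non-adaptive with
`2 * ⌈1 / ε⌉₊ ≤ 4 / ε` queries.
Lower bound for all large `N`: let `h` be the smallest natural number with `h * (h - 1) > 2 * ε * N ^ 2`,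
so for large `N`, `h ≤ N` (if `ε` is small, `ε < 1/8`) and `h * (h - 1) ≤ 8 * ε * N ^ 2`, say. Let `G σ` be the
graph in which `u ≠ v` are adjacent if `σ u < h` and `σ v < h`; `pairDist (G σ) ⊥ = h * (h - 1) / 2 > ε N ^ 2`
(`card_differ`). `lower_bound_core` (`Pool.Agent.Lib_MP_cc9a35_lc.Testers`) with `Ω₁ = Unit`, `G₁ = ⊥`,
`Ω₂ = Perm (Fin N)`, `G₂ = G`. A tree `T` with `T.Accepts ⊥` and `¬ T.Accepts (G σ)`, or the other way around,
asks on the path of the negative answers a pair `u ≠ v` with `σ u < h` and `σ v < h`; by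
`card_perm_pair` (`Pool.Agent.Lib_MP_cc9a35_lc.Lower`) and the union bound the number of such `σ` is at
most `T.depth * N.factorial * h * (h - 1) / (N * (N - 1))` (induction on `T`, compare `card_path_le` in
`Pool.Agent.Lib_MP_cc9a35_lc.One`). If this is at most `N.factorial / 10` for all trees in the support, we
get a contradiction. So a tester with at most `q` queries has
`10 * q * h * (h - 1) > N * (N - 1)`, hence `80 * q * ε * N ^ 2 > N ^ 2 / 2` and `1 / ε ≤ 160 * q`.
Then `robust_of_bounds` with `f = g = 1 / ε`, `h = (1 / ε) / 160` (`Real.rpow_one`).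
-/

namespace Pool.Agent.Lib_MP_cc9a35_rb

open Filter Topology Pool.Agent.Lib_MP_cc9a35_lc

/-- The property of having no edges. -/
def P0 : GraphProperty where
  graphs _ := {⊥}
  iso_closed := by
    rintro N G H ⟨e⟩ hG
    rw [Set.mem_singleton_iff] at hG ⊢
    subst hG
    ext u v
    have := e.symm.map_rel_iff (a := u) (b := v)
    rw [← this]
    simp

/-- The complete graph on the vertices `u` with `σ u < h`. -/
def cliqueGraph {N : ℕ} (h : ℕ) (σ : Equiv.Perm (Fin N)) : SimpleGraph (Fin N) where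
  Adj u v := u ≠ v ∧ (σ u : ℕ) < h ∧ (σ v : ℕ) < h
  symm := ⟨fun _ _ h => ⟨h.1.symm, h.2.2, h.2.1⟩⟩
  loopless := ⟨fun _ h => h.1 rfl⟩

theorem card_adj_le {N h : ℕ} (hh : h ≤ N) (u v : Fin N) :
    N * (N - 1) * Nat.card {σ : Equiv.Perm (Fin N) // (cliqueGraph h σ).Adj u v} ≤
      N.factorial * (h * (h - 1)) := by
  by_cases huv : u = v
  · have : IsEmpty {σ : Equiv.Perm (Fin N) // (cliqueGraph h σ).Adj u v} :=
      ⟨fun σ => σ.2.1 huv⟩
    rw [Nat.card_of_isEmpty, mul_zero]
    exact Nat.zero_le _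
  · rw [← card_perm_pair h hh huv]
    apply le_of_eq
    congr 1
    exact Nat.card_congr (Equiv.subtypeEquivRight fun σ => ⟨fun h => h.2, fun h => ⟨huv, h⟩⟩)

theorem card_path_le' {N h : ℕ} (hh : h ≤ N) (T : QueryTree N) :
    N * (N - 1) * Nat.card {σ : Equiv.Perm (Fin N) //
      ¬ (T.Accepts ⊥ ↔ T.Accepts (cliqueGraph h σ))} ≤
      T.depth * (N.factorial * (h * (h - 1))) := by
  classical
  induction T with
  | answer b => simp [QueryTree.Accepts]
  | query u v t f _ ihf =>
    have h0 := card_adj_le hh u v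
    simp only [Nat.card_eq_fintype_card, Fintype.card_subtype] at ihf h0 ⊢
    have hsub : (Finset.univ.filter fun σ : Equiv.Perm (Fin N) =>
        ¬ (QueryTree.Accepts ⊥ (.query u v t f) ↔
          QueryTree.Accepts (cliqueGraph h σ) (.query u v t f))) ⊆
        (Finset.univ.filter fun σ : Equiv.Perm (Fin N) => (cliqueGraph h σ).Adj u v) ∪
        (Finset.univ.filter fun σ : Equiv.Perm (Fin N) =>
          ¬ (QueryTree.Accepts ⊥ f ↔ QueryTree.Accepts (cliqueGraph h σ) f)) := by
      intro e he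
      simp only [Finset.mem_filter, Finset.mem_univ, true_and, Finset.mem_union] at he ⊢
      by_contra hcon
      push Not at hcon
      obtain ⟨h1, h2⟩ := hcon
      refine he ?_
      simp only [QueryTree.Accepts, SimpleGraph.bot_adj, h1, false_and, not_false_eq_true,
        true_and, false_or]
      exact h2
    have h2 := (Finset.card_le_card hsub).trans (Finset.card_union_le _ _)
    calc N * (N - 1) * (Finset.univ.filter fun σ : Equiv.Perm (Fin N) =>
        ¬ (QueryTree.Accepts ⊥ (.query u v t f) ↔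
          QueryTree.Accepts (cliqueGraph h σ) (.query u v t f))).card
        ≤ N * (N - 1) * ((Finset.univ.filter fun σ : Equiv.Perm (Fin N) =>
            (cliqueGraph h σ).Adj u v).card +
          (Finset.univ.filter fun σ : Equiv.Perm (Fin N) =>
          ¬ (QueryTree.Accepts ⊥ f ↔ QueryTree.Accepts (cliqueGraph h σ) f)).card) := by gcongr
      _ ≤ N.factorial * (h * (h - 1)) + f.depth * (N.factorial * (h * (h - 1))) := by
          rw [mul_add]
          gcongr
      _ = (f.depth + 1) * (N.factorial * (h * (h - 1))) := by ring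
      _ ≤ _ := by
          simp only [QueryTree.depth]
          gcongr
          exact le_max_right _ _

theorem pairDist_clique {N h : ℕ} (hh : h ≤ N) (σ : Equiv.Perm (Fin N)) :
    2 * pairDist (cliqueGraph h σ) ⊥ = h * (h - 1) := by
  classical
  rw [← card_differ]
  have h1 : (Finset.univ.filter fun e : Fin N × Fin N =>
      ¬ ((cliqueGraph h σ).Adj e.1 e.2 ↔ (⊥ : SimpleGraph (Fin N)).Adj e.1 e.2)) =
      (Finset.univ.filter fun x : Fin N => (σ x : ℕ) < h).offDiag := by
    ext ⟨a, b⟩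
    simp only [Finset.mem_filter, Finset.mem_univ, true_and, Finset.mem_offDiag,
      SimpleGraph.bot_adj, iff_false, not_not]
    change (a ≠ b ∧ (σ a : ℕ) < h ∧ (σ b : ℕ) < h) ↔ _
    tauto
  have h2 := card_lt_subtype hh σ
  rw [Nat.card_eq_fintype_card, Fintype.card_subtype] at h2
  rw [Nat.card_eq_fintype_card, Fintype.card_subtype, h1, Finset.offDiag_card, h2, Nat.mul_sub,
    mul_one]

theorem lower_clique {N h q : ℕ} {ε : ℝ} (hN : 2 ≤ N) (hh : h ≤ N)
    (hfar : 2 * ε * (N : ℝ) ^ 2 < ((h * (h - 1) : ℕ) : ℝ)) (hq : TestableAt P0 ε N q) :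
    N * (N - 1) < 10 * (q * (h * (h - 1))) := by
  classical
  by_contra hcon
  push Not at hcon
  obtain ⟨A, h1, h2⟩ := hq
  refine lower_bound_core P0 ε A h2 (Ω₁ := Unit) (Ω₂ := Equiv.Perm (Fin N)) (fun _ => ⊥)
    (fun σ => cliqueGraph h σ) ?_ ?_ ?_
  · intro _
    exact Set.mem_singleton _
  · have : IsEmpty {σ : Equiv.Perm (Fin N) // ¬ IsFar P0 ε (cliqueGraph h σ)} := by
      refine ⟨fun σ => σ.2 ?_⟩
      intro H hH
      have hH' : H = ⊥ := Set.mem_singleton_iff.1 hH
      rw [hH']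
      have h3 : ((2 * pairDist (cliqueGraph h σ.1) ⊥ : ℕ) : ℝ) = ((h * (h - 1) : ℕ) : ℝ) := by
        rw [pairDist_clique hh]
      rw [← h3] at hfar
      push_cast at hfar
      linarith
    rw [Nat.card_of_isEmpty]
    exact Nat.zero_le _
  · intro T hT
    have h3 := h1 T hT
    have h4 := card_path_le' hh T
    have hNN : 0 < N * (N - 1) := Nat.mul_pos (by omega) (by omega)
    have h5 : 10 * Nat.card {σ : Equiv.Perm (Fin N) //
        ¬ (T.Accepts ⊥ ↔ T.Accepts (cliqueGraph h σ))} ≤ N.factorial := by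
      have : N * (N - 1) * (10 * Nat.card {σ : Equiv.Perm (Fin N) //
          ¬ (T.Accepts ⊥ ↔ T.Accepts (cliqueGraph h σ))}) ≤ N * (N - 1) * N.factorial := by
        calc N * (N - 1) * (10 * Nat.card {σ : Equiv.Perm (Fin N) //
              ¬ (T.Accepts ⊥ ↔ T.Accepts (cliqueGraph h σ))})
            = 10 * (N * (N - 1) * Nat.card {σ : Equiv.Perm (Fin N) //
              ¬ (T.Accepts ⊥ ↔ T.Accepts (cliqueGraph h σ))}) := by ring
          _ ≤ 10 * (T.depth * (N.factorial * (h * (h - 1)))) := by gcongr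
          _ ≤ 10 * (q * (N.factorial * (h * (h - 1)))) := by gcongr
          _ = 10 * (q * (h * (h - 1))) * N.factorial := by ring
          _ ≤ N * (N - 1) * N.factorial := by gcongr
      exact Nat.le_of_mul_le_mul_left this hNN
    rw [Fintype.card_unit, Fintype.card_perm, Fintype.card_fin]
    by_cases hacc : T.Accepts ⊥
    · have h6 : Nat.card {_ω : Unit // T.Accepts ⊥} = 1 := by
        simp [hacc]
      rw [h6]
      simp only [hacc, true_iff] at h5
      have h7 := card_add_card_not (fun σ : Equiv.Perm (Fin N) => T.Accepts (cliqueGraph h σ))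
      rw [Fintype.card_perm, Fintype.card_fin] at h7
      omega
    · have h6 : Nat.card {_ω : Unit // T.Accepts ⊥} = 0 := by
        simp [hacc]
      rw [h6]
      omega

theorem lower_P0 : ∀ᶠ ε in 𝓝[>] (0 : ℝ), ∀ᶠ N : ℕ in atTop, ∀ q : ℕ,
    TestableAt P0 ε N q → 1 / ε ≤ 160 * q := by
  have hsmall : ∀ᶠ ε in 𝓝[>] (0 : ℝ), ε ≤ 1 / 8 :=
    (eventually_le_nhds (by norm_num : (0 : ℝ) < 1 / 8)).filter_mono nhdsWithin_le_nhds
  filter_upwards [eventually_pos, hsmall] with ε hε hε8
  set s : ℝ := Real.sqrt (2 * ε) with hs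
  have hspos : 0 < s := Real.sqrt_pos.2 (by positivity)
  have hssq : s ^ 2 = 2 * ε := Real.sq_sqrt (by positivity)
  have hshalf : s ≤ 1 / 2 := by
    rw [hs]
    apply Real.sqrt_le_iff.2
    constructor
    · norm_num
    · linarith
  have hlarge : ∀ᶠ N : ℕ in atTop, 2 / s ≤ (N : ℝ) :=
    tendsto_natCast_atTop_atTop.eventually (eventually_ge_atTop _)
  filter_upwards [hlarge, eventually_ge_atTop 4] with N hN hN4 q hq
  have hsN : 2 ≤ s * N := by
    rw [div_le_iff₀ hspos] at hN
    linarith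
  have hN4' : (4 : ℝ) ≤ N := by exact_mod_cast hN4
  set h : ℕ := ⌊s * N⌋₊ + 2 with hh
  have h1 : (⌊s * N⌋₊ : ℝ) ≤ s * N := Nat.floor_le (by positivity)
  have h2 : s * N < (⌊s * N⌋₊ : ℝ) + 1 := Nat.lt_floor_add_one _
  have hcast : (h : ℝ) = (⌊s * N⌋₊ : ℝ) + 2 := by rw [hh]; push_cast; ring
  have hcast1 : ((h - 1 : ℕ) : ℝ) = (⌊s * N⌋₊ : ℝ) + 1 := by
    have : h - 1 = ⌊s * N⌋₊ + 1 := by omega
    rw [this]
    push_cast
    ring
  have hhN : h ≤ N := by
    have : (h : ℝ) ≤ N := by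
      rw [hcast]
      nlinarith
    exact_mod_cast this
  have hlow : 2 * ε * (N : ℝ) ^ 2 < ((h * (h - 1) : ℕ) : ℝ) := by
    push_cast
    rw [hcast, hcast1, ← hssq]
    nlinarith
  have hup : ((h * (h - 1) : ℕ) : ℝ) ≤ 8 * ε * (N : ℝ) ^ 2 := by
    push_cast
    rw [hcast, hcast1]
    have e1 : (⌊s * N⌋₊ : ℝ) + 2 ≤ 2 * (s * N) := by linarith
    have e2 : (⌊s * N⌋₊ : ℝ) + 1 ≤ 2 * (s * N) := by linarith
    calc ((⌊s * N⌋₊ : ℝ) + 2) * ((⌊s * N⌋₊ : ℝ) + 1) ≤ (2 * (s * N)) * (2 * (s * N)) := by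
          gcongr
      _ = 4 * s ^ 2 * (N : ℝ) ^ 2 := by ring
      _ = 8 * ε * (N : ℝ) ^ 2 := by rw [hssq]; ring
  have h3 := lower_clique (by omega) hhN hlow hq
  have h4 : (N : ℝ) * (N - 1) < 10 * (q * ((h * (h - 1) : ℕ) : ℝ)) := by
    have e : ((N * (N - 1) : ℕ) : ℝ) < ((10 * (q * (h * (h - 1))) : ℕ) : ℝ) := by exact_mod_cast h3
    rw [Nat.cast_mul, Nat.cast_sub (by omega)] at e
    push_cast at e ⊢
    linarith
  have h5 : (N : ℝ) ^ 2 / 2 ≤ (N : ℝ) * (N - 1) := by nlinarith
  have h6 : 10 * ((q : ℝ) * ((h * (h - 1) : ℕ) : ℝ)) ≤ 80 * q * ε * (N : ℝ) ^ 2 := by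
    calc 10 * ((q : ℝ) * ((h * (h - 1) : ℕ) : ℝ)) ≤ 10 * (q * (8 * ε * (N : ℝ) ^ 2)) := by gcongr
      _ = _ := by ring
  have h7 : (N : ℝ) ^ 2 * 1 < (N : ℝ) ^ 2 * (160 * q * ε) := by nlinarith
  have h8 : 1 < 160 * q * ε := lt_of_mul_lt_mul_left h7 (by positivity)
  rw [div_le_iff₀ hε]
  exact h8.le

theorem upper_P0 : ∀ᶠ ε in 𝓝[>] (0 : ℝ), ∃ q : ℕ, NonadaptivelyTestable P0 ε q ∧
    (q : ℝ) ≤ 4 * (1 / ε) := by
  filter_upwards [eventually_pos, eventually_le_one] with ε hε hε1
  set M := ⌈1 / ε⌉₊ with hM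
  have hM2 : (M : ℝ) ≤ 2 / ε := ceil_inv_le hε hε1
  have hM1 : 1 ≤ ε * (M : ℝ) := one_le_mul_ceil hε
  refine ⟨2 * M, ?_, ?_⟩
  · intro N
    rcases Nat.eq_zero_or_pos N with hN0 | hN
    · obtain ⟨A, h1, h2⟩ := exact_tester P0 hε N
      refine ⟨A, fun T hT => ⟨(h1 T hT).1, (h1 T hT).2.trans ?_⟩, h2⟩
      rw [hN0]
      exact Nat.zero_le _
    · obtain ⟨A, h1, h2, h3, _⟩ := empty_tester hN (2 * M)
      refine ⟨A, h1, isTester_of_acc ?_ ?_⟩
      · intro G hG
        have hG' : G = ⊥ := Set.mem_singleton_iff.1 hG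
        rw [hG', h2]
        norm_num
      · intro G hG
        refine (h3 G ε (hG ⊥ (Set.mem_singleton _)) hε1).trans ?_
        have e1 : 1 - ε ≤ Real.exp (-ε) := by
          have := Real.add_one_le_exp (-ε)
          linarith
        have e2 : (1 - ε) ^ (2 * M) ≤ Real.exp (-2) := by
          calc (1 - ε) ^ (2 * M) ≤ (Real.exp (-ε)) ^ (2 * M) :=
                pow_le_pow_left₀ (by linarith) e1 _
            _ = Real.exp (-(2 * (ε * M))) := by
                rw [← Real.exp_nat_mul]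
                congr 1
                push_cast
                ring
            _ ≤ Real.exp (-2) := by
                apply Real.exp_le_exp.2
                linarith
        refine e2.trans ?_
        rw [Real.exp_neg]
        have e3 : (3 : ℝ) ≤ Real.exp 2 := by
          have := Real.add_one_le_exp (2 : ℝ)
          linarith
        rw [inv_eq_one_div]
        exact one_div_le_one_div_of_le (by norm_num) e3
  · push_cast
    calc 2 * (M : ℝ) ≤ 2 * (2 / ε) := by gcongr
      _ = 4 * (1 / ε) := by ring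

theorem robust_one : RobustlyAchievable 1 := by
  refine robust_of_bounds P0 (c := 1) zero_le_one (fun ε => 1 / ε) (fun ε => 1 / ε)
    (fun ε => (1 / ε) / 160) ?_ ?_ ⟨4, by norm_num, 0, ?_⟩ ⟨4, by norm_num, 0, ?_⟩
    ⟨160, by norm_num, 0, ?_⟩ ⟨160, by norm_num, 0, ?_⟩ ?_ ?_
  · filter_upwards [eventually_pos] with ε hε
    positivity
  · filter_upwards with ε
    exact Real.rpow_one _
  · filter_upwards [upper_P0] with ε h
    obtain ⟨q, h1, h2⟩ := h
    exact ⟨q, h1, by simpa using h2⟩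
  · filter_upwards [upper_P0] with ε h
    obtain ⟨q, h1, h2⟩ := h
    exact ⟨q, h1.testable, by simpa using h2⟩
  · filter_upwards [lower_P0] with ε h
    filter_upwards [h] with N hN q hq
    obtain ⟨A, hA1, hA2⟩ := hq
    simpa using hN q ⟨A, fun T hT => (hA1 T hT).2, hA2⟩
  · filter_upwards [lower_P0] with ε h
    filter_upwards [h] with N hN q hq
    simpa using hN q hq
  · exact Tendsto.atTop_div_const (by norm_num) tendsto_one_div
  · filter_upwards [lower_P0] with ε h
    filter_upwards [h] with N hN q hq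
    have := hN q hq
    linarith

end Pool.Agent.Lib_MP_cc9a35_rb
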