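import Pool.Agent.Lib_MP_cc9a35_rb.Defs2

/-!
Probabilities of events in finite uniform probability spaces.
-/

namespace Pool.Agent.Lib_MP_cc9a35_rb

/-- The probability of the event `Q` for the uniform distribution on the finite type `Ω`. -/
noncomputable def Pr {Ω : Type*} [Fintype Ω] (Q : Ω → Prop) : ℝ :=
  (Nat.card {ω // Q ω} : ℝ) / Fintype.card Ω

end Pool.Agent.Lib_MP_cc9a35_rb
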