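import Pool.Agent.Lib_MP_cc9a35_rb.PrBasic

/-!
Piece PRP: `Pr` on products (Fubini).

Proof of `Pr_prod_eq`: `{s : Ω × Ω' // Q s.1 s.2}` is equivalent to `Σ ω, {ω' // Q ω ω'}`
(compare `card_prod_subtype` in `Pool.Agent.Lib_MP_cc9a35_lc.Upper`), so its cardinality is the sum of
the cardinalities of the fibres; divide by `card Ω * card Ω'`. The other statements follow:
bound each summand by `p` (or by `1` on `B`, and `Pr B = (∑ ω, if B ω then 1 else 0) / card Ω`).
-/

namespace Pool.Agent.Lib_MP_cc9a35_rb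

variable {Ω Ω' : Type*} [Fintype Ω] [Fintype Ω']

theorem Pr_prod_eq (Q : Ω → Ω' → Prop) :
    Pr (fun s : Ω × Ω' => Q s.1 s.2) = (∑ ω, Pr (Q ω)) / Fintype.card Ω := by
  classical
  unfold Pr
  have e : {s : Ω × Ω' // Q s.1 s.2} ≃ (Σ a, {b // Q a b}) :=
    { toFun := fun s => ⟨s.1.1, s.1.2, s.2⟩
      invFun := fun s => ⟨(s.1, s.2.1), s.2.2⟩
      left_inv := fun s => rfl
      right_inv := fun s => rfl }
  rw [Nat.card_congr e, Nat.card_sigma, Fintype.card_prod, ← Finset.sum_div, div_div]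
  push_cast
  rw [mul_comm (Fintype.card Ω : ℝ)]

private theorem PRP_const (P : Prop) [Decidable P] [Nonempty Ω'] :
    Pr (fun _ : Ω' => P) = if P then 1 else 0 := by
  have h0 : (Fintype.card Ω' : ℝ) ≠ 0 := by exact_mod_cast Fintype.card_ne_zero
  by_cases h : P
  · simp only [h, if_true]
    have h1 := Pr_compl (Ω := Ω') (fun _ => True)
    have h2 : Pr (fun _ : Ω' => ¬ True) = 0 := Pr_of_forall_not fun _ => by simp
    linarith
  · simp only [h, if_false]
    exact Pr_false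

theorem Pr_prod_le {p : ℝ} (hp : 0 ≤ p) (Q : Ω → Ω' → Prop) (h : ∀ ω, Pr (Q ω) ≤ p) :
    Pr (fun s : Ω × Ω' => Q s.1 s.2) ≤ p := by
  rw [Pr_prod_eq]
  refine div_le_of_le_mul₀ (Nat.cast_nonneg _) hp ?_
  calc ∑ ω, Pr (Q ω) ≤ ∑ _ω : Ω, p := Finset.sum_le_sum fun ω _ => h ω
    _ = p * Fintype.card Ω := by rw [Finset.sum_const, nsmul_eq_mul, mul_comm]; rfl

theorem Pr_prod_le_add {p : ℝ} (hp : 0 ≤ p) (B : Ω → Prop) (Q : Ω → Ω' → Prop)
    (h : ∀ ω, ¬ B ω → Pr (Q ω) ≤ p) :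
    Pr (fun s : Ω × Ω' => Q s.1 s.2) ≤ Pr B + p := by
  classical
  rw [Pr_prod_eq]
  refine div_le_of_le_mul₀ (Nat.cast_nonneg _) (add_nonneg (Pr_nonneg _) hp) ?_
  by_cases hne : Nonempty Ω
  · have h0 : (Fintype.card Ω : ℝ) ≠ 0 := by exact_mod_cast Fintype.card_ne_zero
    calc ∑ ω, Pr (Q ω) ≤ ∑ ω, ((if B ω then (1 : ℝ) else 0) + p) := by
          refine Finset.sum_le_sum fun ω _ => ?_
          by_cases hB : B ω
          · simp only [hB, if_true]
            have := Pr_le_one (Q ω)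
            linarith
          · simp only [hB, if_false]
            have := h ω hB
            linarith
      _ = ((Finset.univ.filter B).card : ℝ) + Fintype.card Ω * p := by
          rw [Finset.sum_add_distrib, Finset.sum_const, nsmul_eq_mul, Finset.sum_boole]
          rfl
      _ = (Pr B + p) * Fintype.card Ω := by
          rw [Pr_eq_filter]
          field_simp
  · rw [not_nonempty_iff] at hne
    simp

theorem Pr_fst [Nonempty Ω'] (Q : Ω → Prop) : Pr (fun s : Ω × Ω' => Q s.1) = Pr Q := by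
  classical
  rw [Pr_prod_eq (fun ω (_ : Ω') => Q ω), Pr_eq_filter]
  congr 1
  rw [Finset.sum_congr rfl fun ω _ => PRP_const (Ω' := Ω') (Q ω), Finset.sum_boole]

theorem Pr_snd [Nonempty Ω] (Q : Ω' → Prop) : Pr (fun s : Ω × Ω' => Q s.2) = Pr Q := by
  have h0 : (Fintype.card Ω : ℝ) ≠ 0 := by exact_mod_cast Fintype.card_ne_zero
  rw [Pr_prod_eq (fun (_ : Ω) ω' => Q ω'), Finset.sum_const, nsmul_eq_mul]
  exact mul_div_cancel_left₀ _ h0

theorem Pr_prod_and (Q : Ω → Prop) (Q' : Ω' → Prop) :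
    Pr (fun s : Ω × Ω' => Q s.1 ∧ Q' s.2) = Pr Q * Pr Q' := by
  classical
  rw [Pr_prod_eq (fun ω ω' => Q ω ∧ Q' ω'), Pr_eq_filter Q]
  have h1 : ∀ ω, Pr (fun ω' : Ω' => Q ω ∧ Q' ω') = (if Q ω then 1 else 0) * Pr Q' := by
    intro ω
    by_cases h : Q ω
    · simp only [h, if_true, one_mul]
      exact Pr_congr fun _ => by simp
    · simp only [h, if_false, zero_mul]
      exact Pr_of_forall_not fun _ h' => h'.1
  rw [Finset.sum_congr rfl fun ω _ => h1 ω, ← Finset.sum_mul, Finset.sum_boole]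
  ring

end Pool.Agent.Lib_MP_cc9a35_rb
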