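import Pool.Agent.Lib_MP_cc9a35_rb.PrFun
import Pool.Agent.Lib_MP_cc9a35_rb.PrCheb
import Pool.Agent.Lib_MP_cc9a35_lc.Upper

/-!
Piece REG: with large probability every label class is large.

Proof. Let `R = {v // σ v < m}`, which has `m` elements (`card_lt_subtype`). For a fixed label `a` use
`chebyshev` with `J = R`, `Q v lam = (lam v = a)`, `p = 1 / card L` (`Pr_coord`, `Pr_two`, `Pr_prod_and`) and
`s = m / (2 * card L)`. If fewer than `v₀` vertices of `R` have the label `a`, then, as
`v₀ ≤ m / (2 * card L)`, the count differs from `m / card L` by at least `s`. So the probability is at most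
`(m / card L) / s ^ 2 = 4 * card L / m`. The union bound over `a` gives `4 * (card L) ^ 2 / m ≤ 1 / 400`.
-/

namespace Pool.Agent.Lib_MP_cc9a35_rb

open Pool.Agent.Lib_MP_cc9a35_lc

theorem Pr_irregular {L : Type} [Fintype L] [DecidableEq L] [Nonempty L] {N m v₀ : ℕ}
    (hm : m ≤ N) (σ : Equiv.Perm (Fin N)) (h1 : 2 * v₀ * Fintype.card L ≤ m)
    (h2 : 1600 * Fintype.card L ^ 2 ≤ m) :
    Pr (fun lam : Fin N → L =>
      ∃ a, Nat.card {v : Fin N // (σ v : ℕ) < m ∧ lam v = a} < v₀) ≤ 1 / 400 := by
  classical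
  set n : ℕ := Fintype.card L with hn
  have hn0 : 0 < n := Fintype.card_pos
  have hn0' : (0 : ℝ) < n := by exact_mod_cast hn0
  have hm0 : 0 < m := by
    have : 0 < n ^ 2 := by positivity
    omega
  have hm0' : (0 : ℝ) < m := by exact_mod_cast hm0
  have hR : Fintype.card {v : Fin N // (σ v : ℕ) < m} = m := by
    rw [← Nat.card_eq_fintype_card]
    exact card_lt_subtype hm σ
  have hone : ∀ a : L, Pr (fun x : L => x = a) = 1 / n := by
    intro a
    unfold Pr
    rw [← hn]
    congr 1
    have : Nat.card {x : L // x = a} = 1 := by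
      rw [Nat.card_eq_fintype_card, Fintype.card_subtype_eq]
    rw [this]
    norm_num
  have hmain : ∀ a : L, Pr (fun lam : Fin N → L =>
      Nat.card {v : Fin N // (σ v : ℕ) < m ∧ lam v = a} < v₀) ≤ 4 * n / m := by
    intro a
    have hc := chebyshev (Ω := Fin N → L) (J := {v : Fin N // (σ v : ℕ) < m})
      (fun j lam => lam j.1 = a) (1 / n)
      (fun j => by rw [← hone a]; exact Pr_coord (ι := Fin N) (X := L) j.1 (fun x => x = a))
      (fun j j' hjj' => by
        have hne : j.1 ≠ j'.1 := fun h => hjj' (Subtype.ext h)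
        have e1 := Pr_two (ι := Fin N) (X := L) hne (fun x x' => x = a ∧ x' = a)
        have e2 := Pr_prod_and (Ω := L) (Ω' := L) (fun x => x = a) (fun x => x = a)
        rw [e1, e2, hone a, sq])
      (s := (m : ℝ) / (2 * n)) (by positivity)
    rw [hR] at hc
    refine le_trans (Pr_mono ?_) (hc.trans (le_of_eq ?_))
    · intro lam hlam
      have hcard : Nat.card {j : {v : Fin N // (σ v : ℕ) < m} // lam j.1 = a} =
          Nat.card {v : Fin N // (σ v : ℕ) < m ∧ lam v = a} :=
        Nat.card_congr (Equiv.subtypeSubtypeEquivSubtypeInter _ (fun v => lam v = a))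
      rw [hcard]
      set X := Nat.card {v : Fin N // (σ v : ℕ) < m ∧ lam v = a}
      have hX : (X : ℝ) ≤ v₀ := by exact_mod_cast hlam.le
      have hv : 2 * (v₀ : ℝ) * n ≤ m := by exact_mod_cast h1
      have hv2 : (v₀ : ℝ) ≤ m / (2 * n) := by
        rw [le_div_iff₀ (by positivity)]
        linarith
      have h3 : (m : ℝ) * (1 / n) = 2 * (m / (2 * n)) := by
        field_simp
      rw [h3, abs_sub_comm]
      refine le_trans ?_ (le_abs_self _)
      linarith
    · field_simp
      ring
  have hu := Pr_exists_le (Ω := Fin N → L) (Finset.univ : Finset L)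
    (fun a lam => Nat.card {v : Fin N // (σ v : ℕ) < m ∧ lam v = a} < v₀)
  refine le_trans (Pr_mono ?_) (hu.trans ?_)
  · rintro lam ⟨a, ha⟩
    exact ⟨a, Finset.mem_univ _, ha⟩
  · refine (Finset.sum_le_sum fun a _ => hmain a).trans ?_
    rw [Finset.sum_const, Finset.card_univ, ← hn, nsmul_eq_mul]
    have h4 : 1600 * (n : ℝ) ^ 2 ≤ m := by exact_mod_cast h2
    rw [← mul_div_assoc, div_le_div_iff₀ hm0' (by norm_num)]
    nlinarith

end Pool.Agent.Lib_MP_cc9a35_rb
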