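import Pool.Agent.Lib_MP_cc9a35_rb.Struct

/-!
Piece REP: repairing the sizes.

Proof. First a general lemma: let `C` be a finite type, `χ : Fin N → C` and `target : C → ℕ` with
`∑ c, target c = N`. Then there is `χ'` with exactly `target c` vertices of colour `c` for all `c`, and
`Nat.card {v // χ' v ≠ χ v} ≤ ∑ c, (n c - target c)` (truncated subtraction, `n c` the number of
vertices of colour `c` for `χ`). Induction on the sum on the right: if it is `0`, then
`n c ≤ target c` for all `c`, and the sums are equal, so `χ' = χ` works. Otherwise some `c` has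
`n c > target c`, and then some `c'` has `n c' < target c'`; change the colour of one vertex from `c` to
`c'` (`Function.update`): the sum on the right drops by one.
For the theorem take `C = Option (Fin (t + 1))` (`none` for the labels), `χ` the colour of `ψ`,
`target (some k) = w` for `k ≠ 0`, `target none = min (number of labels) m`, and
`target (some 0) = N - t * w - target none`. The excess at `0` is
`n 0 - target 0 = ∑ (w - n k) + (target none - number of labels) ≤ ∑ (w - n k)`, so the sum of all the
excesses is at most `∑_{k ≠ 0} |n k - w| + (number of labels - m) ≤ (t + 1) * δ`. From `χ'` define `φ`: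
`φ v = inl k` if `χ' v = some k`; if `χ' v = none` then `φ v = ψ v` if this is a label, and any fixed label
otherwise.
-/

namespace Pool.Agent.Lib_MP_cc9a35_rb

variable {t : ℕ} {L : Type}

/-- number of vertices of the colour `c` -/
private def repN {C : Type} [DecidableEq C] {N : ℕ} (χ : Fin N → C) (c : C) : ℕ :=
  (Finset.univ.filter (fun v => χ v = c)).card

private theorem rep_sum {C : Type} [DecidableEq C] [Fintype C] {N : ℕ} (χ : Fin N → C) :
    ∑ c, repN χ c = N := by
  unfold repN
  have h := Finset.card_eq_sum_card_fiberwise (f := χ) (s := Finset.univ) (t := Finset.univ)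
    (fun v _ => Finset.mem_coe.2 (Finset.mem_univ (χ v)))
  rw [← h, Finset.card_univ, Fintype.card_fin]

private theorem rep_aux {C : Type} [DecidableEq C] [Fintype C] {N : ℕ} (target : C → ℕ)
    (ht : ∑ c, target c = N) : ∀ (D : ℕ) (χ : Fin N → C), ∑ c, (repN χ c - target c) = D →
    ∃ χ' : Fin N → C, (∀ c, repN χ' c = target c) ∧
      (Finset.univ.filter (fun v => χ' v ≠ χ v)).card ≤ D := by
  intro D
  induction D with
  | zero =>
    intro χ h
    refine ⟨χ, ?_, by simp⟩
    have h1 : ∀ c ∈ (Finset.univ : Finset C), repN χ c ≤ target c := by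
      intro c hc
      have := Finset.sum_eq_zero_iff.1 h c hc
      omega
    have h2 : ∑ c, repN χ c = ∑ c, target c := by rw [rep_sum, ht]
    exact fun c => (Finset.sum_eq_sum_iff_of_le h1).1 h2 c (Finset.mem_univ c)
  | succ D ih =>
    intro χ h
    obtain ⟨c, hc⟩ : ∃ c, target c < repN χ c := by
      by_contra hcon
      push Not at hcon
      have : ∑ c, (repN χ c - target c) = 0 :=
        Finset.sum_eq_zero fun c _ => Nat.sub_eq_zero_of_le (hcon c)
      omega
    obtain ⟨c', hc'⟩ : ∃ c', repN χ c' < target c' := by
      by_contra hcon
      push Not at hcon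
      have h2 : ∑ c, target c = ∑ c, repN χ c := by rw [rep_sum, ht]
      have := (Finset.sum_eq_sum_iff_of_le (fun c (_ : c ∈ Finset.univ) => hcon c)).1 h2 c
        (Finset.mem_univ c)
      omega
    have hcc : c ≠ c' := by
      rintro rfl
      omega
    obtain ⟨v, hv⟩ : (Finset.univ.filter (fun v => χ v = c)).Nonempty := by
      rw [← Finset.card_pos]
      exact lt_of_le_of_lt (Nat.zero_le _) hc
    rw [Finset.mem_filter] at hv
    have hn1 : ∀ d, (repN (Function.update χ v c') d - target d) + (if d = c then 1 else 0) =
        repN χ d - target d := by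
      intro d
      by_cases hd : d = c
      · subst hd
        have e1 : Finset.univ.filter (fun u => Function.update χ v c' u = d) =
            (Finset.univ.filter (fun u => χ u = d)).erase v := by
          ext u
          simp only [Finset.mem_filter, Finset.mem_univ, true_and, Finset.mem_erase]
          by_cases hu : u = v
          · subst hu
            rw [Function.update_self]
            exact ⟨fun h => absurd h.symm hcc, fun h => absurd rfl h.1⟩
          · rw [Function.update_of_ne hu]
            exact ⟨fun h => ⟨hu, h⟩, fun h => h.2⟩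
        have e2 : repN (Function.update χ v c') d = repN χ d - 1 := by
          unfold repN
          rw [e1, Finset.card_erase_of_mem (Finset.mem_filter.2 hv)]
        rw [if_pos rfl, e2]
        omega
      · rw [if_neg hd]
        by_cases hd' : d = c'
        · subst hd'
          have e1 : Finset.univ.filter (fun u => Function.update χ v d u = d) =
              insert v (Finset.univ.filter (fun u => χ u = d)) := by
            ext u
            simp only [Finset.mem_filter, Finset.mem_univ, true_and, Finset.mem_insert]
            by_cases hu : u = v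
            · subst hu
              rw [Function.update_self]
              exact ⟨fun _ => Or.inl rfl, fun _ => rfl⟩
            · rw [Function.update_of_ne hu]
              exact ⟨fun h => Or.inr h, fun h => h.resolve_left hu⟩
          have e2 : repN (Function.update χ v d) d = repN χ d + 1 := by
            unfold repN
            rw [e1, Finset.card_insert_of_notMem]
            intro hmem
            exact hcc (hv.2.symm.trans (Finset.mem_filter.1 hmem).2)
          rw [e2]
          omega
        · have e1 : Finset.univ.filter (fun u => Function.update χ v c' u = d) =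
              Finset.univ.filter (fun u => χ u = d) := by
            ext u
            simp only [Finset.mem_filter, Finset.mem_univ, true_and]
            by_cases hu : u = v
            · subst hu
              rw [Function.update_self]
              exact ⟨fun h => absurd h.symm hd', fun h => absurd (hv.2.symm.trans h).symm hd⟩
            · rw [Function.update_of_ne hu]
          have e2 : repN (Function.update χ v c') d = repN χ d := by
            unfold repN
            rw [e1]
          rw [e2]
          omega
    have hD : ∑ d, (repN (Function.update χ v c') d - target d) = D := by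
      have h1 : ∑ d, ((repN (Function.update χ v c') d - target d) + (if d = c then 1 else 0)) =
          D + 1 := by
        rw [← h]
        exact Finset.sum_congr rfl fun d _ => hn1 d
      rw [Finset.sum_add_distrib, Finset.sum_ite_eq' Finset.univ c (fun _ => 1),
        if_pos (Finset.mem_univ c)] at h1
      omega
    obtain ⟨χ', h1, h2⟩ := ih (Function.update χ v c') hD
    refine ⟨χ', h1, ?_⟩
    have hsub : Finset.univ.filter (fun u => χ' u ≠ χ u) ⊆
        insert v (Finset.univ.filter (fun u => χ' u ≠ Function.update χ v c' u)) := by
      intro u hu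
      rw [Finset.mem_filter] at hu
      rw [Finset.mem_insert, Finset.mem_filter]
      by_cases huv : u = v
      · exact Or.inl huv
      · right
        rw [Function.update_of_ne huv]
        exact hu
    calc _ ≤ _ := Finset.card_le_card hsub
      _ ≤ _ := Finset.card_insert_le _ _
      _ ≤ D + 1 := by omega

private theorem rep_card {N : ℕ} (P : Fin N → Prop) [DecidablePred P] :
    Nat.card {v // P v} = (Finset.univ.filter P).card := by
  rw [Nat.card_eq_fintype_card, Fintype.card_subtype]

/-- colour of a type -/
private def repC : Typ t L → Option (Fin (t + 1))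
  | .inl k => some k
  | .inr _ => none

private theorem repC_inl (θ : Typ t L) (k : Fin (t + 1)) : repC θ = some k ↔ θ = .inl k := by
  rcases θ with j | a
  · constructor
    · intro h
      exact congrArg Sum.inl (Option.some_inj.1 h)
    · intro h
      exact congrArg some (Sum.inl_injective h)
  · constructor
    · intro h
      exact absurd h (by simp [repC])
    · intro h
      exact absurd h (by simp)

private theorem repC_inr (θ : Typ t L) : repC θ = none ↔ θ.isRight = true := by
  rcases θ with j | a
  · simp [repC]
  · simp [repC]

/-- the new type -/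
private def repF (l₀ : L) : Option (Fin (t + 1)) → Typ t L → Typ t L
  | some k, _ => .inl k
  | none, .inl _ => .inr l₀
  | none, .inr a => .inr a

private theorem repC_repF (l₀ : L) (c : Option (Fin (t + 1))) (θ : Typ t L) : repC (repF l₀ c θ) = c := by
  rcases c with _ | k
  · rcases θ with j | a <;> rfl
  · rfl

private theorem repF_repC (l₀ : L) (θ : Typ t L) : repF l₀ (repC θ) θ = θ := by
  rcases θ with j | a <;> rfl

theorem repair [Nonempty L] {N w m : ℕ} (ψ : Fin N → Typ t L) (hsum : t * w + m ≤ N) {δ : ℝ}
    (hδ : 0 ≤ δ)
    (h1 : ∀ k : Fin (t + 1), k ≠ 0 → |(Nat.card {v // ψ v = .inl k} : ℝ) - (w : ℝ)| ≤ δ)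
    (h2 : (Nat.card {v // (ψ v).isRight = true} : ℝ) ≤ m + δ) :
    ∃ φ : Fin N → Typ t L, Sizes φ w m ∧ (Nat.card {v // φ v ≠ ψ v} : ℝ) ≤ (t + 1) * δ := by
  classical
  obtain ⟨l₀⟩ := ‹Nonempty L›
  -- colours
  have hnk : ∀ (f : Fin N → Typ t L) (k : Fin (t + 1)),
      Nat.card {v // f v = .inl k} = repN (fun v => repC (f v)) (some k) := by
    intro f k
    rw [rep_card]
    unfold repN
    refine congrArg _ (Finset.filter_congr fun v _ => ?_)
    exact (repC_inl _ _).symm
  have hnl : ∀ (f : Fin N → Typ t L),
      Nat.card {v // (f v).isRight = true} = repN (fun v => repC (f v)) none := by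
    intro f
    rw [rep_card]
    unfold repN
    refine congrArg _ (Finset.filter_congr fun v _ => ?_)
    exact (repC_inr _).symm
  obtain ⟨n, hn⟩ : ∃ n : Option (Fin (t + 1)) → ℕ, n = repN (fun v => repC (ψ v)) := ⟨_, rfl⟩
  obtain ⟨μ, hμ⟩ : ∃ μ, μ = min (n none) m := ⟨_, rfl⟩
  have hμ1 : μ ≤ n none := hμ ▸ min_le_left _ _
  have hμ2 : μ ≤ m := hμ ▸ min_le_right _ _
  obtain ⟨target, htn, ht0, htk⟩ : ∃ target : Option (Fin (t + 1)) → ℕ, target none = μ ∧
      target (some 0) = N - t * w - μ ∧ ∀ k : Fin t, target (some k.succ) = w := by
    refine ⟨fun c => match c with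
      | none => μ
      | some k => if k = 0 then N - t * w - μ else w, rfl, ?_, ?_⟩
    · show (if (0 : Fin (t + 1)) = 0 then N - t * w - μ else w) = _
      rw [if_pos rfl]
    · intro k
      show (if k.succ = 0 then N - t * w - μ else w) = _
      rw [if_neg (Fin.succ_ne_zero k)]
  have hsumT : ∑ c, target c = N := by
    rw [Fintype.sum_option, Fin.sum_univ_succ, htn, ht0, Finset.sum_congr rfl (fun k _ => htk k),
      Finset.sum_const, Finset.card_univ, Fintype.card_fin, smul_eq_mul]
    omega
  have hsumN : n none + (n (some 0) + ∑ k : Fin t, n (some k.succ)) = N := by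
    have := rep_sum (fun v => repC (ψ v))
    rw [Fintype.sum_option, Fin.sum_univ_succ, ← hn] at this
    exact this
  obtain ⟨χ', hc1, hc2⟩ := rep_aux target hsumT _ (fun v => repC (ψ v)) rfl
  refine ⟨fun v => repF l₀ (χ' v) (ψ v), ⟨?_, ?_⟩, ?_⟩
  · intro k hk
    rw [hnk]
    have e : (fun v => repC (repF l₀ (χ' v) (ψ v))) = χ' := funext fun v => repC_repF _ _ _
    rw [e, hc1]
    obtain ⟨j, rfl⟩ := Fin.exists_succ_eq.2 hk
    exact htk j
  · rw [hnl]
    have e : (fun v => repC (repF l₀ (χ' v) (ψ v))) = χ' := funext fun v => repC_repF _ _ _
    rw [e, hc1, htn]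
    exact hμ2
  · have hle1 : Nat.card {v // repF l₀ (χ' v) (ψ v) ≠ ψ v} ≤
        (Finset.univ.filter (fun v => χ' v ≠ repC (ψ v))).card := by
      rw [rep_card]
      refine Finset.card_le_card fun v hv => ?_
      rw [Finset.mem_filter] at hv ⊢
      refine ⟨hv.1, fun h => hv.2 ?_⟩
      rw [h]
      exact repF_repC _ _
    have hexc : ∑ c, (repN (fun v => repC (ψ v)) c - target c) ≤
        (n none - m) + ∑ k : Fin t, ((w - n (some k.succ)) + (n (some k.succ) - w)) := by
      rw [← hn, Fintype.sum_option, Fin.sum_univ_succ, htn, ht0,
        Finset.sum_congr rfl (fun k _ => by rw [htk k]), Finset.sum_add_distrib]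
      have h3 : t * w ≤ ∑ k : Fin t, (w - n (some k.succ)) + ∑ k : Fin t, n (some k.succ) := by
        rw [← Finset.sum_add_distrib]
        calc t * w = ∑ _k : Fin t, w := by
              rw [Finset.sum_const, Finset.card_univ, Fintype.card_fin, smul_eq_mul]
          _ ≤ _ := Finset.sum_le_sum fun k _ => by omega
      have h4 : n none - μ = n none - m := by
        rw [hμ]
        omega
      rw [h4]
      omega
    have hδ0 : ((n none - m : ℕ) : ℝ) ≤ δ := by
      rw [hnl, ← hn] at h2
      rcases le_total (n none) m with h | h
      · rw [Nat.sub_eq_zero_of_le h]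
        simpa using hδ
      · rw [Nat.cast_sub h]
        linarith
    have hδk : ∀ k : Fin t, (((w - n (some k.succ)) + (n (some k.succ) - w) : ℕ) : ℝ) ≤ δ := by
      intro k
      have h3 := h1 k.succ (Fin.succ_ne_zero k)
      rw [hnk, ← hn] at h3
      obtain ⟨h4, h5⟩ := abs_le.1 h3
      rcases le_total (n (some k.succ)) w with h | h
      · rw [Nat.sub_eq_zero_of_le h, add_zero, Nat.cast_sub h]
        linarith
      · rw [Nat.sub_eq_zero_of_le h, zero_add, Nat.cast_sub h]
        linarith
    calc (Nat.card {v // repF l₀ (χ' v) (ψ v) ≠ ψ v} : ℝ)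
        ≤ (((n none - m) + ∑ k : Fin t, ((w - n (some k.succ)) + (n (some k.succ) - w)) : ℕ) : ℝ) := by
          exact_mod_cast hle1.trans (hc2.trans hexc)
      _ = ((n none - m : ℕ) : ℝ) + ∑ k : Fin t, (((w - n (some k.succ)) + (n (some k.succ) - w) : ℕ) : ℝ) := by
          rw [Nat.cast_add, Nat.cast_sum]
      _ ≤ δ + ∑ _k : Fin t, δ := add_le_add hδ0 (Finset.sum_le_sum fun k _ => hδk k)
      _ = (t + 1) * δ := by
          rw [Finset.sum_const, Finset.card_univ, Fintype.card_fin, nsmul_eq_mul]
          ring

end Pool.Agent.Lib_MP_cc9a35_rb
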