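import Pool.Agent.Lib_MP_cc9a35_rb.Defs2
import Pool.Agent.Lib_MP_cc9a35_lc.Soft

/-!
Piece ROB: from upper and lower bounds to `RobustlyAchievable`.

Proof. `Testable P ε q` is `∀ N, TestableAt P ε N q` (definitionally), so the bounds `L1`, `L2`, `L3` needed in
`achievable_of_bounds` (`Pool.Agent.Lib_MP_cc9a35_lc.Soft`) follow from the ones here (take any `N` in the
eventual set). It gives complexity functions `q`, `s`, which are least. For small `ε` and large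
`N`, if `TestableAt P ε N n`, then `q ε ≤ C₁ ℓ ^ k₁ f ε ≤ C₁ ℓ ^ k₁ C₂ ℓ ^ k₂ n` with `ℓ = log (1/ε)`, by `U2` and
`L2`; same for `s` and `g` by `U1` and `L1`. Take `C` the sum of the two constants and `k` the
sum of the exponents (`ℓ ≥ 1` eventually).
-/

namespace Pool.Agent.Lib_MP_cc9a35_rb

open Filter Topology Pool.Agent.Lib_MP_cc9a35_lc

theorem robust_of_bounds (P : GraphProperty) {c : ℝ} (hc : 0 ≤ c) (f g h : ℝ → ℝ)
    (hf0 : ∀ᶠ ε in 𝓝[>] (0 : ℝ), 0 ≤ f ε)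
    (hfg : ∀ᶠ ε in 𝓝[>] (0 : ℝ), (f ε) ^ c = g ε)
    (U1 : ∃ C > 0, ∃ k : ℕ, ∀ᶠ ε in 𝓝[>] (0 : ℝ), ∃ q : ℕ, NonadaptivelyTestable P ε q ∧
      (q : ℝ) ≤ C * Real.log (1 / ε) ^ k * g ε)
    (U2 : ∃ C > 0, ∃ k : ℕ, ∀ᶠ ε in 𝓝[>] (0 : ℝ), ∃ q : ℕ, Testable P ε q ∧
      (q : ℝ) ≤ C * Real.log (1 / ε) ^ k * f ε)
    (L1 : ∃ C > 0, ∃ k : ℕ, ∀ᶠ ε in 𝓝[>] (0 : ℝ), ∀ᶠ N : ℕ in atTop, ∀ q : ℕ,
      NonadaptivelyTestableAt P ε N q → g ε ≤ C * Real.log (1 / ε) ^ k * q)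
    (L2 : ∃ C > 0, ∃ k : ℕ, ∀ᶠ ε in 𝓝[>] (0 : ℝ), ∀ᶠ N : ℕ in atTop, ∀ q : ℕ,
      TestableAt P ε N q → f ε ≤ C * Real.log (1 / ε) ^ k * q)
    (hh : Tendsto h (𝓝[>] 0) atTop)
    (L3 : ∀ᶠ ε in 𝓝[>] (0 : ℝ), ∀ᶠ N : ℕ in atTop, ∀ q : ℕ, TestableAt P ε N q → h ε ≤ q) :
    RobustlyAchievable c := by
  have L1' : ∃ C > 0, ∃ k : ℕ, ∀ᶠ ε in 𝓝[>] (0 : ℝ), ∀ q : ℕ, NonadaptivelyTestable P ε q →
      g ε ≤ C * Real.log (1 / ε) ^ k * q := by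
    obtain ⟨C, hC, k, hL⟩ := L1
    refine ⟨C, hC, k, ?_⟩
    filter_upwards [hL] with ε h1 q hq
    obtain ⟨N, hN⟩ := h1.exists
    exact hN q (hq N)
  have L2' : ∃ C > 0, ∃ k : ℕ, ∀ᶠ ε in 𝓝[>] (0 : ℝ), ∀ q : ℕ, Testable P ε q →
      f ε ≤ C * Real.log (1 / ε) ^ k * q := by
    obtain ⟨C, hC, k, hL⟩ := L2
    refine ⟨C, hC, k, ?_⟩
    filter_upwards [hL] with ε h1 q hq
    obtain ⟨N, hN⟩ := h1.exists
    exact hN q (hq N)
  have L3' : ∀ᶠ ε in 𝓝[>] (0 : ℝ), ∀ q : ℕ, Testable P ε q → h ε ≤ q := by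
    filter_upwards [L3] with ε h1 q hq
    obtain ⟨N, hN⟩ := h1.exists
    exact hN q (hq N)
  have hne1 : ∀ ε > 0, {k | Testable P ε k}.Nonempty := by
    intro ε hε
    obtain ⟨C, _, k, hU⟩ := U2
    have h1 : ∀ᶠ ε' in 𝓝[>] (0 : ℝ), ε' < ε :=
      (eventually_lt_nhds hε).filter_mono nhdsWithin_le_nhds
    obtain ⟨ε', h2, q, h3, _⟩ := (h1.and hU).exists
    exact ⟨q, h3.mono h2.le⟩
  have hne2 : ∀ ε > 0, {k | NonadaptivelyTestable P ε k}.Nonempty := by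
    intro ε hε
    obtain ⟨C, _, k, hU⟩ := U1
    have h1 : ∀ᶠ ε' in 𝓝[>] (0 : ℝ), ε' < ε :=
      (eventually_lt_nhds hε).filter_mono nhdsWithin_le_nhds
    obtain ⟨ε', h2, q, h3, _⟩ := (h1.and hU).exists
    exact ⟨q, h3.mono h2.le⟩
  set q : ℝ → ℕ := fun ε => sInf {k | Testable P ε k} with hq
  set s : ℝ → ℕ := fun ε => sInf {k | NonadaptivelyTestable P ε k} with hs
  have hq1 : ∀ ε > 0, Testable P ε (q ε) := fun ε hε => Nat.sInf_mem (hne1 ε hε)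
  have hs1 : ∀ ε > 0, NonadaptivelyTestable P ε (s ε) := fun ε hε => Nat.sInf_mem (hne2 ε hε)
  have hq2 : ∀ ε k, Testable P ε k → q ε ≤ k := fun ε k hk => Nat.sInf_le hk
  have hs2 : ∀ ε k, NonadaptivelyTestable P ε k → s ε ≤ k := fun ε k hk => Nat.sInf_le hk
  refine ⟨P, q, s, fun ε hε => ⟨hq1 ε hε, fun k hk => hq2 ε k hk⟩,
    fun ε hε => ⟨hs1 ε hε, fun k hk => hs2 ε k hk⟩, ?_, ?_, ?_, ?_⟩
  · refine tendsto_atTop_mono' _ ?_ hh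
    filter_upwards [L3', self_mem_nhdsWithin] with ε h1 h2
    exact h1 _ (hq1 ε h2)
  · obtain ⟨C, hC, k, hU⟩ := U1
    obtain ⟨C', hC', k', hL⟩ := L2'
    refine ⟨C * C' ^ c, k + ⌈(k' : ℝ) * c⌉₊, ?_⟩
    filter_upwards [hU, hL, hf0, hfg, eventually_log_ge_one, self_mem_nhdsWithin] with
      ε h1 h2 h3 h4 h5 h6
    obtain ⟨n, hn1, hn2⟩ := h1
    have e1 : (s ε : ℝ) ≤ n := by exact_mod_cast hs2 ε n hn1
    have e2 := h2 _ (hq1 ε h6)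
    set l := Real.log (1 / ε) with hl
    have hl0 : (0 : ℝ) ≤ l := by linarith
    have e3 : g ε ≤ C' ^ c * l ^ (⌈(k' : ℝ) * c⌉₊) * (q ε : ℝ) ^ c := by
      rw [← h4]
      calc f ε ^ c ≤ (C' * l ^ k' * (q ε : ℝ)) ^ c := Real.rpow_le_rpow h3 e2 hc
        _ = C' ^ c * (l ^ k') ^ c * (q ε : ℝ) ^ c := by
            rw [Real.mul_rpow (by positivity) (by positivity), Real.mul_rpow hC'.le (by positivity)]
        _ ≤ C' ^ c * l ^ (⌈(k' : ℝ) * c⌉₊) * (q ε : ℝ) ^ c := by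
            gcongr
            rw [← Real.rpow_natCast l k', ← Real.rpow_mul hl0, ← Real.rpow_natCast l]
            exact Real.rpow_le_rpow_of_exponent_le h5 (Nat.le_ceil _)
    calc (s ε : ℝ) ≤ n := e1
      _ ≤ C * l ^ k * g ε := hn2
      _ ≤ C * l ^ k * (C' ^ c * l ^ (⌈(k' : ℝ) * c⌉₊) * (q ε : ℝ) ^ c) := by gcongr
      _ = C * C' ^ c * l ^ (k + ⌈(k' : ℝ) * c⌉₊) * (q ε : ℝ) ^ c := by rw [pow_add]; ring
  · obtain ⟨C, hC, k, hU⟩ := U2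
    obtain ⟨C', hC', k', hL⟩ := L1'
    refine ⟨C ^ c * C', ⌈(k : ℝ) * c⌉₊ + k', ?_⟩
    filter_upwards [hU, hL, hf0, hfg, eventually_log_ge_one, self_mem_nhdsWithin] with
      ε h1 h2 h3 h4 h5 h6
    obtain ⟨n, hn1, hn2⟩ := h1
    have e1 : (q ε : ℝ) ≤ n := by exact_mod_cast hq2 ε n hn1
    have e2 := h2 _ (hs1 ε h6)
    set l := Real.log (1 / ε) with hl
    have hl0 : (0 : ℝ) ≤ l := by linarith
    calc (q ε : ℝ) ^ c ≤ (C * l ^ k * f ε) ^ c :=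
          Real.rpow_le_rpow (Nat.cast_nonneg _) (e1.trans hn2) hc
      _ = C ^ c * (l ^ k) ^ c * g ε := by
          rw [Real.mul_rpow (by positivity) h3, Real.mul_rpow hC.le (by positivity), h4]
      _ ≤ C ^ c * l ^ (⌈(k : ℝ) * c⌉₊) * g ε := by
          have hg : 0 ≤ g ε := by rw [← h4]; exact Real.rpow_nonneg h3 c
          gcongr
          rw [← Real.rpow_natCast l k, ← Real.rpow_mul hl0, ← Real.rpow_natCast l]
          exact Real.rpow_le_rpow_of_exponent_le h5 (Nat.le_ceil _)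
      _ ≤ C ^ c * l ^ (⌈(k : ℝ) * c⌉₊) * (C' * l ^ k' * (s ε : ℝ)) := by gcongr
      _ = C ^ c * C' * l ^ (⌈(k : ℝ) * c⌉₊ + k') * (s ε : ℝ) := by rw [pow_add]; ring
  · obtain ⟨C₁, hC₁, k₁, hU1⟩ := U1
    obtain ⟨C₂, hC₂, k₂, hU2⟩ := U2
    obtain ⟨C₃, hC₃, k₃, hL1⟩ := L1
    obtain ⟨C₄, hC₄, k₄, hL2⟩ := L2
    refine ⟨C₁ * C₃ + C₂ * C₄, (k₁ + k₃) + (k₂ + k₄), ?_⟩
    filter_upwards [hU1, hU2, hL1, hL2, eventually_log_ge_one] with ε h1 h2 h3 h4 h5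
    filter_upwards [h3, h4] with N h6 h7
    set l := Real.log (1 / ε) with hl
    have hl0 : (0 : ℝ) ≤ l := by linarith
    constructor
    · intro n hn
      obtain ⟨m, hm1, hm2⟩ := h2
      have e1 : (q ε : ℝ) ≤ m := by exact_mod_cast hq2 ε m hm1
      have e2 := h7 n hn
      have hn0 : (0 : ℝ) ≤ n := Nat.cast_nonneg n
      calc (q ε : ℝ) ≤ m := e1
        _ ≤ C₂ * l ^ k₂ * f ε := hm2
        _ ≤ C₂ * l ^ k₂ * (C₄ * l ^ k₄ * n) := by gcongr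
        _ = C₂ * C₄ * l ^ (k₂ + k₄) * n := by rw [pow_add]; ring
        _ ≤ (C₁ * C₃ + C₂ * C₄) * l ^ ((k₁ + k₃) + (k₂ + k₄)) * n := by
            have hp : l ^ (k₂ + k₄) ≤ l ^ ((k₁ + k₃) + (k₂ + k₄)) :=
              pow_le_pow_right₀ h5 (by omega)
            have hC : 0 < C₁ * C₃ := by positivity
            have hC' : 0 < C₂ * C₄ := by positivity
            exact mul_le_mul_of_nonneg_right
              (mul_le_mul (by linarith) hp (by positivity) (by positivity)) hn0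
    · intro n hn
      obtain ⟨m, hm1, hm2⟩ := h1
      have e1 : (s ε : ℝ) ≤ m := by exact_mod_cast hs2 ε m hm1
      have e2 := h6 n hn
      have hn0 : (0 : ℝ) ≤ n := Nat.cast_nonneg n
      calc (s ε : ℝ) ≤ m := e1
        _ ≤ C₁ * l ^ k₁ * g ε := hm2
        _ ≤ C₁ * l ^ k₁ * (C₃ * l ^ k₃ * n) := by gcongr
        _ = C₁ * C₃ * l ^ (k₁ + k₃) * n := by rw [pow_add]; ring
        _ ≤ (C₁ * C₃ + C₂ * C₄) * l ^ ((k₁ + k₃) + (k₂ + k₄)) * n := by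
            have hp : l ^ (k₁ + k₃) ≤ l ^ ((k₁ + k₃) + (k₂ + k₄)) :=
              pow_le_pow_right₀ h5 (by omega)
            have hC : 0 < C₁ * C₃ := by positivity
            have hC' : 0 < C₂ * C₄ := by positivity
            exact mul_le_mul_of_nonneg_right
              (mul_le_mul (by linarith) hp (by positivity) (by positivity)) hn0

end Pool.Agent.Lib_MP_cc9a35_rb
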