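import Pool.Agent.Lib_MP_cc9a35_rb.Sound
import Pool.Agent.Lib_MP_cc9a35_rb.Complete
import Pool.Agent.Lib_MP_cc9a35_rb.AlgN
import Pool.Agent.Lib_MP_cc9a35_rb.AlgA
import Pool.Agent.Lib_MP_cc9a35_rb.Acc

/-!
Piece SCT: the testers at one scale (assembly).

Proof. Choose the trees of `nonadaptive_alg` (`adaptive_alg`) for all seeds; the algorithm is
`(PMF.uniformOfFintype (Seeds N T K J M)).map tree` (`acc_seeds`, `support_seeds`); `Fin N` is nonempty,
so `Seeds` is. Completeness is `complete`. Soundness: by `Pr_prod_le` it suffices to bound the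
probability for a fixed `z`; if `findTuple` is `none` it is `0`, and if it is `some j` then `Accept` means
`AcceptW S G ψ s'` for the fixed `ψ = vtyp S.code G (fun k => z (j k))`, so `sound` applies.
-/

namespace Pool.Agent.Lib_MP_cc9a35_rb

open Pool.Agent.Lib_MP_cc9a35_lc

variable {t : ℕ} {L Γ : Type} {N T K J M : ℕ}

/-- A randomised algorithm (non-adaptive if `nonad`) with at most `q` queries, which accepts all
members with probability at least `2/3` and all graphs far from all members with probability at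
most `θ`. -/
def HasScaleTester (code : L → Fin t → Bool) (Y : Set (Sym2 L → Bool)) (w m : ℕ) (N : ℕ)
    (ε θ : ℝ) (nonad : Prop) (q : ℕ) : Prop :=
  ∃ A : PMF (QueryTree N),
    (∀ T ∈ A.support, (nonad → T.IsNonadaptive) ∧ T.depth ≤ q) ∧
    (∀ G : SimpleGraph (Fin N), IsMem code Y w m G → 2 / 3 ≤ acc A G) ∧
    (∀ G : SimpleGraph (Fin N),
      (∀ H, IsMem code Y w m H → ε * (N : ℝ) ^ 2 < (pairDist G H : ℝ)) → acc A G ≤ θ)

/-- Soundness over all seeds. -/
theorem sct_sound [Fintype L] [Nonempty L] [Fintype Γ] [Nonempty Γ] (S : TP t L Γ)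
    {ε θ ν : ℝ}
    (hS : SNum t N K J M S.w S.m (Fintype.card L) (Fintype.card Γ) ε θ S.η ν S.fine)
    (hY : S.Y.Nonempty) (hprod : CellProd S.cell S.Y) {G : SimpleGraph (Fin N)}
    (hfar : ∀ H, IsMem S.code S.Y S.w S.m H → ε * (N : ℝ) ^ 2 < (pairDist G H : ℝ)) :
    Pr (fun s : Seeds N T K J M => Accept S G s) ≤ θ := by
  refine Pr_prod_le hS.hθ.le (fun (z : Fin T → Fin N) (s' : Seeds' N K J M) =>
    Accept S G ((z, s') : Seeds N T K J M)) fun z => ?_
  rcases h : findTuple t (fun a b => G.Adj (z a) (z b)) with _ | j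
  · rw [Pr_of_forall_not]
    · exact hS.hθ.le
    · rintro s' ⟨j, hj, -⟩
      rw [show findTuple t (fun a b => G.Adj (z a) (z b)) = some j from hj] at h
      exact absurd h (by simp)
  · refine le_trans (Pr_mono ?_) (sound (K := K) (J := J) (M := M) S hS hY hprod hfar
      (vtyp S.code G (fun k => z (j k))))
    rintro s' ⟨j', hj', hacc⟩
    rw [show findTuple t (fun a b => G.Adj (z a) (z b)) = some j' from hj'] at h
    have : j' = j := by simpa using h
    rw [← this]
    exact hacc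

/-- Assembly of the scale tester from a family of trees. -/
theorem sct_assemble [Fintype L] [Nonempty L] [Fintype Γ] [Nonempty Γ] (S : TP t L Γ)
    {ε θ ν : ℝ} {r : ℕ}
    (hS : SNum t N K J M S.w S.m (Fintype.card L) (Fintype.card Γ) ε θ S.η ν S.fine)
    (hC : CNum t N T K J S.w S.m S.cap S.η r S.fine)
    (hcode : CodeOK S.code) (hY : S.Y.Nonempty) (hprod : CellProd S.cell S.Y) (nonad : Prop)
    (q : ℕ) (Tr : Seeds N T K J M → QueryTree N)
    (h1 : ∀ s, (nonad → (Tr s).IsNonadaptive) ∧ (Tr s).depth ≤ q)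
    (h2 : ∀ s G, ((Tr s).Accepts G ↔ Accept S G s)) :
    HasScaleTester S.code S.Y S.w S.m N ε θ nonad q := by
  have : Nonempty (Fin N) := ⟨⟨0, hS.hN⟩⟩
  refine ⟨(PMF.uniformOfFintype (Seeds N T K J M)).map Tr, ?_, ?_, ?_⟩
  · intro T' hT'
    obtain ⟨s, rfl⟩ := support_seeds Tr hT'
    exact h1 s
  · intro G hG
    rw [acc_seeds, Pr_congr fun s => h2 s G]
    exact complete S hC hcode hG
  · intro G hG
    rw [acc_seeds, Pr_congr fun s => h2 s G]
    exact sct_sound S hS hY hprod hG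

theorem scale_nonadaptive [Fintype L] [Nonempty L] [Fintype Γ] [Nonempty Γ] (S : TP t L Γ)
    {ε θ ν : ℝ} {r : ℕ}
    (hS : SNum t N K J M S.w S.m (Fintype.card L) (Fintype.card Γ) ε θ S.η ν S.fine)
    (hC : CNum t N T K J S.w S.m S.cap S.η r S.fine)
    (hcode : CodeOK S.code) (hY : S.Y.Nonempty) (hprod : CellProd S.cell S.Y) :
    HasScaleTester S.code S.Y S.w S.m N ε θ True ((T + K + 2 * J + 2 * M) ^ 2) := by
  choose Tr h1 h2 h3 using fun s : Seeds N T K J M => nonadaptive_alg S s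
  exact sct_assemble S hS hC hcode hY hprod True _ Tr (fun s => ⟨fun _ => h1 s, h2 s⟩) h3

theorem scale_adaptive [Fintype L] [Nonempty L] [Fintype Γ] [Nonempty Γ] (S : TP t L Γ)
    {ε θ ν : ℝ} {r : ℕ}
    (hS : SNum t N K J M S.w S.m (Fintype.card L) (Fintype.card Γ) ε θ S.η ν S.fine)
    (hC : CNum t N T K J S.w S.m S.cap S.η r S.fine)
    (hcode : CodeOK S.code) (hY : S.Y.Nonempty) (hprod : CellProd S.cell S.Y) (B : ℕ)
    (hB : ∀ g : Γ, Nat.card {ab : L × L // S.cell s(ab.1, ab.2) = g} ≤ B) :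
    HasScaleTester S.code S.Y S.w S.m N ε θ False
      (T * T + ((K + 2 * J + 2 * M) * t + M + S.cap * B)) := by
  choose Tr h1 h2 using fun s : Seeds N T K J M => adaptive_alg S B hB s
  exact sct_assemble S hS hC hcode hY hprod False _ Tr (fun s => ⟨fun h => h.elim, h1 s⟩) h2

end Pool.Agent.Lib_MP_cc9a35_rb
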