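import Pool.Agent.Lib_MP_cc9a35_rb.ScaleTester
import Pool.Agent.Lib_MP_cc9a35_rb.Empty
import Pool.Agent.Lib_MP_cc9a35_rb.Combine

/-!
Piece UNI: the tester for the whole property at a given number of vertices.

Proof. Index set `Option ℕ`-like: the scales `i ∈ I` which are active at `N`, and one more index for the
edgeless tester (`empty_tester` with `M₀`); use `combine` with `ι = Option ℕ` and
`s = insert none (image some (I.filter active))` and `q none = M₀`, `q (some i) = q i`. Completeness: the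
edgeless graph is accepted by the edgeless tester with probability `1`; a member of an active scale
`i ∈ I` by the tester for `i`; a member of an active scale `i ∉ I` by the edgeless tester, with
`Q v = (φ v ≠ inl 0)` (`isolated_zero`, `card_nonzero`, `hout`). Soundness: if `G` is `ε`-far from the
property, it is far from the edgeless graph and from all members of all active scales, so the
acceptance probability is at most `(I.card + 1) * θ ≤ 1 / 3`. `isTester_of_acc` finishes.
-/

namespace Pool.Agent.Lib_MP_cc9a35_rb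

open Pool.Agent.Lib_MP_cc9a35_lc

theorem union_tester (t : ℕ → ℕ) (L : ℕ → Type) (code : ∀ i, L i → Fin (t i) → Bool)
    (Y : ∀ i, Set (Sym2 (L i) → Bool)) (w m : ℕ → ℕ → ℕ) (act : ℕ → ℕ → Prop) {N : ℕ}
    (hN : 0 < N) {ε θ : ℝ} (hε1 : ε ≤ 1) (hθ : 0 < θ) (I : Finset ℕ) (q : ℕ → ℕ) (M₀ : ℕ)
    (nonad : Prop)
    (hI : ∀ i ∈ I, act i N →
      HasScaleTester (code i) (Y i) (w i N) (m i N) N ε θ nonad (q i))
    (hout : ∀ i, i ∉ I → act i N → 3 * M₀ * (t i * w i N + m i N) ^ 2 ≤ N ^ 2)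
    (hM₀ : (1 - ε) ^ M₀ ≤ θ) (hcard : ((I.card : ℝ) + 1) * θ ≤ 1 / 3) :
    ∃ A : PMF (QueryTree N),
      (∀ T ∈ A.support, (nonad → T.IsNonadaptive) ∧ T.depth ≤ ∑ i ∈ I, q i + M₀) ∧
      IsTester (rprop t L code Y w m act) ε A := by
  classical
  obtain ⟨E, hE1, hE2, hE3, hE4⟩ := empty_tester hN M₀
  set Ia : Finset ℕ := I.filter (fun i => act i N) with hIa
  have hch : ∀ i, ∃ A : PMF (QueryTree N), i ∈ Ia →
      (∀ T ∈ A.support, (nonad → T.IsNonadaptive) ∧ T.depth ≤ q i) ∧
      (∀ G : SimpleGraph (Fin N), IsMem (code i) (Y i) (w i N) (m i N) G → 2 / 3 ≤ acc A G) ∧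
      (∀ G : SimpleGraph (Fin N),
        (∀ H, IsMem (code i) (Y i) (w i N) (m i N) H →
          ε * (N : ℝ) ^ 2 < (pairDist G H : ℝ)) → acc A G ≤ θ) := by
    intro i
    by_cases hi : i ∈ Ia
    · rw [hIa, Finset.mem_filter] at hi
      obtain ⟨A, hA⟩ := hI i hi.1 hi.2
      exact ⟨A, fun _ => hA⟩
    · exact ⟨E, fun h => absurd h hi⟩
  choose B hB using hch
  obtain ⟨A, hA1, hA2, hA3⟩ := combine (Finset.insertNone Ia) (fun o : Option ℕ => o.elim E B)
    (fun o => o.elim M₀ q) nonad (by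
      intro o ho T hT
      cases o with
      | none => exact ⟨fun _ => (hE1 T hT).1, (hE1 T hT).2⟩
      | some i => exact (hB i (Finset.some_mem_insertNone.1 ho)).1 T hT)
  have hle : ∀ i ∈ Ia, ∀ G, acc (B i) G ≤ acc A G := fun i hi G =>
    hA2 G (some i) (Finset.some_mem_insertNone.2 hi)
  have hle0 : ∀ G, acc E G ≤ acc A G := fun G => hA2 G none Finset.none_mem_insertNone
  refine ⟨A, fun T hT => ⟨(hA1 T hT).1, (hA1 T hT).2.trans ?_⟩, isTester_of_acc ?_ ?_⟩
  · rw [Finset.sum_insertNone]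
    change M₀ + ∑ i ∈ Ia, q i ≤ ∑ i ∈ I, q i + M₀
    rw [add_comm]
    exact Nat.add_le_add_right (Finset.sum_le_sum_of_subset (Finset.filter_subset _ _)) _
  · rintro G (hG | ⟨i, hi, hG⟩)
    · refine le_trans ?_ (hle0 G)
      rw [hG, hE2]
      norm_num
    · by_cases hiI : i ∈ I
      · have hiIa : i ∈ Ia := by
          rw [hIa, Finset.mem_filter]
          exact ⟨hiI, hi⟩
        exact ((hB i hiIa).2.1 G hG).trans (hle i hiIa G)
      · refine le_trans ?_ (hle0 G)
        obtain ⟨φ, y, -, hs, rfl⟩ := hG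
        refine hE4 _ (fun v => φ v ≠ .inl 0) (fun u v h => isolated_zero h) ?_
        refine le_trans ?_ (hout i hiI hi)
        exact Nat.mul_le_mul_left _ (Nat.pow_le_pow_left (card_nonzero hs) 2)
  · intro G hfar
    refine (hA3 G).trans ?_
    rw [Finset.sum_insertNone]
    change acc E G + ∑ i ∈ Ia, acc (B i) G ≤ 1 / 3
    have h0 : acc E G ≤ θ := (hE3 G ε (hfar ⊥ (Or.inl rfl)) hε1).trans hM₀
    have h1 : ∑ i ∈ Ia, acc (B i) G ≤ ∑ _i ∈ Ia, θ := by
      refine Finset.sum_le_sum fun i hi => ?_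
      refine (hB i hi).2.2 G fun H hH => hfar H (Or.inr ⟨i, ?_, hH⟩)
      rw [hIa, Finset.mem_filter] at hi
      exact hi.2
    have h2 : ∑ _i ∈ Ia, θ ≤ (I.card : ℝ) * θ := by
      rw [Finset.sum_const, nsmul_eq_mul]
      refine mul_le_mul_of_nonneg_right ?_ hθ.le
      exact_mod_cast Finset.card_le_card (Finset.filter_subset _ _)
    linarith

end Pool.Agent.Lib_MP_cc9a35_rb
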