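import Pool.Agent.Lib_MP_cc9a35_rb.Scales
import Pool.Agent.Lib_MP_cc9a35_rb.Union

/-!
The sample sizes of the testers, as functions of a natural number `Q ≥ 1 / ε`.
-/

namespace Pool.Agent.Lib_MP_cc9a35_rb

open Pool.Agent.Lib_MP_cc9a35_lc

/-- the number of scales which are looked at -/
def RR (Q : ℕ) : ℕ := Nat.clog 16 Q + 1

/-- the number of repetitions -/
def rq (Q : ℕ) : ℕ := RR Q + 6

/-- fine regime -/
def fineQ (i Q : ℕ) : Prop := uu i ^ 4 < 8 * Q

instance (i Q : ℕ) : Decidable (fineQ i Q) := inferInstanceAs (Decidable (_ < _))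

/-- size of the second sample -/
noncomputable def KK (a : ℝ) (i Q : ℕ) : ℕ :=
  64 * (tt a i + 1) ^ 2 * Q ^ 2 * (3 * (RR Q + 1) + 20 * (tt a i + 1)) +
    if fineQ i Q then 96 * 2 ^ (40 * i + hh a i) * Q * (RR Q + 1) else 0

/-- number of pairs which choose cells -/
def JJ (Q : ℕ) : ℕ := 2 * Q * rq Q

/-- number of test pairs -/
def MM (i Q : ℕ) : ℕ := if fineQ i Q then 4 * 2 ^ (48 * i) * Q * rq Q else Q * rq Q

/-- number of cells which are looked at -/
def capQ (i Q : ℕ) : ℕ := if fineQ i Q then 40 * Q * rq Q / uu i ^ 4 else 0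

/-- error bound for each scale -/
noncomputable def thQ (Q : ℕ) : ℝ := 1 / (3 * ((RR Q : ℝ) + 1))

/-- number of queries of the non-adaptive tester for the scale `i` -/
noncomputable def qN (a : ℝ) (i Q : ℕ) : ℕ :=
  (TT a i + KK a i Q + 2 * JJ Q + 2 * MM i Q) ^ 2

/-- number of queries of the adaptive tester for the scale `i` -/
noncomputable def qA (a : ℝ) (i Q : ℕ) : ℕ :=
  TT a i * TT a i + ((KK a i Q + 2 * JJ Q + 2 * MM i Q) * tt a i + MM i Q +
    capQ i Q * 2 ^ (48 * i + 2 * hh a i))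

/-- the tester parameters -/
noncomputable def TPs (a : ℝ) (code : ∀ i, Labs a i → Fin (tt a i) → Bool)
    (Y : ∀ i, Set (Sym2 (Labs a i) → Bool)) (ε : ℝ) (i Q N : ℕ) :
    TP (tt a i) (Labs a i) (Tps i) where
  code := code i
  cell := cellL
  Y := Y i
  w := ww a i N
  m := mm i N
  η := ε / (8 * (tt a i + 1))
  cap := capQ i Q
  fine := fineQ i Q

end Pool.Agent.Lib_MP_cc9a35_rb
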