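import Pool.Agent.Lib_MP_cc9a35_rb.Fine
import Pool.Agent.Lib_MP_cc9a35_rb.Dist
import Pool.Agent.Lib_MP_cc9a35_rb.SizeTest

/-!
Piece SND: soundness of the tester at one scale, for every type assignment `ψ`.

Proof. If the sizes are off (the hypothesis `h` of `size_sound`), then `AcceptW` implies `SizeOK`, whose
probability is at most `θ` (`Pr_fst`, `Pr_mono`). Otherwise `far_tgraph` gives `hfar'`: all
`y ∈ Y` satisfy `3 / 4 * ε * N ^ 2 < pairDist G (tgraph code y ψ)`.
If `fine` fails: `coarse_sound` and `hMc`.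
If `fine` holds, let `τ = ε / (8 * ν)`. The probability that at least `τ * N` vertices are missing is at
most `card L / (K * τ) ≤ θ / 2` (`Pr_missing`, `hK2`), and for the other `x` the rest has
probability at most `θ / 4 + θ / 4` (`fine_sound`). `Pr_prod_le_add` gives `θ`.
-/

namespace Pool.Agent.Lib_MP_cc9a35_rb

open Pool.Agent.Lib_MP_cc9a35_lc

variable {t : ℕ} {L Γ : Type} {N K J M : ℕ}

/-- The numerical hypotheses for soundness at one scale (`cL`, `cΓ` are the numbers of labels and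
cells). -/
structure SNum (t N K J M w m cL cΓ : ℕ) (ε θ η ν : ℝ) (fine : Prop) : Prop where
  hN : 0 < N
  hK : 0 < K
  hε : 0 < ε
  hε1 : ε ≤ 1
  hθ : 0 < θ
  hη : η = ε / (8 * (t + 1))
  hsum : t * w + m ≤ N
  hK1 : 1 ≤ K * η ^ 2 * θ
  coarse : ¬ fine → ((m : ℝ) / N + 2 * η) ^ 2 ≤ ε / 2
  hMc : ¬ fine → (1 - ε) ^ M ≤ θ
  hν0 : 0 < ν
  hν : fine → (m : ℝ) / N + 2 * η ≤ ν
  hK2 : fine → 16 * cL * ν ≤ K * ε * θ
  hMf : fine → (1 - ε / (4 * cΓ)) ^ M ≤ θ / 4
  hJ : fine → (1 - ε / 2) ^ J ≤ θ / 4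

theorem sound [Fintype L] [Nonempty L] [Fintype Γ] [Nonempty Γ] (S : TP t L Γ) {ε θ ν : ℝ}
    (hS : SNum t N K J M S.w S.m (Fintype.card L) (Fintype.card Γ) ε θ S.η ν S.fine)
    (hY : S.Y.Nonempty) (hprod : CellProd S.cell S.Y) {G : SimpleGraph (Fin N)}
    (hfar : ∀ H, IsMem S.code S.Y S.w S.m H → ε * (N : ℝ) ^ 2 < (pairDist G H : ℝ))
    (ψ : Fin N → Typ t L) :
    Pr (fun s : Seeds' N K J M => AcceptW S G ψ s) ≤ θ := by
  have hN := hS.hN
  have hK := hS.hK
  have hε := hS.hε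
  have hθ := hS.hθ
  have hη0 : 0 < S.η := by
    rw [hS.hη]
    positivity
  haveI : Nonempty (Fin N) := ⟨⟨0, hN⟩⟩
  have hN' : (0 : ℝ) < N := by exact_mod_cast hN
  have hK' : (0 : ℝ) < K := by exact_mod_cast hK
  by_cases hoff : (∃ k : Fin (t + 1), k ≠ 0 ∧
        2 * S.η < |(Nat.card {v // ψ v = .inl k} : ℝ) / N - (S.w : ℝ) / N|) ∨
      (S.m : ℝ) / N + 2 * S.η < (Nat.card {v // (ψ v).isRight = true} : ℝ) / N
  · -- the sizes are off
    have h1 := size_sound (K := K) hN ψ hη0 hθ hS.hK1 hoff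
    have h2 : Pr (fun s : Seeds' N K J M => AcceptW S G ψ s) ≤
        Pr (fun s : Seeds' N K J M => SizeOK ψ S.w S.m S.η s.1) :=
      Pr_mono fun s hs => hs.1
    refine h2.trans ((le_of_eq ?_).trans h1)
    exact Pr_fst (fun x : Fin K → Fin N => SizeOK ψ S.w S.m S.η x)
  · rw [not_or] at hoff
    obtain ⟨hoff1, hoff2⟩ := hoff
    have h1 : ∀ k : Fin (t + 1), k ≠ 0 →
        |(Nat.card {v // ψ v = .inl k} : ℝ) / N - (S.w : ℝ) / N| ≤ 2 * S.η := by
      intro k hk
      by_contra hcon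
      exact hoff1 ⟨k, hk, not_le.1 hcon⟩
    have h2 : (Nat.card {v // (ψ v).isRight = true} : ℝ) / N ≤ (S.m : ℝ) / N + 2 * S.η :=
      not_lt.1 hoff2
    have hfar' : ∀ y ∈ S.Y, 3 / 4 * ε * (N : ℝ) ^ 2 < (pairDist G (tgraph S.code y ψ) : ℝ) :=
      fun y hy => far_tgraph hN hε hS.hη hfar hS.hsum ψ h1 h2 hy
    by_cases hf : S.fine
    · -- the fine regime
      have hν0 := hS.hν0
      have hν := hS.hν hf
      have hτ : 0 < ε / (8 * ν) := by positivity
      have hlab : (Nat.card {v // (ψ v).isRight = true} : ℝ) ≤ ν * N := by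
        have h3 := h2.trans hν
        rwa [div_le_iff₀ hN'] at h3
      have hτν : 8 * (ε / (8 * ν)) * ν ≤ ε := by
        apply le_of_eq
        field_simp
      have h4 : Pr (fun s : Seeds' N K J M => AcceptW S G ψ s) ≤
          Pr (fun s : Seeds' N K J M => OutOK S.code G ψ s.2.2 ∧
            InOK S.cell S.Y S.cap G ψ s.1 s.2.1 s.2.2) :=
        Pr_mono fun s hs => ⟨hs.2.1, hs.2.2 hf⟩
      have h5 := Pr_prod_le_add (p := θ / 2) (by positivity)
        (fun x : Fin K → Fin N => ε / (8 * ν) * N ≤ (Nat.card {v // IsMissing ψ x v} : ℝ))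
        (fun (x : Fin K → Fin N) (s : (Fin J → Fin N × Fin N) × (Fin M → Fin N × Fin N)) =>
          OutOK S.code G ψ s.2 ∧ InOK S.cell S.Y S.cap G ψ x s.1 s.2) (by
            intro x hx
            have h6 := fine_sound (J := J) (M := M) hN (code := S.code) hY hprod S.cap hε hS.hε1 ψ
              hfar' hlab hτ hν0 hτν x (not_le.1 hx).le
            have h7 := hS.hJ hf
            have h8 := hS.hMf hf
            linarith)
      have h9 := Pr_missing (K := K) hN hK ψ hτ
      have h10 : (Fintype.card L : ℝ) / (K * (ε / (8 * ν))) ≤ θ / 2 := by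
        have h11 := hS.hK2 hf
        rw [div_le_iff₀ (by positivity)]
        have h12 : θ / 2 * (K * (ε / (8 * ν))) = K * ε * θ / (16 * ν) := by
          field_simp
          ring
        rw [h12, le_div_iff₀ (by positivity)]
        linarith
      have h13 := h4.trans h5
      linarith
    · -- the coarse regime
      have hlab : ((Nat.card {v // (ψ v).isRight = true} : ℝ) / N) ^ 2 ≤ ε / 2 := by
        refine le_trans ?_ (hS.coarse hf)
        exact pow_le_pow_left₀ (by positivity) h2 2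
      have h3 := coarse_sound (M := M) hN (code := S.code) ψ hY hfar' hlab
      have h4 : Pr (fun s : Seeds' N K J M => AcceptW S G ψ s) ≤
          Pr (fun s : Seeds' N K J M => OutOK S.code G ψ s.2.2) :=
        Pr_mono fun s hs => hs.2.1
      have h5 : Pr (fun s : Seeds' N K J M => OutOK S.code G ψ s.2.2) =
          Pr (fun p : Fin M → Fin N × Fin N => OutOK S.code G ψ p) := by
        rw [Pr_snd (Ω := Fin K → Fin N)
          (fun s : (Fin J → Fin N × Fin N) × (Fin M → Fin N × Fin N) => OutOK S.code G ψ s.2),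
          Pr_snd (Ω := Fin J → Fin N × Fin N)
          (fun p : Fin M → Fin N × Fin N => OutOK S.code G ψ p)]
      rw [h5] at h4
      exact h4.trans (h3.trans (hS.hMc hf))

end Pool.Agent.Lib_MP_cc9a35_rb
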