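import Pool.Agent.Lib_MP_cc9a35_rb.Defs2
import Pool.Agent.Lib_MP_cc9a35_lc.Property

/-!
Graphs described by a type for each vertex: threshold types `0, ..., t` and labels. The graph
property of the construction.
-/

namespace Pool.Agent.Lib_MP_cc9a35_rb

open Pool.Agent.Lib_MP_cc9a35_lc

/-- Types of vertices: threshold types `0, ..., t`, and labels. -/
abbrev Typ (t : ℕ) (L : Type) : Type := Fin (t + 1) ⊕ L

/-- The pattern of the threshold type `j`: its adjacency to the types `1, ..., t`. -/
def thr (t : ℕ) (j : Fin (t + 1)) : Fin t → Bool :=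
  fun k => decide (t < (j : ℕ) + ((k : ℕ) + 1))

variable {t : ℕ} {L : Type}

/-- The pattern of a type, where the pattern of a label is given by `code`. -/
def pat (code : L → Fin t → Bool) : Typ t L → Fin t → Bool
  | .inl j => thr t j
  | .inr a => code a

/-- The pattern `p` has the value `true` at the type `i` (never for `i = 0`). -/
def hit (i : Fin (t + 1)) (p : Fin t → Bool) : Prop :=
  ∃ k : Fin t, (k : ℕ) + 1 = (i : ℕ) ∧ p k = true

/-- Adjacency of types: threshold types `i` and `j` are adjacent if `t < i + j`, a label and a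
threshold type according to `code`, and different labels `a`, `b` according to `y`. -/
def rel (code : L → Fin t → Bool) (y : Sym2 L → Bool) : Typ t L → Typ t L → Prop
  | .inl i, .inl j => t < (i : ℕ) + (j : ℕ)
  | .inl i, .inr a => hit i (code a)
  | .inr a, .inl j => hit j (code a)
  | .inr a, .inr b => a ≠ b ∧ y s(a, b) = true

theorem rel_symm {code : L → Fin t → Bool} {y : Sym2 L → Bool} {θ θ' : Typ t L}
    (h : rel code y θ θ') : rel code y θ' θ := by
  rcases θ with i | a <;> rcases θ' with j | b
  · change t < _ at h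
    change t < _
    omega
  · exact h
  · exact h
  · refine ⟨h.1.symm, ?_⟩
    have := h.2
    rwa [Sym2.eq_swap] at this

/-- The graph in which different vertices `u`, `v` are adjacent if their types are. -/
def tgraph {N : ℕ} (code : L → Fin t → Bool) (y : Sym2 L → Bool) (φ : Fin N → Typ t L) :
    SimpleGraph (Fin N) where
  Adj u v := u ≠ v ∧ rel code y (φ u) (φ v)
  symm := ⟨fun _ _ h => ⟨h.1.symm, rel_symm h.2⟩⟩
  loopless := ⟨fun _ h => h.1 rfl⟩

theorem tgraph_adj {N : ℕ} {code : L → Fin t → Bool} {y : Sym2 L → Bool} {φ : Fin N → Typ t L}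
    {u v : Fin N} : (tgraph code y φ).Adj u v ↔ u ≠ v ∧ rel code y (φ u) (φ v) := Iff.rfl

/-- Both types are labels, and they are different. -/
def IsOpen (θ θ' : Typ t L) : Prop := ∃ a b : L, θ = .inr a ∧ θ' = .inr b ∧ a ≠ b

/-- Adjacency of types which are not an open pair does not depend on `y`. -/
theorem rel_of_not_open {code : L → Fin t → Bool} (y y' : Sym2 L → Bool) {θ θ' : Typ t L}
    (h : ¬ IsOpen θ θ') : rel code y θ θ' ↔ rel code y' θ θ' := by
  rcases θ with i | a <;> rcases θ' with j | b
  · exact Iff.rfl
  · exact Iff.rfl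
  · exact Iff.rfl
  · have hab : a = b := by
      by_contra hne
      exact h ⟨a, b, rfl, rfl, hne⟩
    subst hab
    constructor
    · intro h'; exact absurd rfl h'.1
    · intro h'; exact absurd rfl h'.1

/-- The patterns of the labels are different from each other and from the threshold patterns. -/
structure CodeOK (code : L → Fin t → Bool) : Prop where
  inj : Function.Injective code
  ne : ∀ (a : L) (j : Fin (t + 1)), code a ≠ thr t j

theorem thr_injective : Function.Injective (thr t) := by
  intro i j h
  by_contra hne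
  rcases lt_or_gt_of_ne (fun h' : (i : ℕ) = j => hne (Fin.ext h')) with hlt | hlt
  · have hk : t - (j : ℕ) < t := by omega
    have := congrFun h ⟨t - (j : ℕ), hk⟩
    simp only [thr, decide_eq_decide] at this
    have h1 := j.2
    omega
  · have hk : t - (i : ℕ) < t := by omega
    have := congrFun h ⟨t - (i : ℕ), hk⟩
    simp only [thr, decide_eq_decide] at this
    have h1 := i.2
    omega

open Classical in
/-- The type with a given pattern (type `0` if there is none). -/
noncomputable def decode (code : L → Fin t → Bool) (p : Fin t → Bool) : Typ t L :=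
  if h : ∃ a, code a = p then .inr h.choose
  else if h : ∃ j, thr t j = p then .inl h.choose
  else .inl 0

theorem decode_pat {code : L → Fin t → Bool} (h : CodeOK code) (θ : Typ t L) :
    decode code (pat code θ) = θ := by
  rcases θ with j | a
  · have h1 : ¬ ∃ a, code a = pat code (.inl j : Typ t L) := by
      rintro ⟨a, ha⟩
      exact h.ne a j ha
    have h2 : ∃ i, thr t i = pat code (.inl j : Typ t L) := ⟨j, rfl⟩
    unfold decode
    rw [dif_neg h1, dif_pos h2]
    exact congrArg _ (thr_injective h2.choose_spec)
  · have h1 : ∃ b, code b = pat code (.inr a : Typ t L) := ⟨a, rfl⟩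
    unfold decode
    rw [dif_pos h1]
    exact congrArg _ (h.inj h1.choose_spec)

open Classical in
/-- The pattern of the vertex `v` of the graph `G` with respect to representatives `w k` of the types
`k + 1`. -/
noncomputable def vpat {N : ℕ} (G : SimpleGraph (Fin N)) (w : Fin t → Fin N) (v : Fin N) :
    Fin t → Bool :=
  fun k => decide (G.Adj v (w k) ∨ (v = w k ∧ t < 2 * ((k : ℕ) + 1)))

/-- The type of the vertex `v` of the graph `G`, as seen by the representatives `w`. -/
noncomputable def vtyp {N : ℕ} (code : L → Fin t → Bool) (G : SimpleGraph (Fin N))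
    (w : Fin t → Fin N) (v : Fin N) : Typ t L := decode code (vpat G w v)

/-- The numbers of vertices of the types: exactly `w` vertices of each type `k ≠ 0`, at most `m`
vertices with labels. -/
structure Sizes {N : ℕ} (φ : Fin N → Typ t L) (w m : ℕ) : Prop where
  typ : ∀ k : Fin (t + 1), k ≠ 0 → Nat.card {v // φ v = Sum.inl k} = w
  lab : Nat.card {v // (φ v).isRight = true} ≤ m

/-- The members of the property at one scale. -/
def IsMem {N : ℕ} (code : L → Fin t → Bool) (Y : Set (Sym2 L → Bool)) (w m : ℕ)
    (G : SimpleGraph (Fin N)) : Prop :=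
  ∃ (φ : Fin N → Typ t L) (y : Sym2 L → Bool), y ∈ Y ∧ Sizes φ w m ∧ G = tgraph code y φ

theorem IsMem.iso {N : ℕ} {code : L → Fin t → Bool} {Y : Set (Sym2 L → Bool)} {w m : ℕ}
    {G H : SimpleGraph (Fin N)} (e : G ≃g H) (hG : IsMem code Y w m G) : IsMem code Y w m H := by
  obtain ⟨φ, y, hy, hs, rfl⟩ := hG
  refine ⟨φ ∘ e.symm, y, hy, ⟨?_, ?_⟩, ?_⟩
  · intro k hk
    rw [← hs.typ k hk]
    exact Nat.card_congr (Equiv.subtypeEquiv e.symm.toEquiv (fun _ => Iff.rfl))
  · refine le_trans (le_of_eq ?_) hs.lab
    exact Nat.card_congr (Equiv.subtypeEquiv e.symm.toEquiv (fun _ => Iff.rfl))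
  · ext u v
    have := e.symm.map_rel_iff (a := u) (b := v)
    rw [← this, tgraph_adj, tgraph_adj]
    simp only [Function.comp]
    refine and_congr ?_ Iff.rfl
    rw [not_iff_not]
    exact e.symm.toEquiv.injective.eq_iff

/-- The graph property: edgeless graphs, and for every scale `i` which is active at `N` the members
of this scale. -/
def rprop (t : ℕ → ℕ) (L : ℕ → Type) (code : ∀ i, L i → Fin (t i) → Bool)
    (Y : ∀ i, Set (Sym2 (L i) → Bool)) (w m : ℕ → ℕ → ℕ) (act : ℕ → ℕ → Prop) :
    GraphProperty where
  graphs N := {G | G = ⊥ ∨ ∃ i, act i N ∧ IsMem (code i) (Y i) (w i N) (m i N) G}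
  iso_closed := by
    rintro N G H ⟨e⟩ (rfl | ⟨i, hi, hG⟩)
    · left
      ext u v
      have := e.symm.map_rel_iff (a := u) (b := v)
      rw [← this]
      simp
    · exact Or.inr ⟨i, hi, hG.iso e⟩

end Pool.Agent.Lib_MP_cc9a35_rb
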