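import Pool.Agent.Lib_MP_cc9a35_rb.Struct
import Pool.Agent.Lib_MP_cc9a35_rb.PrFun

/-!
Piece TRV: a transversal of the label classes on which the distance is not larger than average.

Proof. Choose for each label `a` an injection `emb a : Fin v₀ → {v // φ v = inr a}`. For
`k : L → Fin v₀` let `s a = emb a (k a)`. For a fixed `e = s(a, b)`, `a ≠ b`, the number of `k` such that `e` is
bad for `s` is `(number of all k) / v₀ ^ 2` times the number of pairs `(j, j') : Fin v₀ × Fin v₀` with
`¬ (y e = true ↔ H.Adj (emb a j) (emb b j'))` (`Pr_two`). Now `y e = true` is equivalent to adjacency of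
`emb a j` and `emb b j'` in `tgraph code y φ`, so these pairs are vertex pairs on which the two graphs
differ; the vertex pairs belonging to different `e` are different (their types are), so the sum over
all `e` of the numbers of bad `(j, j')` is at most `pairDist (tgraph code y φ) H` (each unordered
vertex pair is counted once if for every `e` one fixes one of the two orderings `(a, b)`; it is
convenient to sum over all ordered pairs `(a, b)` and to use `card_differ`: both sides are then
doubled). Hence the sum over `k` of `v₀ ^ 2 * (number of bad e)` is at most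
`(number of all k) * pairDist`, and some `k` satisfies the claim.
-/

namespace Pool.Agent.Lib_MP_cc9a35_rb

open Pool.Agent.Lib_MP_cc9a35_lc

theorem transversal {t N v₀ : ℕ} {L : Type} [Fintype L] [DecidableEq L] (hv₀ : 0 < v₀)
    (code : L → Fin t → Bool) (y : Sym2 L → Bool) (φ : Fin N → Typ t L)
    (hφ : ∀ a : L, v₀ ≤ Nat.card {v // φ v = .inr a}) (H : SimpleGraph (Fin N)) :
    ∃ s : L → Fin N, (∀ a, φ (s a) = .inr a) ∧
      v₀ ^ 2 * Nat.card {e : Sym2 L // ¬ e.IsDiag ∧ ¬ (y e = true ↔ e.map s ∈ H.edgeSet)} ≤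
        pairDist (tgraph code y φ) H := by
  classical
  have : Nonempty (Fin v₀) := ⟨⟨0, hv₀⟩⟩
  have hemb : ∀ a : L, ∃ f : Fin v₀ → Fin N, Function.Injective f ∧
      ∀ j, φ (f j) = .inr a := by
    intro a
    have h1 : Fintype.card (Fin v₀) ≤ Fintype.card {v : Fin N // φ v = .inr a} := by
      rw [Fintype.card_fin, ← Nat.card_eq_fintype_card]
      exact hφ a
    obtain ⟨g⟩ := Function.Embedding.nonempty_of_card_le h1
    exact ⟨fun j => (g j).1, fun i j hij => g.injective (Subtype.ext hij), fun j => (g j).2⟩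
  choose emb hinj hty using hemb
  -- the two ends of a pair of labels
  set A : Sym2 L → L := fun e => (Quot.out e).1 with hA
  set B : Sym2 L → L := fun e => (Quot.out e).2 with hB
  have hAB : ∀ e : Sym2 L, s(A e, B e) = e := fun e => Quot.out_eq e
  have hne : ∀ e : Sym2 L, ¬ e.IsDiag → A e ≠ B e := by
    intro e he h
    apply he
    rw [← hAB e, Sym2.mk_isDiag_iff]
    exact h
  set Q : Sym2 L → Fin v₀ → Fin v₀ → Prop := fun e j j' =>
    ¬ (y e = true ↔ H.Adj (emb (A e) j) (emb (B e) j')) with hQ
  set s : (L → Fin v₀) → L → Fin N := fun k a => emb a (k a) with hs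
  set bad : (L → Fin v₀) → Sym2 L → Prop := fun k e =>
    ¬ e.IsDiag ∧ ¬ (y e = true ↔ e.map (s k) ∈ H.edgeSet) with hbad
  have hbadQ : ∀ k e, bad k e ↔ ¬ e.IsDiag ∧ Q e (k (A e)) (k (B e)) := by
    intro k e
    have : e.map (s k) ∈ H.edgeSet ↔ H.Adj (emb (A e) (k (A e))) (emb (B e) (k (B e))) := by
      conv_lhs => rw [← hAB e]
      rw [Sym2.map_mk, SimpleGraph.mem_edgeSet]
    rw [hbad, hQ]
    simp only [this]
  -- counting for a fixed pair of labels
  have hcount : ∀ e : Sym2 L, ¬ e.IsDiag →
      v₀ ^ 2 * Nat.card {k : L → Fin v₀ // bad k e} =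
      Fintype.card (L → Fin v₀) * Nat.card {p : Fin v₀ × Fin v₀ // Q e p.1 p.2} := by
    intro e he
    have h1 := Pr_two (ι := L) (X := Fin v₀) (hne e he) (Q e)
    have h2 : Nat.card {k : L → Fin v₀ // bad k e} =
        Nat.card {k : L → Fin v₀ // Q e (k (A e)) (k (B e))} := by
      refine Nat.card_congr (Equiv.subtypeEquivRight fun k => ?_)
      rw [hbadQ]
      exact and_iff_right he
    rw [h2]
    unfold Pr at h1
    have hK : (0 : ℝ) < Fintype.card (L → Fin v₀) := by exact_mod_cast Fintype.card_pos
    have hv : (0 : ℝ) < Fintype.card (Fin v₀ × Fin v₀) := by exact_mod_cast Fintype.card_pos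
    rw [div_eq_div_iff hK.ne' hv.ne'] at h1
    have h3 : (Fintype.card (Fin v₀ × Fin v₀) : ℝ) = (v₀ : ℝ) ^ 2 := by
      rw [Fintype.card_prod, Fintype.card_fin]
      push_cast
      ring
    rw [h3] at h1
    have h4 : ((v₀ ^ 2 * Nat.card {k : L → Fin v₀ // Q e (k (A e)) (k (B e))} : ℕ) : ℝ) =
        ((Fintype.card (L → Fin v₀) * Nat.card {p : Fin v₀ × Fin v₀ // Q e p.1 p.2} : ℕ) : ℝ) := by
      push_cast
      linarith
    exact_mod_cast h4
  -- the vertex pairs
  have hpairs : ∑ e ∈ Finset.univ.filter (fun e : Sym2 L => ¬ e.IsDiag),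
      Nat.card {p : Fin v₀ × Fin v₀ // Q e p.1 p.2} ≤ pairDist (tgraph code y φ) H := by
    set F : Finset (Sym2 L × (Fin v₀ × Fin v₀)) :=
      Finset.univ.filter (fun p => ¬ p.1.IsDiag ∧ Q p.1 p.2.1 p.2.2) with hF
    have hFcard : ∑ e ∈ Finset.univ.filter (fun e : Sym2 L => ¬ e.IsDiag),
        Nat.card {p : Fin v₀ × Fin v₀ // Q e p.1 p.2} = F.card := by
      rw [hF, Finset.card_filter, Fintype.sum_prod_type, Finset.sum_filter]
      refine Finset.sum_congr rfl fun e _ => ?_
      by_cases he : e.IsDiag
      · simp [he]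
      · rw [if_pos he, Nat.card_eq_fintype_card, Fintype.card_subtype, Finset.card_filter]
        refine Finset.sum_congr rfl fun p _ => ?_
        simp only [he, not_false_eq_true, true_and]
    rw [hFcard]
    unfold pairDist
    rw [Set.ncard_eq_toFinset_card']
    refine Finset.card_le_card_of_injOn
      (fun p => s(emb (A p.1) p.2.1, emb (B p.1) p.2.2)) ?_ ?_
    · rintro ⟨e, j, j'⟩ hp
      have hp' : ¬ e.IsDiag ∧ Q e j j' := by
        have := Finset.mem_coe.1 hp
        rw [hF, Finset.mem_filter] at this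
        exact this.2
      obtain ⟨he, hq⟩ := hp'
      rw [Finset.mem_coe, Set.mem_toFinset]
      have hadj : s(emb (A e) j, emb (B e) j') ∈ (tgraph code y φ).edgeSet ↔ y e = true := by
        rw [SimpleGraph.mem_edgeSet, tgraph_adj, hty, hty]
        change _ ∧ (A e ≠ B e ∧ y s(A e, B e) = true) ↔ _
        rw [hAB]
        constructor
        · exact fun h => h.2.2
        · intro h
          refine ⟨?_, hne e he, h⟩
          intro h'
          have h1 := hty (A e) j
          rw [h', hty] at h1
          exact hne e he (Sum.inr_injective h1).symm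
      have hadjH : s(emb (A e) j, emb (B e) j') ∈ H.edgeSet ↔
          H.Adj (emb (A e) j) (emb (B e) j') := SimpleGraph.mem_edgeSet H
      rw [Set.mem_symmDiff]
      change (s(emb (A e) j, emb (B e) j') ∈ (tgraph code y φ).edgeSet ∧
        s(emb (A e) j, emb (B e) j') ∉ H.edgeSet) ∨ (s(emb (A e) j, emb (B e) j') ∈ H.edgeSet ∧
        s(emb (A e) j, emb (B e) j') ∉ (tgraph code y φ).edgeSet)
      rw [hadj, hadjH]
      have hq' : ¬ (y e = true ↔ H.Adj (emb (A e) j) (emb (B e) j')) := hq
      tauto
    · rintro ⟨e, j, j'⟩ hp ⟨e', i, i'⟩ hp' heq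
      have he : ¬ e.IsDiag := by
        have := Finset.mem_coe.1 hp
        rw [hF, Finset.mem_filter] at this
        exact this.2.1
      have he' : ¬ e'.IsDiag := by
        have := Finset.mem_coe.1 hp'
        rw [hF, Finset.mem_filter] at this
        exact this.2.1
      have heq' : s(emb (A e) j, emb (B e) j') = s(emb (A e') i, emb (B e') i') := heq
      rw [Sym2.eq_iff] at heq'
      rcases heq' with ⟨h1, h2⟩ | ⟨h1, h2⟩
      · have e1 : A e = A e' := by
          have h3 := hty (A e) j
          rw [h1, hty] at h3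
          exact (Sum.inr_injective h3).symm
        have e2 : B e = B e' := by
          have h3 := hty (B e) j'
          rw [h2, hty] at h3
          exact (Sum.inr_injective h3).symm
        have e3 : e = e' := by rw [← hAB e, ← hAB e', e1, e2]
        subst e3
        rw [hinj _ h1, hinj _ h2]
      · exfalso
        have e1 : A e = B e' := by
          have h3 := hty (A e) j
          rw [h1, hty] at h3
          exact (Sum.inr_injective h3).symm
        have e2 : B e = A e' := by
          have h3 := hty (B e) j'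
          rw [h2, hty] at h3
          exact (Sum.inr_injective h3).symm
        have e3 : e = e' := by rw [← hAB e, ← hAB e', e1, e2, Sym2.eq_swap]
        subst e3
        exact hne e he e1
  -- double counting
  have hswap : ∑ k : L → Fin v₀, Nat.card {e : Sym2 L // bad k e} =
      ∑ e ∈ Finset.univ.filter (fun e : Sym2 L => ¬ e.IsDiag),
        Nat.card {k : L → Fin v₀ // bad k e} := by
    have h1 : ∀ k : L → Fin v₀, Nat.card {e : Sym2 L // bad k e} =
        ∑ e : Sym2 L, if bad k e then 1 else 0 := by
      intro k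
      rw [Nat.card_eq_fintype_card, Fintype.card_subtype, Finset.card_filter]
    have h2 : ∀ e : Sym2 L, Nat.card {k : L → Fin v₀ // bad k e} =
        ∑ k : L → Fin v₀, if bad k e then 1 else 0 := by
      intro e
      rw [Nat.card_eq_fintype_card, Fintype.card_subtype, Finset.card_filter]
    rw [Finset.sum_congr rfl fun k _ => h1 k, Finset.sum_comm, Finset.sum_filter]
    refine Finset.sum_congr rfl fun e _ => ?_
    by_cases he : e.IsDiag
    · rw [if_neg (not_not.2 he)]
      refine Finset.sum_eq_zero fun k _ => ?_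
      rw [if_neg]
      intro hb
      exact hb.1 he
    · rw [if_pos he, h2]
  have htotal : ∑ k : L → Fin v₀, v₀ ^ 2 * Nat.card {e : Sym2 L // bad k e} ≤
      ∑ _k : L → Fin v₀, pairDist (tgraph code y φ) H := by
    rw [← Finset.mul_sum, hswap, Finset.mul_sum, Finset.sum_const, smul_eq_mul, Finset.card_univ]
    calc ∑ e ∈ Finset.univ.filter (fun e : Sym2 L => ¬ e.IsDiag),
        v₀ ^ 2 * Nat.card {k : L → Fin v₀ // bad k e}
        = ∑ e ∈ Finset.univ.filter (fun e : Sym2 L => ¬ e.IsDiag),
          Fintype.card (L → Fin v₀) * Nat.card {p : Fin v₀ × Fin v₀ // Q e p.1 p.2} :=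
          Finset.sum_congr rfl fun e he => hcount e (Finset.mem_filter.1 he).2
      _ = Fintype.card (L → Fin v₀) * ∑ e ∈ Finset.univ.filter (fun e : Sym2 L => ¬ e.IsDiag),
          Nat.card {p : Fin v₀ × Fin v₀ // Q e p.1 p.2} := by rw [Finset.mul_sum]
      _ ≤ Fintype.card (L → Fin v₀) * pairDist (tgraph code y φ) H :=
          Nat.mul_le_mul_left _ hpairs
  obtain ⟨k, _, hk⟩ := Finset.exists_le_of_sum_le (s := (Finset.univ : Finset (L → Fin v₀)))
    Finset.univ_nonempty htotal
  exact ⟨s k, fun a => hty a (k a), hk⟩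

end Pool.Agent.Lib_MP_cc9a35_rb
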