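import Pool.Agent.Lib_MP_cc9a35_rb.Sizes

/-!
Piece UPB: basic bounds for the parameters of the testers. `lq Q = 1 + log Q ≥ 1`.

Proofs.
* `RR_le`: `16 ^ (clog 16 Q - 1) < Q` for `Q ≥ 2`, so `clog 16 Q ≤ 1 + log Q / log 16 ≤ 1 + log Q`, and
  `RR Q ≤ 2 + log Q ≤ 2 * lq Q` (for `Q = 1` it is `1`).
* `uu_le`: `i < RR Q` means `i ≤ clog 16 Q`, so `16 ^ i ≤ 16 * Q` (`Nat.pow_pred_clog_lt_self`; for `Q = 1`
  both are trivial).
* `tt_le`: `tt a i = 48 i + ⌈8 (a - 3) i⌉₊ + 2 ≤ (48 + 8 (a - 3)) i + 3` and `i ≤ clog 16 Q ≤ 2 lq Q`.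
* fine regime, `U = (uu i) ^ 4 = 2 ^ (16 i) < 8 Q`:
  `2 ^ (48 i) = U ^ 3 ≤ (8 Q) ^ 3 ≤ 512 Q ^ 4`;
  `2 ^ (40 i + h) ≤ 2 * 2 ^ ((40 + 8 (a - 3)) i) = 2 * U ^ ((a + 2) / 2) ≤ 2 * (8 Q) ^ ((a + 2) / 2)`, so
  `2 ^ (40 i + h) * Q ≤ C * Q ^ ((a + 4) / 2)`;
  `2 ^ (48 i + 2 h) ≤ 4 * 2 ^ (48 i + 16 (a - 3) i) = 4 * U ^ a` and
  `40 Q rq / U * 4 U ^ a = 160 Q rq U ^ (a - 1) ≤ 160 * 8 ^ (a - 1) * rq * Q ^ a`.
-/

namespace Pool.Agent.Lib_MP_cc9a35_rb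

/-- `1 + log Q` -/
noncomputable def lq (Q : ℕ) : ℝ := 1 + Real.log Q

theorem one_le_lq {Q : ℕ} (hQ : 1 ≤ Q) : 1 ≤ lq Q := by
  unfold lq
  have := Real.log_nonneg (show (1 : ℝ) ≤ Q by exact_mod_cast hQ)
  linarith

theorem UPB_clog {Q : ℕ} (hQ : 1 ≤ Q) : 16 ^ Nat.clog 16 Q ≤ 16 * Q := by
  rcases Nat.lt_or_ge 1 Q with h | h
  · have h1 := Nat.pow_pred_clog_lt_self (b := 16) (by norm_num) h
    have h2 : 0 < Nat.clog 16 Q := Nat.clog_pos (by norm_num) h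
    obtain ⟨c, hc⟩ := Nat.exists_eq_succ_of_ne_zero h2.ne'
    rw [hc] at h1 ⊢
    rw [Nat.pred_succ] at h1
    rw [Nat.succ_eq_add_one, pow_succ]
    omega
  · have h1 : Q = 1 := le_antisymm h hQ
    subst h1
    norm_num

theorem RR_le {Q : ℕ} (hQ : 1 ≤ Q) : (RR Q : ℝ) ≤ 2 * lq Q := by
  have h1 : (16 : ℝ) ^ Nat.clog 16 Q ≤ 16 * Q := by exact_mod_cast UPB_clog hQ
  have hQ0 : (0 : ℝ) < Q := by exact_mod_cast hQ
  have h2 := Real.log_le_log (by positivity) h1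
  rw [Real.log_pow, Real.log_mul (by norm_num) hQ0.ne'] at h2
  have h3 : Real.log 16 = 4 * Real.log 2 := by
    rw [show (16 : ℝ) = 2 ^ (4 : ℕ) by norm_num, Real.log_pow]
    norm_num
  have h4 : 1 ≤ Real.log 16 := by
    rw [h3]
    have := Real.log_two_gt_d9
    linarith
  have h5 : 0 ≤ Real.log Q := Real.log_nonneg (by exact_mod_cast hQ)
  unfold RR lq
  push_cast
  by_contra hcon
  push Not at hcon
  have h6 : (1 + 2 * Real.log Q) < (Nat.clog 16 Q : ℝ) := by linarith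
  have h7 : (1 + 2 * Real.log Q) * Real.log 16 < (Nat.clog 16 Q : ℝ) * Real.log 16 :=
    mul_lt_mul_of_pos_right h6 (by linarith)
  have h8 : 2 * Real.log Q * 1 ≤ 2 * Real.log Q * Real.log 16 :=
    mul_le_mul_of_nonneg_left h4 (by linarith)
  linarith

theorem rq_le {Q : ℕ} (hQ : 1 ≤ Q) : (rq Q : ℝ) ≤ 8 * lq Q := by
  unfold rq
  push_cast
  have h1 := RR_le hQ
  have h2 := one_le_lq hQ
  linarith

theorem uu_le {Q i : ℕ} (hQ : 1 ≤ Q) (hi : i < RR Q) : uu i ≤ 16 * Q := by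
  unfold RR at hi
  unfold uu
  exact (Nat.pow_le_pow_right (by norm_num) (by omega)).trans (UPB_clog hQ)

theorem UPB_hh {a : ℝ} (ha : 4 ≤ a) (i : ℕ) : (hh a i : ℝ) ≤ 8 * (a - 3) * i + 1 := by
  unfold hh
  have h0 : (0 : ℝ) ≤ 8 * (a - 3) * i := by
    have : (0 : ℝ) ≤ i := Nat.cast_nonneg _
    have h1 : 0 ≤ a - 3 := by linarith
    positivity
  exact (Nat.ceil_lt_add_one h0).le

theorem tt_le {a : ℝ} (ha : 4 ≤ a) : ∃ C : ℝ, 1 ≤ C ∧ ∀ Q i : ℕ, 1 ≤ Q → i < RR Q →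
    (tt a i : ℝ) ≤ C * lq Q := by
  refine ⟨2 * (48 + 8 * (a - 3)) + 3, by linarith, ?_⟩
  intro Q i hQ hi
  have h1 := UPB_hh ha i
  have h2 := RR_le hQ
  have h3 : (i : ℝ) ≤ RR Q := by exact_mod_cast hi.le
  have h4 := one_le_lq hQ
  have h5 : (i : ℝ) ≤ 2 * lq Q := h3.trans h2
  have h6 : (48 + 8 * (a - 3)) * (i : ℝ) ≤ (48 + 8 * (a - 3)) * (2 * lq Q) :=
    mul_le_mul_of_nonneg_left h5 (by linarith)
  unfold tt bb
  push_cast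
  linarith

/-- the fourth power of the scale parameter as a power of two -/
theorem UPB_U (i : ℕ) : ((uu i : ℝ)) ^ 4 = 2 ^ (16 * i) := by
  unfold uu
  push_cast
  rw [← pow_mul, pow_mul, show (16 : ℝ) = 2 ^ 4 by norm_num, ← pow_mul, ← pow_mul]
  congr 1
  ring

theorem UPB_fine {Q i : ℕ} (h : fineQ i Q) : (2 : ℝ) ^ (16 * i) ≤ 8 * Q := by
  rw [← UPB_U]
  have h1 : uu i ^ 4 ≤ 8 * Q := le_of_lt h
  exact_mod_cast h1

theorem fine_G {Q i : ℕ} (hQ : 1 ≤ Q) (h : fineQ i Q) :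
    ((2 : ℝ) ^ (48 * i)) ≤ 512 * (Q : ℝ) ^ 3 := by
  have h1 := UPB_fine h
  have h2 : (2 : ℝ) ^ (48 * i) = (2 ^ (16 * i)) ^ 3 := by
    rw [← pow_mul]
    congr 1
    ring
  rw [h2]
  calc ((2 : ℝ) ^ (16 * i)) ^ 3 ≤ (8 * Q) ^ 3 := pow_le_pow_left₀ (by positivity) h1 3
    _ = 512 * (Q : ℝ) ^ 3 := by ring

/-- powers of two as real powers of the fourth power of the scale parameter -/
theorem UPB_rpow {Q i n : ℕ} {x c : ℝ} (hx : 0 ≤ x) (h : fineQ i Q)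
    (hn : (n : ℝ) ≤ 16 * x * i + c) : (2 : ℝ) ^ n ≤ 2 ^ c * (8 * Q) ^ x := by
  have h1 := UPB_fine h
  have h2 : (2 : ℝ) ^ n ≤ 2 ^ (16 * x * i + c) := by
    rw [← Real.rpow_natCast]
    exact Real.rpow_le_rpow_of_exponent_le (by norm_num) hn
  have h3 : (2 : ℝ) ^ (16 * x * i + c) = 2 ^ c * ((2 : ℝ) ^ (16 * i)) ^ x := by
    rw [Real.rpow_add (by norm_num), mul_comm, ← Real.rpow_natCast, ← Real.rpow_mul (by norm_num)]
    congr 2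
    push_cast
    ring
  rw [h3] at h2
  refine h2.trans ?_
  apply mul_le_mul_of_nonneg_left _ (by positivity)
  exact Real.rpow_le_rpow (by positivity) h1 hx

theorem fine_n {a : ℝ} (ha : 4 ≤ a) : ∃ C : ℝ, 1 ≤ C ∧ ∀ Q i : ℕ, 1 ≤ Q → fineQ i Q →
    (2 : ℝ) ^ (40 * i + hh a i) * Q ≤ C * (Q : ℝ) ^ ((a + 4) / 2) := by
  have h8 : (1 : ℝ) ≤ 8 ^ ((a + 2) / 2) := Real.one_le_rpow (by norm_num) (by linarith)
  refine ⟨2 * 8 ^ ((a + 2) / 2), by linarith, ?_⟩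
  intro Q i hQ h
  have hQ0 : (0 : ℝ) < Q := by exact_mod_cast hQ
  have h1 := UPB_hh ha i
  have h2 : (((40 * i + hh a i : ℕ)) : ℝ) ≤ 16 * ((a + 2) / 2) * i + 1 := by
    push_cast
    have : 16 * ((a + 2) / 2) * (i : ℝ) = 40 * i + 8 * (a - 3) * i := by ring
    rw [this]
    linarith
  have h3 := UPB_rpow (x := (a + 2) / 2) (c := 1) (by linarith) h h2
  rw [Real.rpow_one] at h3
  calc (2 : ℝ) ^ (40 * i + hh a i) * Q ≤ 2 * (8 * Q) ^ ((a + 2) / 2) * Q :=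
        mul_le_mul_of_nonneg_right h3 hQ0.le
    _ = 2 * 8 ^ ((a + 2) / 2) * (Q : ℝ) ^ ((a + 4) / 2) := by
        rw [Real.mul_rpow (by norm_num) hQ0.le]
        have h4 : (Q : ℝ) ^ ((a + 4) / 2) = (Q : ℝ) ^ ((a + 2) / 2) * Q := by
          rw [show (a + 4) / 2 = (a + 2) / 2 + 1 by ring, Real.rpow_add hQ0, Real.rpow_one]
        rw [h4]
        ring

theorem fine_cap {a : ℝ} (ha : 4 ≤ a) : ∃ C : ℝ, 1 ≤ C ∧ ∀ Q i : ℕ, 1 ≤ Q → fineQ i Q →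
    ((capQ i Q : ℝ)) * (2 : ℝ) ^ (48 * i + 2 * hh a i) ≤ C * rq Q * (Q : ℝ) ^ a := by
  have h8 : (1 : ℝ) ≤ 8 ^ (a - 1) := Real.one_le_rpow (by norm_num) (by linarith)
  refine ⟨160 * 8 ^ (a - 1), by linarith, ?_⟩
  intro Q i hQ h
  have hQ0 : (0 : ℝ) < Q := by exact_mod_cast hQ
  have h1 := UPB_hh ha i
  have hU : (0 : ℝ) < 2 ^ (16 * i) := by positivity
  -- the bound of `capQ`
  have h2 : (capQ i Q : ℝ) ≤ 40 * Q * rq Q / 2 ^ (16 * i) := by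
    unfold capQ
    rw [if_pos h]
    refine Nat.cast_div_le.trans ?_
    push_cast
    rw [UPB_U]
  have h3 : (2 : ℝ) ^ (48 * i + 2 * hh a i) ≤ 4 * ((2 : ℝ) ^ (16 * i)) ^ a := by
    have h4 : (((48 * i + 2 * hh a i : ℕ)) : ℝ) ≤ 16 * a * i + 2 := by
      push_cast
      have : 16 * a * (i : ℝ) = 48 * i + 2 * (8 * (a - 3) * i) := by ring
      rw [this]
      linarith
    have h5 : (2 : ℝ) ^ (48 * i + 2 * hh a i) ≤ 2 ^ (16 * a * i + 2) := by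
      rw [← Real.rpow_natCast]
      exact Real.rpow_le_rpow_of_exponent_le (by norm_num) h4
    refine h5.trans (le_of_eq ?_)
    rw [Real.rpow_add (by norm_num), mul_comm]
    have h6 : (2 : ℝ) ^ (2 : ℝ) = 4 := by
      rw [show (2 : ℝ) = ((2 : ℕ) : ℝ) by norm_num, Real.rpow_natCast]
      norm_num
    rw [h6]
    congr 1
    rw [← Real.rpow_natCast, ← Real.rpow_mul (by norm_num)]
    congr 1
    push_cast
    ring
  have h4 : ((2 : ℝ) ^ (16 * i)) ^ a = 2 ^ (16 * i) * ((2 : ℝ) ^ (16 * i)) ^ (a - 1) := by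
    have h5 : ((2 : ℝ) ^ (16 * i)) ^ a = ((2 : ℝ) ^ (16 * i)) ^ (1 + (a - 1)) := by
      congr 1
      ring
    rw [h5, Real.rpow_add hU, Real.rpow_one]
  have h5 : ((2 : ℝ) ^ (16 * i)) ^ (a - 1) ≤ (8 * Q) ^ (a - 1) :=
    Real.rpow_le_rpow hU.le (UPB_fine h) (by linarith)
  have h6 : (8 * (Q : ℝ)) ^ (a - 1) * Q = 8 ^ (a - 1) * (Q : ℝ) ^ a := by
    rw [Real.mul_rpow (by norm_num) hQ0.le]
    have h7 : (Q : ℝ) ^ a = (Q : ℝ) ^ (a - 1) * Q := by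
      have h9 : (Q : ℝ) ^ a = (Q : ℝ) ^ ((a - 1) + 1) := by
        congr 1
        ring
      rw [h9, Real.rpow_add hQ0, Real.rpow_one]
    rw [h7]
    ring
  have hr : (0 : ℝ) ≤ rq Q := Nat.cast_nonneg _
  calc ((capQ i Q : ℝ)) * (2 : ℝ) ^ (48 * i + 2 * hh a i)
      ≤ (40 * Q * rq Q / 2 ^ (16 * i)) * (4 * ((2 : ℝ) ^ (16 * i)) ^ a) :=
        mul_le_mul h2 h3 (by positivity) (by positivity)
    _ = 160 * rq Q * (((2 : ℝ) ^ (16 * i)) ^ (a - 1) * Q) := by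
        rw [h4]
        field_simp
        ring
    _ ≤ 160 * rq Q * ((8 * (Q : ℝ)) ^ (a - 1) * Q) := by
        apply mul_le_mul_of_nonneg_left _ (by positivity)
        exact mul_le_mul_of_nonneg_right h5 hQ0.le
    _ = 160 * 8 ^ (a - 1) * rq Q * (Q : ℝ) ^ a := by
        rw [h6]
        ring

end Pool.Agent.Lib_MP_cc9a35_rb
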