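import Pool.Agent.Lib_MP_cc9a35_rb.UpBasic

/-!
Piece UPS: bounds for the numbers of queries at one scale.

Proof. Let `l = lq Q ≥ 1`, `1 ≤ i < RR Q`. All constants depend on `a` only.
`TT = 4 u t (t + 8) ≤ 64 Q t (t + 8) ≤ C l ^ 2 Q` (`uu_le`, `tt_le`).
`JJ = 2 Q rq ≤ C l Q`.
`MM ≤ C l Q ^ 4` (`fine_G` in the fine regime).
`KK ≤ C l ^ 3 Q ^ 2 + C l Q ^ ((a + 4) / 2) ≤ C l ^ 3 Q ^ ((a + 4) / 2)` (`fine_n`; `(a + 4) / 2 ≥ 4`).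
All of these are at most `C l ^ 3 Q ^ ((a + 4) / 2)`, whose square is `C ^ 2 l ^ 6 Q ^ (a + 4)`: this is the
bound for `qN`. For `qA`: `(a + 4) / 2 ≤ a`, `2 ≤ a`, `4 ≤ a`, so `TT ^ 2 ≤ C l ^ 4 Q ^ a`,
`(KK + 2 JJ + 2 MM) t + MM ≤ C l ^ 4 Q ^ a`, and `capQ * 2 ^ (48 i + 2 h) ≤ C l Q ^ a` (`fine_cap`; `capQ = 0`
in the coarse regime).
-/

namespace Pool.Agent.Lib_MP_cc9a35_rb

/-- raising the exponents of a bound `c * l ^ j * x` -/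
theorem ups_raise {c l x y : ℝ} {j k : ℕ} (hc : 0 ≤ c) (hl : 1 ≤ l) (hx : 0 ≤ x) (hjk : j ≤ k)
    (hxy : x ≤ y) : c * l ^ j * x ≤ c * l ^ k * y := by
  have h1 : l ^ j ≤ l ^ k := pow_le_pow_right₀ hl hjk
  have h0 : (0 : ℝ) ≤ l ^ j := by positivity
  have h2 : c * l ^ j ≤ c * l ^ k := mul_le_mul_of_nonneg_left h1 hc
  exact mul_le_mul h2 hxy hx (le_trans (mul_nonneg hc h0) h2)

theorem ups_TT {a : ℝ} (ha : 4 ≤ a) : ∃ C : ℝ, 1 ≤ C ∧ ∀ Q i : ℕ, 1 ≤ Q → i < RR Q →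
    (TT a i : ℝ) ≤ C * lq Q ^ 2 * (Q : ℝ) := by
  obtain ⟨C1, hC1, h1⟩ := tt_le ha
  refine ⟨64 * C1 * (C1 + 8), by nlinarith, ?_⟩
  intro Q i hQ hi
  have hl := one_le_lq hQ
  have ht := h1 Q i hQ hi
  have hu : (uu i : ℝ) ≤ 16 * Q := by exact_mod_cast uu_le hQ hi
  have ht0 : (0 : ℝ) ≤ tt a i := Nat.cast_nonneg _
  have hu0 : (0 : ℝ) ≤ uu i := Nat.cast_nonneg _
  have hq0 : (0 : ℝ) ≤ Q := Nat.cast_nonneg _
  have ht8 : (tt a i : ℝ) + 8 ≤ (C1 + 8) * lq Q := by nlinarith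
  have h3 : (tt a i : ℝ) * ((tt a i : ℝ) + 8) ≤ (C1 * lq Q) * ((C1 + 8) * lq Q) :=
    mul_le_mul ht ht8 (by linarith) (by nlinarith)
  have h30 : (0 : ℝ) ≤ (tt a i : ℝ) * ((tt a i : ℝ) + 8) := by positivity
  unfold TT
  push_cast
  calc (2 : ℝ) * (2 * uu i * tt a i * (tt a i + 8))
      = 4 * ((uu i : ℝ) * ((tt a i : ℝ) * ((tt a i : ℝ) + 8))) := by ring
    _ ≤ 4 * ((16 * Q) * ((C1 * lq Q) * ((C1 + 8) * lq Q))) :=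
        mul_le_mul_of_nonneg_left (mul_le_mul hu h3 h30 (by linarith)) (by norm_num)
    _ = 64 * C1 * (C1 + 8) * lq Q ^ 2 * (Q : ℝ) := by ring

theorem ups_JJ {Q : ℕ} (hQ : 1 ≤ Q) : (JJ Q : ℝ) ≤ 16 * lq Q ^ 1 * (Q : ℝ) := by
  have h := rq_le hQ
  have hq0 : (0 : ℝ) ≤ Q := Nat.cast_nonneg _
  unfold JJ
  push_cast
  nlinarith

theorem ups_MM {Q i : ℕ} (hQ : 1 ≤ Q) : (MM i Q : ℝ) ≤ 16384 * lq Q ^ 1 * (Q : ℝ) ^ 4 := by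
  have h := rq_le hQ
  have hl := one_le_lq hQ
  have hq1 : (1 : ℝ) ≤ Q := by exact_mod_cast hQ
  have hq0 : (0 : ℝ) ≤ Q := by linarith
  have hr0 : (0 : ℝ) ≤ rq Q := Nat.cast_nonneg _
  unfold MM
  split_ifs with hf
  · have hG := fine_G hQ hf
    push_cast
    calc (4 : ℝ) * 2 ^ (48 * i) * Q * rq Q = 4 * ((2 : ℝ) ^ (48 * i) * (Q * rq Q)) := by ring
      _ ≤ 4 * ((512 * (Q : ℝ) ^ 3) * (Q * (8 * lq Q))) := by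
          refine mul_le_mul_of_nonneg_left (mul_le_mul hG ?_ (by positivity) (by positivity))
            (by norm_num)
          exact mul_le_mul_of_nonneg_left h hq0
      _ = 16384 * lq Q ^ 1 * (Q : ℝ) ^ 4 := by ring
  · push_cast
    have hq4 : (Q : ℝ) ≤ (Q : ℝ) ^ 4 := by
      calc (Q : ℝ) = (Q : ℝ) ^ 1 := (pow_one _).symm
        _ ≤ (Q : ℝ) ^ 4 := pow_le_pow_right₀ hq1 (by norm_num)
    calc (Q : ℝ) * rq Q ≤ Q * (8 * lq Q) := mul_le_mul_of_nonneg_left h hq0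
      _ = 8 * lq Q ^ 1 * (Q : ℝ) := by ring
      _ ≤ 8 * lq Q ^ 1 * (Q : ℝ) ^ 4 :=
          ups_raise (by norm_num) hl hq0 le_rfl hq4
      _ ≤ 16384 * lq Q ^ 1 * (Q : ℝ) ^ 4 := by
          have h0 : (0 : ℝ) ≤ lq Q ^ 1 * (Q : ℝ) ^ 4 := by
            have : (0 : ℝ) ≤ lq Q := by linarith
            positivity
          nlinarith

/-- the powers of `Q` are at most `Q ^ ((a + 4) / 2)` -/
theorem ups_pow {a : ℝ} (ha : 4 ≤ a) {Q : ℕ} (hQ : 1 ≤ Q) {n : ℕ} (hn : n ≤ 4) :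
    (Q : ℝ) ^ n ≤ (Q : ℝ) ^ ((a + 4) / 2) := by
  have hq1 : (1 : ℝ) ≤ Q := by exact_mod_cast hQ
  rw [← Real.rpow_natCast]
  refine Real.rpow_le_rpow_of_exponent_le hq1 ?_
  have : (n : ℝ) ≤ 4 := by exact_mod_cast hn
  linarith

theorem ups_KK {a : ℝ} (ha : 4 ≤ a) : ∃ C : ℝ, 1 ≤ C ∧ ∀ Q i : ℕ, 1 ≤ Q → i < RR Q →
    (KK a i Q : ℝ) ≤ C * lq Q ^ 3 * (Q : ℝ) ^ ((a + 4) / 2) := by
  obtain ⟨C1, hC1, h1⟩ := tt_le ha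
  obtain ⟨C2, hC2, h2⟩ := fine_n ha
  have hK1 : (0 : ℝ) ≤ 64 * (C1 + 1) ^ 2 * (9 + 20 * (C1 + 1)) := by positivity
  refine ⟨64 * (C1 + 1) ^ 2 * (9 + 20 * (C1 + 1)) + 288 * C2, by linarith, ?_⟩
  intro Q i hQ hi
  have hl := one_le_lq hQ
  have ht := h1 Q i hQ hi
  have hq1 : (1 : ℝ) ≤ Q := by exact_mod_cast hQ
  have hq0 : (0 : ℝ) ≤ Q := by linarith
  have ht0 : (0 : ℝ) ≤ tt a i := Nat.cast_nonneg _
  have hR := RR_le hQ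
  have hR0 : (0 : ℝ) ≤ RR Q := Nat.cast_nonneg _
  have hE0 : (0 : ℝ) ≤ (Q : ℝ) ^ ((a + 4) / 2) := by positivity
  have hl0 : (0 : ℝ) ≤ lq Q := by linarith
  have ht1 : (tt a i : ℝ) + 1 ≤ (C1 + 1) * lq Q := by nlinarith
  have ht2 : ((tt a i : ℝ) + 1) ^ 2 ≤ ((C1 + 1) * lq Q) ^ 2 :=
    pow_le_pow_left₀ (by linarith) ht1 2
  have hR1 : (RR Q : ℝ) + 1 ≤ 3 * lq Q := by linarith
  have h3 : 3 * ((RR Q : ℝ) + 1) + 20 * ((tt a i : ℝ) + 1) ≤ (9 + 20 * (C1 + 1)) * lq Q := by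
    nlinarith
  have hfirst : 64 * ((tt a i : ℝ) + 1) ^ 2 * (Q : ℝ) ^ 2 *
      (3 * ((RR Q : ℝ) + 1) + 20 * ((tt a i : ℝ) + 1)) ≤
      64 * (C1 + 1) ^ 2 * (9 + 20 * (C1 + 1)) * lq Q ^ 3 * (Q : ℝ) ^ ((a + 4) / 2) := by
    calc 64 * ((tt a i : ℝ) + 1) ^ 2 * (Q : ℝ) ^ 2 *
          (3 * ((RR Q : ℝ) + 1) + 20 * ((tt a i : ℝ) + 1))
        = (64 * (Q : ℝ) ^ 2) * (((tt a i : ℝ) + 1) ^ 2 *
          (3 * ((RR Q : ℝ) + 1) + 20 * ((tt a i : ℝ) + 1))) := by ring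
      _ ≤ (64 * (Q : ℝ) ^ 2) * (((C1 + 1) * lq Q) ^ 2 * ((9 + 20 * (C1 + 1)) * lq Q)) := by
          refine mul_le_mul_of_nonneg_left ?_ (by positivity)
          exact mul_le_mul ht2 h3 (by positivity) (by positivity)
      _ = 64 * (C1 + 1) ^ 2 * (9 + 20 * (C1 + 1)) * lq Q ^ 3 * (Q : ℝ) ^ 2 := by ring
      _ ≤ _ := ups_raise hK1 hl (by positivity) le_rfl (ups_pow ha hQ (by norm_num))
  have hsecond : ((if fineQ i Q then 96 * 2 ^ (40 * i + hh a i) * Q * (RR Q + 1) else 0 : ℕ) : ℝ) ≤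
      288 * C2 * lq Q ^ 3 * (Q : ℝ) ^ ((a + 4) / 2) := by
    split_ifs with hf
    · have hn := h2 Q i hQ hf
      push_cast
      calc (96 : ℝ) * 2 ^ (40 * i + hh a i) * Q * (RR Q + 1)
          = 96 * (((2 : ℝ) ^ (40 * i + hh a i) * Q) * ((RR Q : ℝ) + 1)) := by ring
        _ ≤ 96 * ((C2 * (Q : ℝ) ^ ((a + 4) / 2)) * (3 * lq Q)) := by
            refine mul_le_mul_of_nonneg_left ?_ (by norm_num)
            exact mul_le_mul hn hR1 (by positivity) (by positivity)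
        _ = 288 * C2 * lq Q ^ 1 * (Q : ℝ) ^ ((a + 4) / 2) := by ring
        _ ≤ _ := ups_raise (by positivity) hl hE0 (by norm_num) le_rfl
    · push_cast
      positivity
  unfold KK
  rw [Nat.cast_add]
  have hcast : ((64 * (tt a i + 1) ^ 2 * Q ^ 2 * (3 * (RR Q + 1) + 20 * (tt a i + 1)) : ℕ) : ℝ) =
      64 * ((tt a i : ℝ) + 1) ^ 2 * (Q : ℝ) ^ 2 *
        (3 * ((RR Q : ℝ) + 1) + 20 * ((tt a i : ℝ) + 1)) := by push_cast; ring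
  rw [hcast]
  calc _ ≤ 64 * (C1 + 1) ^ 2 * (9 + 20 * (C1 + 1)) * lq Q ^ 3 * (Q : ℝ) ^ ((a + 4) / 2) +
        288 * C2 * lq Q ^ 3 * (Q : ℝ) ^ ((a + 4) / 2) := add_le_add hfirst hsecond
    _ = _ := by ring

theorem qN_le {a : ℝ} (ha : 4 ≤ a) : ∃ C : ℝ, 1 ≤ C ∧ ∃ k : ℕ, ∀ Q i : ℕ, 1 ≤ Q → i < RR Q →
    (qN a i Q : ℝ) ≤ C * lq Q ^ k * (Q : ℝ) ^ (a + 4) := by
  obtain ⟨C1, hC1, h1⟩ := ups_TT ha
  obtain ⟨C2, hC2, h2⟩ := ups_KK ha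
  refine ⟨(C1 + C2 + 32 + 32768) ^ 2, by nlinarith, 6, ?_⟩
  intro Q i hQ hi
  have hl := one_le_lq hQ
  have hq1 : (1 : ℝ) ≤ Q := by exact_mod_cast hQ
  have hq0 : (0 : ℝ) ≤ Q := by linarith
  have hl0 : (0 : ℝ) ≤ lq Q := by linarith
  have hE0 : (0 : ℝ) ≤ (Q : ℝ) ^ ((a + 4) / 2) := by positivity
  have hqE : (Q : ℝ) ≤ (Q : ℝ) ^ ((a + 4) / 2) := by
    simpa using ups_pow ha hQ (n := 1) (by norm_num)
  have hT : (TT a i : ℝ) ≤ C1 * lq Q ^ 3 * (Q : ℝ) ^ ((a + 4) / 2) :=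
    le_trans (h1 Q i hQ hi) (ups_raise (by linarith) hl hq0 (by norm_num) hqE)
  have hK := h2 Q i hQ hi
  have hJ : (JJ Q : ℝ) ≤ 16 * lq Q ^ 3 * (Q : ℝ) ^ ((a + 4) / 2) :=
    le_trans (ups_JJ hQ) (ups_raise (by norm_num) hl hq0 (by norm_num) hqE)
  have hM : (MM i Q : ℝ) ≤ 16384 * lq Q ^ 3 * (Q : ℝ) ^ ((a + 4) / 2) :=
    le_trans (ups_MM hQ) (ups_raise (by norm_num) hl (by positivity) (by norm_num)
      (ups_pow ha hQ le_rfl))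
  have hS : (TT a i : ℝ) + KK a i Q + 2 * JJ Q + 2 * MM i Q ≤
      (C1 + C2 + 32 + 32768) * (lq Q ^ 3 * (Q : ℝ) ^ ((a + 4) / 2)) := by
    nlinarith
  unfold qN
  push_cast
  calc ((TT a i : ℝ) + KK a i Q + 2 * JJ Q + 2 * MM i Q) ^ 2
      ≤ ((C1 + C2 + 32 + 32768) * (lq Q ^ 3 * (Q : ℝ) ^ ((a + 4) / 2))) ^ 2 :=
        pow_le_pow_left₀ (by positivity) hS 2
    _ = (C1 + C2 + 32 + 32768) ^ 2 * lq Q ^ 6 * ((Q : ℝ) ^ ((a + 4) / 2)) ^ 2 := by ring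
    _ = (C1 + C2 + 32 + 32768) ^ 2 * lq Q ^ 6 * (Q : ℝ) ^ (a + 4) := by
        congr 1
        rw [← Real.rpow_natCast, ← Real.rpow_mul hq0]
        congr 1
        push_cast
        ring

theorem qA_le {a : ℝ} (ha : 4 ≤ a) : ∃ C : ℝ, 1 ≤ C ∧ ∃ k : ℕ, ∀ Q i : ℕ, 1 ≤ Q → i < RR Q →
    (qA a i Q : ℝ) ≤ C * lq Q ^ k * (Q : ℝ) ^ a := by
  obtain ⟨C1, hC1, h1⟩ := ups_TT ha
  obtain ⟨C2, hC2, h2⟩ := ups_KK ha
  obtain ⟨C3, hC3, h3⟩ := tt_le ha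
  obtain ⟨C4, hC4, h4⟩ := fine_cap ha
  refine ⟨C1 ^ 2 + (C2 + 32 + 32768) * C3 + 16384 + 8 * C4, by nlinarith, 4, ?_⟩
  intro Q i hQ hi
  have hl := one_le_lq hQ
  have hq1 : (1 : ℝ) ≤ Q := by exact_mod_cast hQ
  have hq0 : (0 : ℝ) ≤ Q := by linarith
  have hl0 : (0 : ℝ) ≤ lq Q := by linarith
  have hE0 : (0 : ℝ) ≤ (Q : ℝ) ^ ((a + 4) / 2) := by positivity
  have hA0 : (0 : ℝ) ≤ (Q : ℝ) ^ a := by positivity
  have hEA : (Q : ℝ) ^ ((a + 4) / 2) ≤ (Q : ℝ) ^ a :=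
    Real.rpow_le_rpow_of_exponent_le hq1 (by linarith)
  have hqE : (Q : ℝ) ≤ (Q : ℝ) ^ ((a + 4) / 2) := by
    simpa using ups_pow ha hQ (n := 1) (by norm_num)
  have hT0 : (0 : ℝ) ≤ TT a i := Nat.cast_nonneg _
  have ht0 : (0 : ℝ) ≤ tt a i := Nat.cast_nonneg _
  have hTT : (TT a i : ℝ) * TT a i ≤ C1 ^ 2 * lq Q ^ 4 * (Q : ℝ) ^ a := by
    have := h1 Q i hQ hi
    calc (TT a i : ℝ) * TT a i ≤ (C1 * lq Q ^ 2 * (Q : ℝ)) * (C1 * lq Q ^ 2 * (Q : ℝ)) :=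
          mul_le_mul this this hT0 (by positivity)
      _ = C1 ^ 2 * lq Q ^ 4 * (Q : ℝ) ^ 2 := by ring
      _ ≤ _ := ups_raise (by positivity) hl (by positivity) le_rfl
          (le_trans (ups_pow ha hQ (by norm_num)) hEA)
  have hK := h2 Q i hQ hi
  have hJ : (JJ Q : ℝ) ≤ 16 * lq Q ^ 3 * (Q : ℝ) ^ ((a + 4) / 2) :=
    le_trans (ups_JJ hQ) (ups_raise (by norm_num) hl hq0 (by norm_num) hqE)
  have hM : (MM i Q : ℝ) ≤ 16384 * lq Q ^ 3 * (Q : ℝ) ^ ((a + 4) / 2) :=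
    le_trans (ups_MM hQ) (ups_raise (by norm_num) hl (by positivity) (by norm_num)
      (ups_pow ha hQ le_rfl))
  have hS : (KK a i Q : ℝ) + 2 * JJ Q + 2 * MM i Q ≤
      (C2 + 32 + 32768) * (lq Q ^ 3 * (Q : ℝ) ^ ((a + 4) / 2)) := by
    nlinarith
  have hSt : ((KK a i Q : ℝ) + 2 * JJ Q + 2 * MM i Q) * tt a i ≤
      (C2 + 32 + 32768) * C3 * lq Q ^ 4 * (Q : ℝ) ^ a := by
    calc ((KK a i Q : ℝ) + 2 * JJ Q + 2 * MM i Q) * tt a i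
        ≤ ((C2 + 32 + 32768) * (lq Q ^ 3 * (Q : ℝ) ^ ((a + 4) / 2))) * (C3 * lq Q) :=
          mul_le_mul hS (h3 Q i hQ hi) ht0 (by positivity)
      _ = (C2 + 32 + 32768) * C3 * lq Q ^ 4 * (Q : ℝ) ^ ((a + 4) / 2) := by ring
      _ ≤ _ := ups_raise (by positivity) hl hE0 le_rfl hEA
  have hM' : (MM i Q : ℝ) ≤ 16384 * lq Q ^ 4 * (Q : ℝ) ^ a :=
    le_trans hM (ups_raise (by norm_num) hl hE0 (by norm_num) hEA)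
  have hcap : (capQ i Q : ℝ) * (2 : ℝ) ^ (48 * i + 2 * hh a i) ≤
      8 * C4 * lq Q ^ 4 * (Q : ℝ) ^ a := by
    by_cases hf : fineQ i Q
    · calc (capQ i Q : ℝ) * (2 : ℝ) ^ (48 * i + 2 * hh a i) ≤ C4 * rq Q * (Q : ℝ) ^ a :=
            h4 Q i hQ hf
        _ ≤ C4 * (8 * lq Q) * (Q : ℝ) ^ a := by
            refine mul_le_mul_of_nonneg_right ?_ hA0
            exact mul_le_mul_of_nonneg_left (rq_le hQ) (by linarith)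
        _ = 8 * C4 * lq Q ^ 1 * (Q : ℝ) ^ a := by ring
        _ ≤ _ := ups_raise (by positivity) hl hA0 (by norm_num) le_rfl
    · have h0 : capQ i Q = 0 := by
        unfold capQ
        rw [if_neg hf]
      rw [h0]
      push_cast
      rw [zero_mul]
      positivity
  unfold qA
  push_cast
  calc (TT a i : ℝ) * TT a i + (((KK a i Q : ℝ) + 2 * JJ Q + 2 * MM i Q) * tt a i + MM i Q +
        capQ i Q * 2 ^ (48 * i + 2 * hh a i))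
      ≤ C1 ^ 2 * lq Q ^ 4 * (Q : ℝ) ^ a + ((C2 + 32 + 32768) * C3 * lq Q ^ 4 * (Q : ℝ) ^ a +
        16384 * lq Q ^ 4 * (Q : ℝ) ^ a + 8 * C4 * lq Q ^ 4 * (Q : ℝ) ^ a) := by
        linarith
    _ = _ := by ring

end Pool.Agent.Lib_MP_cc9a35_rb
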