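import Pool.Agent.Lib_MP_cc9a35_rb.FindTuple
import Pool.Agent.Lib_MP_cc9a35_rb.PrFun

/-!
Piece ZG: the first sample is good with large probability.

Proof of `zgood_tuple`: let `τ x` be the threshold type of `z x` (the first components; all the sampled
vertices have threshold types). By injectivity of `z`, `G.Adj (z x) (z y) ↔ x ≠ y ∧ t < τ x + τ y`, so
`IsThr` holds, and `findTuple_spec` gives the claim.

Proof of `Pr_not_zgood`: `¬ ZGood` implies one of the following.
(a) `z x = z y` for some `x < y`: probability at most `T ^ 2 * (1 / N) ≤ 1 / 20` (`Pr_exists_le` over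
pairs, `Pr_two`, and `Pr (fun s : Fin N × Fin N => s.1 = s.2) = 1 / N`).
(b) some `z x` has a label: probability at most `T * (card labels) / N ≤ 1 / 20` (`Pr_coord`).
(c) for some type `i` no index `x < r * (t + 8)` has type `i`, or no index `x ≥ r * (t + 8)` has type `i`
(if both exist they are different). Each of these `2 * (t + 1)` events has probability
`(1 - q) ^ (r * (t + 8))` with `q = (card of type i) / N ≥ 1 / r`, and
`(1 - 1 / r) ^ r ≤ 1 / 2` (for `r = 1` it is `0`; in general `(1 - 1 / r) ^ r ≤ exp (-1) ≤ 1 / 2`), so it is at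
most `(1 / 2) ^ (t + 8)`. (Use `Pr_equiv` with `Fin.appendEquiv`/`finSumFinEquiv` or embed: the event only
concerns `r * (t + 8)` different coordinates; it may be easier to prove the bound for a general
injection `Fin n → Fin T` by `Fintype.card` of a `Fintype.piFinset`, as in `card_pi_exists_le` of
`Pool.Agent.Lib_MP_cc9a35_lc.Upper`.) As `t + 1 ≤ 2 ^ t`, the sum is at most `2 / 2 ^ 8 ≤ 1 / 20`.
-/

namespace Pool.Agent.Lib_MP_cc9a35_rb

open Pool.Agent.Lib_MP_cc9a35_lc

variable {t : ℕ} {L : Type} {N T : ℕ}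

/-- The sample has no repetitions, no labels, and every threshold type occurs twice. -/
def ZGood (φ : Fin N → Typ t L) (z : Fin T → Fin N) : Prop :=
  Function.Injective z ∧ (∀ x, (φ (z x)).isRight = false) ∧
    ∀ i : Fin (t + 1), ∃ x y, x ≠ y ∧ φ (z x) = .inl i ∧ φ (z y) = .inl i

theorem zgood_tuple {code : L → Fin t → Bool} {y : Sym2 L → Bool} {φ : Fin N → Typ t L}
    {z : Fin T → Fin N} (h : ZGood φ z) :
    ∃ j : Fin t → Fin T,
      findTuple t (fun a b => (tgraph code y φ).Adj (z a) (z b)) = some j ∧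
      ∀ k : Fin t, φ (z (j k)) = .inl k.succ := by
  obtain ⟨hinj, hlab, h2⟩ := h
  have hτ : ∀ x, ∃ i : Fin (t + 1), φ (z x) = .inl i := by
    intro x
    have := hlab x
    rcases hh : φ (z x) with i | a
    · exact ⟨i, rfl⟩
    · rw [hh] at this
      exact absurd this (by simp)
  choose τ hτ using hτ
  have hthr : IsThr (fun a b => (tgraph code y φ).Adj (z a) (z b)) τ := by
    intro a b
    change (tgraph code y φ).Adj (z a) (z b) ↔ _
    rw [tgraph_adj, hτ a, hτ b]
    change z a ≠ z b ∧ t < (τ a : ℕ) + (τ b : ℕ) ↔ _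
    rw [hinj.ne_iff]
  have h2' : ∀ i : Fin (t + 1), ∃ x y, x ≠ y ∧ τ x = i ∧ τ y = i := by
    intro i
    obtain ⟨x, y, hxy, hx, hy⟩ := h2 i
    rw [hτ x] at hx
    rw [hτ y] at hy
    exact ⟨x, y, hxy, Sum.inl_injective hx, Sum.inl_injective hy⟩
  obtain ⟨j, hj, hk⟩ := findTuple_spec hthr h2'
  exact ⟨j, hj, fun k => by rw [hτ, hk k]⟩

theorem zg_Pr_forall_inj {ι X : Type*} [Fintype ι] [DecidableEq ι] [Fintype X] {n : ℕ}
    (e : Fin n → ι) (he : Function.Injective e) (hX : 0 < Fintype.card X) (Q : X → Prop) :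
    Pr (fun f : ι → X => ∀ k, Q (f (e k))) = Pr Q ^ n := by
  classical
  set s : Finset ι := Finset.univ.map ⟨e, he⟩ with hs
  have hcard : s.card = n := by rw [hs, Finset.card_map, Finset.card_univ, Fintype.card_fin]
  have hX' : (Fintype.card X : ℝ) ≠ 0 := by exact_mod_cast hX.ne'
  have h1 : (Finset.univ.filter fun f : ι → X => ∀ k, Q (f (e k))) =
      Fintype.piFinset fun j => if j ∈ s then Finset.univ.filter Q else Finset.univ := by
    ext f
    simp only [Finset.mem_filter, Finset.mem_univ, true_and, Fintype.mem_piFinset]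
    constructor
    · intro h j
      by_cases hj : j ∈ s
      · rw [if_pos hj]
        rw [hs, Finset.mem_map] at hj
        obtain ⟨k, -, rfl⟩ := hj
        exact Finset.mem_filter.2 ⟨Finset.mem_univ _, h k⟩
      · rw [if_neg hj]
        exact Finset.mem_univ _
    · intro h k
      have hk : e k ∈ s := by
        rw [hs, Finset.mem_map]
        exact ⟨k, Finset.mem_univ _, rfl⟩
      have := h (e k)
      rw [if_pos hk] at this
      exact (Finset.mem_filter.1 this).2
  rw [Pr_eq_filter, Pr_eq_filter, h1, Fintype.card_piFinset, Fintype.card_fun]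
  push_cast
  have h2 : (Fintype.card X : ℝ) ^ Fintype.card ι = ∏ _j : ι, (Fintype.card X : ℝ) := by
    rw [Finset.prod_const, Finset.card_univ]
  rw [h2, ← Finset.prod_div_distrib]
  have h3 : ∀ j : ι, (((if j ∈ s then Finset.univ.filter Q else Finset.univ).card : ℕ) : ℝ) /
      (Fintype.card X : ℝ) =
      if j ∈ s then ((Finset.univ.filter Q).card : ℝ) / (Fintype.card X : ℝ) else 1 := by
    intro j
    by_cases hj : j ∈ s
    · rw [if_pos hj, if_pos hj]
    · rw [if_neg hj, if_neg hj, Finset.card_univ, div_self hX']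
  rw [Finset.prod_congr rfl (fun j _ => h3 j), Finset.prod_ite_mem, Finset.univ_inter,
    Finset.prod_const, hcard]

theorem zg_pow_bound {r : ℕ} (hr : 0 < r) {q : ℝ} (hq0 : 0 ≤ q) (hq : q ≤ 1 - 1 / (r : ℝ))
    (m : ℕ) : q ^ (r * m) ≤ (1 / 2) ^ m := by
  have hr' : (0 : ℝ) < r := by exact_mod_cast hr
  have h1 : q ≤ Real.exp (-(1 / (r : ℝ))) := hq.trans (Real.one_sub_le_exp_neg _)
  have h2 : q ^ r ≤ 1 / 2 := by
    calc q ^ r ≤ Real.exp (-(1 / (r : ℝ))) ^ r := pow_le_pow_left₀ hq0 h1 r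
      _ = Real.exp (-1) := by
        rw [← Real.exp_nat_mul]
        congr 1
        field_simp
      _ ≤ 1 / 2 := by
        rw [Real.exp_neg, inv_eq_one_div]
        have := Real.exp_one_gt_d9
        exact one_div_le_one_div_of_le (by norm_num) (by linarith)
  rw [pow_mul]
  exact pow_le_pow_left₀ (pow_nonneg hq0 r) h2 m

theorem zg_type_bound {r : ℕ} (hr : 0 < r) (φ : Fin N → Typ t L) (hN : 0 < N)
    (i : Fin (t + 1)) (hφ : N ≤ r * Nat.card {v // φ v = .inl i}) (m : ℕ)
    (e : Fin (r * m) → Fin T) (he : Function.Injective e) :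
    Pr (fun z : Fin T → Fin N => ∀ k, φ (z (e k)) ≠ .inl i) ≤ (1 / 2) ^ m := by
  have hr' : (0 : ℝ) < r := by exact_mod_cast hr
  have hN' : (0 : ℝ) < N := by exact_mod_cast hN
  have : Nonempty (Fin N) := ⟨⟨0, hN⟩⟩
  rw [zg_Pr_forall_inj e he (by rw [Fintype.card_fin]; exact hN) (fun v => φ v ≠ .inl i)]
  refine zg_pow_bound hr (Pr_nonneg _) ?_ m
  have hc := Pr_compl (fun v : Fin N => φ v = .inl i)
  have hp : 1 / (r : ℝ) ≤ Pr (fun v : Fin N => φ v = .inl i) := by
    unfold Pr
    rw [Fintype.card_fin, div_le_div_iff₀ hr' hN']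
    have : (N : ℝ) ≤ (r : ℝ) * (Nat.card {v // φ v = Sum.inl i} : ℝ) := by exact_mod_cast hφ
    linarith
  have hd : Pr (fun v : Fin N => φ v ≠ .inl i) = Pr (fun v : Fin N => ¬ φ v = .inl i) := rfl
  rw [hd]
  linarith

theorem Pr_not_zgood {r : ℕ} (hr : 0 < r) (hT : T = 2 * (r * (t + 8))) (φ : Fin N → Typ t L)
    (hN : 0 < N) (hφ : ∀ i : Fin (t + 1), N ≤ r * Nat.card {v // φ v = .inl i})
    (hlab : 20 * (T * Nat.card {v // (φ v).isRight = true}) ≤ N) (hNT : 20 * T ^ 2 ≤ N) :
    Pr (fun z : Fin T → Fin N => ¬ ZGood φ z) ≤ 3 / 20 := by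
  classical
  have hN' : (0 : ℝ) < N := by exact_mod_cast hN
  have : Nonempty (Fin N) := ⟨⟨0, hN⟩⟩
  have hT' : T = r * (t + 8) + r * (t + 8) := by rw [hT]; ring
  subst hT'
  clear hT
  set n : ℕ := r * (t + 8) with hn
  -- the four events
  have hcover : ∀ z : Fin (n + n) → Fin N, ¬ ZGood φ z →
      ((∃ p ∈ (Finset.univ : Finset (Fin (n + n) × Fin (n + n))).filter (fun p => p.1 ≠ p.2),
          z p.1 = z p.2) ∨
        ∃ x ∈ (Finset.univ : Finset (Fin (n + n))), (φ (z x)).isRight = true) ∨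
      ((∃ i ∈ (Finset.univ : Finset (Fin (t + 1))), ∀ k : Fin n,
          φ (z (Fin.castAdd n k)) ≠ .inl i) ∨
        ∃ i ∈ (Finset.univ : Finset (Fin (t + 1))), ∀ k : Fin n,
          φ (z (Fin.natAdd n k)) ≠ .inl i) := by
    intro z hz
    by_contra hcon
    rw [not_or, not_or, not_or] at hcon
    obtain ⟨⟨ha, hb⟩, hc, hd⟩ := hcon
    apply hz
    refine ⟨?_, ?_, ?_⟩
    · intro x y hxy
      by_contra hne
      exact ha ⟨(x, y), Finset.mem_filter.2 ⟨Finset.mem_univ _, hne⟩, hxy⟩
    · intro x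
      by_contra hne
      exact hb ⟨x, Finset.mem_univ _, by simpa using hne⟩
    · intro i
      have h1 : ∃ k : Fin n, φ (z (Fin.castAdd n k)) = .inl i := by
        by_contra hh
        exact hc ⟨i, Finset.mem_univ _, fun k hk => hh ⟨k, hk⟩⟩
      have h2 : ∃ k : Fin n, φ (z (Fin.natAdd n k)) = .inl i := by
        by_contra hh
        exact hd ⟨i, Finset.mem_univ _, fun k hk => hh ⟨k, hk⟩⟩
      obtain ⟨k1, hk1⟩ := h1
      obtain ⟨k2, hk2⟩ := h2
      refine ⟨Fin.castAdd n k1, Fin.natAdd n k2, ?_, hk1, hk2⟩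
      intro he
      have := congrArg Fin.val he
      rw [Fin.val_castAdd, Fin.val_natAdd] at this
      have := k1.2
      omega
  have hA : Pr (fun z : Fin (n + n) → Fin N =>
      ∃ p ∈ (Finset.univ : Finset (Fin (n + n) × Fin (n + n))).filter (fun p => p.1 ≠ p.2),
          z p.1 = z p.2) ≤ 1 / 20 := by
    refine (Pr_exists_le _ (fun (p : Fin (n + n) × Fin (n + n)) (z : Fin (n + n) → Fin N) =>
      z p.1 = z p.2)).trans ?_
    have hone : ∀ p ∈ (Finset.univ : Finset (Fin (n + n) × Fin (n + n))).filter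
        (fun p => p.1 ≠ p.2), Pr (fun z : Fin (n + n) → Fin N => z p.1 = z p.2) = 1 / N := by
      intro p hp
      rw [Pr_two (Finset.mem_filter.1 hp).2 (fun a b : Fin N => a = b)]
      unfold Pr
      have hc : Nat.card {s : Fin N × Fin N // s.1 = s.2} = N := by
        have e : {s : Fin N × Fin N // s.1 = s.2} ≃ Fin N :=
          { toFun := fun s => s.1.1
            invFun := fun v => ⟨(v, v), rfl⟩
            left_inv := by rintro ⟨⟨a, b⟩, h⟩; simp only at h; subst h; rfl
            right_inv := fun v => rfl }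
        rw [Nat.card_congr e, Nat.card_eq_fintype_card, Fintype.card_fin]
      rw [hc, Fintype.card_prod, Fintype.card_fin]
      push_cast
      field_simp
    rw [Finset.sum_congr rfl hone, Finset.sum_const, nsmul_eq_mul]
    have hle : (((Finset.univ : Finset (Fin (n + n) × Fin (n + n))).filter
        (fun p => p.1 ≠ p.2)).card : ℝ) ≤ ((n + n : ℕ) : ℝ) ^ 2 := by
      have : ((Finset.univ : Finset (Fin (n + n) × Fin (n + n))).filter
        (fun p => p.1 ≠ p.2)).card ≤ (n + n) ^ 2 := by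
        refine (Finset.card_filter_le _ _).trans (le_of_eq ?_)
        rw [Finset.card_univ, Fintype.card_prod, Fintype.card_fin]
        ring
      exact_mod_cast this
    have h20 : (20 : ℝ) * ((n + n : ℕ) : ℝ) ^ 2 ≤ N := by exact_mod_cast hNT
    rw [mul_one_div, div_le_div_iff₀ hN' (by norm_num)]
    linarith
  have hB : Pr (fun z : Fin (n + n) → Fin N =>
      ∃ x ∈ (Finset.univ : Finset (Fin (n + n))), (φ (z x)).isRight = true) ≤ 1 / 20 := by
    refine (Pr_exists_le _ (fun x (z : Fin (n + n) → Fin N) => (φ (z x)).isRight = true)).trans ?_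
    have hone : ∀ x ∈ (Finset.univ : Finset (Fin (n + n))),
        Pr (fun z : Fin (n + n) → Fin N => (φ (z x)).isRight = true) =
          (Nat.card {v // (φ v).isRight = true} : ℝ) / N := by
      intro x _
      rw [Pr_coord x (fun v : Fin N => (φ v).isRight = true)]
      unfold Pr
      rw [Fintype.card_fin]
    rw [Finset.sum_congr rfl hone, Finset.sum_const, nsmul_eq_mul, Finset.card_univ,
      Fintype.card_fin]
    have h20 : (20 : ℝ) * (((n + n : ℕ) : ℝ) * (Nat.card {v // (φ v).isRight = true} : ℝ)) ≤ N := by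
      exact_mod_cast hlab
    rw [← mul_div_assoc, div_le_div_iff₀ hN' (by norm_num)]
    linarith
  have hpow : ((t : ℝ) + 1) * (1 / 2) ^ (t + 8) ≤ 1 / 256 := by
    have h1 : ((t : ℝ) + 1) ≤ 2 ^ t := by
      have : t + 1 ≤ 2 ^ t := Nat.lt_two_pow_self
      exact_mod_cast this
    calc ((t : ℝ) + 1) * (1 / 2) ^ (t + 8) ≤ 2 ^ t * (1 / 2) ^ (t + 8) := by gcongr
      _ = (2 * (1 / 2)) ^ t * (1 / 2) ^ 8 := by rw [mul_pow, pow_add]; ring
      _ = 1 / 256 := by norm_num
  have hC : ∀ e : Fin n → Fin (n + n), Function.Injective e → Pr (fun z : Fin (n + n) → Fin N =>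
      ∃ i ∈ (Finset.univ : Finset (Fin (t + 1))), ∀ k : Fin n, φ (z (e k)) ≠ .inl i) ≤
        1 / 256 := by
    intro e he
    refine (Pr_exists_le _ (fun i (z : Fin (n + n) → Fin N) => ∀ k : Fin n,
      φ (z (e k)) ≠ .inl i)).trans ?_
    refine le_trans ?_ hpow
    calc ∑ i : Fin (t + 1), Pr (fun z : Fin (n + n) → Fin N => ∀ k : Fin n, φ (z (e k)) ≠ .inl i)
        ≤ ∑ _i : Fin (t + 1), ((1 : ℝ) / 2) ^ (t + 8) :=
          Finset.sum_le_sum fun i _ => zg_type_bound hr φ hN i (hφ i) (t + 8) e he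
      _ = ((t : ℝ) + 1) * (1 / 2) ^ (t + 8) := by
          rw [Finset.sum_const, Finset.card_univ, Fintype.card_fin, nsmul_eq_mul]
          push_cast
          ring
  have h1 := hC (Fin.castAdd n) (Fin.castAdd_injective n n)
  have h2 := hC (Fin.natAdd n) (Fin.natAdd_injective n n)
  refine (Pr_mono hcover).trans ?_
  refine (Pr_or_le _ _).trans ?_
  refine (add_le_add (Pr_or_le _ _) (Pr_or_le _ _)).trans ?_
  linarith

end Pool.Agent.Lib_MP_cc9a35_rb
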